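import Pool.Agent.Lib.H38H.IN.G3

set_option autoImplicit false

namespace Pool.Agent.H38H.IN

open Classical

variable {V : Type} [Fintype V]

/-! Chunk INC1 (M): adding a path segment. `q 0, ..., q m` are distinct vertices, consecutive ones adjacent.
seg_grow: if `q 0 ∈ X` and `q t ∉ X` for `0 < t ≤ k` then adding `q 1, ..., q k` one by one (ex_insert, each new vertex `q t` is adjacent to
`q (t-1)`, already present) does not decrease the excess. seg_close: add `q 1, ..., q (m-2)` (seg_grow) and then `q (m-1)`, which is adjacent to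
`q (m-2)` and to `q m ∈ X`, two different vertices present (for `m = 2`: `q 1` is adjacent to `q 0` and `q 2`): excess at least + 1; `q 0`, `q m` are in `X`.
seg_join: add `q 1, ..., q (m-1)` to `X` (seg_grow), the result `X'` is disjoint from `Y` and `q (m-1) ∈ X'` is adjacent to `q m ∈ Y`: ex_disj_adj. -/

private theorem inc1_dg {G : SimpleGraph V} {u z : V} {W : Finset V} (hu : u ∈ W) (h : G.Adj z u) :
    1 ≤ dg G z W := by
  unfold dg
  exact Finset.card_pos.mpr ⟨u, Finset.mem_filter.mpr ⟨hu, h⟩⟩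

private theorem inc1_succ {X : Finset V} (q : ℕ → V) (k : ℕ) :
    X ∪ (Finset.range (k + 1 + 1)).image q = insert (q (k + 1)) (X ∪ (Finset.range (k + 1)).image q) := by
  rw [Finset.range_add_one, Finset.image_insert, Finset.union_insert]

private theorem inc1_not {m k : ℕ} (q : ℕ → V)
    (hinj : ∀ t t', t ≤ m → t' ≤ m → q t = q t' → t = t') {X : Finset V} (hk : k + 1 ≤ m)
    (hout : q (k + 1) ∉ X) : q (k + 1) ∉ X ∪ (Finset.range (k + 1)).image q := by
  intro hh
  rcases Finset.mem_union.mp hh with hh | hh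
  · exact hout hh
  · obtain ⟨t, ht, he⟩ := Finset.mem_image.mp hh
    rw [Finset.mem_range] at ht
    have := hinj t (k + 1) (by omega) hk he
    omega

private theorem inc1_mem {X : Finset V} (q : ℕ → V) (k : ℕ) :
    q k ∈ X ∪ (Finset.range (k + 1)).image q :=
  Finset.mem_union_right _ (Finset.mem_image.mpr ⟨k, Finset.mem_range.mpr (by omega), rfl⟩)

theorem seg_grow (G : SimpleGraph V) {m k : ℕ} (q : ℕ → V) (hadj : ∀ t, t < m → G.Adj (q t) (q (t + 1)))
    (hinj : ∀ t t', t ≤ m → t' ≤ m → q t = q t' → t = t') {X : Finset V} (h0 : q 0 ∈ X) (hk : k ≤ m)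
    (hout : ∀ t, 0 < t → t ≤ k → q t ∉ X) : ex G X ≤ ex G (X ∪ (Finset.range (k + 1)).image q) := by
  induction k with
  | zero =>
    have h1 : X ∪ (Finset.range (0 + 1)).image q = X := by
      apply Finset.union_eq_left.mpr
      intro x hx
      obtain ⟨t, ht, rfl⟩ := Finset.mem_image.mp hx
      rw [Finset.mem_range] at ht
      have : t = 0 := by omega
      rw [this]
      exact h0
    rw [h1]
  | succ k ih =>
    have h1 := ih (by omega) (fun t ht htk => hout t ht (by omega))
    have h2 := inc1_not q hinj hk (hout (k + 1) (by omega) le_rfl)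
    have h3 := ex_insert G _ _ h2
    have h4 : 1 ≤ dg G (q (k + 1)) (X ∪ (Finset.range (k + 1)).image q) :=
      inc1_dg (inc1_mem q k) (hadj k (by omega)).symm
    rw [inc1_succ]
    omega

theorem seg_close (G : SimpleGraph V) {m : ℕ} (q : ℕ → V) (hadj : ∀ t, t < m → G.Adj (q t) (q (t + 1)))
    (hinj : ∀ t t', t ≤ m → t' ≤ m → q t = q t' → t = t') {X : Finset V} (h0 : q 0 ∈ X) (hm : q m ∈ X)
    (h2 : 2 ≤ m) (hout : ∀ t, 0 < t → t < m → q t ∉ X) :
    ex G X + 1 ≤ ex G (X ∪ (Finset.range (m + 1)).image q) := by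
  obtain ⟨k, rfl⟩ : ∃ k, m = k + 2 := ⟨m - 2, by omega⟩
  have h1 := seg_grow G (k := k) q hadj hinj h0 (by omega) (fun t ht htk => hout t ht (by omega))
  have h3 := inc1_not q hinj (k := k) (by omega) (hout (k + 1) (by omega) (by omega))
  have h4 := ex_insert G _ _ h3
  have h5 : 2 ≤ dg G (q (k + 1)) (X ∪ (Finset.range (k + 1)).image q) := by
    apply two_le_dg G (inc1_mem q k) (Finset.mem_union_left _ hm) (hadj k (by omega)).symm
      (hadj (k + 1) (by omega))
    intro hh
    have := hinj k (k + 2) (by omega) le_rfl hh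
    omega
  have h6 : X ∪ (Finset.range (k + 2 + 1)).image q =
      insert (q (k + 1)) (X ∪ (Finset.range (k + 1)).image q) := by
    rw [inc1_succ q (k + 1), inc1_succ q k]
    exact Finset.insert_eq_of_mem (Finset.mem_insert_of_mem (Finset.mem_union_left _ hm))
  rw [h6]
  omega

theorem seg_join (G : SimpleGraph V) {m : ℕ} (q : ℕ → V) (hadj : ∀ t, t < m → G.Adj (q t) (q (t + 1)))
    (hinj : ∀ t t', t ≤ m → t' ≤ m → q t = q t' → t = t') {X Y : Finset V} (hXY : Disjoint X Y)
    (h0 : q 0 ∈ X) (hm : q m ∈ Y) (hout : ∀ t, 0 < t → t < m → q t ∉ X ∧ q t ∉ Y) :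
    ex G X + ex G Y + 1 ≤ ex G (X ∪ (Finset.range (m + 1)).image q ∪ Y) := by
  have hm0 : m ≠ 0 := by
    rintro rfl
    exact Finset.disjoint_left.mp hXY h0 hm
  obtain ⟨k, rfl⟩ : ∃ k, m = k + 1 := ⟨m - 1, by omega⟩
  have h1 := seg_grow G (k := k) q hadj hinj h0 (by omega) (fun t ht htk => (hout t ht (by omega)).1)
  have h2 : Disjoint (X ∪ (Finset.range (k + 1)).image q) Y := by
    rw [Finset.disjoint_left]
    intro x hx hxY
    rcases Finset.mem_union.mp hx with hx | hx
    · exact Finset.disjoint_left.mp hXY hx hxY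
    · obtain ⟨t, ht, rfl⟩ := Finset.mem_image.mp hx
      rw [Finset.mem_range] at ht
      rcases Nat.eq_zero_or_pos t with h | h
      · rw [h] at hxY
        exact Finset.disjoint_left.mp hXY h0 hxY
      · exact (hout t h ht).2 hxY
  have h3 := ex_disj_adj G h2 (inc1_mem q k) hm (hadj k (by omega))
  have h4 : X ∪ (Finset.range (k + 1 + 1)).image q ∪ Y = X ∪ (Finset.range (k + 1)).image q ∪ Y := by
    rw [inc1_succ, Finset.insert_union]
    exact Finset.insert_eq_of_mem (Finset.mem_union_right _ hm)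
  rw [h4]
  omega

end Pool.Agent.H38H.IN
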