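import Pool.Agent.Lib.H38H.IN.C1

set_option autoImplicit false

namespace Pool.Agent.H38H.IN

open Classical

variable {V : Type} [Fintype V]

/-- a connected set containing `w`, with a cycle or a mark, meeting `S` in few vertices -/
def Chg (G : SimpleGraph V) (E : Finset (Sym2 V)) (S : Finset V) (k c : ℕ) (w : V) (Ω : Finset V) : Prop :=
  Con G Ω ∧ w ∈ Ω ∧ 0 ≤ ex G Ω + mIn E Ω ∧ Ω.card ≤ k ∧ (Ω ∩ S).card ≤ c

/-! Chunk INC2 (M): two charges on the same path are close. `q 0, ..., q (s-1)` is a path, `S` its set of vertices,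
`i < j < s`, `Ω`, `Ω'` charges at `q i` and `q j`. Claim `j < i + 2c`. Suppose `j ≥ i + 2c`.
Case `Ω`, `Ω'` disjoint: let `t1` be the largest `t ∈ [i,j]` with `q t ∈ Ω` (`t1 < j` as `q j ∈ Ω'`), and `t2` the smallest `t ∈ (t1, j]` with
`q t ∈ Ω'`. seg_join for the path `t ↦ q (t1 + t)`, `m = t2 - t1`: with `U = Ω ∪ segment ∪ Ω'`, `ex U ≥ ex Ω + ex Ω' + 1`,
`mIn U ≥ mIn (Ω ∪ Ω') ≥ mIn Ω + mIn Ω'`, so `ex U + mIn U ≥ 1`, but `|U| ≤ 2k + s ≤ κ`: contradiction to `Nice`.
Case they meet: `X = Ω ∪ Ω'` is connected, `ex X + mIn X ≥ ex Ω + mIn Ω ≥ 0` (ex_mono, mIn_mono), and `X` contains at most `2c` of the `j - i + 1 > 2c` vertices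
`q i, ..., q j`. Take `t` with `q t ∉ X`, `t1 < t` the largest with `q t1 ∈ X`, `t2 > t` the smallest with `q t2 ∈ X` (both exist as
`q i, q j ∈ X`); seg_close gives a set `U` with `ex U + mIn U ≥ 1`, `|U| ≤ 2k + s`: contradiction. -/

private theorem inc2_last (P : ℕ → Prop) {a b : ℕ} (hab : a ≤ b) (ha : P a) :
    ∃ t, a ≤ t ∧ t ≤ b ∧ P t ∧ ∀ u, t < u → u ≤ b → ¬ P u :=
  ⟨Nat.findGreatest P b, Nat.le_findGreatest hab ha, Nat.findGreatest_le b, Nat.findGreatest_spec hab ha,
    fun _ h1 h2 => Nat.findGreatest_is_greatest h1 h2⟩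

private theorem inc2_first (P : ℕ → Prop) {a b : ℕ} (hab : a < b) (hb : P b) :
    ∃ t, a < t ∧ t ≤ b ∧ P t ∧ ∀ u, a < u → u < t → ¬ P u := by
  have hex : ∃ t, a < t ∧ P t := ⟨b, hab, hb⟩
  exact ⟨Nat.find hex, (Nat.find_spec hex).1, Nat.find_min' hex ⟨hab, hb⟩, (Nat.find_spec hex).2,
    fun u h1 h2 h3 => Nat.find_min hex h2 ⟨h1, h3⟩⟩

private theorem inc2_nice (G : SimpleGraph V) {E : Finset (Sym2 V)} {κ : ℕ} (hN : Nice κ G E) {U : Finset V}
    (hU : U.card ≤ κ) : ex G U + mIn E U ≤ 0 := by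
  have h := hN U hU
  unfold ex
  omega

private theorem inc2_img (q : ℕ → V) (a m : ℕ) :
    ((Finset.range (m + 1)).image (fun t => q (a + t))).card ≤ m + 1 := by
  have h := Finset.card_image_le (s := Finset.range (m + 1)) (f := fun t => q (a + t))
  rwa [Finset.card_range] at h

theorem two_chg (G : SimpleGraph V) {E : Finset (Sym2 V)} {κ : ℕ} (hN : Nice κ G E) {s k c : ℕ} (q : ℕ → V)
    (hadj : ∀ t, t + 1 < s → G.Adj (q t) (q (t + 1)))
    (hinj : ∀ t t', t < s → t' < s → q t = q t' → t = t') (hκ : 2 * k + s ≤ κ) {i j : ℕ} (hij : i < j)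
    (hj : j < s) {Ω Ω' : Finset V} (h : Chg G E ((Finset.range s).image q) k c (q i) Ω)
    (h' : Chg G E ((Finset.range s).image q) k c (q j) Ω') : j < i + 2 * c := by
  by_contra hcon
  obtain ⟨hc1, hw1, he1, hk1, hs1⟩ := h
  obtain ⟨hc2, hw2, he2, hk2, hs2⟩ := h'
  by_cases hd : Disjoint Ω Ω'
  · obtain ⟨t1, ht1, ht1', hP1, hmax⟩ := inc2_last (fun t => q t ∈ Ω) hij.le hw1
    have hlt : t1 < j := by
      rcases Nat.lt_or_ge t1 j with h | h
      · exact h
      · have : t1 = j := by omega
        rw [this] at hP1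
        exact absurd hw2 (Finset.disjoint_left.mp hd hP1)
    obtain ⟨t2, ht2, ht2', hP2, hmin⟩ := inc2_first (fun t => q t ∈ Ω') hlt hw2
    obtain ⟨m, hm⟩ : ∃ m, m = t2 - t1 := ⟨_, rfl⟩
    have key := seg_join G (m := m) (fun t => q (t1 + t))
      (fun t ht => hadj (t1 + t) (by omega))
      (fun t t' ht ht' htt => by
        have := hinj (t1 + t) (t1 + t') (by omega) (by omega) htt
        omega) hd (X := Ω) (Y := Ω') hP1 (by
          have e : t1 + m = t2 := by omega
          change q (t1 + m) ∈ Ω'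
          rw [e]
          exact hP2)
      (fun t ht ht' => ⟨hmax (t1 + t) (by omega) (by omega), hmin (t1 + t) (by omega) (by omega)⟩)
    obtain ⟨U, hU⟩ : ∃ U, U = Ω ∪ (Finset.range (m + 1)).image (fun t => q (t1 + t)) ∪ Ω' := ⟨_, rfl⟩
    rw [← hU] at key
    have hcard : U.card ≤ κ := by
      have a1 := inc2_img q t1 m
      have a2 := Finset.card_union_le (Ω ∪ (Finset.range (m + 1)).image (fun t => q (t1 + t))) Ω'
      have a3 := Finset.card_union_le Ω ((Finset.range (m + 1)).image (fun t => q (t1 + t)))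
      rw [← hU] at a2
      omega
    have hn := inc2_nice G hN hcard
    have hsub : Ω ∪ Ω' ⊆ U := by
      rw [hU]
      intro x hx
      rw [Finset.mem_union] at hx
      rw [Finset.mem_union, Finset.mem_union]
      rcases hx with hx | hx
      · exact Or.inl (Or.inl hx)
      · exact Or.inr hx
    have hm1 := mIn_mono E hsub
    have hm2 := mIn_disj E hd
    omega
  · obtain ⟨x, hx, hx'⟩ := Finset.not_disjoint_iff.mp hd
    have hconX := con_union G hc1 hc2 hx hx'
    obtain ⟨X, hX⟩ : ∃ X, X = Ω ∪ Ω' := ⟨_, rfl⟩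
    rw [← hX] at hconX
    have hsub1 : Ω ⊆ X := by rw [hX]; exact Finset.subset_union_left
    have hsub2 : Ω' ⊆ X := by rw [hX]; exact Finset.subset_union_right
    have he3 := ex_mono G hsub1 ⟨_, hw1⟩ hconX
    have hm3 := mIn_mono E hsub1
    have hXcard : X.card ≤ 2 * k := by
      have := Finset.card_union_le Ω Ω'
      rw [← hX] at this
      omega
    -- a vertex outside
    have hout : ∃ t, i ≤ t ∧ t ≤ j ∧ q t ∉ X := by
      by_contra hno
      push Not at hno
      have h1 : (Finset.Icc i j).image q ⊆ (Ω ∩ (Finset.range s).image q) ∪ (Ω' ∩ (Finset.range s).image q) := by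
        intro y hy
        obtain ⟨t, ht, rfl⟩ := Finset.mem_image.mp hy
        rw [Finset.mem_Icc] at ht
        have h2 := hno t ht.1 ht.2
        have h3 : q t ∈ (Finset.range s).image q :=
          Finset.mem_image.mpr ⟨t, Finset.mem_range.mpr (by omega), rfl⟩
        rw [hX, Finset.mem_union] at h2
        rw [Finset.mem_union, Finset.mem_inter, Finset.mem_inter]
        rcases h2 with h2 | h2
        · exact Or.inl ⟨h2, h3⟩
        · exact Or.inr ⟨h2, h3⟩
      have h2 := (Finset.card_le_card h1).trans (Finset.card_union_le _ _)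
      rw [Finset.card_image_of_injOn, Nat.card_Icc] at h2
      · omega
      · intro t ht t' ht' htt
        rw [Finset.mem_coe, Finset.mem_Icc] at ht ht'
        exact hinj t t' (by omega) (by omega) htt
    obtain ⟨t, hti, htj, htX⟩ := hout
    obtain ⟨t1, ht1, ht1', hP1, hmax⟩ := inc2_last (fun u => q u ∈ X) (a := i) (b := t) hti (hsub1 hw1)
    have hlt1 : t1 < t := by
      rcases Nat.lt_or_ge t1 t with h | h
      · exact h
      · have e : t1 = t := by omega
        rw [e] at hP1
        exact absurd hP1 htX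
    have hltj : t < j := by
      rcases Nat.lt_or_ge t j with h | h
      · exact h
      · have e : t = j := by omega
        rw [e] at htX
        exact absurd (hsub2 hw2) htX
    obtain ⟨t2, ht2, ht2', hP2, hmin⟩ := inc2_first (fun u => q u ∈ X) hltj (hsub2 hw2)
    obtain ⟨m, hm⟩ : ∃ m, m = t2 - t1 := ⟨_, rfl⟩
    have key := seg_close G (m := m) (fun u => q (t1 + u))
      (fun u hu => hadj (t1 + u) (by omega))
      (fun u u' hu hu' huu => by
        have := hinj (t1 + u) (t1 + u') (by omega) (by omega) huu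
        omega) (X := X) hP1 (by
          have e : t1 + m = t2 := by omega
          change q (t1 + m) ∈ X
          rw [e]
          exact hP2) (by omega)
      (fun u hu hu' => by
        rcases lt_trichotomy (t1 + u) t with hlt | hlt | hlt
        · exact hmax (t1 + u) (by omega) (by omega)
        · change q (t1 + u) ∉ X
          rw [hlt]
          exact htX
        · exact hmin (t1 + u) (by omega) (by omega))
    obtain ⟨U, hU⟩ : ∃ U, U = X ∪ (Finset.range (m + 1)).image (fun u => q (t1 + u)) := ⟨_, rfl⟩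
    rw [← hU] at key
    have hcard : U.card ≤ κ := by
      have a1 := inc2_img q t1 m
      have a3 := Finset.card_union_le X ((Finset.range (m + 1)).image (fun u => q (t1 + u)))
      rw [← hU] at a3
      omega
    have hn := inc2_nice G hN hcard
    have hm4 := mIn_mono E (show X ⊆ U by rw [hU]; exact Finset.subset_union_left)
    omega

end Pool.Agent.H38H.IN
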