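import Pool.Agent.Lib.H38H.IN.G2

set_option autoImplicit false

namespace Pool.Agent.H38H.IN

open Classical

variable {V : Type} [Fintype V]

/-! Chunk ING4 (S/M): balls `Lev G Ω n` and exact distances `Exa G Ω n z` (Geo.lean).
exa_exists: the least `m` with `z ∈ Lev m`. exa_pred: `z ∈ Lev (n+1)`, `z ∉ Lev n`, so `z` has a neighbour `y ∈ Lev n`; if
`y ∈ Lev m`, `m < n` then `z ∈ Lev (m+1)`, a contradiction. con_lev: if some vertex of `W` is not in `Lev (n + |W|)`:
the sets `W ∩ Lev (n+j)` are strictly increasing in `j` as long as they are not `W` (Con), so their cardinality is at least `j + 1`.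
lev_card: the second set in the definition is the union over `y ∈ Lev n` of the neighbours of `y` (3 each,
`G.neighborSet y` has ncard 3), so the cardinality is multiplied by at most 4. -/

private theorem ing4_succ (G : SimpleGraph V) (Ω : Finset V) (n : ℕ) (z : V) :
    z ∈ Lev G Ω (n + 1) ↔ z ∈ Lev G Ω n ∨ ∃ y ∈ Lev G Ω n, G.Adj y z := by
  rw [Lev, Finset.mem_union, Finset.mem_filter]
  simp

theorem lev_mono (G : SimpleGraph V) (Ω : Finset V) {m n : ℕ} (h : m ≤ n) : Lev G Ω m ⊆ Lev G Ω n := by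
  induction n, h using Nat.le_induction with
  | base => exact Finset.Subset.refl _
  | succ k hk ih => exact fun z hz => (ing4_succ G Ω k z).mpr (Or.inl (ih hz))

theorem lev_adj (G : SimpleGraph V) {Ω : Finset V} {n : ℕ} {z y : V} (hz : z ∈ Lev G Ω n) (h : G.Adj z y) :
    y ∈ Lev G Ω (n + 1) := by
  exact (ing4_succ G Ω n y).mpr (Or.inr ⟨z, hz, h⟩)

theorem exa_exists (G : SimpleGraph V) {Ω : Finset V} {n : ℕ} {z : V} (hz : z ∈ Lev G Ω n) :
    ∃ m, m ≤ n ∧ Exa G Ω m z := by
  have hex : ∃ m, z ∈ Lev G Ω m := ⟨n, hz⟩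
  exact ⟨Nat.find hex, Nat.find_min' hex hz, Nat.find_spec hex, fun m hm => Nat.find_min hex hm⟩

theorem exa_zero (G : SimpleGraph V) {Ω : Finset V} {z : V} : Exa G Ω 0 z ↔ z ∈ Ω := by
  constructor
  · intro h
    exact h.1
  · intro h
    exact ⟨h, fun m hm => absurd hm (Nat.not_lt_zero m)⟩

theorem exa_unique (G : SimpleGraph V) {Ω : Finset V} {m n : ℕ} {z : V} (h : Exa G Ω m z) (h' : Exa G Ω n z) :
    m = n := by
  rcases lt_trichotomy m n with hmn | hmn | hmn
  · exact absurd h.1 (h'.2 m hmn)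
  · exact hmn
  · exact absurd h'.1 (h.2 n hmn)

theorem exa_le (G : SimpleGraph V) {Ω : Finset V} {m n : ℕ} {z : V} (h : Exa G Ω m z) (h' : z ∈ Lev G Ω n) :
    m ≤ n := by
  by_contra hcon
  exact h.2 n (by omega) h'

theorem exa_one (G : SimpleGraph V) {Ω : Finset V} {z y : V} (hz : z ∉ Ω) (hy : y ∈ Ω) (h : G.Adj y z) :
    Exa G Ω 1 z := by
  refine ⟨lev_adj G (n := 0) hy h, fun m hm => ?_⟩
  have hm0 : m = 0 := by omega
  rw [hm0]
  exact hz

theorem exa_pred (G : SimpleGraph V) {Ω : Finset V} {n : ℕ} {z : V} (hz : Exa G Ω (n + 1) z) :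
    ∃ y, Exa G Ω n y ∧ G.Adj y z := by
  rcases (ing4_succ G Ω n z).mp hz.1 with h | ⟨y, hy, hyz⟩
  · exact absurd h (hz.2 n (by omega))
  · refine ⟨y, ⟨hy, fun m hm hym => ?_⟩, hyz⟩
    exact hz.2 (m + 1) (by omega) (lev_adj G hym hyz)

theorem con_lev (G : SimpleGraph V) {Ω W : Finset V} {n : ℕ} (hc : Con G W) {w : V} (hw : w ∈ W)
    (hw' : w ∈ Lev G Ω n) {z : V} (hz : z ∈ W) : z ∈ Lev G Ω (n + W.card) := by
  have key : ∀ j : ℕ, W ⊆ Lev G Ω (n + j) ∨ j + 1 ≤ (W ∩ Lev G Ω (n + j)).card := by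
    intro j
    induction j with
    | zero =>
      refine Or.inr ?_
      have h1 : w ∈ W ∩ Lev G Ω (n + 0) := Finset.mem_inter.mpr ⟨hw, hw'⟩
      have h2 := Finset.card_pos.mpr ⟨w, h1⟩
      omega
    | succ j ih =>
      rcases ih with ih | ih
      · exact Or.inl (ih.trans (lev_mono G Ω (by omega)))
      · by_cases hW : W ⊆ Lev G Ω (n + j)
        · exact Or.inl (hW.trans (lev_mono G Ω (by omega)))
        · refine Or.inr ?_
          have h1 : W ∩ Lev G Ω (n + j) ≠ W := by
            intro h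
            exact hW (Finset.inter_eq_left.mp h)
          obtain ⟨u, hu, v, hv, hvn, huv⟩ := hc.2 (W ∩ Lev G Ω (n + j)) Finset.inter_subset_left
            (Finset.card_pos.mp (by omega)) h1
          have hu' := (Finset.mem_inter.mp hu).2
          have hv2 : v ∈ W ∩ Lev G Ω (n + (j + 1)) :=
            Finset.mem_inter.mpr ⟨hv, lev_adj G hu' huv⟩
          have h3 : insert v (W ∩ Lev G Ω (n + j)) ⊆ W ∩ Lev G Ω (n + (j + 1)) := by
            intro x hx
            rcases Finset.mem_insert.mp hx with rfl | hx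
            · exact hv2
            · rw [Finset.mem_inter] at hx
              exact Finset.mem_inter.mpr ⟨hx.1, lev_mono G Ω (by omega) hx.2⟩
          have h4 := Finset.card_le_card h3
          rw [Finset.card_insert_of_notMem hvn] at h4
          omega
  rcases key W.card with h | h
  · exact h hz
  · have h2 := Finset.card_le_card (Finset.inter_subset_left (s₁ := W) (s₂ := Lev G Ω (n + W.card)))
    omega

theorem lev_card (G : SimpleGraph V) (hG : Cubic G) (Ω : Finset V) (n : ℕ) :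
    (Lev G Ω n).card ≤ Ω.card * 4 ^ n := by
  have hnb : ∀ y : V, (Finset.univ.filter (fun z => G.Adj y z)).card = 3 := by
    intro y
    rw [← hG y, ← Set.ncard_coe_finset]
    congr 1
    ext v
    simp
  induction n with
  | zero => simp [Lev]
  | succ n ih =>
    have h1 : Lev G Ω (n + 1) ⊆ Lev G Ω n ∪ (Lev G Ω n).biUnion (fun y => Finset.univ.filter (fun z => G.Adj y z)) := by
      intro z hz
      rw [Finset.mem_union, Finset.mem_biUnion]
      rcases (ing4_succ G Ω n z).mp hz with h | ⟨y, hy, hyz⟩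
      · exact Or.inl h
      · exact Or.inr ⟨y, hy, Finset.mem_filter.mpr ⟨Finset.mem_univ _, hyz⟩⟩
    have h2 : ((Lev G Ω n).biUnion (fun y => Finset.univ.filter (fun z => G.Adj y z))).card ≤
        (Lev G Ω n).card * 3 := Finset.card_biUnion_le_card_mul _ _ _ (fun y _ => (hnb y).le)
    calc (Lev G Ω (n + 1)).card ≤ _ := Finset.card_le_card h1
      _ ≤ (Lev G Ω n).card + ((Lev G Ω n).biUnion (fun y => Finset.univ.filter (fun z => G.Adj y z))).card :=
          Finset.card_union_le _ _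
      _ ≤ (Lev G Ω n).card * 4 := by omega
      _ ≤ (Ω.card * 4 ^ n) * 4 := Nat.mul_le_mul_right _ ih
      _ = Ω.card * 4 ^ (n + 1) := by ring

end Pool.Agent.H38H.IN
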