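import Pool.Agent.Lib.H38H.IN.C2
import Pool.Agent.Lib.H38H.IN.G4

set_option autoImplicit false

namespace Pool.Agent.H38H.IN

open Classical

variable {V : Type} [Fintype V]

/-- `w` is near a cycle, a mark or a tiny cycle -/
def Spoil (G : SimpleGraph V) (E : Finset (Sym2 V)) (κ' : ℕ) (tc : Finset (Finset V)) (w : V) : Prop :=
  ∃ W : Finset V, Con G W ∧ W.card ≤ κ' ∧ w ∈ W ∧
    (0 ≤ ex G W ∨ (∃ e ∈ E, ∃ v ∈ e, v ∈ W) ∨ ∃ C ∈ tc, ¬ Disjoint C W)

/-- `w` and `w'` lie in a small connected set -/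
def Near (G : SimpleGraph V) (κ' : ℕ) (w w' : V) : Prop :=
  ∃ W : Finset V, Con G W ∧ W.card ≤ κ' ∧ w ∈ W ∧ w' ∈ W

/-! Chunk INC3 (M): few spoiled vertices on a path, few near vertices.
spoil_chg: if `0 ≤ ex W`: `Ω = W`. If `v ∈ e ∈ E`, `v ∈ W`, `e = s(v,v')`: `Ω = insert v' W` (`G.Adj v v'` as `e` is an edge), connected, `ex ≥ -1` (con_ex),
`mIn ≥ 1`, at most one more vertex. If `C` meets `W`: `Ω = W ∪ C`, `ex Ω ≥ ex C ≥ 0` (ex_mono, cyc_ex), `Ω ∩ S ⊆ W` as `C` does not meet `S`.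
spoil_card: the spoiled indices `i < s`; if there are any let `i0` be the smallest; by two_chg with `c = κ' + 1`, `k = κ' + s + 1` all lie in
`[i0, i0 + 2κ' + 2)`. near_card: by con_lev all near vertices lie in `Lev G {w} κ'`, lev_card. -/

theorem spoil_chg (G : SimpleGraph V) {E : Finset (Sym2 V)} (hE : Marks E) (hEG : ∀ e ∈ E, e ∈ G.edgeSet)
    {κ' s : ℕ} {tc : Finset (Finset V)} {S : Finset V}
    (htc : ∀ C ∈ tc, Cyc G C ∧ C.card ≤ s ∧ Disjoint C S) {w : V} (hw : Spoil G E κ' tc w) :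
    ∃ Ω, Chg G E S (κ' + s + 1) (κ' + 1) w Ω := by
  obtain ⟨W, hc, hcard, hwW, h⟩ := hw
  have hmem : ∀ X : Finset V, (X ∩ S).card ≤ X.card := fun X => Finset.card_le_card Finset.inter_subset_left
  rcases h with h | ⟨e, he, v, hve, hvW⟩ | ⟨C, hC, hCW⟩
  · refine ⟨W, hc, hwW, by omega, by omega, ?_⟩
    have := hmem W
    omega
  · obtain ⟨v', rfl⟩ := hve
    have hadj : G.Adj v v' := hEG _ he
    have hcon := con_insert G hc hvW hadj
    have h1 := con_ex G hcon
    have h2 := mIn_lt E (Finset.empty_subset (insert v' W)) he (Finset.mem_insert_of_mem hvW)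
      (Finset.mem_insert_self v' W) (Finset.notMem_empty v)
    have h3 := Finset.card_insert_le v' W
    refine ⟨insert v' W, hcon, Finset.mem_insert_of_mem hwW, by omega, by omega, ?_⟩
    have := hmem (insert v' W)
    omega
  · obtain ⟨hcyc, hCs, hCS⟩ := htc C hC
    obtain ⟨x, hx, hx'⟩ := Finset.not_disjoint_iff.mp hCW
    have hcon := con_union G hc hcyc.1 hx' hx
    have h1 := ex_mono G (Finset.subset_union_right (s₁ := W) (s₂ := C)) ⟨x, hx⟩ hcon
    have h2 := cyc_ex G hcyc.2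
    have h3 := Finset.card_union_le W C
    refine ⟨W ∪ C, hcon, Finset.mem_union_left _ hwW, by omega, by omega, ?_⟩
    have h4 : (W ∪ C) ∩ S ⊆ W := by
      intro y hy
      rw [Finset.mem_inter, Finset.mem_union] at hy
      rcases hy.1 with hy1 | hy1
      · exact hy1
      · exact absurd hy.2 (Finset.disjoint_left.mp hCS hy1)
    have := Finset.card_le_card h4
    omega

theorem spoil_card (G : SimpleGraph V) {E : Finset (Sym2 V)} (hE : Marks E) (hEG : ∀ e ∈ E, e ∈ G.edgeSet)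
    {κ κ' s : ℕ} (hN : Nice κ G E) (hκ : 2 * (κ' + s + 1) + s ≤ κ) {tc : Finset (Finset V)} (q : ℕ → V)
    (hadj : ∀ t, t + 1 < s → G.Adj (q t) (q (t + 1)))
    (hinj : ∀ t t', t < s → t' < s → q t = q t' → t = t')
    (htc : ∀ C ∈ tc, Cyc G C ∧ C.card ≤ s ∧ ∀ t, t < s → q t ∉ C) :
    ((Finset.range s).filter (fun t => Spoil G E κ' tc (q t))).card ≤ 2 * κ' + 2 := by
  obtain ⟨T, hT⟩ : ∃ T, T = (Finset.range s).filter (fun t => Spoil G E κ' tc (q t)) := ⟨_, rfl⟩
  rw [← hT]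
  rcases T.eq_empty_or_nonempty with h0 | hne
  · rw [h0, Finset.card_empty]
    omega
  · have htc' : ∀ C ∈ tc, Cyc G C ∧ C.card ≤ s ∧ Disjoint C ((Finset.range s).image q) := by
      intro C hC
      obtain ⟨h1, h2, h3⟩ := htc C hC
      refine ⟨h1, h2, ?_⟩
      rw [Finset.disjoint_right]
      intro x hx
      obtain ⟨t, ht, rfl⟩ := Finset.mem_image.mp hx
      exact h3 t (Finset.mem_range.mp ht)
    have hchg : ∀ t ∈ T, t < s ∧ ∃ Ω, Chg G E ((Finset.range s).image q) (κ' + s + 1) (κ' + 1) (q t) Ω := by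
      intro t ht
      rw [hT, Finset.mem_filter, Finset.mem_range] at ht
      exact ⟨ht.1, spoil_chg G hE hEG htc' ht.2⟩
    have hi0 := T.min'_mem hne
    obtain ⟨i0, hi⟩ : ∃ i0, i0 = T.min' hne := ⟨_, rfl⟩
    rw [← hi] at hi0
    have hsub : T ⊆ Finset.Ico i0 (i0 + (2 * κ' + 2)) := by
      intro t ht
      have hle : i0 ≤ t := by rw [hi]; exact T.min'_le t ht
      rw [Finset.mem_Ico]
      refine ⟨hle, ?_⟩
      rcases Nat.eq_or_lt_of_le hle with h | h
      · omega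
      · obtain ⟨-, Ω, hΩ⟩ := hchg i0 hi0
        obtain ⟨hts, Ω', hΩ'⟩ := hchg t ht
        have := two_chg G hN q hadj hinj (k := κ' + s + 1) (c := κ' + 1) hκ h hts hΩ hΩ'
        omega
    have := Finset.card_le_card hsub
    rw [Nat.card_Ico] at this
    omega

theorem near_card (G : SimpleGraph V) (hG : Cubic G) (κ' : ℕ) (w : V) :
    (Finset.univ.filter (fun w' => Near G κ' w w')).card ≤ 4 ^ κ' := by
  have hsub : Finset.univ.filter (fun w' => Near G κ' w w') ⊆ Lev G {w} κ' := by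
    intro w' hw'
    obtain ⟨W, hc, hcard, hw, hw2⟩ := (Finset.mem_filter.mp hw').2
    have h1 := con_lev G (Ω := {w}) (n := 0) hc hw (Finset.mem_singleton_self w) hw2
    exact lev_mono G {w} (by omega) h1
  have h2 := lev_card G hG {w} κ'
  rw [Finset.card_singleton, one_mul] at h2
  exact (Finset.card_le_card hsub).trans h2

end Pool.Agent.H38H.IN
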