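import Mathlib

set_option autoImplicit false

namespace Pool.Agent.H38H.IN

open Classical

variable {J : Type} [Fintype J] {s : ℕ}

/-- choice functions satisfying the constraints on the coordinates in `I` -/
noncomputable def TN (bad : J → Fin s → Prop) (nr : J × Fin s → J × Fin s → Prop) (I : Finset J) :
    Finset (J → Fin s) :=
  Finset.univ.filter (fun ch => (∀ j ∈ I, ¬ bad j (ch j)) ∧
    ∀ i ∈ I, ∀ j ∈ I, i ≠ j → ¬ nr (i, ch i) (j, ch j))

/-! Chunk INC5 (S/M, pure Mathlib): coordinates outside `I` are free. The map `ch ↦ Function.update ch j t` sends the elements of `TN I` with `ch j = t'`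
bijectively to those with `ch j = t` (the constraints do not involve the coordinate `j ∉ I`), so all `s` classes have the same cardinality.
tn_free2: the same for the pair of coordinates `i, j`. -/

private theorem inc5_mem {bad : J → Fin s → Prop} {nr : J × Fin s → J × Fin s → Prop} {I : Finset J}
    {ch ch' : J → Fin s} (h : ∀ i ∈ I, ch' i = ch i) (hc : ch ∈ TN bad nr I) : ch' ∈ TN bad nr I := by
  unfold TN at hc ⊢
  rw [Finset.mem_filter] at hc ⊢
  refine ⟨Finset.mem_univ _, ?_, ?_⟩
  · intro j hj
    rw [h j hj]
    exact hc.2.1 j hj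
  · intro i hi j hj hij
    rw [h i hi, h j hj]
    exact hc.2.2 i hi j hj hij

private theorem inc5_upd {bad : J → Fin s → Prop} {nr : J × Fin s → J × Fin s → Prop} {I : Finset J} {j : J}
    (hj : j ∉ I) {ch : J → Fin s} (t : Fin s) (hc : ch ∈ TN bad nr I) :
    Function.update ch j t ∈ TN bad nr I := by
  apply inc5_mem _ hc
  intro i hi
  rw [Function.update_of_ne]
  rintro rfl
  exact hj hi

private theorem inc5_le (bad : J → Fin s → Prop) (nr : J × Fin s → J × Fin s → Prop) {I : Finset J} {j : J}
    (hj : j ∉ I) (p : (J → Fin s) → Prop) (hp : ∀ ch t, p (Function.update ch j t) ↔ p ch) (t t' : Fin s) :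
    ((TN bad nr I).filter (fun ch => p ch ∧ ch j = t)).card ≤
      ((TN bad nr I).filter (fun ch => p ch ∧ ch j = t')).card := by
  apply Finset.card_le_card_of_injOn (fun ch => Function.update ch j t')
  · intro ch hch
    have hch' := Finset.mem_filter.mp (Finset.mem_coe.mp hch)
    apply Finset.mem_coe.mpr
    rw [Finset.mem_filter]
    exact ⟨inc5_upd hj t' hch'.1, (hp ch t').mpr hch'.2.1, Function.update_self _ _ _⟩
  · intro a ha b hb hab
    have ha' := Finset.mem_filter.mp (Finset.mem_coe.mp ha)
    have hb' := Finset.mem_filter.mp (Finset.mem_coe.mp hb)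
    funext i
    by_cases hi : i = j
    · rw [hi, ha'.2.2, hb'.2.2]
    · have h := congrFun hab i
      simp only [] at h
      rwa [Function.update_of_ne hi, Function.update_of_ne hi] at h

private theorem inc5_main (bad : J → Fin s → Prop) (nr : J × Fin s → J × Fin s → Prop) {I : Finset J} {j : J}
    (hj : j ∉ I) (p : (J → Fin s) → Prop) (hp : ∀ ch t, p (Function.update ch j t) ↔ p ch) (t : Fin s) :
    s * ((TN bad nr I).filter (fun ch => p ch ∧ ch j = t)).card = ((TN bad nr I).filter p).card := by
  have h1 : ((TN bad nr I).filter p).card =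
      ∑ t' : Fin s, (((TN bad nr I).filter p).filter (fun ch => ch j = t')).card :=
    Finset.card_eq_sum_card_fiberwise (f := fun ch : J → Fin s => ch j) (t := Finset.univ)
      (fun _ _ => Finset.mem_coe.mpr (Finset.mem_univ _))
  have h2 : ∀ t' ∈ (Finset.univ : Finset (Fin s)), (((TN bad nr I).filter p).filter (fun ch => ch j = t')).card =
      ((TN bad nr I).filter (fun ch => p ch ∧ ch j = t)).card := by
    intro t' _
    rw [Finset.filter_filter]
    exact le_antisymm (inc5_le bad nr hj p hp t' t) (inc5_le bad nr hj p hp t t')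
  rw [h1, Finset.sum_congr rfl h2, Finset.sum_const, Finset.card_univ, Fintype.card_fin, smul_eq_mul]

theorem tn_free (bad : J → Fin s → Prop) (nr : J × Fin s → J × Fin s → Prop) (I : Finset J) {j : J}
    (hj : j ∉ I) (t : Fin s) :
    s * ((TN bad nr I).filter (fun ch => ch j = t)).card = (TN bad nr I).card := by
  have h := inc5_main bad nr hj (fun _ => True) (fun _ _ => Iff.rfl) t
  simp only [true_and, Finset.filter_true] at h
  exact h

theorem tn_free2 (bad : J → Fin s → Prop) (nr : J × Fin s → J × Fin s → Prop) (I : Finset J) {i j : J}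
    (hi : i ∉ I) (hj : j ∉ I) (hij : i ≠ j) (t t' : Fin s) :
    s * s * ((TN bad nr I).filter (fun ch => ch i = t ∧ ch j = t')).card = (TN bad nr I).card := by
  have h := inc5_main bad nr hj (fun ch => ch i = t)
    (fun ch u => by rw [Function.update_of_ne hij]) t'
  have h2 := tn_free bad nr I hi t
  have h3 : s * ((TN bad nr I).filter (fun ch => ch i = t ∧ ch j = t')).card =
      ((TN bad nr I).filter (fun ch => ch i = t)).card := by
    convert h
  rw [mul_assoc, h3, h2]

theorem tn_empty (bad : J → Fin s → Prop) (nr : J × Fin s → J × Fin s → Prop) :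
    (TN bad nr ∅).card = s ^ Fintype.card J := by
  have h : TN bad nr ∅ = Finset.univ := by
    unfold TN
    apply Finset.filter_true_of_mem
    intro ch _
    exact ⟨fun j hj => absurd hj (Finset.notMem_empty j), fun i hi => absurd hi (Finset.notMem_empty i)⟩
  rw [h, Finset.card_univ, Fintype.card_fun, Fintype.card_fin]

end Pool.Agent.H38H.IN
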