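import Pool.Agent.Lib.H38H.IN.C5

set_option autoImplicit false

namespace Pool.Agent.H38H.IN

open Classical

variable {J : Type} [Fintype J] {s : ℕ}

/-! Chunk INC6 (M, pure): independent transversals. Write `N(I) = |TN I|`, `g = s - Q - 2Δ`, `s ≤ 2g`.
tn_step: strong induction on `|I|`: `g * N(I) ≤ s * N(insert j I)` for `j ∉ I`. Elements of `TN I` not in `TN (insert j I)`: (1) `bad j (ch j)`: at most
`Q` values of `ch j`, by tn_free `s * #(1) ≤ Q * N(I)`; (2) `nr (i, ch i) (j, ch j)` or `nr (j, ch j) (i, ch i)` for some `i ∈ I` (one implies the other, hsymm):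
for every `t = ch j` at most `Δ` pairs `(i,t')`, and for each such triple the number of `ch ∈ TN I` with `ch j = t`, `ch i = t'` is at most the number of such
`ch ∈ TN (I \ {i})`, so `s^2` times it is at most `N(I \ {i})` (tn_free2). By induction `g * N(I \ {i}) ≤ s * N(I) ≤ 2 g * N(I)`, so
`N(I \ {i}) ≤ 2 N(I)` (if `g = 0` then `s = 0` and everything is trivial). So `s^2 * #(2) ≤ s * Δ * 2 * N(I)`, `s * #(2) ≤ 2 Δ N(I)`. Together
`s * (N(I) - N(insert j I)) ≤ (Q + 2Δ) N(I)`. transversals: apply tn_step |J| times starting from the empty set, tn_empty; cancel `s^|J|`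
(if `s = 0` then `g = 0`: the power is 0 or `J` is empty). -/

theorem inc6_bad (bad : J → Fin s → Prop) (nr : J × Fin s → J × Fin s → Prop) (Q : ℕ)
    (hbad : ∀ j, (Finset.univ.filter (bad j)).card ≤ Q) (I : Finset J) (j : J) (hj : j ∉ I) :
    s * ((TN bad nr I).filter (fun ch => bad j (ch j))).card ≤ Q * (TN bad nr I).card := by
  have h1 : (TN bad nr I).filter (fun ch => bad j (ch j)) ⊆
      (Finset.univ.filter (bad j)).biUnion (fun t => (TN bad nr I).filter (fun ch => ch j = t)) := by
    intro ch hch
    rw [Finset.mem_filter] at hch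
    rw [Finset.mem_biUnion]
    refine ⟨ch j, ?_, ?_⟩
    · rw [Finset.mem_filter]
      exact ⟨Finset.mem_univ _, hch.2⟩
    · rw [Finset.mem_filter]
      exact ⟨hch.1, rfl⟩
  have h2 := (Finset.card_le_card h1).trans Finset.card_biUnion_le
  calc s * ((TN bad nr I).filter (fun ch => bad j (ch j))).card
      ≤ s * ∑ t ∈ Finset.univ.filter (bad j), ((TN bad nr I).filter (fun ch => ch j = t)).card :=
        Nat.mul_le_mul_left _ h2
    _ = ∑ t ∈ Finset.univ.filter (bad j),
          s * ((TN bad nr I).filter (fun ch => ch j = t)).card := by rw [Finset.mul_sum]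
    _ = ∑ _t ∈ Finset.univ.filter (bad j), (TN bad nr I).card := by
        refine Finset.sum_congr rfl fun t _ => ?_
        exact tn_free bad nr I hj t
    _ = (Finset.univ.filter (bad j)).card * (TN bad nr I).card := by
        rw [Finset.sum_const, smul_eq_mul]
    _ ≤ Q * (TN bad nr I).card := Nat.mul_le_mul_right _ (hbad j)

theorem inc6_mono (bad : J → Fin s → Prop) (nr : J × Fin s → J × Fin s → Prop) {I I' : Finset J}
    (h : I ⊆ I') : TN bad nr I' ⊆ TN bad nr I := by
  intro ch hch
  unfold TN at hch ⊢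
  rw [Finset.mem_filter] at hch ⊢
  exact ⟨Finset.mem_univ _, fun j hj => hch.2.1 j (h hj),
    fun i hi j hj hij => hch.2.2 i (h hi) j (h hj) hij⟩

theorem inc6_nr (bad : J → Fin s → Prop) (nr : J × Fin s → J × Fin s → Prop) (Δ : ℕ)
    (hnr : ∀ p, (Finset.univ.filter (nr p)).card ≤ Δ)
    (I : Finset J) (j : J) (hj : j ∉ I) (hs : 0 < s)
    (hI : ∀ i ∈ I, (TN bad nr (I.erase i)).card ≤ 2 * (TN bad nr I).card) :
    s * ((TN bad nr I).filter (fun ch => ∃ i ∈ I, nr (j, ch j) (i, ch i))).card ≤
      2 * Δ * (TN bad nr I).card := by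
  have h1 : (TN bad nr I).filter (fun ch => ∃ i ∈ I, nr (j, ch j) (i, ch i)) ⊆
      (Finset.univ : Finset (Fin s)).biUnion (fun t =>
        ((Finset.univ.filter (nr (j, t))).filter (fun p => p.1 ∈ I)).biUnion (fun p =>
          (TN bad nr (I.erase p.1)).filter (fun ch => ch p.1 = p.2 ∧ ch j = t))) := by
    intro ch hch
    rw [Finset.mem_filter] at hch
    obtain ⟨hch1, i, hi, hn⟩ := hch
    rw [Finset.mem_biUnion]
    refine ⟨ch j, Finset.mem_univ _, ?_⟩
    rw [Finset.mem_biUnion]
    refine ⟨(i, ch i), ?_, ?_⟩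
    · rw [Finset.mem_filter, Finset.mem_filter]
      exact ⟨⟨Finset.mem_univ _, hn⟩, hi⟩
    · rw [Finset.mem_filter]
      exact ⟨inc6_mono bad nr (Finset.erase_subset _ _) hch1, rfl, rfl⟩
  have h2 := (Finset.card_le_card h1).trans Finset.card_biUnion_le
  have h3 : ∀ t ∈ (Finset.univ : Finset (Fin s)),
      s * s * (((Finset.univ.filter (nr (j, t))).filter (fun p => p.1 ∈ I)).biUnion (fun p =>
          (TN bad nr (I.erase p.1)).filter (fun ch => ch p.1 = p.2 ∧ ch j = t))).card ≤
        Δ * (2 * (TN bad nr I).card) := by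
    intro t _
    refine (Nat.mul_le_mul_left _ Finset.card_biUnion_le).trans ?_
    rw [Finset.mul_sum]
    have h4 : ∀ p ∈ (Finset.univ.filter (nr (j, t))).filter (fun p => p.1 ∈ I),
        s * s * ((TN bad nr (I.erase p.1)).filter (fun ch => ch p.1 = p.2 ∧ ch j = t)).card
          ≤ 2 * (TN bad nr I).card := by
      intro p hp
      rw [Finset.mem_filter] at hp
      have hpj : p.1 ≠ j := fun h => hj (h ▸ hp.2)
      rw [tn_free2 bad nr (I.erase p.1) (Finset.notMem_erase _ _)
        (fun h => hj (Finset.mem_of_mem_erase h)) hpj p.2 t]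
      exact hI p.1 hp.2
    refine (Finset.sum_le_card_nsmul _ _ _ h4).trans ?_
    rw [smul_eq_mul]
    apply Nat.mul_le_mul_right
    exact (Finset.card_le_card (Finset.filter_subset _ _)).trans (hnr (j, t))
  have h5 : s * s * ((TN bad nr I).filter (fun ch => ∃ i ∈ I, nr (j, ch j) (i, ch i))).card
      ≤ s * (Δ * (2 * (TN bad nr I).card)) := by
    refine (Nat.mul_le_mul_left _ h2).trans ?_
    rw [Finset.mul_sum]
    refine (Finset.sum_le_card_nsmul _ _ _ h3).trans ?_
    rw [smul_eq_mul, Finset.card_univ, Fintype.card_fin]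
  have h6 : s * (s * ((TN bad nr I).filter (fun ch => ∃ i ∈ I, nr (j, ch j) (i, ch i))).card)
      ≤ s * (2 * Δ * (TN bad nr I).card) := by
    calc s * (s * ((TN bad nr I).filter (fun ch => ∃ i ∈ I, nr (j, ch j) (i, ch i))).card)
        = s * s * ((TN bad nr I).filter (fun ch => ∃ i ∈ I, nr (j, ch j) (i, ch i))).card := by
          ring
      _ ≤ s * (Δ * (2 * (TN bad nr I).card)) := h5
      _ = s * (2 * Δ * (TN bad nr I).card) := by ring
  exact Nat.le_of_mul_le_mul_left h6 hs

theorem tn_step (bad : J → Fin s → Prop) (nr : J × Fin s → J × Fin s → Prop) (Q Δ : ℕ)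
    (hs : 2 * Q + 4 * Δ ≤ s) (hbad : ∀ j, (Finset.univ.filter (bad j)).card ≤ Q)
    (hnr : ∀ p, (Finset.univ.filter (nr p)).card ≤ Δ) (hsymm : ∀ p q, nr p q → nr q p)
    (I : Finset J) (j : J) (hj : j ∉ I) :
    (s - Q - 2 * Δ) * (TN bad nr I).card ≤ s * (TN bad nr (insert j I)).card := by
  induction I using Finset.strongInduction generalizing j with
  | H I ih =>
    rcases Nat.eq_zero_or_pos s with h0 | h0
    · have h1 : s - Q - 2 * Δ = 0 := by omega
      rw [h1, zero_mul]
      exact Nat.zero_le _
    have hI : ∀ i ∈ I, (TN bad nr (I.erase i)).card ≤ 2 * (TN bad nr I).card := by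
      intro i hi
      have h1 := ih (I.erase i) (Finset.erase_ssubset hi) i (Finset.notMem_erase _ _)
      rw [Finset.insert_erase hi] at h1
      have h2 : s ≤ 2 * (s - Q - 2 * Δ) := by omega
      have h3 : s * (TN bad nr (I.erase i)).card ≤ s * (2 * (TN bad nr I).card) := by
        calc s * (TN bad nr (I.erase i)).card
            ≤ 2 * (s - Q - 2 * Δ) * (TN bad nr (I.erase i)).card := Nat.mul_le_mul_right _ h2
          _ = 2 * ((s - Q - 2 * Δ) * (TN bad nr (I.erase i)).card) := by ring
          _ ≤ 2 * (s * (TN bad nr I).card) := Nat.mul_le_mul_left _ h1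
          _ = s * (2 * (TN bad nr I).card) := by ring
      exact Nat.le_of_mul_le_mul_left h3 h0
    have h1 := inc6_bad bad nr Q hbad I j hj
    have h2 := inc6_nr bad nr Δ hnr I j hj h0 hI
    have h3 : TN bad nr I ⊆ TN bad nr (insert j I) ∪
        ((TN bad nr I).filter (fun ch => bad j (ch j)) ∪
          (TN bad nr I).filter (fun ch => ∃ i ∈ I, nr (j, ch j) (i, ch i))) := by
      intro ch hch
      rw [Finset.mem_union, Finset.mem_union, Finset.mem_filter, Finset.mem_filter]
      by_cases hb : bad j (ch j)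
      · exact Or.inr (Or.inl ⟨hch, hb⟩)
      by_cases hn : ∃ i ∈ I, nr (j, ch j) (i, ch i)
      · exact Or.inr (Or.inr ⟨hch, hn⟩)
      left
      have hch' := hch
      unfold TN at hch' ⊢
      rw [Finset.mem_filter] at hch' ⊢
      refine ⟨Finset.mem_univ _, ?_, ?_⟩
      · intro i hi
        rcases Finset.mem_insert.1 hi with h | h
        · rw [h]
          exact hb
        · exact hch'.2.1 i h
      · intro i hi i' hi' hne
        rcases Finset.mem_insert.1 hi with h | h
        · rcases Finset.mem_insert.1 hi' with h' | h'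
          · exact absurd (h.trans h'.symm) hne
          · rw [h]
            intro hc
            exact hn ⟨i', h', hc⟩
        · rcases Finset.mem_insert.1 hi' with h' | h'
          · rw [h']
            intro hc
            exact hn ⟨i, h, hsymm _ _ hc⟩
          · exact hch'.2.2 i h i' h' hne
    have h4 := (Finset.card_le_card h3).trans (Finset.card_union_le _ _)
    have h5 := Finset.card_union_le ((TN bad nr I).filter (fun ch => bad j (ch j)))
      ((TN bad nr I).filter (fun ch => ∃ i ∈ I, nr (j, ch j) (i, ch i)))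
    have h6 : s * (TN bad nr I).card ≤ s * (TN bad nr (insert j I)).card +
        (Q * (TN bad nr I).card + 2 * Δ * (TN bad nr I).card) := by
      calc s * (TN bad nr I).card
          ≤ s * ((TN bad nr (insert j I)).card +
              (((TN bad nr I).filter (fun ch => bad j (ch j))).card +
                ((TN bad nr I).filter (fun ch => ∃ i ∈ I, nr (j, ch j) (i, ch i))).card)) := by
            apply Nat.mul_le_mul_left
            omega
        _ = s * (TN bad nr (insert j I)).card +
              (s * ((TN bad nr I).filter (fun ch => bad j (ch j))).card +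
                s * ((TN bad nr I).filter (fun ch => ∃ i ∈ I, nr (j, ch j) (i, ch i))).card) := by
            ring
        _ ≤ _ := by
            apply Nat.add_le_add_left
            exact Nat.add_le_add h1 h2
    have h7 : (s - Q - 2 * Δ) * (TN bad nr I).card + (Q * (TN bad nr I).card
        + 2 * Δ * (TN bad nr I).card) = s * (TN bad nr I).card := by
      rw [← add_mul, ← add_mul]
      congr 1
      omega
    omega

theorem transversals (bad : J → Fin s → Prop) (nr : J × Fin s → J × Fin s → Prop) (Q Δ : ℕ)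
    (hs : 2 * Q + 4 * Δ ≤ s) (hbad : ∀ j, (Finset.univ.filter (bad j)).card ≤ Q)
    (hnr : ∀ p, (Finset.univ.filter (nr p)).card ≤ Δ) (hsymm : ∀ p q, nr p q → nr q p) :
    (s - Q - 2 * Δ) ^ Fintype.card J ≤ (TN bad nr Finset.univ).card := by
  have key : ∀ I : Finset J, (s - Q - 2 * Δ) ^ I.card * s ^ Fintype.card J ≤
      s ^ I.card * (TN bad nr I).card := by
    intro I
    induction I using Finset.induction_on with
    | empty =>
      rw [tn_empty, Finset.card_empty, pow_zero, pow_zero]
    | insert j I hj ih =>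
      rw [Finset.card_insert_of_notMem hj, pow_succ', pow_succ']
      have h1 := tn_step bad nr Q Δ hs hbad hnr hsymm I j hj
      calc (s - Q - 2 * Δ) * (s - Q - 2 * Δ) ^ I.card * s ^ Fintype.card J
          = (s - Q - 2 * Δ) * ((s - Q - 2 * Δ) ^ I.card * s ^ Fintype.card J) := by ring
        _ ≤ (s - Q - 2 * Δ) * (s ^ I.card * (TN bad nr I).card) := Nat.mul_le_mul_left _ ih
        _ = s ^ I.card * ((s - Q - 2 * Δ) * (TN bad nr I).card) := by ring
        _ ≤ s ^ I.card * (s * (TN bad nr (insert j I)).card) := Nat.mul_le_mul_left _ h1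
        _ = s * s ^ I.card * (TN bad nr (insert j I)).card := by ring
  have h1 := key Finset.univ
  rw [Finset.card_univ, mul_comm] at h1
  rcases Nat.eq_zero_or_pos s with h0 | h0
  · rcases isEmpty_or_nonempty J with hJ | hJ
    · have h2 : (Finset.univ : Finset J) = ∅ := Finset.univ_eq_empty
      rw [h2, tn_empty, Fintype.card_eq_zero, pow_zero, pow_zero]
    · have h2 : s - Q - 2 * Δ = 0 := by omega
      rw [h2, zero_pow Fintype.card_ne_zero]
      exact Nat.zero_le _
  · exact Nat.le_of_mul_le_mul_left h1 (pow_pos h0 _)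

end Pool.Agent.H38H.IN
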