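import Pool.Agent.Lib.H38H.IN.C3
import Pool.Agent.Lib.H38H.IN.C6

set_option autoImplicit false

namespace Pool.Agent.H38H.IN

open Classical

variable {V : Type} [Fintype V]

/-! Chunk INC7 (S/M): the number of clean choices. Apply transversals with `bad j i = Spoil (pt j i)`, `nr p q = (p ≠ q ∧ Near (pt p) (pt q))`,
`Q = 2κ' + 2` (spoil_card with `q t = pt j ⟨t, _⟩` for `t < s`), `Δ = 4 ^ κ'` (near_card and injectivity of `pt`). An element `ch` of `TN univ` is clean:
let `W` be connected with at most `κ'` vertices, `a = pt j (ch j) ∈ W`. Since `a` is not spoiled: `ex W < 0`, no mark endpoint in `W`, no `C ∈ tc` meets `W`;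
if `a' = pt j' (ch j') ∈ W` and `j' ≠ j` then the two are near, excluded. -/

private theorem inc7_near {G : SimpleGraph V} {κ' : ℕ} {w w' : V} (h : Near G κ' w w') : Near G κ' w' w := by
  obtain ⟨W, h1, h2, h3, h4⟩ := h
  exact ⟨W, h1, h2, h4, h3⟩

private theorem inc7_bad (G : SimpleGraph V) {E : Finset (Sym2 V)} (hE : Marks E)
    (hEG : ∀ e ∈ E, e ∈ G.edgeSet) {κ κ' s : ℕ} (hN : Nice κ G E) (hκ : 2 * (κ' + s + 1) + s ≤ κ)
    {J : Type} (pt : J → Fin s → V)
    (hinj : ∀ j j' i i', pt j i = pt j' i' → j = j' ∧ i = i')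
    (hadj : ∀ j, ∀ i i' : Fin s, (i' : ℕ) = i + 1 → G.Adj (pt j i) (pt j i'))
    {tc : Finset (Finset V)} (htc : ∀ C ∈ tc, Cyc G C ∧ C.card ≤ s ∧ ∀ j i, pt j i ∉ C) (j : J) :
    (Finset.univ.filter (fun i : Fin s => Spoil G E κ' tc (pt j i))).card ≤ 2 * κ' + 2 := by
  rcases Nat.eq_zero_or_pos s with h0 | h0
  · subst h0
    rw [Finset.univ_eq_empty, Finset.filter_empty, Finset.card_empty]
    omega
  · have hlt : ∀ t : ℕ, min t (s - 1) < s := by
      intro t
      omega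
    obtain ⟨q, hq⟩ : ∃ q : ℕ → V, ∀ t, q t = pt j ⟨min t (s - 1), hlt t⟩ := ⟨_, fun t => rfl⟩
    have h1 := spoil_card G hE hEG hN hκ (tc := tc) q
      (fun t ht => by
        rw [hq, hq]
        apply hadj j
        show min (t + 1) (s - 1) = min t (s - 1) + 1
        omega)
      (fun t t' ht ht' he => by
        rw [hq, hq] at he
        have h2 := (hinj _ _ _ _ he).2
        have h3 : min t (s - 1) = min t' (s - 1) := congrArg Fin.val h2
        omega)
      (fun C hC => ⟨(htc C hC).1, (htc C hC).2.1, fun t ht => by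
        rw [hq]
        exact (htc C hC).2.2 j _⟩)
    refine le_trans ?_ h1
    apply Finset.card_le_card_of_injOn (fun i : Fin s => (i : ℕ))
    · intro i hi
      have hi' := (Finset.mem_filter.mp (Finset.mem_coe.mp hi)).2
      apply Finset.mem_coe.mpr
      rw [Finset.mem_filter, Finset.mem_range]
      refine ⟨i.2, ?_⟩
      show Spoil G E κ' tc (q (i : ℕ))
      rw [hq]
      have h4 : (⟨min (i : ℕ) (s - 1), hlt i⟩ : Fin s) = i := by
        apply Fin.ext
        show min (i : ℕ) (s - 1) = i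
        have := i.2
        omega
      rw [h4]
      exact hi'
    · intro a _ b _ hab
      exact Fin.ext hab

private theorem inc7_nr (G : SimpleGraph V) (hG : Cubic G) {κ' s : ℕ}
    {J : Type} [Fintype J] (pt : J → Fin s → V)
    (hinj : ∀ j j' i i', pt j i = pt j' i' → j = j' ∧ i = i') (p : J × Fin s) :
    (Finset.univ.filter (fun r : J × Fin s => p ≠ r ∧ Near G κ' (pt p.1 p.2) (pt r.1 r.2))).card ≤ 4 ^ κ' := by
  refine le_trans ?_ (near_card G hG κ' (pt p.1 p.2))
  apply Finset.card_le_card_of_injOn (fun r : J × Fin s => pt r.1 r.2)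
  · intro r hr
    have hr' := (Finset.mem_filter.mp (Finset.mem_coe.mp hr)).2
    exact Finset.mem_coe.mpr (Finset.mem_filter.mpr ⟨Finset.mem_univ _, hr'.2⟩)
  · intro a _ b _ hab
    have := hinj _ _ _ _ hab
    exact Prod.ext this.1 this.2

private theorem inc7_card {α : Type} [Fintype α] (P : α → Prop) :
    Nat.card {x : α // P x} = (Finset.univ.filter P).card := by
  rw [Nat.card_eq_fintype_card, Fintype.card_subtype]

private theorem inc7_tn {J : Type} [Fintype J] {s : ℕ} {bad : J → Fin s → Prop}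
    {nr : J × Fin s → J × Fin s → Prop} {ch : J → Fin s} (h : ch ∈ TN bad nr Finset.univ) :
    (∀ j, ¬ bad j (ch j)) ∧ ∀ i j, i ≠ j → ¬ nr (i, ch i) (j, ch j) := by
  unfold TN at h
  have h2 := (Finset.mem_filter.mp h).2
  exact ⟨fun j => h2.1 j (Finset.mem_univ j), fun i j => h2.2 i (Finset.mem_univ i) j (Finset.mem_univ j)⟩

private theorem inc7_clean (G : SimpleGraph V) {E : Finset (Sym2 V)} {κ' s : ℕ}
    {J : Type} [Fintype J] (pt : J → Fin s → V) {tc : Finset (Finset V)} {ch : J → Fin s}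
    (h : (∀ j, ¬ Spoil G E κ' tc (pt j (ch j))) ∧
      ∀ i j, i ≠ j → ¬ ((i, ch i) ≠ (j, ch j) ∧ Near G κ' (pt i (ch i)) (pt j (ch j)))) :
    Clean G E κ' (Finset.univ.image (fun j => pt j (ch j))) tc := by
  intro W hc hcard a ha haW
  obtain ⟨j, hj, hja⟩ := Finset.mem_image.mp ha
  subst hja
  have hns := h.1 j
  refine ⟨?_, ?_, ?_, ?_⟩
  · by_contra h'
    exact hns ⟨W, hc, hcard, haW, Or.inl (not_lt.mp h')⟩
  · intro e he v hv hvW
    exact hns ⟨W, hc, hcard, haW, Or.inr (Or.inl ⟨e, he, v, hv, hvW⟩)⟩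
  · intro C hC
    by_contra h'
    exact hns ⟨W, hc, hcard, haW, Or.inr (Or.inr ⟨C, hC, h'⟩)⟩
  · intro a' ha' haW'
    obtain ⟨j', hj', hja'⟩ := Finset.mem_image.mp ha'
    subst hja'
    by_cases hjj : j' = j
    · rw [hjj]
    · exact absurd ⟨fun hh => hjj (congrArg Prod.fst hh), W, hc, hcard, haW', haW⟩ (h.2 j' j hjj)

theorem clean_count (G : SimpleGraph V) (hG : Cubic G) {E : Finset (Sym2 V)} (hE : Marks E)
    (hEG : ∀ e ∈ E, e ∈ G.edgeSet) {κ κ' s : ℕ} (hN : Nice κ G E) (hκ : 2 * (κ' + s + 1) + s ≤ κ)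
    {J : Type} [Fintype J] (pt : J → Fin s → V)
    (hinj : ∀ j j' i i', pt j i = pt j' i' → j = j' ∧ i = i')
    (hadj : ∀ j, ∀ i i' : Fin s, (i' : ℕ) = i + 1 → G.Adj (pt j i) (pt j i'))
    {tc : Finset (Finset V)} (htc : ∀ C ∈ tc, Cyc G C ∧ C.card ≤ s ∧ ∀ j i, pt j i ∉ C)
    (hs : 2 * (2 * κ' + 2) + 4 * 4 ^ κ' ≤ s) :
    (s - (2 * κ' + 2) - 2 * 4 ^ κ') ^ Fintype.card J ≤
      Nat.card {ch : J → Fin s // Clean G E κ' (Finset.univ.image (fun j => pt j (ch j))) tc} := by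
  have h1 := transversals (fun (j : J) (i : Fin s) => Spoil G E κ' tc (pt j i))
    (fun p r : J × Fin s => p ≠ r ∧ Near G κ' (pt p.1 p.2) (pt r.1 r.2)) (2 * κ' + 2) (4 ^ κ') hs
    (inc7_bad G hE hEG hN hκ pt hinj hadj htc)
    (fun p => by
      have h2 := inc7_nr G hG (κ' := κ') pt hinj p
      convert h2)
    (fun p r h => ⟨h.1.symm, inc7_near h.2⟩)
  refine le_trans h1 ?_
  rw [inc7_card]
  apply Finset.card_le_card
  intro ch hch
  exact Finset.mem_filter.mpr ⟨Finset.mem_univ _, inc7_clean G pt (inc7_tn hch)⟩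

end Pool.Agent.H38H.IN
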