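import Mathlib

set_option autoImplicit false

namespace Pool.Agent.H38H.IN

/-! Chunk INF1 (M, pure real analysis): the inequalities between the constants for large `N`. `n` is between `N/4` and `N`, so `log n ≥ log N - 2` (log 4 < 2) and `log N → ∞`. Take `L = ⌊(log n)^3⌋` (Nat.floor). Then `L + 1 ≥ (log n)^3 ≥ (log N)^3 / 8` for large `N`, which beats every `C * log N + C'`:
`5 (a + 2m) + 2a ≤ 70 A log N + 10 m0`; and `n^(A+5) (n+1) 2^(a+2m) ≤ 2^(L+1)`: take log base 2: `(A+6) log2 N + 1 + 10 A log N + 2 m0 ≤ (log N)^3/8`. `2 (4n)^(A+1) ≤ n^(A+5)` as soon as `2 * 4^(A+1) ≤ n`. ratio_bd: if `q = 0` trivial. Otherwise `s > 0`, `s - q ≥ s/2`,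
`s / (s - q) = 1 + q/(s-q) ≤ 1 + 2q/s ≤ exp (2q/s)`, `(s/(s-q))^J ≤ exp (2 q J / s) ≤ exp (20 A q / s * log N) ≤ N`. -/

theorem numeric1 (A n0 m0 : ℕ) : ∃ N₀ : ℕ, ∀ N : ℕ, N₀ ≤ N → ∀ n : ℕ, N ≤ 4 * n → n ≤ N → ∀ a m : ℕ,
    (a : ℝ) ≤ 10 * A * Real.log N → m ≤ m0 →
      n0 ≤ n ∧ 3 ≤ n ∧ (∃ L : ℕ, (L : ℝ) ≤ (Real.log n) ^ 3 ∧ 5 * (a + 2 * m) ≤ L ∧ 2 * a ≤ L ∧
        n ^ (A + 5) * ((n + 1) * 2 ^ (a + 2 * m)) ≤ 2 ^ (L + 1)) ∧ 2 * (4 * n) ^ (A + 1) ≤ n ^ (A + 5) := by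
  have ht : Filter.Tendsto (fun N : ℕ => Real.log (N : ℝ)) Filter.atTop Filter.atTop :=
    Real.tendsto_log_atTop.comp tendsto_natCast_atTop_atTop
  obtain ⟨N1, hN1⟩ := (Filter.eventually_atTop.1 (ht.eventually_ge_atTop (1000 * ((A : ℝ) + m0 + 1))))
  refine ⟨N1 + 4 * n0 + 12 + 4 * (2 * 4 ^ (A + 1)), ?_⟩
  intro N hN n hn1 hn2 a m ha hm
  have hx := hN1 N (by omega)
  have hn3 : 3 ≤ n := by omega
  have hn4 : 2 * 4 ^ (A + 1) ≤ n := by omega
  have hA0 : (0 : ℝ) ≤ A := Nat.cast_nonneg _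
  have hm0 : (0 : ℝ) ≤ m0 := Nat.cast_nonneg _
  have hm' : (m : ℝ) ≤ m0 := by exact_mod_cast hm
  have hnpos : (0 : ℝ) < n := by
    have : (3 : ℝ) ≤ n := by exact_mod_cast hn3
    linarith
  have hNpos : (0 : ℝ) < N := by
    have : (n : ℝ) ≤ N := by exact_mod_cast hn2
    linarith
  have h4 : Real.log 4 < 2 := by
    have : Real.log 4 = 2 * Real.log 2 := by
      rw [show (4 : ℝ) = 2 ^ 2 by norm_num, Real.log_pow]; norm_num
    have h2 := Real.log_two_lt_d9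
    linarith
  set x := Real.log (N : ℝ) with hxdef
  have hlog1 : x ≤ Real.log 4 + Real.log n := by
    rw [← Real.log_mul (by norm_num) hnpos.ne']
    apply Real.log_le_log hNpos
    exact_mod_cast hn1
  have hlog2 : Real.log n ≤ x := Real.log_le_log hnpos (by exact_mod_cast hn2)
  have hx1000 : (1000 : ℝ) ≤ x := by nlinarith
  have hhalf : x / 2 ≤ Real.log n := by linarith
  set l := Real.log (n : ℝ) with hldef
  have hl0 : 0 ≤ l := by linarith
  have hcube : x ^ 3 / 8 ≤ l ^ 3 := by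
    have : (x / 2) ^ 3 ≤ l ^ 3 := pow_le_pow_left₀ (by linarith) hhalf 3
    calc x ^ 3 / 8 = (x / 2) ^ 3 := by ring
      _ ≤ _ := this
  have hbig : 100 * ((A : ℝ) + m0 + 1) * x ≤ x ^ 3 / 8 := by
    have h1 : 100 * ((A : ℝ) + m0 + 1) ≤ x / 10 := by linarith
    have h2 : x / 10 ≤ x ^ 2 / 8 := by nlinarith
    have h3 : 100 * ((A : ℝ) + m0 + 1) * x ≤ x ^ 2 / 8 * x :=
      mul_le_mul_of_nonneg_right (h1.trans h2) (by linarith)
    calc _ ≤ _ := h3
      _ = _ := by ring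
  have hbig2 : 100 * ((A : ℝ) + m0 + 1) * x ≤ l ^ 3 := hbig.trans hcube
  have hAx : (A : ℝ) * x ≤ (A : ℝ) * x := le_refl _
  have e1 : 0 ≤ (A : ℝ) * x := mul_nonneg hA0 (by linarith)
  have e2 : (m0 : ℝ) ≤ (m0 : ℝ) * x := by nlinarith
  have e3 : 0 ≤ (m0 : ℝ) * x := by linarith
  refine ⟨by omega, hn3, ⟨⌊l ^ 3⌋₊, Nat.floor_le (by positivity), ?_, ?_, ?_⟩, ?_⟩
  · apply Nat.le_floor
    push_cast
    nlinarith
  · apply Nat.le_floor
    push_cast
    nlinarith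
  · have hfl : l ^ 3 ≤ ((⌊l ^ 3⌋₊ + 1 : ℕ) : ℝ) := by
      push_cast
      exact (Nat.lt_floor_add_one _).le
    have hlog22 : (1 / 2 : ℝ) < Real.log 2 := by
      have := Real.log_two_gt_d9
      linarith
    have hlog23 : Real.log 2 < 1 := by
      have := Real.log_two_lt_d9
      linarith
    have hn1' : Real.log ((n : ℝ) + 1) ≤ x + 1 := by
      have : Real.log ((n : ℝ) + 1) ≤ Real.log (2 * N) := by
        apply Real.log_le_log (by linarith)
        have : (n : ℝ) ≤ N := by exact_mod_cast hn2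
        have h3 : (3 : ℝ) ≤ n := by exact_mod_cast hn3
        linarith
      rw [Real.log_mul (by norm_num) hNpos.ne'] at this
      linarith
    have hcast : ((n ^ (A + 5) * ((n + 1) * 2 ^ (a + 2 * m)) : ℕ) : ℝ) ≤ ((2 ^ (⌊l ^ 3⌋₊ + 1) : ℕ) : ℝ) := by
      push_cast
      rw [← Real.log_le_log_iff (by positivity) (by positivity)]
      rw [Real.log_mul (by positivity) (by positivity), Real.log_mul (by positivity) (by positivity),
        Real.log_pow, Real.log_pow, Real.log_pow]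
      have h5 : (((A + 5 : ℕ) : ℝ)) * l ≤ ((A : ℝ) + 5) * x := by
        push_cast
        exact mul_le_mul_of_nonneg_left hlog2 (by linarith)
      have h6 : (((a + 2 * m : ℕ) : ℝ)) * Real.log 2 ≤ 10 * A * x + 2 * m0 := by
        have h61 : (((a + 2 * m : ℕ) : ℝ)) ≤ 10 * A * x + 2 * m0 := by
          push_cast
          linarith
        have h62 : 0 ≤ (((a + 2 * m : ℕ) : ℝ)) := Nat.cast_nonneg _
        calc (((a + 2 * m : ℕ) : ℝ)) * Real.log 2 ≤ (((a + 2 * m : ℕ) : ℝ)) * 1 :=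
              mul_le_mul_of_nonneg_left hlog23.le h62
          _ ≤ _ := by linarith
      have h7 : l ^ 3 * (1 / 2) ≤ ((⌊l ^ 3⌋₊ + 1 : ℕ) : ℝ) * Real.log 2 := by
        apply mul_le_mul hfl hlog22.le (by norm_num) (Nat.cast_nonneg _)
      have h8 : ((A : ℝ) + 5) * x + (x + 1 + (10 * A * x + 2 * m0)) ≤ l ^ 3 * (1 / 2) := by
        nlinarith
      calc _ ≤ ((A : ℝ) + 5) * x + (x + 1 + (10 * A * x + 2 * m0)) :=
            add_le_add h5 (add_le_add hn1' h6)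
        _ ≤ _ := h8
        _ ≤ _ := h7
    exact_mod_cast hcast
  · have hnn : 1 ≤ n := by omega
    calc 2 * (4 * n) ^ (A + 1) = (2 * 4 ^ (A + 1)) * n ^ (A + 1) := by rw [mul_pow]; ring
      _ ≤ n ^ 4 * n ^ (A + 1) := by
        apply Nat.mul_le_mul_right
        calc 2 * 4 ^ (A + 1) ≤ n := hn4
          _ = n ^ 1 := (pow_one n).symm
          _ ≤ n ^ 4 := Nat.pow_le_pow_right hnn (by norm_num)
      _ = n ^ (A + 5) := by rw [← pow_add]; congr 1; omega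

theorem ratio_bd (A s q J N : ℕ) (hN : 1 ≤ N) (h : (J : ℝ) ≤ 10 * A * Real.log N) (hq : 2 * q ≤ s)
    (hs : 20 * A * q ≤ s) : (s : ℝ) ^ J ≤ N * ((s - q : ℕ) : ℝ) ^ J := by
  have hN' : (1 : ℝ) ≤ N := by exact_mod_cast hN
  rcases Nat.eq_zero_or_pos q with rfl | hq0
  · simp only [Nat.sub_zero]
    have : (0 : ℝ) ≤ (s : ℝ) ^ J := by positivity
    nlinarith
  have hs0 : 0 < s := by omega
  have hsR : (0 : ℝ) < s := by exact_mod_cast hs0
  have hqR : (0 : ℝ) < q := by exact_mod_cast hq0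
  have hqs : (2 : ℝ) * q ≤ s := by exact_mod_cast hq
  have hsq : ((s - q : ℕ) : ℝ) = s - q := by
    rw [Nat.cast_sub (by omega)]
  rw [hsq]
  have hpos : (0 : ℝ) < s - q := by linarith
  have h1 : (s : ℝ) ≤ (s - q) * Real.exp (2 * q / s) := by
    have h2 : 1 + 2 * (q : ℝ) / s ≤ Real.exp (2 * q / s) := by
      have := Real.add_one_le_exp (2 * (q : ℝ) / s)
      linarith
    calc (s : ℝ) ≤ (s - q) * (1 + 2 * (q : ℝ) / s) := by
          have : (s - q : ℝ) * (1 + 2 * (q : ℝ) / s) = s + q * (1 - 2 * q / s) := by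
            field_simp
            ring
          rw [this]
          have h3 : 2 * (q : ℝ) / s ≤ 1 := by
            rw [div_le_one hsR]; exact hqs
          nlinarith
      _ ≤ _ := mul_le_mul_of_nonneg_left h2 hpos.le
  have h4 : (s : ℝ) ^ J ≤ ((s - q) * Real.exp (2 * q / s)) ^ J :=
    pow_le_pow_left₀ hsR.le h1 J
  rw [mul_pow, ← Real.exp_nat_mul] at h4
  have h5 : (J : ℝ) * (2 * q / s) ≤ Real.log N := by
    have hlog0 : 0 ≤ Real.log (N : ℝ) := Real.log_nonneg hN'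
    have hss : (20 : ℝ) * A * q ≤ s := by exact_mod_cast hs
    have h6 : (J : ℝ) * (2 * q / s) ≤ 10 * A * Real.log N * (2 * q / s) :=
      mul_le_mul_of_nonneg_right h (by positivity)
    calc (J : ℝ) * (2 * q / s) ≤ 10 * A * Real.log N * (2 * q / s) := h6
      _ = (20 * A * q / s) * Real.log N := by ring
      _ ≤ 1 * Real.log N := by
        apply mul_le_mul_of_nonneg_right _ hlog0
        rw [div_le_one hsR]; exact hss
      _ = _ := one_mul _
  have h7 : Real.exp ((J : ℝ) * (2 * q / s)) ≤ N := by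
    rw [← Real.exp_log (show (0 : ℝ) < N by linarith)]
    exact Real.exp_le_exp.2 h5
  calc (s : ℝ) ^ J ≤ _ := h4
    _ ≤ (s - q : ℝ) ^ J * N := mul_le_mul_of_nonneg_left h7 (by positivity)
    _ = _ := by ring

end Pool.Agent.H38H.IN
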