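import Pool.Agent.Lib.H38H.IN.H1

set_option autoImplicit false

namespace Pool.Agent.H38H.IN

open Classical

variable {V ι : Type} [Fintype V] [Fintype ι] {L : ℕ} {G : SimpleGraph V} {E : Finset (Sym2 V)}
    {A1 : Finset V} {tc : Finset (Finset V)} {I : Inst ι L} {h : SB ι}

/-! Chunk INH2 (S/M): `hcG l S` is connected. For an edge `x y` of `S` the vertices `vx x`, `vx y` are joined in `hcG`: if `y = flip x` and the kind is d they are equal (d_eq); kind b: the path of the slot (all
its consecutive pairs are edges of `hcG`, cns_conn with `P v = Reachable (vx x) v`); otherwise s_adj_vx. `S` is connected, so all `vx x` are joined. Every vertex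
lies on a path (cover): kind c, d: it is some `vx x` (pth_ex); kind b: joined to `vx (p,false)` along the path (cns_conn). `V` is nonempty since `ι × Bool` is (`S.Connected`). -/

/-- on a path of kind b all vertices are joined -/
theorem inh2_path (l : Loc G E A1 tc I h) (S : SimpleGraph (ι × Bool)) {p : ι}
    (hk : I.kind (h.1 p) = Kind.b) {u v : V} (hu : u ∈ l.pth p) (hv : v ∈ l.pth p) :
    (hcG l S).Reachable u v := by
  refine cns_conn (P := fun w => (hcG l S).Reachable u w) ?_ hu (SimpleGraph.Reachable.refl u) hv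
  intro a b hab ha
  have h1 : (hcG l S).Adj a b := ⟨cns_ne (l.nodup p) hab, Or.inr ⟨p, hk, hab⟩⟩
  exact ha.trans h1.reachable

theorem inh2_edge (l : Loc G E A1 tc I h) {S : SimpleGraph (ι × Bool)} (hS : IsHAM I h S) {x y : ι × Bool}
    (hxy : S.Adj x y) : (hcG l S).Reachable (l.vx x) (l.vx y) := by
  by_cases hf : y = flip x
  · cases hk : I.kind (h.1 x.1) with
    | b =>
      refine inh2_path l S hk (vx_mem l x) ?_
      have h1 := vx_mem l y
      have h2 : y.1 = x.1 := by rw [hf]; rfl
      rw [h2] at h1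
      exact h1
    | c => exact (s_adj_vx l hS hxy (fun _ => hk)).2.reachable
    | d =>
      rw [hf, d_eq l hk]
  · exact (s_adj_vx l hS hxy (fun h1 => absurd h1 hf)).2.reachable

theorem inh2_all (l : Loc G E A1 tc I h) {S : SimpleGraph (ι × Bool)} (hS : IsHAM I h S) (x y : ι × Bool) :
    (hcG l S).Reachable (l.vx x) (l.vx y) := by
  obtain ⟨w⟩ := hS.conn.preconnected x y
  induction w with
  | nil => exact SimpleGraph.Reachable.refl _
  | cons hadj _ ih => exact (inh2_edge l hS hadj).trans ih

theorem inh2_vert (l : Loc G E A1 tc I h) (S : SimpleGraph (ι × Bool)) (v : V) :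
    ∃ x, (hcG l S).Reachable v (l.vx x) := by
  obtain ⟨p, hp⟩ := l.cover v
  by_cases hk : I.kind (h.1 p) = Kind.b
  · exact ⟨(p, false), inh2_path l S hk hp (vx_mem l (p, false))⟩
  · obtain ⟨x, _, hx⟩ := pth_ex l hk hp
    exact ⟨x, by rw [hx]⟩

theorem hc_conn (l : Loc G E A1 tc I h) {S : SimpleGraph (ι × Bool)} (hS : IsHAM I h S) :
    (hcG l S).Connected := by
  have hne : Nonempty (ι × Bool) := hS.conn.nonempty
  obtain ⟨x0⟩ := hne
  have hV : Nonempty V := ⟨l.vx x0⟩
  refine ⟨fun u v => ?_⟩
  obtain ⟨x, hx⟩ := inh2_vert l S u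
  obtain ⟨y, hy⟩ := inh2_vert l S v
  exact (hx.trans (inh2_all l hS x y)).trans hy.symm

end Pool.Agent.H38H.IN
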