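import Pool.Agent.Lib.H38H.IN.H3
import Pool.Agent.Lib.H38H.IN.H2

set_option autoImplicit false

namespace Pool.Agent.H38H.IN

open Classical

variable {V ι : Type} [Fintype V] [Fintype ι] {L : ℕ} {G : SimpleGraph V} {E : Finset (Sym2 V)}
    {A1 : Finset V} {tc : Finset (Finset V)} {I : Inst ι L} {h : SB ι}

/-! Chunk INH4 (M): degrees in `hcG` at the vertices of slots of kind d, assembly of (5.1).
Kind d: `v = vx x = vx (flip x)`, the positions with vertex `v` are `x`, `flip x`. Let `y`, `y'` be the neighbours of `x`, `flip x` in `S` other than `flip x`, `x` (s_nb). The neighbours of `v` in `hcG` are `vx y`, `vx y'`.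
They differ: by padj_cases `y` is `outer x` (vertex `nb x`) or of kind d with vertex `μ v`; `y'` is `outer (flip x)` (vertex `nb (flip x)`) or of kind d with vertex `μ v`. `nb x ≠ nb (flip x)` (nb_d), `nb x ≠ μ v`,
`nb (flip x) ≠ μ v` (nb_μ, d_eq). If both are of kind d with vertex `μ v` then `y` and `y'` are positions of one slot (vx_slot). If `y = y'` then `y` has the neighbours `x`, `flip x` and `flip y` (mid), three different ones (`flip y` is in
another slot than `x`, as `μ v ≠ v`), against deg. If `y' = flip y` then the set `{x, flip x, y, flip y}` is closed under adjacency (each has two neighbours in it), so by connectedness it is all of `ι × Bool`, which has at least 6 elements.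
hc_of_ham: `hcG l S` with hc_le, hc_deg_c, hc_deg_b, hc_deg_d, hc_conn, hc_mark. -/

theorem inh4_cns_mem {l : List V} {u v : V} (hc : Cns l u v) : u ∈ l := by
  rcases hc with h | h
  · exact h.subset (by simp)
  · exact h.subset (by simp)

theorem inh4_flip_ne (x : ι × Bool) : flip x ≠ x := by
  intro h1
  have h2 := congrArg Prod.snd h1
  unfold flip at h2
  simp at h2

/-- a set closed under adjacency contains everything -/
theorem inh4_closed {W : Type} {S : SimpleGraph W} (hS : S.Connected) {T : Set W} {x : W} (hx : x ∈ T)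
    (hT : ∀ a ∈ T, ∀ b, S.Adj a b → b ∈ T) (z : W) : z ∈ T := by
  obtain ⟨w⟩ := hS.preconnected x z
  induction w with
  | nil => exact hx
  | cons hab w ih => exact ih (hT _ hx _ hab)

theorem inh4_three {W : Type} {s : Set W} (hs : s.ncard = 2) {a b c : W} (ha : a ∈ s) (hb : b ∈ s)
    (hc : c ∈ s) (hab : a ≠ b) (hac : a ≠ c) : b = c := by
  obtain ⟨u, v, huv, rfl⟩ := Set.ncard_eq_two.1 hs
  simp only [Set.mem_insert_iff, Set.mem_singleton_iff] at ha hb hc
  grind

theorem inh4_ne (l : Loc G E A1 tc I h) {S : SimpleGraph (ι × Bool)} (hS : IsHAM I h S)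
    (hn : 3 ≤ Fintype.card ι) {x y y' : ι × Bool} (hk : I.kind (h.1 x.1) = Kind.d)
    (hy : y ≠ flip x) (hxy : S.Adj x y) (hy' : y' ≠ x) (hxy' : S.Adj (flip x) y')
    (hnx : ∀ z, S.Adj x z → z = flip x ∨ z = y) (hnx' : ∀ z, S.Adj (flip x) z → z = x ∨ z = y') :
    l.vx y ≠ l.vx y' := by
  intro heq
  have hkf : I.kind (h.1 (flip x).1) = Kind.d := hk
  have hd : l.vx (flip x) = l.vx x := d_eq l hk
  have hff : flip (flip x) = x := flip_flip x
  have c1 : l.vx y = l.nb x ∨ (I.kind (h.1 y.1) = Kind.d ∧ l.vx y = l.μ (l.vx x)) := by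
    rcases padj_cases l (hS.adj x y hxy) with h1 | h1 | h1 | h1
    · exact absurd h1 hy
    · exact Or.inl (outer_nb l h1).1.symm
    · rw [hk] at h1
      exact absurd h1.1 (by simp)
    · exact Or.inr ⟨h1.2.1, h1.2.2⟩
  have c2 : l.vx y' = l.nb (flip x) ∨ (I.kind (h.1 y'.1) = Kind.d ∧ l.vx y' = l.μ (l.vx x)) := by
    rcases padj_cases l (hS.adj (flip x) y' hxy') with h1 | h1 | h1 | h1
    · rw [hff] at h1
      exact absurd h1 hy'
    · exact Or.inl (outer_nb l h1).1.symm
    · rw [hkf] at h1
      exact absurd h1.1 (by simp)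
    · refine Or.inr ⟨h1.2.1, ?_⟩
      rw [h1.2.2, hd]
  rcases c1 with h1 | ⟨hky, h1⟩
  · rcases c2 with h2 | ⟨hky', h2⟩
    · exact l.nb_d x hk (by rw [← h1, heq, h2])
    · exact l.nb_μ x (by rw [← h1, heq, h2])
  · rcases c2 with h2 | ⟨hky', h2⟩
    · have h3 := l.nb_μ (flip x)
      rw [hd] at h3
      exact h3 (by rw [← h2, ← heq, h1])
    · have hmy : S.Adj y (flip y) := hS.mid y (by
        show I.kind (h.1 y.1) ≠ Kind.c
        rw [hky]
        simp)
      have hmy' : S.Adj (flip y) y := hmy.symm
      have e1 : flip y ≠ x := by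
        intro h3
        apply hy
        rw [← h3, flip_flip]
      have e2 : flip y ≠ flip x := by
        intro h3
        have h4 : y = x := by rw [← flip_flip y, h3, flip_flip]
        rw [h4] at hxy
        exact S.irrefl hxy
      rcases eq_or_flip (vx_slot l heq) with h3 | h3
      · -- the same position
        rw [h3] at hxy'
        have h4 := inh4_three (hS.deg y) (a := flip y) (b := x) (c := flip x) hmy hxy.symm
          hxy'.symm e1 e2
        exact inh4_flip_ne x h4.symm
      · rw [h3] at hxy' hnx'
        have hny : ∀ z, S.Adj y z → z = x ∨ z = flip y := by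
          intro z hz
          by_contra hc
          rw [not_or] at hc
          have h5 := inh4_three (hS.deg y) (a := z) (b := x) (c := flip y) hz hxy.symm hmy hc.1 hc.2
          exact e1 h5.symm
        have hny' : ∀ z, S.Adj (flip y) z → z = flip x ∨ z = y := by
          intro z hz
          by_contra hc
          rw [not_or] at hc
          have h5 := inh4_three (hS.deg (flip y)) (a := z) (b := flip x) (c := y) hz hxy'.symm hmy'
            hc.1 hc.2
          exact hy h5.symm
        have hall := inh4_closed hS.conn (T := ({x, flip x, y, flip y} : Set (ι × Bool))) (x := x)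
          (by simp) (by
            intro a ha b hab
            simp only [Set.mem_insert_iff, Set.mem_singleton_iff] at ha ⊢
            rcases ha with rfl | rfl | rfl | rfl
            · rcases hnx b hab with h5 | h5 <;> simp [h5]
            · rcases hnx' b hab with h5 | h5 <;> simp [h5]
            · rcases hny b hab with h5 | h5 <;> simp [h5]
            · rcases hny' b hab with h5 | h5 <;> simp [h5])
        have h6 : (Finset.univ : Finset (ι × Bool)) ⊆ {x, flip x, y, flip y} := by
          intro z _
          have := hall z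
          simpa using this
        have h7 := Finset.card_le_card h6
        have h8 : ({x, flip x, y, flip y} : Finset (ι × Bool)).card ≤ 4 := Finset.card_le_four
        rw [Finset.card_univ, Fintype.card_prod, Fintype.card_bool] at h7
        omega

theorem hc_deg_d (l : Loc G E A1 tc I h) {S : SimpleGraph (ι × Bool)} (hS : IsHAM I h S)
    (hn : 3 ≤ Fintype.card ι) {p : ι} (hk : I.kind (h.1 p) = Kind.d) {v : V} (hv : v ∈ l.pth p) :
    ((hcG l S).neighborSet v).ncard = 2 := by
  obtain ⟨x, hxp, hxv⟩ := pth_ex l (by rw [hk]; simp) hv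
  have hkx : I.kind (h.1 x.1) = Kind.d := by rw [hxp]; exact hk
  have hkf : I.kind (h.1 (flip x).1) = Kind.d := hkx
  have hd : l.vx (flip x) = l.vx x := d_eq l hkx
  have hff : flip (flip x) = x := flip_flip x
  obtain ⟨y, hy, hxy, hnx, -⟩ := s_nb l hS (x := x) (by rw [hkx]; simp)
  obtain ⟨y', hy', hxy', hnx', -⟩ := s_nb l hS (x := flip x) (by rw [hkf]; simp)
  rw [hff] at hy' hnx'
  have hne := inh4_ne l hS hn hkx hy hxy hy' hxy' hnx hnx'
  have hset : (hcG l S).neighborSet v = {l.vx y, l.vx y'} := by
    ext u
    simp only [SimpleGraph.mem_neighborSet, Set.mem_insert_iff, Set.mem_singleton_iff]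
    constructor
    · rintro ⟨-, ⟨a, b, hab, hf, ha, hb⟩ | ⟨q, hq, hc⟩⟩
      · have h1 : x.1 = a.1 := vx_slot l (by rw [hxv, ha])
        rcases eq_or_flip h1 with rfl | rfl
        · rcases hnx b hab with h2 | h2
          · have := hf h2
            rw [hkx] at this
            exact absurd this (by simp)
          · left
            rw [← hb, h2]
        · rcases hnx' b hab with h2 | h2
          · have := hf (by rw [hff]; exact h2)
            rw [hkf] at this
            exact absurd this (by simp)
          · right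
            rw [← hb, h2]
      · have h1 := l.uniq v p q hv (inh4_cns_mem hc)
        rw [← h1, hk] at hq
        exact absurd hq (by simp)
    · rintro (rfl | rfl)
      · rw [← hxv]
        exact (s_adj_vx l hS hxy fun h1 => absurd h1 hy).2
      · rw [← hxv, ← hd]
        exact (s_adj_vx l hS hxy' fun h1 => absurd (h1.trans hff) hy').2
  rw [hset, Set.ncard_pair hne]

/-- (5.1) -/
theorem hc_of_ham (l : Loc G E A1 tc I h) (hn : 3 ≤ Fintype.card ι) (hH : I.HAM h) : HC G E := by
  obtain ⟨S, h1, h2, h3, h4⟩ := hH
  have hS : IsHAM I h S := ⟨h1, h2, h3, h4⟩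
  refine ⟨hcG l S, hc_le l hS, fun v => ?_, hc_conn l hS, hc_mark l S⟩
  obtain ⟨p, hp⟩ := l.cover v
  rcases hk : I.kind (h.1 p) with _ | _ | _
  · exact hc_deg_c l hS hk hp
  · exact hc_deg_d l hS hn hk hp
  · exact hc_deg_b l hS hk hp

end Pool.Agent.H38H.IN
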