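import Pool.Agent.Lib.H38H.IN.P6

set_option autoImplicit false

namespace Pool.Agent.H38H.IN

open Classical

namespace Dat
variable {V : Type} [Fintype V] (D : Dat V)

/-! Chunk INP8 (M): numbering the links, counting. exists_half: a fixed point free involution `τ` of a finite type `O`: let `ι = {p : O | idx p < idx (τ p)}` for an injection `idx : O → ℕ` (Fintype.equivFin); `e (p,false) = p`, `e (p,true) = τ p`.
card_v: every vertex is on the path of an open port `p = e (a, b)`, and `pp (tau p) = (pp p).reverse`, so `V` is the union over `a` of the sets of vertices of `pp (e (a,false))`, at most 4 vertices each (pp_len).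
card_ports: every port is open (`2 |ι|`), InX (`2 |ξ|`: at most), or dead (`A`: one port per element since not in 2-cycles; InM: the port `(v,false)`, `v` in a mark: at most `2 |E|`).
card_i: open ports are at most `2 |V|`. -/

theorem exists_half : ∃ (ι : Type) (_ : Fintype ι) (e : ι × Bool ≃ {p : Port D.π // D.Opn p}),
    ∀ x, (e (flip x)).1 = D.tau (e x).1 := by
  have hft : Fintype {p : Port D.π // D.Opn p} := inferInstance
  obtain ⟨idx, hidx⟩ : ∃ idx : {p : Port D.π // D.Opn p} → ℕ, Function.Injective idx :=
    ⟨fun p => (Fintype.equivFin _ p : ℕ), fun a b h => (Fintype.equivFin _).injective (Fin.ext h)⟩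
  let τ : {p : Port D.π // D.Opn p} → {p : Port D.π // D.Opn p} := fun p => ⟨D.tau p.1, D.opn_tau p.2⟩
  have hττ : ∀ p, τ (τ p) = p := fun p => Subtype.ext (D.tau_tau p.2)
  have hτn : ∀ p, τ p ≠ p := fun p h => D.tau_ne p.2 (congrArg Subtype.val h)
  let ι : Type := {p : {p : Port D.π // D.Opn p} // idx p < idx (τ p)}
  let e : ι × Bool ≃ {p : Port D.π // D.Opn p} :=
    { toFun := fun x => if x.2 then τ x.1.1 else x.1.1
      invFun := fun q => if h : idx q < idx (τ q) then (⟨q, h⟩, false) else
        (⟨τ q, by
          rw [hττ]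
          exact lt_of_le_of_ne (not_lt.1 h) (fun h2 => hτn q (hidx h2))⟩, true)
      left_inv := by
        rintro ⟨⟨p, hp⟩, b⟩
        cases b with
        | false =>
          show (if h : idx p < idx (τ p) then _ else _) = _
          rw [dif_pos hp]
          rfl
        | true =>
          show (if h : idx (τ p) < idx (τ (τ p)) then _ else _) = _
          rw [dif_neg (by rw [hττ]; exact not_lt.2 hp.le)]
          refine Prod.ext (Subtype.ext ?_) rfl
          exact hττ p
      right_inv := by
        intro q
        by_cases h : idx q < idx (τ q)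
        · simp only [dif_pos h]
          rfl
        · simp only [dif_neg h]
          exact hττ q }
  refine ⟨ι, Fintype.ofFinite _, e, ?_⟩
  rintro ⟨p, b⟩
  cases b with
  | false => rfl
  | true =>
    show p.1.1 = D.tau (D.tau p.1.1)
    exact (D.tau_tau p.1.2).symm

theorem inp8_len {p : Port D.π} (hp : D.Opn p) : (D.pp p).length ≤ 4 := by
  obtain ⟨h1, h2, h3⟩ := D.pp_len hp
  cases hk : D.kdp p with
  | b => exact (h3 hk).2
  | c =>
    rw [h1 hk]
    omega
  | d =>
    rw [h2 hk]
    omega

theorem card_v {ι : Type} [Fintype ι] (e : ι × Bool ≃ {p : Port D.π // D.Opn p})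
    (he : ∀ x, (e (flip x)).1 = D.tau (e x).1) : Fintype.card V ≤ 4 * Fintype.card ι := by
  have hsub : (Finset.univ : Finset V) ⊆
      (Finset.univ : Finset ι).biUnion (fun a => (D.pp (e (a, false)).1).toFinset) := by
    intro v _
    obtain ⟨p, hp, hv⟩ := D.pp_cover v
    rw [Finset.mem_biUnion]
    obtain ⟨⟨a, b⟩, hab⟩ := e.surjective ⟨p, hp⟩
    refine ⟨a, Finset.mem_univ _, ?_⟩
    rw [List.mem_toFinset]
    cases b with
    | false =>
      rw [hab]
      exact hv
    | true =>
      have h1 := he (a, false)
      have h2 : flip ((a, false) : ι × Bool) = (a, true) := rfl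
      rw [h2, hab] at h1
      have h3 : p = D.tau (e (a, false)).1 := h1
      rw [h3, D.pp_tau (e (a, false)).2, List.mem_reverse] at hv
      exact hv
  have h1 := Finset.card_le_card hsub
  rw [Finset.card_univ] at h1
  refine h1.trans ?_
  refine (Finset.card_biUnion_le_card_mul _ _ 4 (fun a _ => ?_)).trans ?_
  · exact (List.toFinset_card_le _).trans (D.inp8_len (e (a, false)).2)
  · rw [Finset.card_univ, mul_comm]

theorem card_i {ι : Type} [Fintype ι] (e : ι × Bool ≃ {p : Port D.π // D.Opn p}) :
    Fintype.card ι ≤ Fintype.card V := by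
  have h1 : Function.Injective (fun x : ι × Bool => ((e x).1.1 : V × Bool)) := by
    intro x y h
    exact e.injective (Subtype.ext (Subtype.ext h))
  have h2 := Fintype.card_le_of_injective _ h1
  rw [Fintype.card_prod, Fintype.card_prod, Fintype.card_bool] at h2
  omega

theorem inp8_sym {P : Type} (s : Finset (Sym2 P)) :
    (s.biUnion (fun x => x.toFinset)).card ≤ 2 * s.card := by
  refine (Finset.card_biUnion_le_card_mul _ _ 2 (fun x _ => ?_)).trans ?_
  · rw [Sym2.card_toFinset]
    split_ifs <;> omega
  · rw [mul_comm]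

theorem card_ports {ι : Type} [Fintype ι] (e : ι × Bool ≃ {p : Port D.π // D.Opn p}) :
    Fintype.card (Port D.π) ≤ 2 * Fintype.card ι + 2 * D.ξ.card + (D.A.card + 2 * D.E.card) := by
  have hopn : (Finset.univ.filter (fun p : Port D.π => D.Opn p)).card = 2 * Fintype.card ι := by
    rw [← Fintype.card_subtype, ← Fintype.card_congr e, Fintype.card_prod, Fintype.card_bool, mul_comm]
  have hX : (Finset.univ.filter (fun p : Port D.π => InX D.ξ p)).card ≤ 2 * D.ξ.card := by
    refine (Finset.card_le_card ?_).trans (inp8_sym D.ξ)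
    intro p hp
    obtain ⟨q, hq⟩ := (Finset.mem_filter.1 hp).2
    rw [Finset.mem_biUnion]
    exact ⟨_, hq, by rw [Sym2.mem_toFinset]; exact Sym2.mem_mk_left p q⟩
  have hA : (Finset.univ.filter (fun p : Port D.π => p.1.1 ∈ D.A)).card ≤ D.A.card := by
    refine Finset.card_le_card_of_injOn (fun p => p.1.1) ?_ ?_
    · intro p hp
      exact Finset.mem_coe.2 (Finset.mem_filter.1 (Finset.mem_coe.1 hp)).2
    · intro p hp q hq hpq
      have hp' := (Finset.mem_filter.1 (Finset.mem_coe.1 hp)).2
      have hq' := (Finset.mem_filter.1 (Finset.mem_coe.1 hq)).2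
      have h1 : ∀ p : Port D.π, p.1.1 ∈ D.A → p.1.2 = false := by
        intro p hp
        by_contra h
        have h2 : p.1.2 = true := by
          cases hb : p.1.2 with
          | false => exact absurd hb h
          | true => rfl
        exact D.mat.nd _ hp (p.2 h2)
      exact Subtype.ext (Prod.ext hpq ((h1 p hp').trans (h1 q hq').symm))
  have hM : (Finset.univ.filter (fun p : Port D.π => D.InM p)).card ≤ 2 * D.E.card := by
    refine le_trans ?_ (inp8_sym D.E)
    refine Finset.card_le_card_of_injOn (fun p => p.1.1) ?_ ?_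
    · intro p hp
      obtain ⟨-, -, h3⟩ := (Finset.mem_filter.1 (Finset.mem_coe.1 hp)).2
      refine Finset.mem_coe.2 (Finset.mem_biUnion.2 ⟨_, h3, ?_⟩)
      rw [Sym2.mem_toFinset]
      exact Sym2.mem_mk_left _ _
    · intro p hp q hq hpq
      obtain ⟨h1, -, -⟩ := (Finset.mem_filter.1 (Finset.mem_coe.1 hp)).2
      obtain ⟨h2, -, -⟩ := (Finset.mem_filter.1 (Finset.mem_coe.1 hq)).2
      exact Subtype.ext (Prod.ext hpq (h1.trans h2.symm))
  have hcov : (Finset.univ : Finset (Port D.π)) ⊆ Finset.univ.filter (fun p : Port D.π => D.Opn p) ∪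
      (Finset.univ.filter (fun p : Port D.π => InX D.ξ p) ∪
      (Finset.univ.filter (fun p : Port D.π => p.1.1 ∈ D.A) ∪
        Finset.univ.filter (fun p : Port D.π => D.InM p))) := by
    intro p _
    by_contra h
    simp only [Finset.mem_union, Finset.mem_filter, Finset.mem_univ, true_and, not_or] at h
    obtain ⟨h1, h2, h3, h4⟩ := h
    exact h1 ⟨h3, fun h5 => h5.elim h2 h4⟩
  have h1 := Finset.card_le_card hcov
  rw [Finset.card_univ] at h1
  have u1 := Finset.card_union_le (Finset.univ.filter (fun p : Port D.π => D.Opn p))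
      (Finset.univ.filter (fun p : Port D.π => InX D.ξ p) ∪
      (Finset.univ.filter (fun p : Port D.π => p.1.1 ∈ D.A) ∪
        Finset.univ.filter (fun p : Port D.π => D.InM p)))
  have u2 := Finset.card_union_le (Finset.univ.filter (fun p : Port D.π => InX D.ξ p))
      (Finset.univ.filter (fun p : Port D.π => p.1.1 ∈ D.A) ∪
        Finset.univ.filter (fun p : Port D.π => D.InM p))
  have u3 := Finset.card_union_le (Finset.univ.filter (fun p : Port D.π => p.1.1 ∈ D.A))
        (Finset.univ.filter (fun p : Port D.π => D.InM p))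
  omega

end Dat

end Pool.Agent.H38H.IN
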