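import Pool.Agent.Lib.H38H.IN.R8

set_option autoImplicit false

namespace Pool.Agent.H38H.IN

open Classical

variable {V ι : Type} [Fintype V] [Fintype ι] {L : ℕ} {G : SimpleGraph V} {E : Finset (Sym2 V)}
    {A1 : Finset V} {tc : Finset (Finset V)} {I : Inst ι L} {h : SB ι} {r K s κ κ' : ℕ}

/-! Chunk INR9 (M): the fields mixed and noTiny, assembly of `RC`.
rc_mixed: `q` comes from `q'` (node_cons), `v = vx p.2` and `u = vx q.1 = μ (vx q'.2)` lie in one slot of kind not b (node_kind for `p`, step_facts). same_obj. Exact distances `a = δ + 2|m|` of `v` and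
`b = δ + 2|m'| + 1` of `u`; different parity, so `v ≠ u` and by slot_adj kind c, `p.2 = flip q.1`, adjacent. If `a = 0`: type 2, `p = (x,x)`, `u` is on the path of the slot of `x`, in `Z x`, so `b = 0`, contradiction.
Otherwise rigid_adj. (i) `a = b + 1`: then `m` is not empty (`a ≥ 2`), `m = β :: m1`, `p` from `p'`: `vx p.1` and `u` are neighbours of `v` one closer, so equal; apply `μ`: `vx p'.2 = vx q'.2`,
node_unique: `x = y`, `m1 = m'`; `vx p.1 = vx q.1` and kind c give `p.1 = q.1` (vx_inj), `p.2 = flip p.1`. (ii) `b = a + 1`: `vx q'.2` and `v` are neighbours of `u` one closer, equal, so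
`v = μ u`; but `v ∈ pth` of the slot of `u`, against μ_ne.
rc_noTiny: node_cons, `vx p.1 = μ (vx p'.2)` has exact distance at least 1 from `Ω`, `vx p.2` at least 2. If `p.1` is tiny: `vx p.1 ∈ Z p.1`; type 1: z_obj; type 2: z_z gives
`SameF x p.1`, so `vx p.1 ∈ Z x = Ω`, exact distance 0, a contradiction. Same for `p.2`. rc_of_loc: root_at, node_ok, R8. -/

theorem rc_mixed (l : Loc G E A1 tc I h) (H : RCH G E A1 tc r K s κ κ') {T : Finset (ι × Bool)}
    (hT : I.ValidT K T) {x y : ι × Bool} (hx : I.Root T x) (hy : I.Root T y) (c : Bool)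
    (m m' : List Bool) (hm : m.length ≤ r) (hm' : m'.length < r) {p q : (ι × Bool) × (ι × Bool)}
    (hp : I.node h x m = some p) (hq : I.node h y (c :: m') = some q) (hpq : p.2.1 = q.1.1) :
    x = y ∧ p.2 = flip p.1 ∧ ∃ b, m = b :: m' := by
  obtain ⟨Ω, δ, hx'⟩ := root_at l H hT hx
  obtain ⟨Ω', δ', hy'⟩ := root_at l H hT hy
  have hRx := root_rigid l H hx'
  have hRy := root_rigid l H hy'
  have hc := H.c1
  obtain ⟨q', hq', hs'⟩ := node_cons l hq
  have hk := node_kind l H hx' m hm hp
  have k1 := (node_level l H hx' m hm hp).1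
  obtain ⟨w, x'⟩ := p
  obtain ⟨w1, x1⟩ := q
  obtain ⟨g1, g2, g3, g4, g5, g6, g7⟩ := step_facts l hs'
  have k2 := ((node_level l H hy' m' (by omega) hq').2 g1)
  have k3 := (node_level l H hy' m' (by omega) hq').1
  rw [← g3] at k2
  obtain ⟨k2, k4⟩ := k2
  simp only at hpq hk k1
  rcases slot_adj l hpq hk with h1 | ⟨h1, h2, h3⟩
  · exfalso
    have a1 : l.vx x' ∈ Lev G Ω (2 * r + 5) := lev_mono G Ω (by omega) k1.1
    have a2 : l.vx x' ∈ Lev G Ω' (2 * r + 5) := by
      rw [h1]
      exact lev_mono G Ω' (by omega) k2.1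
    obtain ⟨rfl, rfl⟩ := same_obj l H hx' hy' le_rfl a1 a2
    rw [← h1] at k2
    have := exa_unique G k1 k2
    omega
  · have a1 : l.vx w1 ∈ Lev G Ω (2 * r + 5) := lev_mono G Ω (by omega) (lev_adj G k1.1 h3)
    have a2 : l.vx w1 ∈ Lev G Ω' (2 * r + 5) := lev_mono G Ω' (by omega) k2.1
    obtain ⟨rfl, rfl⟩ := same_obj l H hx' hy' le_rfl a1 a2
    by_cases hz : δ + 2 * m.length = 0
    · exfalso
      have hδ : δ = 0 := by omega
      have hmm : m = [] := List.eq_nil_of_length_eq_zero (by omega)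
      subst hδ
      subst hmm
      simp only [Inst.node, Option.some.injEq, Prod.mk.injEq] at hp
      obtain ⟨rfl, rfl⟩ := hp
      have hx2 : l.R2 K T x Ω := by
        rcases hx' with ⟨h4, -⟩ | ⟨-, h4⟩
        · omega
        · exact h4
      have h4 : l.vx w1 ∈ Ω := by
        rw [hx2.2.2, h2]
        exact z_sub l (sameF_flip I x) _ (vx_mem l _)
      have h5 := exa_le G k2 (n := 0) h4
      omega
    · obtain ⟨n, hn⟩ : ∃ n, δ + 2 * m.length = n + 1 := ⟨δ + 2 * m.length - 1, by omega⟩
      have k1' := k1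
      rw [hn] at k1'
      have h4 := rigid_adj G hRx.1 (by omega) (by omega) k1' k2 h3
      rcases h4 with h4 | h4
      · exfalso
        -- `w1` is one further than `x'`
        have h5 : l.vx q'.2 = l.vx x' := by
          refine rigid_unique G (n := δ + 2 * m'.length) hRx.1 (by omega) (z := l.vx w1) k2 ?_ ?_ k4.symm h3.symm
          · exact lev_mono G Ω (by omega) k3.1
          · exact lev_mono G Ω (by omega) k1.1
        rw [h5] at g3
        have h6 := (l.μ_ne x'.1 (l.vx x') (vx_mem l x') hk).2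
        rw [← g3, hpq] at h6
        exact h6 (vx_mem l w1)
      · cases m with
        | nil =>
          exfalso
          simp only [List.length_nil] at hn
          omega
        | cons β m1 =>
          simp only [List.length_cons] at hn hm k1
          obtain ⟨p', hp', hs⟩ := node_cons l hp
          obtain ⟨f1, f2, f3, f4, f5, f6, f7⟩ := step_facts l hs
          have j1 := ((node_level l H hx' m1 (by omega) hp').2 f1).1
          rw [← f3] at j1
          have h5 : l.vx w = l.vx w1 := by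
            refine rigid_unique G (n := n) hRx.1 (by omega) (z := l.vx x') k1' ?_ ?_ f4.symm h3
            · exact lev_mono G Ω (by omega) j1.1
            · exact lev_mono G Ω (by omega) k2.1
          have hpp : l.vx p'.2 = l.vx q'.2 := by
            rw [← l.μμ (l.vx p'.2), ← f3, h5, g3, l.μμ]
          obtain ⟨h6, h7⟩ := node_unique l H hT hx' hy' m1 m' (by omega) (by omega) hp' hq' hpp
          refine ⟨h6, ?_, β, by rw [h7]⟩
          have h8 : w.1 = x'.1 := by
            rw [vx_slot l h5, ← hpq]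
          have h9 : w = w1 := by
            refine vx_inj l h5 ?_
            rw [h8, h1]
            simp
          show x' = flip w
          rw [h9, h2, flip_flip]

theorem rc_noTiny (l : Loc G E A1 tc I h) (H : RCH G E A1 tc r K s κ κ') {T : Finset (ι × Bool)}
    (hT : I.ValidT K T) {x : ι × Bool} (hx : I.Root T x) (b : Bool) (m : List Bool) (hm : m.length < r)
    {p : (ι × Bool) × (ι × Bool)} (hp : I.node h x (b :: m) = some p) :
    ¬ I.Tiny K p.1 ∧ ¬ I.Tiny K p.2 := by
  obtain ⟨Ω, δ, hx'⟩ := root_at l H hT hx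
  have hRx := root_rigid l H hx'
  obtain ⟨p', hp', hs⟩ := node_cons l hp
  have k1 := (node_level l H hx' (b :: m) (by simpa using hm) hp).1
  simp only [List.length_cons] at k1
  obtain ⟨w, x'⟩ := p
  obtain ⟨f1, f2, f3, f4, f5, f6, f7⟩ := step_facts l hs
  have k2 := ((node_level l H hx' m (by omega) hp').2 f1).1
  rw [← f3] at k2
  have key : ∀ (z : ι × Bool) (k : ℕ), 1 ≤ k → k ≤ 2 * r + 5 → Exa G Ω k (l.vx z) → ¬ I.Tiny K z := by
    intro z k hk1 hk2 he hz
    have hzz : l.vx z ∈ l.Z z := z_sub l Relation.ReflTransGen.refl _ (vx_mem l z)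
    have h1 : l.vx z ∈ Lev G (l.Z z) (2 * r + 5) := lev_mono G _ (Nat.zero_le _) hzz
    have h2 : l.vx z ∈ Lev G Ω (2 * r + 5) := lev_mono G Ω hk2 he.1
    rcases hx' with ⟨-, hx1⟩ | ⟨-, hx2⟩
    · exact z_obj l H hz hx1.2.1 le_rfl h1 h2
    · obtain ⟨ht, -, rfl⟩ := hx2
      have h3 := z_z l H ht hz le_rfl h2 h1
      rw [← z_eq l h3] at hzz
      have h4 := exa_le G he (n := 0) hzz
      omega
  exact ⟨key w _ (by omega) (by omega) k2, key x' _ (by omega) (by omega) k1⟩

/-- (5.2) -/
theorem rc_of_loc (l : Loc G E A1 tc I h) (H : RCH G E A1 tc r K s κ κ') {T : Finset (ι × Bool)}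
    (hT : I.ValidT K T) : I.RC h r K T where
  ok x hx m hm := by
    obtain ⟨Ω, δ, hx'⟩ := root_at l H hT hx
    exact node_ok l H hx' m hm
  ends x y hx hy m m' hm hm' p q hp hq hpq := rc_ends l H hT hx hy m m' hm hm' hp hq hpq
  targets x y hx hy b c m m' hm hm' p q hp hq hpq := rc_targets l H hT hx hy b c m m' hm hm' hp hq hpq
  mixed x y hx hy c m m' hm hm' p q hp hq hpq := rc_mixed l H hT hx hy c m m' hm hm' hp hq hpq
  noTiny x hx b m hm p hp := rc_noTiny l H hT hx b m hm hp

end Pool.Agent.H38H.IN
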