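import Pool.Agent.Lib.H38H.IN.T3
import Pool.Agent.Lib.H38H.PR2

set_option autoImplicit false

namespace Pool.Agent.H38H.IN

open Classical

variable {ι P : Type} [Fintype ι] [Fintype P]

/-- adjacency of positions: mid edge, or matched by `R`; `e` identifies the positions with some of the points -/
def FAe (e : ι × Bool → P) (R : PM P) (x y : ι × Bool) : Prop := y = flip x ∨ R.1 (e x) = e y

/-- at most `L` components -/
def FewE (e : ι × Bool → P) (R : PM P) (L : ℕ) : Prop :=
  ∃ T : Finset (ι × Bool), T.card ≤ L ∧ ∀ x, ∃ t ∈ T, Relation.ReflTransGen (FAe e R) t x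

/-! Chunk INT4 (M): transport of few_count to the matchings of a type `P` (the ports) containing `ξ`, where the positions are embedded in `P` outside the points of `ξ`.
If no `R` contains `ξ` both sides are 0; otherwise `Marks ξ` (marks_of_contains). Let `P' = {x // ∀ f ∈ ξ, x ∉ f}`, `D = {x : P' // x ∉ range e}`;
`P' ≃ (ι × Bool) ⊕ D`. card_contains (PR2.lean): its proof gives the bijection from `{R // Contains R ξ}` to `PM P'` by restriction; compose
with the equivalence: `R ↦ R'` with `R'` a matching of `(ι × Bool) ⊕ D`, `R (e x) = e y ↔ R' (inl x) = inl y`. So FewE e R L ↔ FewC R' L, and few_count applies;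
`|D| = |P| - 2 |ι| - 2 |ξ| ≤ f`. -/

theorem int4_mem {α : Type} {ξ : Finset (Sym2 α)} {R : PM α} (hR : Contains R ξ) (x : α) :
    (∀ e ∈ ξ, R.1 x ∉ e) ↔ ∀ e ∈ ξ, x ∉ e := by
  have key : ∀ x, (∀ e ∈ ξ, x ∉ e) → ∀ e ∈ ξ, R.1 x ∉ e := by
    intro x hx e he hRx
    obtain ⟨y, rfl⟩ := Sym2.mem_iff_exists.1 hRx
    have h1 := hR _ _ he
    rw [R.2.1] at h1
    apply hx _ he
    rw [h1]
    exact Sym2.mem_mk_right _ _
  refine ⟨fun h1 => ?_, key x⟩
  have h2 := key (R.1 x) h1
  rwa [R.2.1] at h2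

/-- restriction of a matching to the points outside the pairs -/
def int4_res {α : Type} {ξ : Finset (Sym2 α)} {R : PM α} (hR : Contains R ξ) :
    PM {x : α // ∀ e ∈ ξ, x ∉ e} :=
  ⟨R.1.subtypePerm (fun x => int4_mem hR x),
    fun x => Subtype.ext (R.2.1 x.1), fun x hx => R.2.2 x.1 (congrArg Subtype.val hx)⟩

theorem int4_res_apply {α : Type} {ξ : Finset (Sym2 α)} {R : PM α} (hR : Contains R ξ)
    (x : {x : α // ∀ e ∈ ξ, x ∉ e}) : (((int4_res hR).1 x : {x : α // ∀ e ∈ ξ, x ∉ e}) : α) = R.1 x.1 := rfl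

theorem int4_inj {α : Type} {ξ : Finset (Sym2 α)} {R S : PM α} (hR : Contains R ξ) (hS : Contains S ξ)
    (h : int4_res hR = int4_res hS) : R = S := by
  apply Subtype.ext
  apply Equiv.ext
  intro x
  by_cases hx : ∀ e ∈ ξ, x ∉ e
  · have h1 := congrArg (fun Q : PM {x : α // ∀ e ∈ ξ, x ∉ e} =>
      ((Q.1 ⟨x, hx⟩ : {x : α // ∀ e ∈ ξ, x ∉ e}) : α)) h
    exact h1
  · push Not at hx
    obtain ⟨e, he, hxe⟩ := hx
    obtain ⟨y, rfl⟩ := Sym2.mem_iff_exists.1 hxe
    exact (hR x y he).trans (hS x y he).symm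

/-- transport of a matching along an equivalence -/
def int4_tr {α β : Type} (E : α ≃ β) (R : PM β) : PM α :=
  ⟨E.trans (R.1.trans E.symm), by
    refine ⟨fun x => ?_, fun x h => ?_⟩
    · simp only [Equiv.trans_apply, Equiv.apply_symm_apply, R.2.1, Equiv.symm_apply_apply]
    · simp only [Equiv.trans_apply] at h
      apply R.2.2 (E x)
      have h1 := congrArg E h
      rwa [Equiv.apply_symm_apply] at h1⟩

theorem int4_tr_apply {α β : Type} (E : α ≃ β) (R : PM β) (x : α) :
    (int4_tr E R).1 x = E.symm (R.1 (E x)) := rfl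

theorem int4_tr_inj {α β : Type} (E : α ≃ β) : Function.Injective (int4_tr E) := by
  intro R S h
  apply Subtype.ext
  apply Equiv.ext
  intro x
  have h1 : (int4_tr E R).1 (E.symm x) = (int4_tr E S).1 (E.symm x) := by rw [h]
  rw [int4_tr_apply, int4_tr_apply, Equiv.apply_symm_apply] at h1
  exact E.symm.injective h1

theorem few_count_port (e : ι × Bool → P) (he : Function.Injective e) (ξ : Finset (Sym2 P))
    (hξ : ∀ x, ∀ f ∈ ξ, e x ∉ f) (f L : ℕ) (hf : Fintype.card P ≤ 2 * Fintype.card ι + 2 * ξ.card + f) :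
    2 ^ (L + 1) * Nat.card {R : PM P // Contains R ξ ∧ ¬ FewE e R L} ≤
      (Fintype.card ι + 1) * 2 ^ f * Nat.card {R : PM P // Contains R ξ} := by
  by_cases hne : ∃ R : PM P, Contains R ξ
  swap
  · have hemp : IsEmpty {R : PM P // Contains R ξ ∧ ¬ FewE e R L} :=
      ⟨fun R => hne ⟨R.1, R.2.1⟩⟩
    rw [Nat.card_of_isEmpty, mul_zero]
    exact Nat.zero_le _
  obtain ⟨R₀, hR₀⟩ := hne
  have hM : Marks ξ := marks_of_contains hR₀
  let e' : ι × Bool → {x : P // ∀ f ∈ ξ, x ∉ f} := fun x => ⟨e x, hξ x⟩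
  have he' : Function.Injective e' := fun x y h => he (congrArg Subtype.val h)
  let D : Type := ((Set.range e')ᶜ : Set {x : P // ∀ f ∈ ξ, x ∉ f})
  have hFD : Fintype D := Fintype.ofFinite _
  let E : (ι × Bool) ⊕ D ≃ {x : P // ∀ f ∈ ξ, x ∉ f} :=
    (Equiv.sumCongr (Equiv.ofInjective e' he') (Equiv.refl D)).trans (Equiv.Set.sumCompl (Set.range e'))
  have hE : ∀ x : ι × Bool, E (Sum.inl x) = e' x := by
    intro x
    rfl
  have hcD : Fintype.card D ≤ f := by
    have h1 := card_compl hM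
    have h2 := Fintype.card_congr E
    rw [Fintype.card_sum, Fintype.card_prod, Fintype.card_bool] at h2
    omega
  have hfin : Finite (PM ((ι × Bool) ⊕ D)) := by
    unfold PM
    infer_instance
  have hcard : Nat.card {R : PM P // Contains R ξ} = Nat.card (PM ((ι × Bool) ⊕ D)) := by
    rw [card_contains hM, card_PM', card_PM']
    congr 1
    exact Nat.card_congr E.symm
  have hFA : ∀ (R : PM P) (hR : Contains R ξ), FAe e R = FAc (int4_tr E (int4_res hR)) := by
    intro R hR
    funext x y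
    apply propext
    unfold FAe FAc
    apply or_congr Iff.rfl
    rw [int4_tr_apply, Equiv.symm_apply_eq, hE, hE]
    constructor
    · intro h
      apply Subtype.ext
      rw [int4_res_apply]
      exact h
    · intro h
      have h1 := congrArg Subtype.val h
      rw [int4_res_apply] at h1
      exact h1
  have hFew : ∀ (R : PM P) (hR : Contains R ξ), FewE e R L ↔ FewC (int4_tr E (int4_res hR)) L := by
    intro R hR
    unfold FewE FewC
    rw [hFA R hR]
  have hle : Nat.card {R : PM P // Contains R ξ ∧ ¬ FewE e R L} ≤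
      Nat.card {R : PM ((ι × Bool) ⊕ D) // ¬ FewC R L} := by
    apply Nat.card_le_card_of_injective
      (fun R : {R : PM P // Contains R ξ ∧ ¬ FewE e R L} =>
        (⟨int4_tr E (int4_res R.2.1), fun h => R.2.2 ((hFew R.1 R.2.1).2 h)⟩ :
          {R : PM ((ι × Bool) ⊕ D) // ¬ FewC R L}))
    intro R S h
    have h1 := congrArg Subtype.val h
    apply Subtype.ext
    exact int4_inj R.2.1 S.2.1 (int4_tr_inj E h1)
  calc 2 ^ (L + 1) * Nat.card {R : PM P // Contains R ξ ∧ ¬ FewE e R L}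
      ≤ 2 ^ (L + 1) * Nat.card {R : PM ((ι × Bool) ⊕ D) // ¬ FewC R L} := Nat.mul_le_mul_left _ hle
    _ ≤ (Fintype.card ι + 1) * 2 ^ Fintype.card D * Nat.card (PM ((ι × Bool) ⊕ D)) := few_count L
    _ ≤ (Fintype.card ι + 1) * 2 ^ f * Nat.card (PM ((ι × Bool) ⊕ D)) :=
        Nat.mul_le_mul_right _ (Nat.mul_le_mul_left _ (Nat.pow_le_pow_right (by norm_num) hcD))
    _ = (Fintype.card ι + 1) * 2 ^ f * Nat.card {R : PM P // Contains R ξ} := by rw [hcard]

end Pool.Agent.H38H.IN
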