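import Pool.Agent.Lib.H38H.IN.Q9
import Pool.Agent.Lib.H38H.IN.P8
import Pool.Agent.Lib.H38H.IN.R9
import Pool.Agent.Lib.H38H.IN.H4
import Pool.Agent.Lib.H38H.IN.T4

set_option autoImplicit false

namespace Pool.Agent.H38H.IN

open Classical

variable {V : Type} [Fintype V]

/-- the matchings to be counted, for fixed data -/
def BadR (D : Dat V) (κ κ' : ℕ) (R : PM (Port D.π)) : Prop :=
  Cubic (Gr D.π R) ∧ Nice κ (Gr D.π R) D.E ∧ Clean (Gr D.π R) D.E κ' D.A1 D.tc ∧ ¬ HC (Gr D.π R) D.E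

/-! Chunk INF2 (M): the bound for fixed data. Take `ι, e, he` from exists_half, `n = |ι|` (card_v, card_i give `|V| ≤ 4n`, `n ≤ |V|`), `hnum` gives `L` etc. avg_count with `Γ = SB ι`, `act = D.act e`, `bad = BadR D κ κ'`, `Bad2 R = ¬ FewE (fun x => (e x).1) R L`, `B = K = n ^ (A+5)`.
hfix: a point `x` of a pair of `ξ` is InX, so not open: act_not. h1: `R` contains `ξ`, `FewE`: let `I = D.inst e he R L ..`. If `BadR (conjPM (act g) R)` then with `l = D.locOf e he R L .. g hc`: `RCH` (marks: D.marks; tcs; constants) gives `RC` for every valid `T` (rc_of_loc), and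
`HAM` would give `HC` (hc_of_ham), so `g` is in the set of the Slot Theorem (hslot, real inequality; `n ^ (A+5) * card ≤ card SB`, cast). h2: few_count_port with `f = |A| + 2|E|` (card_ports; `e x` is not in a pair of `ξ`): `2^(L+1) * X2 ≤ (n+1) 2^f * X`, and `B (n+1) 2^f ≤ 2^(L+1)`, so
`B * (n+1) 2^f * X2 ≤ (n+1) 2^f * X`, cancel. avg_count: `B * B * X1 ≤ 2 B * X`, cancel `B > 0` (n ≥ 3): `n^(A+5) X1 ≤ 2 X`; with `2 (4n)^(A+1) ≤ n^(A+5)` and `|V| ≤ 4n`: `|V|^(A+1) X1 ≤ X`. -/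

private theorem inf2_fix (D : Dat V) {ι : Type} [Fintype ι] (e : ι × Bool ≃ {p : Port D.π // D.Opn p})
    (g : SB ι) (f : Sym2 (Port D.π)) (hf : f ∈ D.ξ) (x : Port D.π) (hx : x ∈ f) : D.act e g x = x := by
  apply D.act_not e g
  rintro ⟨-, h⟩
  obtain ⟨y, rfl⟩ := Sym2.mem_iff_exists.1 hx
  exact h (Or.inl ⟨y, hf⟩)

private theorem inf2_bad (D : Dat V) {ι : Type} [Fintype ι] (e : ι × Bool ≃ {p : Port D.π // D.Opn p})
    (he : ∀ x, (e (flip x)).1 = D.tau (e x).1) {r K s κ κ' L : ℕ}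
    (htc : ∀ C ∈ D.tc, C.card ≤ s)
    (c1 : 8 * K + 20 * r + 100 ≤ κ') (c2 : κ' ≤ s) (c3 : 20 * s + 100 ≤ κ) (hn : 3 ≤ Fintype.card ι)
    (R : PM (Port D.π)) (hR : Contains R D.ξ)
    (b1 : 5 * (D.A.card + 2 * D.E.card) ≤ L) (b2 : 2 * longCycles D.π ≤ L)
    (b3 : FewE (fun x => (e x).1) R L) (g : SB ι) (hb : BadR D κ κ' (conjPM (D.act e g) R)) :
    (∀ T, (D.inst e he R L b1 b2 b3).ValidT K T → (D.inst e he R L b1 b2 b3).RC g r K T) ∧
      ¬ (D.inst e he R L b1 b2 b3).HAM g := by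
  obtain ⟨hc, hN, hC, hH⟩ := hb
  have l := D.locOf e he R L b1 b2 b3 hR g hc
  have H : RCH (Gr D.π (conjPM (D.act e g) R)) D.E D.A1 D.tc r K s κ κ' :=
    ⟨D.marks, hN, hC, htc, c1, c2, c3⟩
  exact ⟨fun T hT => rc_of_loc l H hT, fun hh => hH (hc_of_ham l hn hh)⟩

private theorem inf2_slot {ι : Type} [Fintype ι] {P Q : SB ι → Prop} (hPQ : ∀ g, P g → Q g) {n b : ℕ}
    (hn : 0 < n) (h : (Nat.card {g : SB ι // Q g} : ℝ) ≤ (Nat.card (SB ι) : ℝ) / (n : ℝ) ^ b) :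
    n ^ b * Nat.card {g : SB ι // P g} ≤ Nat.card (SB ι) := by
  have h1 : Nat.card {g : SB ι // P g} ≤ Nat.card {g : SB ι // Q g} := by
    apply Nat.card_le_card_of_injective (fun g : {g : SB ι // P g} => (⟨g.1, hPQ g.1 g.2⟩ : {g : SB ι // Q g}))
    intro a b hab
    have h2 := congrArg Subtype.val hab
    exact Subtype.ext h2
  have h2 : (0 : ℝ) < (n : ℝ) ^ b := by positivity
  rw [le_div_iff₀ h2] at h
  have h3 : n ^ b * Nat.card {g : SB ι // Q g} ≤ Nat.card (SB ι) := by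
    have h4 : ((n ^ b * Nat.card {g : SB ι // Q g} : ℕ) : ℝ) ≤ (Nat.card (SB ι) : ℝ) := by
      push_cast
      rw [mul_comm]
      exact h
    exact_mod_cast h4
  exact (Nat.mul_le_mul_left _ h1).trans h3

private theorem inf2_few {B n f f' L X2 X : ℕ} (h1 : 2 ^ (L + 1) * X2 ≤ (n + 1) * 2 ^ f * X) (hf : f ≤ f')
    (h2 : B * ((n + 1) * 2 ^ f') ≤ 2 ^ (L + 1)) : B * X2 ≤ X := by
  have h3 : B * ((n + 1) * 2 ^ f) ≤ 2 ^ (L + 1) :=
    (Nat.mul_le_mul_left _ (Nat.mul_le_mul_left _ (Nat.pow_le_pow_right (by norm_num) hf))).trans h2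
  have h4 : ((n + 1) * 2 ^ f) * (B * X2) ≤ ((n + 1) * 2 ^ f) * X := by
    calc ((n + 1) * 2 ^ f) * (B * X2) = (B * ((n + 1) * 2 ^ f)) * X2 := by ring
      _ ≤ 2 ^ (L + 1) * X2 := Nat.mul_le_mul_right _ h3
      _ ≤ _ := h1
  exact Nat.le_of_mul_le_mul_left h4 (by positivity)

private theorem inf2_end {B X1 X n v a : ℕ} (hB : 0 < B) (h1 : B * B * X1 ≤ (B + B) * X) (hv : v ≤ 4 * n)
    (h2 : 2 * (4 * n) ^ a ≤ B) : v ^ a * X1 ≤ X := by
  have h3 : B * X1 ≤ 2 * X := by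
    have h4 : B * (B * X1) ≤ B * (2 * X) := by
      calc B * (B * X1) = B * B * X1 := by ring
        _ ≤ (B + B) * X := h1
        _ = _ := by ring
    exact Nat.le_of_mul_le_mul_left h4 hB
  have h5 : v ^ a ≤ (4 * n) ^ a := Nat.pow_le_pow_left hv a
  have h6 : 2 * (v ^ a * X1) ≤ 2 * X := by
    calc 2 * (v ^ a * X1) = (2 * v ^ a) * X1 := by ring
      _ ≤ B * X1 := Nat.mul_le_mul_right _ ((Nat.mul_le_mul_left 2 h5).trans h2)
      _ ≤ _ := h3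
  omega

theorem per_dat (A r K n0 s κ κ' : ℕ)
    (hslot : ∀ n : ℕ, n0 ≤ n → ∀ L : ℕ, (L : ℝ) ≤ (Real.log n) ^ 3 →
      ∀ (ι : Type) [Fintype ι], Fintype.card ι = n → ∀ I : Inst ι L,
        (Nat.card {h : SB ι // (∀ T, I.ValidT K T → I.RC h r K T) ∧ ¬ I.HAM h} : ℝ) ≤
          (Nat.card (SB ι) : ℝ) / (n : ℝ) ^ (A + 5))
    (D : Dat V) (hA : D.A.card ≤ longCycles D.π) (htc : ∀ C ∈ D.tc, C.card ≤ s)
    (c1 : 8 * K + 20 * r + 100 ≤ κ') (c2 : κ' ≤ s) (c3 : 20 * s + 100 ≤ κ)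
    (hnum : ∀ n : ℕ, Fintype.card V ≤ 4 * n → n ≤ Fintype.card V →
      n0 ≤ n ∧ 3 ≤ n ∧ (∃ L : ℕ, (L : ℝ) ≤ (Real.log n) ^ 3 ∧
        5 * (longCycles D.π + 2 * D.E.card) ≤ L ∧ 2 * longCycles D.π ≤ L ∧
        n ^ (A + 5) * ((n + 1) * 2 ^ (longCycles D.π + 2 * D.E.card)) ≤ 2 ^ (L + 1)) ∧
        2 * (4 * n) ^ (A + 1) ≤ n ^ (A + 5)) :
    Fintype.card V ^ (A + 1) * Nat.card {R : PM (Port D.π) // Contains R D.ξ ∧ BadR D κ κ' R} ≤
      Nat.card {R : PM (Port D.π) // Contains R D.ξ} := by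
  obtain ⟨ι, hι, e, he⟩ := D.exists_half
  have hv := D.card_v e he
  have hi := D.card_i e
  have hp := D.card_ports e
  obtain ⟨g1, g2, ⟨L, l1, l2, l3, l4⟩, g3⟩ := hnum (Fintype.card ι) hv hi
  have b1 : 5 * (D.A.card + 2 * D.E.card) ≤ L := by omega
  have hB : 0 < Fintype.card ι ^ (A + 5) := by positivity
  have hinj : Function.Injective (fun x : ι × Bool => (e x).1) := fun x y h => e.injective (Subtype.ext h)
  have hξ : ∀ x : ι × Bool, ∀ f ∈ D.ξ, (e x).1 ∉ f := by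
    intro x f hf hx
    obtain ⟨y, rfl⟩ := Sym2.mem_iff_exists.1 hx
    exact (e x).2.2 (Or.inl ⟨y, hf⟩)
  have key := avg_count (Γ := SB ι) (fun g => D.act e g) D.ξ (inf2_fix D e) (BadR D κ κ')
    (fun R => ¬ FewE (fun x => (e x).1) R L) (Fintype.card ι ^ (A + 5)) (Fintype.card ι ^ (A + 5))
    (by
      intro R hR hF
      have hF' : FewE (fun x => (e x).1) R L := not_not.1 hF
      exact inf2_slot (fun g hg => inf2_bad D e he htc c1 c2 c3 g2 R hR b1 l3 hF' g hg) (by omega)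
        (hslot _ g1 L l1 ι rfl (D.inst e he R L b1 l3 hF')))
    (inf2_few (few_count_port (fun x : ι × Bool => (e x).1) hinj D.ξ hξ
      (D.A.card + 2 * D.E.card) L hp) (by omega) l4)
  exact inf2_end hB key hv g3


end Pool.Agent.H38H.IN
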