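import Pool.Agent.Lib.H38H.IN.G2

set_option autoImplicit false

namespace Pool.Agent.H38H.IN

open Classical

variable {V : Type} [Fintype V]

/-! Chunk ING3 (S/M): sets in which every vertex has at least two neighbours.
From `∑ v ∈ W, dg G v W = 2 * eIn G W` (sum_dg). cyc_ex3: the sum is at least `2 |W| + 1`, so `2 e ≥ 2 |W| + 1`, `e ≥ |W| + 1`.
cyc_card: a vertex and its two neighbours. cyc_out: if `z ∈ C` then `v` has three neighbours in `C`. -/

theorem cyc_ex (G : SimpleGraph V) {W : Finset V} (h : ∀ v ∈ W, 2 ≤ dg G v W) : 0 ≤ ex G W := by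
  have h1 := sum_dg G W
  have h2 : W.card * 2 ≤ ∑ v ∈ W, dg G v W := by
    have := Finset.card_nsmul_le_sum W (fun v => dg G v W) 2 h
    simpa using this
  unfold ex
  omega

theorem cyc_ex3 (G : SimpleGraph V) {W : Finset V} (h : ∀ v ∈ W, 2 ≤ dg G v W) {v : V} (hv : v ∈ W)
    (h3 : 3 ≤ dg G v W) : 1 ≤ ex G W := by
  have h1 := sum_dg G W
  have h2 : ∑ _u ∈ W, 2 < ∑ u ∈ W, dg G u W :=
    Finset.sum_lt_sum h ⟨v, hv, by omega⟩
  rw [Finset.sum_const, smul_eq_mul] at h2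
  unfold ex
  omega

theorem cyc_card (G : SimpleGraph V) {W : Finset V} (h : Cyc G W) : 3 ≤ W.card := by
  obtain ⟨v, hv⟩ := h.1.1
  have h1 := h.2 v hv
  unfold dg at h1
  have h2 : v ∉ W.filter (fun u => G.Adj v u) := by
    intro hh
    exact G.loopless.irrefl v (Finset.mem_filter.mp hh).2
  have h3 : insert v (W.filter (fun u => G.Adj v u)) ⊆ W := by
    intro x hx
    rcases Finset.mem_insert.mp hx with rfl | hx
    · exact hv
    · exact (Finset.mem_filter.mp hx).1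
  have h4 := Finset.card_le_card h3
  rw [Finset.card_insert_of_notMem h2] at h4
  omega

theorem two_le_dg (G : SimpleGraph V) {W : Finset V} {v y z : V} (hy : y ∈ W) (hz : z ∈ W) (hvy : G.Adj v y)
    (hvz : G.Adj v z) (hyz : y ≠ z) : 2 ≤ dg G v W := by
  unfold dg
  have h1 : ({y, z} : Finset V) ⊆ W.filter (fun u => G.Adj v u) := by
    intro x hx
    rw [Finset.mem_insert, Finset.mem_singleton] at hx
    rw [Finset.mem_filter]
    rcases hx with rfl | rfl
    · exact ⟨hy, hvy⟩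
    · exact ⟨hz, hvz⟩
  have h2 := Finset.card_le_card h1
  rwa [Finset.card_pair hyz] at h2

theorem exists_two (G : SimpleGraph V) {W : Finset V} {v : V} (h : 2 ≤ dg G v W) :
    ∃ y ∈ W, ∃ z ∈ W, y ≠ z ∧ G.Adj v y ∧ G.Adj v z := by
  unfold dg at h
  obtain ⟨y, hy, z, hz, hyz⟩ := Finset.one_lt_card.mp (show 1 < (W.filter (fun u => G.Adj v u)).card by omega)
  rw [Finset.mem_filter] at hy hz
  exact ⟨y, hy.1, z, hz.1, hyz, hy.2, hz.2⟩

theorem cyc_out (G : SimpleGraph V) {C : Finset V} (h : Cyc G C) (he : ex G C ≤ 0) {v y y' z : V} (hv : v ∈ C)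
    (hy : y ∈ C) (hy' : y' ∈ C) (hvy : G.Adj v y) (hvy' : G.Adj v y') (hyy : y ≠ y') (hvz : G.Adj v z)
    (hzy : z ≠ y) (hzy' : z ≠ y') : z ∉ C := by
  intro hz
  have h1 : ({y, y', z} : Finset V) ⊆ C.filter (fun u => G.Adj v u) := by
    intro x hx
    rw [Finset.mem_insert, Finset.mem_insert, Finset.mem_singleton] at hx
    rw [Finset.mem_filter]
    rcases hx with rfl | rfl | rfl
    · exact ⟨hy, hvy⟩
    · exact ⟨hy', hvy'⟩
    · exact ⟨hz, hvz⟩
  have h2 := Finset.card_le_card h1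
  rw [Finset.card_eq_three.mpr ⟨y, y', z, hyy, hzy.symm, hzy'.symm, rfl⟩] at h2
  have h3 := cyc_ex3 G h.2 hv (show 3 ≤ dg G v C from h2)
  omega

end Pool.Agent.H38H.IN
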