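import Pool.Agent.Lib.H38H.IN.Q0
import Pool.Agent.Lib.H38H.IN.G3

set_option autoImplicit false

namespace Pool.Agent.H38H.IN

open Classical

variable {V : Type} [Fintype V]

/-! Chunk INF3 (M): consequences of NICE and CLEAN for the fixed data, from one good matching. real_edges: `s(v, π v)`: adjacent in `Gr`; `s(p.1.1, q.1.1)` with `s(p,q) ∈ ξ`: `R p = q`, the vertices differ since marks are not diagonal.
dc1_of: two different marks `e = s(a,b)`, `f = s(c,d)` (four different vertices) with `v = π u`, `u ∈ e`, `v ∈ f`: `W = {a,b,c,d}` has the three edges `e`, `f`, `s(u,v)` and two marks: `5 > 4`, against Nice. dc2_of: let `u ∈ e` be `a`, `π a` or `π⁻¹ a`, `a ∈ A`. If `a ∈ A1`: `W = {a, u}` is connected (one or two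
adjacent vertices), at most 2 vertices, contains a mark endpoint, against Clean. If `a ∈ C ∈ tc`: `u ∈ C` (closed under π, π⁻¹), every vertex of `C` has two neighbours in `C` (`π v`, `π⁻¹ v`, different), so `ex C ≥ 0` (cyc_ex). `e = s(u,w)`. If `w ∈ C`: `ex C + mIn C ≥ 1`. Otherwise `W = insert w C`:
`ex W = ex C + dg w C - 1 ≥ 0` (ex_insert, `w` is adjacent to `u`), `mIn W ≥ 1`; `|W| ≤ s + 1 ≤ κ`. Against Nice. dc3_of: `p ≠ q` InX at the same vertex `v`: both mates in `ξ` have the vertex of the mark at `v` other than `v` (marks are disjoint), so `vert (R p) = vert (R q)`, `v` is in a 2-cycle and has at most 2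
neighbours `π v`, `vert (R p)` in `Gr`, against Cubic. -/

private theorem inf3_adj1 {π : Equiv.Perm V} (hπ : ∀ v, π v ≠ v) (R : PM (Port π)) (v : V) :
    (Gr π R).Adj v (π v) := ⟨(hπ v).symm, Or.inl rfl⟩

private theorem inf3_adj2 {π : Equiv.Perm V} (hπ : ∀ v, π v ≠ v) (R : PM (Port π)) (v : V) :
    (Gr π R).Adj v (π.symm v) := by
  have h := (inf3_adj1 hπ R (π.symm v)).symm
  rwa [Equiv.apply_symm_apply] at h

theorem real_edges {π : Equiv.Perm V} {E : Finset (Sym2 V)} {ξ : Finset (Sym2 (Port π))} (hπ : ∀ v, π v ≠ v)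
    (hE : Marks E) (hr : Realises π E ξ) {R : PM (Port π)} (hR : Contains R ξ) :
    ∀ e ∈ E, e ∈ (Gr π R).edgeSet := by
  intro e he
  rcases hr.2.1 e he with ⟨v, rfl⟩ | ⟨p, q, hpq, rfl⟩
  · exact inf3_adj1 hπ R v
  · rw [SimpleGraph.mem_edgeSet]
    refine ⟨fun h => hE.1 _ he ?_, Or.inr (Or.inr ⟨p, rfl, by rw [hR p q hpq]⟩)⟩
    rw [Sym2.mk_isDiag_iff]
    exact h

private theorem inf3_eIn3 (G : SimpleGraph V) {W : Finset V} {e f g : Sym2 V} (he : e ∈ G.edgeSet)
    (hf : f ∈ G.edgeSet) (hg : g ∈ G.edgeSet) (he' : e ∈ W.sym2) (hf' : f ∈ W.sym2) (hg' : g ∈ W.sym2)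
    (h1 : e ≠ f) (h2 : e ≠ g) (h3 : f ≠ g) : 3 ≤ eIn G W := by
  unfold eIn
  have h : ({e, f, g} : Finset (Sym2 V)) ⊆ W.sym2.filter (fun e => e ∈ G.edgeSet) := by
    intro x hx
    rw [Finset.mem_insert, Finset.mem_insert, Finset.mem_singleton] at hx
    rw [Finset.mem_filter]
    rcases hx with rfl | rfl | rfl
    · exact ⟨he', he⟩
    · exact ⟨hf', hf⟩
    · exact ⟨hg', hg⟩
  have h' := Finset.card_le_card h
  rwa [Finset.card_eq_three.mpr ⟨e, f, g, h1, h2, h3, rfl⟩] at h'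

theorem dc1_of {π : Equiv.Perm V} {E : Finset (Sym2 V)} {ξ : Finset (Sym2 (Port π))} (hπ : ∀ v, π v ≠ v)
    (hE : Marks E) (hr : Realises π E ξ) {R : PM (Port π)} (hR : Contains R ξ) {κ : ℕ} (hκ : 4 ≤ κ)
    (hN : Nice κ (Gr π R) E) : ∀ e ∈ E, ∀ f ∈ E, e ≠ f → ∀ u ∈ e, ∀ v ∈ f, v ≠ π u := by
  intro e he f hf hef u hu v hv hvu
  obtain ⟨a, rfl⟩ := Sym2.mem_iff_exists.1 hu
  obtain ⟨b, rfl⟩ := Sym2.mem_iff_exists.1 hv
  have h1 := hE.2 _ he _ hf hef u (Sym2.mem_mk_left _ _)
  have h2 := hE.2 _ he _ hf hef a (Sym2.mem_mk_right _ _)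
  rw [Sym2.mem_iff, not_or] at h1 h2
  have hadj : (Gr π R).Adj u v := by
    rw [hvu]
    exact inf3_adj1 hπ R u
  have hed := real_edges hπ hE hr hR
  have h3 : 3 ≤ eIn (Gr π R) {u, a, v, b} := by
    refine inf3_eIn3 (Gr π R) (hed _ he) (hed _ hf) (show s(u, v) ∈ (Gr π R).edgeSet from hadj) ?_ ?_ ?_ hef ?_ ?_
    · rw [Finset.mk_mem_sym2_iff]; simp
    · rw [Finset.mk_mem_sym2_iff]; simp
    · rw [Finset.mk_mem_sym2_iff]; simp
    · intro h
      rw [Sym2.eq_iff] at h
      rcases h with ⟨_, h⟩ | ⟨h, _⟩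
      · exact h2.1 h
      · exact h1.1 h
    · intro h
      rw [Sym2.eq_iff] at h
      rcases h with ⟨h, _⟩ | ⟨_, h⟩
      · exact h1.1 h.symm
      · exact h1.2 h.symm
  have h4 : 2 ≤ mIn E {u, a, v, b} := by
    unfold mIn
    have h : ({s(u, a), s(v, b)} : Finset (Sym2 V)) ⊆ E.filter (fun e => e ∈ ({u, a, v, b} : Finset V).sym2) := by
      intro x hx
      rw [Finset.mem_insert, Finset.mem_singleton] at hx
      rw [Finset.mem_filter]
      rcases hx with rfl | rfl
      · exact ⟨he, by rw [Finset.mk_mem_sym2_iff]; simp⟩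
      · exact ⟨hf, by rw [Finset.mk_mem_sym2_iff]; simp⟩
    have h' := Finset.card_le_card h
    rwa [Finset.card_pair hef] at h'
  have h5 : ({u, a, v, b} : Finset V).card ≤ 4 := Finset.card_le_four
  have h6 := hN {u, a, v, b} (h5.trans hκ)
  omega

private theorem inf3_inv {π : Equiv.Perm V} {C : Finset V} (hC : ∀ v ∈ C, π v ∈ C) {v : V} (hv : v ∈ C) :
    π.symm v ∈ C := by
  have h := Equiv.Perm.perm_symm_on_of_perm_on_finset (f := π) hC hv
  exact h

theorem dc2_of {π : Equiv.Perm V} {E : Finset (Sym2 V)} {ξ : Finset (Sym2 (Port π))} (hπ : ∀ v, π v ≠ v)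
    (hE : Marks E) (hr : Realises π E ξ) {R : PM (Port π)} (hR : Contains R ξ) {κ κ' s : ℕ}
    (hκ : s + 1 ≤ κ) (hκ' : 2 ≤ κ') (hN : Nice κ (Gr π R) E) {A A1 : Finset V} {tc : Finset (Finset V)}
    (hC : Clean (Gr π R) E κ' A1 tc) (hA : ∀ a ∈ A, a ∈ A1 ∨ ∃ C ∈ tc, a ∈ C)
    (htc : ∀ C ∈ tc, C.card ≤ s ∧ ∀ v ∈ C, π v ∈ C ∧ ¬ IsD π v) :
    ∀ a ∈ A, ∀ e ∈ E, a ∉ e ∧ π a ∉ e ∧ π.symm a ∉ e := by
  intro a ha e he
  have key : ∀ u : V, (u = a ∨ (Gr π R).Adj a u) → (∀ C : Finset V, (∀ v ∈ C, π v ∈ C) → a ∈ C → u ∈ C) →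
      u ∉ e := by
    intro u hu huC hue
    rcases hA a ha with h1 | ⟨C, hCt, haC⟩
    · have hcon : Con (Gr π R) (insert u {a}) := by
        rcases hu with rfl | hu
        · rw [Finset.insert_eq_of_mem (Finset.mem_singleton_self _)]
          exact con_singleton _ _
        · exact con_insert _ (con_singleton _ a) (Finset.mem_singleton_self a) hu
      have hcard : (insert u {a} : Finset V).card ≤ κ' := Finset.card_le_two.trans hκ'
      have h2 := (hC _ hcon hcard a h1 (by simp)).2.1 e he u hue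
      exact h2 (Finset.mem_insert_self _ _)
    · obtain ⟨hs, hcl⟩ := htc C hCt
      have hclπ : ∀ v ∈ C, π v ∈ C := fun v hv => (hcl v hv).1
      have huC' := huC C hclπ haC
      obtain ⟨w, rfl⟩ := Sym2.mem_iff_exists.1 hue
      have hadj : (Gr π R).Adj u w := real_edges hπ hE hr hR _ he
      have hex : 0 ≤ ex (Gr π R) C := by
        apply cyc_ex
        intro v hv
        refine two_le_dg (Gr π R) (hclπ v hv) (inf3_inv hclπ hv) (inf3_adj1 hπ R v) (inf3_adj2 hπ R v) ?_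
        intro h
        apply (hcl v hv).2
        show π (π v) = v
        rw [h, Equiv.apply_symm_apply]
      by_cases hw : w ∈ C
      · have h3 : 1 ≤ mIn E C := by
          unfold mIn
          exact Finset.card_pos.mpr ⟨_, Finset.mem_filter.mpr ⟨he, Finset.mk_mem_sym2_iff.mpr ⟨huC', hw⟩⟩⟩
        have h4 := hN C (by omega)
        unfold ex at hex
        omega
      · have h3 : 1 ≤ mIn E (insert w C) := by
          unfold mIn
          exact Finset.card_pos.mpr ⟨_, Finset.mem_filter.mpr ⟨he, Finset.mk_mem_sym2_iff.mpr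
            ⟨Finset.mem_insert_of_mem huC', Finset.mem_insert_self _ _⟩⟩⟩
        have h5 := ex_insert (Gr π R) C w hw
        have h6 : 1 ≤ dg (Gr π R) w C := by
          unfold dg
          exact Finset.card_pos.mpr ⟨u, Finset.mem_filter.mpr ⟨huC', hadj.symm⟩⟩
        have h7 := Finset.card_insert_of_notMem hw
        have h4 := hN (insert w C) (by omega)
        have h8 : ex (Gr π R) (insert w C) = (eIn (Gr π R) (insert w C) : ℤ) - ((insert w C).card : ℤ) := rfl
        omega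
  refine ⟨key a (Or.inl rfl) (fun C _ h => h), key (π a) (Or.inr (inf3_adj1 hπ R a)) (fun C hC h => hC a h),
    key (π.symm a) (Or.inr (inf3_adj2 hπ R a)) (fun C hC h => inf3_inv hC h)⟩

theorem dc3_of {π : Equiv.Perm V} {E : Finset (Sym2 V)} {ξ : Finset (Sym2 (Port π))}
    (hE : Marks E) (hr : Realises π E ξ) {R : PM (Port π)} (hR : Contains R ξ)
    (hc : Cubic (Gr π R)) : ∀ p q : Port π, InX ξ p → InX ξ q → p.1.1 = q.1.1 → p = q := by
  intro p q hp hq hpq
  by_contra hne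
  obtain ⟨p', hp'⟩ := hp
  obtain ⟨q', hq'⟩ := hq
  have h1 := (hr.2.2 p p' hp').1
  have h2 := (hr.2.2 q q' hq').1
  have h3 : s(p.1.1, p'.1.1) = s(q.1.1, q'.1.1) := by
    by_contra h
    exact hE.2 _ h1 _ h2 h p.1.1 (Sym2.mem_mk_left _ _) (by rw [hpq]; exact Sym2.mem_mk_left _ _)
  have h4 : p'.1.1 = q'.1.1 := by
    rw [hpq] at h3
    exact Sym2.congr_right.mp h3
  have hb : p.1.2 ≠ q.1.2 := by
    intro hb
    apply hne
    exact Subtype.ext (Prod.ext hpq hb)
  have hD : IsD π p.1.1 := by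
    by_cases h5 : p.1.2 = true
    · exact p.2 h5
    · have h6 : q.1.2 = true := by
        cases h7 : q.1.2
        · exfalso
          apply hb
          rw [h7]
          exact Bool.eq_false_of_not_eq_true h5
        · rfl
      rw [hpq]
      exact q.2 h6
  have hports : ∀ t : Port π, t.1.1 = p.1.1 → t = p ∨ t = q := by
    intro t ht
    by_cases h5 : t.1.2 = p.1.2
    · exact Or.inl (Subtype.ext (Prod.ext ht h5))
    · right
      apply Subtype.ext
      apply Prod.ext (ht.trans hpq)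
      revert h5 hb
      cases t.1.2 <;> cases p.1.2 <;> cases q.1.2 <;> simp
  have hsub : (Gr π R).neighborSet p.1.1 ⊆ {π p.1.1, p'.1.1} := by
    intro w hw
    rw [SimpleGraph.mem_neighborSet] at hw
    rcases hw.2 with h | h | ⟨t, ht, ht'⟩
    · exact Or.inl h.symm
    · left
      have h5 : π (π w) = π p.1.1 := by rw [h]
      rw [← h5, h]
      apply π.injective
      rw [h, show π (π p.1.1) = p.1.1 from hD]
    · right
      rcases hports t ht with rfl | rfl
      · rw [hR t p' hp'] at ht'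
        exact ht'.symm
      · rw [hR t q' hq'] at ht'
        show w = p'.1.1
        rw [h4]
        exact ht'.symm
  have h5 := Set.ncard_le_ncard hsub (Set.toFinite _)
  rw [hc] at h5
  have h6 := Set.ncard_insert_le (π p.1.1) {p'.1.1}
  rw [Set.ncard_singleton] at h6
  omega

end Pool.Agent.H38H.IN
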