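import Pool.Agent.Lib.H38H.IN.Q0
import Pool.Agent.Lib.H38H.IN.G3

set_option autoImplicit false

namespace Pool.Agent.H38H.IN

open Classical

variable {V : Type} [Fintype V]

/-- the point at position `i` after the base point `b` on its cycle -/
def ptB (π : Equiv.Perm V) (b : V) (i : ℕ) : V := (π ^ i) b

/-- base points of the odd cycles -/
structure Bases (π : Equiv.Perm V) (B : Finset V) : Prop where
  odd : ∀ b ∈ B, Odd (orb π b).card
  ex : ∀ v, Odd (orb π v).card → ∃ b ∈ B, π.SameCycle v b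
  uniq : ∀ b ∈ B, ∀ b' ∈ B, π.SameCycle b b' → b = b'

/-- base points of the long odd cycles -/
noncomputable def BL (π : Equiv.Perm V) (B : Finset V) (s : ℕ) : Finset V := B.filter (fun b => s < (orb π b).card)

/-- base points of the tiny odd cycles -/
noncomputable def BT (π : Equiv.Perm V) (B : Finset V) (s : ℕ) : Finset V := B.filter (fun b => (orb π b).card ≤ s)

/-- exceptional vertices on long odd cycles, for a choice `ch` -/
noncomputable def chA1 (π : Equiv.Perm V) (B : Finset V) (s : ℕ) (ch : {b // b ∈ BL π B s} → Fin s) : Finset V :=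
  Finset.univ.image (fun b => ptB π b.1 (ch b))

/-- all exceptional vertices -/
noncomputable def chA (π : Equiv.Perm V) (B : Finset V) (s : ℕ) (ch : {b // b ∈ BL π B s} → Fin s) : Finset V :=
  BT π B s ∪ chA1 π B s ch

/-- the tiny odd cycles -/
noncomputable def tcB (π : Equiv.Perm V) (B : Finset V) (s : ℕ) : Finset (Finset V) :=
  (BT π B s).image (orb π)

/-! Chunk INF4 (M): the odd cycles of a permutation and the choices on the long ones. bases_ex: one element in every odd class of SameCycle. bases_card: `b ↦ cycleOf π b` (support = orb, at least 3 elements: odd and more than 1 as `π b ≠ b`) is injective into the cycle factors counted by longCycles.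
ptB_inj: `(π^i) b = (π^j) b'` implies SameCycle, `b = b'`, and for `i, j < s < |orb b|`: `i = j` (the powers below the length of the cycle are distinct). chA_*: `SameCycle (ptB b i) b`, same orb. tc_*: `orb` is closed under `π`, 2-cycle vertices have orb of 2 elements (even);
a nonempty part of `orb b` closed under `π` is everything (all elements are `π^i u`, `i : ℕ`, V finite). tc_cyc: each `v` of `orb b` has the two different neighbours `π v`, `π⁻¹ v` in it; Con: a part `U` not closed under `π`. tc_pt: long cycles are disjoint from tiny ones. -/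

private theorem inf4_mem {π : Equiv.Perm V} {u v : V} : u ∈ orb π v ↔ π.SameCycle v u := by
  unfold orb
  rw [Finset.mem_filter]
  exact ⟨fun h => h.2, fun h => ⟨Finset.mem_univ _, h⟩⟩

private theorem inf4_orb {π : Equiv.Perm V} {u v : V} (h : π.SameCycle u v) : orb π u = orb π v := by
  ext w
  rw [inf4_mem, inf4_mem]
  exact ⟨fun h' => h.symm.trans h', fun h' => h.trans h'⟩

private theorem inf4_pt {π : Equiv.Perm V} (b : V) (i : ℕ) : π.SameCycle b (ptB π b i) :=
  ⟨(i : ℤ), by rw [zpow_natCast]; rfl⟩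

theorem bases_ex (π : Equiv.Perm V) : ∃ B, Bases π B := by
  let S := Equiv.Perm.SameCycle.setoid π
  let rep : V → V := fun v => (Quotient.mk S v).out
  have hrep : ∀ v, π.SameCycle (rep v) v := fun v => Quotient.exact (s := S) (Quotient.out_eq (s := S) (Quotient.mk S v))
  refine ⟨Finset.univ.filter (fun v => rep v = v ∧ Odd (orb π v).card), ?_, ?_, ?_⟩
  · intro b hb
    exact (Finset.mem_filter.1 hb).2.2
  · intro v hv
    refine ⟨rep v, Finset.mem_filter.2 ⟨Finset.mem_univ _, ?_, ?_⟩, (hrep v).symm⟩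
    · have h : Quotient.mk S (rep v) = Quotient.mk S v := Quotient.out_eq (s := S) (Quotient.mk S v)
      show (Quotient.mk S (rep v)).out = rep v
      rw [h]
    · rw [inf4_orb (hrep v)]
      exact hv
  · intro b hb b' hb' h
    have h1 := (Finset.mem_filter.1 hb).2.1
    have h2 := (Finset.mem_filter.1 hb').2.1
    have h3 : Quotient.mk S b = Quotient.mk S b' := Quotient.sound (s := S) h
    rw [← h1, ← h2]
    show (Quotient.mk S b).out = (Quotient.mk S b').out
    rw [h3]

private theorem inf4_three {π : Equiv.Perm V} (hπ : ∀ v, π v ≠ v) {b : V} (h : Odd (orb π b).card) :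
    3 ≤ (orb π b).card := by
  have h1 : ({b, π b} : Finset V) ⊆ orb π b := by
    intro x hx
    rw [Finset.mem_insert, Finset.mem_singleton] at hx
    rw [inf4_mem]
    rcases hx with rfl | rfl
    · exact Equiv.Perm.SameCycle.refl _ _
    · exact ⟨1, by simp⟩
  have h2 := Finset.card_le_card h1
  rw [Finset.card_pair (hπ b).symm] at h2
  obtain ⟨k, hk⟩ := h
  omega

theorem bases_card {π : Equiv.Perm V} (hπ : ∀ v, π v ≠ v) {B : Finset V} (hB : Bases π B) :
    B.card ≤ longCycles π := by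
  have h1 : longCycles π = (π.cycleFactorsFinset.filter (fun c => 3 ≤ c.support.card)).card := by
    unfold longCycles
    rw [Equiv.Perm.cycleType_def, Multiset.filter_map, Multiset.card_map]
    rfl
  rw [h1]
  have hsupp : ∀ b, (π.cycleOf b).support = orb π b := by
    intro b
    ext u
    rw [Equiv.Perm.mem_support_cycleOf_iff, inf4_mem, Equiv.Perm.mem_support]
    exact ⟨fun h => h.1, fun h => ⟨h, hπ b⟩⟩
  refine Finset.card_le_card_of_injOn (fun b => π.cycleOf b) ?_ ?_
  · intro b hb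
    rw [Finset.mem_coe, Finset.mem_filter, Equiv.Perm.cycleOf_mem_cycleFactorsFinset_iff]
    refine ⟨Equiv.Perm.mem_support.2 (hπ b), ?_⟩
    rw [hsupp]
    exact inf4_three hπ (hB.odd b hb)
  · intro b hb b' hb' h
    apply hB.uniq b hb b' hb'
    have h2 : (π.cycleOf b).support = (π.cycleOf b').support := congrArg Equiv.Perm.support h
    rw [hsupp, hsupp] at h2
    have h3 : b' ∈ orb π b' := inf4_mem.2 (Equiv.Perm.SameCycle.refl _ _)
    rw [← h2, inf4_mem] at h3
    exact h3

private theorem inf4_period {π : Equiv.Perm V} {b : V} {m : ℕ} (hm : 0 < m) (h : (π ^ m) b = b) :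
    orb π b ⊆ (Finset.range m).image (fun k => (π ^ k) b) := by
  intro u hu
  rw [inf4_mem] at hu
  obtain ⟨z, hz⟩ := hu
  rw [Finset.mem_image]
  have hm' : (0 : ℤ) < m := by exact_mod_cast hm
  refine ⟨(z % m).toNat, ?_, ?_⟩
  · rw [Finset.mem_range]
    have h1 := Int.emod_lt_of_pos z hm'
    have h2 := Int.emod_nonneg z hm'.ne'
    omega
  · have h2 := Int.emod_nonneg z hm'.ne'
    have h3 : (((z % m).toNat : ℕ) : ℤ) = z % m := Int.toNat_of_nonneg h2
    have h4 : z = z % m + m * (z / m) := (Int.emod_add_mul_ediv z m).symm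
    have h5 : (π ^ ((m : ℤ) * (z / m))) b = b := by
      rw [zpow_mul, zpow_natCast]
      have h6 : Function.IsFixedPt (π ^ m) b := h
      exact h6.perm_zpow (z / m)
    rw [← hz, h4, zpow_add, Equiv.Perm.mul_apply, h5, ← h4, ← zpow_natCast, h3]

private theorem inf4_inj {π : Equiv.Perm V} {b : V} {s : ℕ} (hs : s < (orb π b).card) :
    ∀ i j : ℕ, i < j → j < s → (π ^ i) b ≠ (π ^ j) b := by
  intro i j hij hj h
  have h1 : (π ^ (j - i)) b = b := by
    have h2 : (π ^ j) b = (π ^ i) ((π ^ (j - i)) b) := by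
      rw [← Equiv.Perm.mul_apply, ← pow_add]
      congr 2
      omega
    rw [h2] at h
    exact ((π ^ i).injective h).symm
  have h3 := Finset.card_le_card (inf4_period (by omega) h1)
  have h4 := Finset.card_image_le (s := Finset.range (j - i)) (f := fun k => (π ^ k) b)
  rw [Finset.card_range] at h4
  omega

theorem ptB_inj {π : Equiv.Perm V} {B : Finset V} (hB : Bases π B) {s : ℕ} (b b' : {b // b ∈ BL π B s})
    (i i' : Fin s) (h : ptB π b.1 i = ptB π b'.1 i') : b = b' ∧ i = i' := by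
  have h1 := Finset.mem_filter.1 b.2
  have h2 := Finset.mem_filter.1 b'.2
  have h3 : π.SameCycle b.1 b'.1 := by
    have h4 := inf4_pt (π := π) b.1 i
    rw [h] at h4
    exact h4.trans (inf4_pt (π := π) b'.1 i').symm
  have h5 := hB.uniq _ h1.1 _ h2.1 h3
  refine ⟨Subtype.ext h5, ?_⟩
  rw [← h5] at h
  by_contra hne
  rcases lt_or_gt_of_ne (fun e : i.1 = i'.1 => hne (Fin.ext e)) with h6 | h6
  · exact inf4_inj h1.2 _ _ h6 i'.2 h
  · exact inf4_inj h1.2 _ _ h6 i.2 h.symm

/-- the exceptional vertex on the cycle of a base point -/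
private noncomputable def inf4_g (π : Equiv.Perm V) (B : Finset V) (s : ℕ)
    (ch : {b // b ∈ BL π B s} → Fin s) (b : V) : V :=
  if h : b ∈ BL π B s then ptB π b (ch ⟨b, h⟩) else b

private theorem inf4_g_same {π : Equiv.Perm V} {B : Finset V} {s : ℕ} (ch : {b // b ∈ BL π B s} → Fin s)
    (b : V) : π.SameCycle b (inf4_g π B s ch b) := by
  unfold inf4_g
  split_ifs with h
  · exact inf4_pt _ _
  · exact Equiv.Perm.SameCycle.refl _ _

private theorem inf4_mem_chA {π : Equiv.Perm V} {B : Finset V} {s : ℕ} (ch : {b // b ∈ BL π B s} → Fin s)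
    {a : V} (ha : a ∈ chA π B s ch) : ∃ b ∈ B, inf4_g π B s ch b = a := by
  unfold chA at ha
  rcases Finset.mem_union.1 ha with ha | ha
  · have h1 := Finset.mem_filter.1 ha
    refine ⟨a, h1.1, ?_⟩
    unfold inf4_g
    rw [dif_neg]
    intro h
    have h2 := (Finset.mem_filter.1 h).2
    omega
  · unfold chA1 at ha
    obtain ⟨b, _, hb⟩ := Finset.mem_image.1 ha
    refine ⟨b.1, (Finset.mem_filter.1 b.2).1, ?_⟩
    unfold inf4_g
    rw [dif_pos b.2]
    exact hb

private theorem inf4_g_mem {π : Equiv.Perm V} {B : Finset V} {s : ℕ} (ch : {b // b ∈ BL π B s} → Fin s)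
    {b : V} (hb : b ∈ B) : inf4_g π B s ch b ∈ chA π B s ch := by
  unfold inf4_g chA
  split_ifs with h
  · apply Finset.mem_union_right
    exact Finset.mem_image.2 ⟨⟨b, h⟩, Finset.mem_univ _, rfl⟩
  · apply Finset.mem_union_left
    refine Finset.mem_filter.2 ⟨hb, ?_⟩
    by_contra h'
    exact h (Finset.mem_filter.2 ⟨hb, not_le.1 h'⟩)

theorem chA_odd {π : Equiv.Perm V} {B : Finset V} (hB : Bases π B) {s : ℕ} (ch : {b // b ∈ BL π B s} → Fin s) :
    ∀ a ∈ chA π B s ch, Odd (orb π a).card := by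
  intro a ha
  obtain ⟨b, hb, rfl⟩ := inf4_mem_chA ch ha
  rw [← inf4_orb (inf4_g_same ch b)]
  exact hB.odd b hb

theorem chA_ex {π : Equiv.Perm V} {B : Finset V} (hB : Bases π B) {s : ℕ} (ch : {b // b ∈ BL π B s} → Fin s) :
    ∀ v, Odd (orb π v).card → ∃ a ∈ chA π B s ch, π.SameCycle v a := by
  intro v hv
  obtain ⟨b, hb, h⟩ := hB.ex v hv
  exact ⟨inf4_g π B s ch b, inf4_g_mem ch hb, h.trans (inf4_g_same ch b)⟩

theorem chA_uniq {π : Equiv.Perm V} {B : Finset V} (hB : Bases π B) {s : ℕ} (ch : {b // b ∈ BL π B s} → Fin s) :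
    ∀ a ∈ chA π B s ch, ∀ a' ∈ chA π B s ch, π.SameCycle a a' → a = a' := by
  intro a ha a' ha' h
  obtain ⟨b, hb, rfl⟩ := inf4_mem_chA ch ha
  obtain ⟨b', hb', rfl⟩ := inf4_mem_chA ch ha'
  have h1 : π.SameCycle b b' := ((inf4_g_same ch b).trans h).trans (inf4_g_same ch b').symm
  rw [hB.uniq b hb b' hb' h1]

theorem chA_card {π : Equiv.Perm V} (hπ : ∀ v, π v ≠ v) {B : Finset V} (hB : Bases π B) {s : ℕ}
    (ch : {b // b ∈ BL π B s} → Fin s) : (chA π B s ch).card ≤ longCycles π := by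
  refine le_trans ?_ (bases_card hπ hB)
  have h1 : chA π B s ch ⊆ B.image (inf4_g π B s ch) := by
    intro a ha
    obtain ⟨b, hb, h⟩ := inf4_mem_chA ch ha
    exact Finset.mem_image.2 ⟨b, hb, h⟩
  exact (Finset.card_le_card h1).trans Finset.card_image_le

theorem chA_tc {π : Equiv.Perm V} {B : Finset V} {s : ℕ} (ch : {b // b ∈ BL π B s} → Fin s) :
    ∀ a ∈ chA π B s ch, a ∈ chA1 π B s ch ∨ ∃ C ∈ tcB π B s, a ∈ C := by
  intro a ha
  unfold chA at ha
  rcases Finset.mem_union.1 ha with ha | ha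
  · exact Or.inr ⟨orb π a, Finset.mem_image.2 ⟨a, ha, rfl⟩, inf4_mem.2 (Equiv.Perm.SameCycle.refl _ _)⟩
  · exact Or.inl ha

private theorem inf4_tc {π : Equiv.Perm V} {B : Finset V} {s : ℕ} {C : Finset V} (hC : C ∈ tcB π B s) :
    ∃ b ∈ B, (orb π b).card ≤ s ∧ orb π b = C := by
  obtain ⟨b, hb, h⟩ := Finset.mem_image.1 hC
  have h1 := Finset.mem_filter.1 hb
  exact ⟨b, h1.1, h1.2, h⟩

private theorem inf4_closed {π : Equiv.Perm V} {b v : V} (h : v ∈ orb π b) : π v ∈ orb π b := by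
  rw [inf4_mem] at h ⊢
  exact h.trans ⟨1, by simp⟩

theorem tc_π {π : Equiv.Perm V} {B : Finset V} (hB : Bases π B) (s : ℕ) :
    ∀ C ∈ tcB π B s, C.card ≤ s ∧ ∀ v ∈ C, π v ∈ C ∧ (π v ≠ v → ¬ IsD π v) := by
  intro C hC
  obtain ⟨b, hb, hs, rfl⟩ := inf4_tc hC
  refine ⟨hs, fun v hv => ⟨inf4_closed hv, fun hne hD => ?_⟩⟩
  have h1 := hB.odd b hb
  rw [inf4_orb (inf4_mem.1 hv)] at h1
  have h2 : (π ^ 2) v = v := by
    rw [pow_two, Equiv.Perm.mul_apply]
    exact hD
  have h3 := Finset.card_le_card (inf4_period (by norm_num) h2)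
  have h4 := Finset.card_image_le (s := Finset.range 2) (f := fun k => (π ^ k) v)
  rw [Finset.card_range] at h4
  have h5 : ({v, π v} : Finset V) ⊆ orb π v := by
    intro x hx
    rw [Finset.mem_insert, Finset.mem_singleton] at hx
    rw [inf4_mem]
    rcases hx with rfl | rfl
    · exact Equiv.Perm.SameCycle.refl _ _
    · exact ⟨1, by simp⟩
  have h6 := Finset.card_le_card h5
  rw [Finset.card_pair hne.symm] at h6
  obtain ⟨k, hk⟩ := h1
  omega

theorem tc_C {π : Equiv.Perm V} (B : Finset V) (s : ℕ) :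
    ∀ C ∈ tcB π B s, C.Nonempty ∧ ∀ U ⊆ C, U.Nonempty → (∀ v ∈ U, π v ∈ U) → U = C := by
  intro C hC
  obtain ⟨b, hb, hs, rfl⟩ := inf4_tc hC
  refine ⟨⟨b, inf4_mem.2 (Equiv.Perm.SameCycle.refl _ _)⟩, ?_⟩
  intro U hU hne hcl
  refine Finset.Subset.antisymm hU ?_
  obtain ⟨u, hu⟩ := hne
  intro w hw
  have h1 : π.SameCycle u w := (inf4_mem.1 (hU hu)).symm.trans (inf4_mem.1 hw)
  obtain ⟨i, _, hi⟩ := h1.exists_pow_eq'
  have h2 : ∀ i : ℕ, (π ^ i) u ∈ U := by
    intro i
    induction i with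
    | zero => exact hu
    | succ n ih =>
      rw [pow_succ', Equiv.Perm.mul_apply]
      exact hcl _ ih
  rw [← hi]
  exact h2 i

theorem tc_cyc {π : Equiv.Perm V} (hπ : ∀ v, π v ≠ v) {B : Finset V} (hB : Bases π B) (s : ℕ)
    (R : PM (Port π)) : ∀ C ∈ tcB π B s, Cyc (Gr π R) C ∧ C.card ≤ s := by
  intro C hC
  obtain ⟨h1, h2⟩ := tc_π hB s C hC
  obtain ⟨h3, h4⟩ := tc_C B s C hC
  refine ⟨⟨⟨h3, ?_⟩, ?_⟩, h1⟩
  · intro U hU hne hneq
    have h5 : ¬ ∀ v ∈ U, π v ∈ U := fun h => hneq (h4 U hU hne h)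
    push Not at h5
    obtain ⟨u, hu, hu'⟩ := h5
    exact ⟨u, hu, π u, (h2 u (hU hu)).1, hu', (hπ u).symm, Or.inl rfl⟩
  · intro v hv
    have h5 : π.symm v ∈ C := Equiv.Perm.perm_symm_on_of_perm_on_finset (f := π) (fun v hv => (h2 v hv).1) hv
    have h6 : (Gr π R).Adj v (π v) := ⟨(hπ v).symm, Or.inl rfl⟩
    have h7 : (Gr π R).Adj v (π.symm v) := by
      refine ⟨fun h => hπ (π.symm v) ?_, Or.inr (Or.inl (Equiv.apply_symm_apply _ _))⟩
      rw [Equiv.apply_symm_apply]
      exact h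
    refine two_le_dg (Gr π R) (h2 v hv).1 h5 h6 h7 ?_
    intro h
    apply (h2 v hv).2 (hπ v)
    show π (π v) = v
    rw [h, Equiv.apply_symm_apply]

theorem tc_pt {π : Equiv.Perm V} {B : Finset V} (hB : Bases π B) (s : ℕ) :
    ∀ C ∈ tcB π B s, ∀ (b : {b // b ∈ BL π B s}) (i : Fin s), ptB π b.1 i ∉ C := by
  intro C hC b i h
  obtain ⟨b0, hb0, hs, rfl⟩ := inf4_tc hC
  have h1 := Finset.mem_filter.1 b.2
  have h2 : π.SameCycle b0 b.1 := (inf4_mem.1 h).trans (inf4_pt b.1 i).symm
  have h3 := hB.uniq b0 hb0 b.1 h1.1 h2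
  rw [h3] at hs
  have h4 := h1.2
  omega

end Pool.Agent.H38H.IN
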