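import Pool.Agent.Lib.H38H.IN.Q0

set_option autoImplicit false

namespace Pool.Agent.H38H.IN

open Classical

variable {V : Type} [Fintype V]

/-! Chunk INP1 (M): the matching `μ`. `ℓ v = (orb π v).card`, the length of the cycle of `v`.
exists_idx: choose for every class of `π.SameCycle` a base point `b`: the element of `A` in the class if there is one (h3), any element otherwise. `idx v` = least `i : ℕ` with `(π ^ i) b = v`. The cycle of `b` is
`{π^i b | i < ℓ}`, `π^ℓ b = b`, these are distinct (Function.minimalPeriod, or Equiv.Perm.SameCycle.exists_pow_eq_of_mem_support and cycleOf). (i4): if `ℓ v` is odd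
then the base point is in `A` (h2), `idx v = 0` means that `v` is the base point.
mat_of_idx: `μ v = v` if `ℓ v` is odd and `idx v = 0`; `π v` if `ℓ v` odd, `idx v` odd, or `ℓ v` even, `idx v` even; `π⁻¹ v` otherwise. If `μ v = π v` then `idx v + 1 < ℓ v` by
parity, so `idx (π v) = idx v + 1` and `μ (π v) = v`. If `μ v = π⁻¹ v = w` then `idx v ≠ 0`, so by (i2) `idx w + 1 = idx v`, `μ w = π w = v`. `nd`: a 2-cycle has even length. `nb`: for `a ∈ A` the index is 0,
`ℓ ≥ 3` odd, so `idx (π a) = 1` and `idx (π⁻¹ a) = ℓ - 1` are not 0. -/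

theorem orb_apply (π : Equiv.Perm V) (v : V) : orb π (π v) = orb π v := by
  unfold orb
  ext u
  simp only [Finset.mem_filter, Finset.mem_univ, true_and]
  exact Equiv.Perm.sameCycle_apply_left

private theorem inp1_orb_symm (π : Equiv.Perm V) (v : V) : orb π (π.symm v) = orb π v := by
  rw [← orb_apply π (π.symm v), Equiv.apply_symm_apply]

/-- coordinates of a cycle -/
private theorem inp1_coord (π : Equiv.Perm V) (b : V) : ∃ m : ℕ, 0 < m ∧ m = (orb π b).card ∧ (π ^ m) b = b ∧
    (∀ v, π.SameCycle b v → ∃ i < m, (π ^ i) b = v) ∧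
    ∀ i < m, ∀ j < m, (π ^ i) b = (π ^ j) b → i = j := by
  have hper : Function.IsPeriodicPt π (orderOf π) b := by
    unfold Function.IsPeriodicPt Function.IsFixedPt
    rw [Equiv.Perm.iterate_eq_pow, pow_orderOf_eq_one]
    rfl
  have hpos : 0 < Function.minimalPeriod π b :=
    Function.minimalPeriod_pos_of_mem_periodicPts (Function.mk_mem_periodicPts (orderOf_pos π) hper)
  have hinj : ∀ i < Function.minimalPeriod π b, ∀ j < Function.minimalPeriod π b, (π ^ i) b = (π ^ j) b → i = j := by
    intro i hi j hj h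
    rw [← Equiv.Perm.iterate_eq_pow, ← Equiv.Perm.iterate_eq_pow] at h
    exact Function.iterate_injOn_Iio_minimalPeriod hi hj h
  have hsurj : ∀ v, π.SameCycle b v → ∃ i < Function.minimalPeriod π b, (π ^ i) b = v := by
    intro v hv
    obtain ⟨i, hi⟩ := hv.exists_nat_pow_eq
    refine ⟨i % Function.minimalPeriod π b, Nat.mod_lt _ hpos, ?_⟩
    rw [← Equiv.Perm.iterate_eq_pow, Function.iterate_mod_minimalPeriod_eq, Equiv.Perm.iterate_eq_pow, hi]
  refine ⟨Function.minimalPeriod π b, hpos, ?_, ?_, hsurj, hinj⟩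
  · have h1 : orb π b = (Finset.range (Function.minimalPeriod π b)).image (fun i => (π ^ i) b) := by
      ext v
      unfold orb
      simp only [Finset.mem_filter, Finset.mem_univ, true_and, Finset.mem_image, Finset.mem_range]
      constructor
      · intro hv
        obtain ⟨i, hi, h⟩ := hsurj v hv
        exact ⟨i, hi, h⟩
      · rintro ⟨i, -, rfl⟩
        exact Equiv.Perm.sameCycle_pow_right.mpr (Equiv.Perm.SameCycle.refl _ _)
    rw [h1, Finset.card_image_of_injOn, Finset.card_range]
    intro i hi j hj h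
    exact hinj i (Finset.mem_range.mp hi) j (Finset.mem_range.mp hj) h
  · rw [← Equiv.Perm.iterate_eq_pow]
    exact Function.iterate_minimalPeriod

private theorem inp1_orb_same (π : Equiv.Perm V) {b v : V} (h : π.SameCycle b v) : orb π b = orb π v := by
  unfold orb
  ext u
  simp only [Finset.mem_filter, Finset.mem_univ, true_and]
  exact ⟨fun h2 => h.symm.trans h2, fun h2 => h.trans h2⟩

theorem exists_idx (π : Equiv.Perm V) (A : Finset V)
    (h2 : ∀ v, Odd (orb π v).card → ∃ a ∈ A, π.SameCycle v a)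
    (h3 : ∀ a ∈ A, ∀ a' ∈ A, π.SameCycle a a' → a = a') :
    ∃ idx : V → ℕ, (∀ v, idx v < (orb π v).card) ∧
      (∀ v, idx (π v) = if idx v + 1 < (orb π v).card then idx v + 1 else 0) ∧
      (∀ a ∈ A, idx a = 0) ∧ ∀ v, Odd (orb π v).card → idx v = 0 → v ∈ A := by
  -- base points
  have hb : ∃ b : V → V, (∀ v, b (π v) = b v) ∧ (∀ v, π.SameCycle (b v) v) ∧
      (∀ v, (∃ a ∈ A, π.SameCycle v a) → b v ∈ A) ∧ ∀ a ∈ A, b a = a := by
    let q : V → Quotient (Equiv.Perm.SameCycle.setoid π) := fun v => Quotient.mk _ v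
    have hq : ∀ u v, q u = q v ↔ π.SameCycle u v := by
      intro u v
      exact Quotient.eq (r := Equiv.Perm.SameCycle.setoid π)
    let B : Quotient (Equiv.Perm.SameCycle.setoid π) → V := fun x =>
      if h : ∃ a ∈ A, q a = x then h.choose else x.out
    have hB1 : ∀ x, q (B x) = x := by
      intro x
      simp only [B]
      split_ifs with h
      · exact h.choose_spec.2
      · exact Quotient.out_eq x
    have hB2 : ∀ x, (∃ a ∈ A, q a = x) → B x ∈ A := by
      intro x h
      simp only [B]
      rw [dif_pos h]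
      exact h.choose_spec.1
    refine ⟨fun v => B (q v), fun v => ?_, fun v => ?_, fun v hv => ?_, fun a ha => ?_⟩
    · have : q (π v) = q v := (hq _ _).mpr (Equiv.Perm.sameCycle_apply_left.mpr (Equiv.Perm.SameCycle.refl _ _))
      simp only [this]
    · exact (hq _ _).mp (hB1 (q v))
    · obtain ⟨a, ha, hva⟩ := hv
      exact hB2 _ ⟨a, ha, (hq _ _).mpr hva.symm⟩
    · exact h3 _ (hB2 _ ⟨a, ha, rfl⟩) a ha ((hq _ _).mp (hB1 (q a)))
  obtain ⟨b, b1, b2, b3, b4⟩ := hb
  have hex : ∀ v, ∃ i < (orb π v).card, (π ^ i) (b v) = v := by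
    intro v
    obtain ⟨m, m0, m1, m2, m3, m4⟩ := inp1_coord π (b v)
    obtain ⟨i, hi, h⟩ := m3 v (b2 v)
    rw [m1, inp1_orb_same π (b2 v)] at hi
    exact ⟨i, hi, h⟩
  choose idx hi1 hi2 using hex
  have huniq : ∀ v i, i < (orb π v).card → (π ^ i) (b v) = v → idx v = i := by
    intro v i hi h
    obtain ⟨m, m0, m1, m2, m3, m4⟩ := inp1_coord π (b v)
    rw [inp1_orb_same π (b2 v)] at m1
    exact m4 _ (m1 ▸ hi1 v) _ (m1 ▸ hi) ((hi2 v).trans h.symm)
  have hstep : ∀ v, (π ^ (idx v + 1)) (b v) = π v := by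
    intro v
    rw [pow_succ', Equiv.Perm.mul_apply, hi2 v]
  have hpos : ∀ v, 0 < (orb π v).card := fun v => lt_of_le_of_lt (Nat.zero_le _) (hi1 v)
  refine ⟨idx, hi1, fun v => ?_, fun a ha => ?_, fun v hv h0 => ?_⟩
  · split_ifs with h
    · refine huniq _ _ (by rw [orb_apply]; exact h) ?_
      rw [b1]
      exact hstep v
    · refine huniq _ _ (by rw [orb_apply]; exact hpos v) ?_
      rw [b1]
      obtain ⟨m, m0, m1, m2, m3, m4⟩ := inp1_coord π (b v)
      rw [inp1_orb_same π (b2 v)] at m1
      have h5 := hi1 v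
      have h6 : idx v + 1 = m := by omega
      have h7 := hstep v
      rw [h6, m2] at h7
      rw [pow_zero]
      exact h7
  · refine huniq _ _ (hpos a) ?_
    rw [pow_zero]
    exact b4 a ha
  · have h5 := hi2 v
    rw [h0, pow_zero] at h5
    have h6 : b v = v := h5
    rw [← h6]
    exact b3 v (h2 v hv)

theorem mat_of_idx (π : Equiv.Perm V) (hπ : ∀ v, π v ≠ v) (A : Finset V)
    (h1 : ∀ a ∈ A, Odd (orb π a).card) (idx : V → ℕ) (i1 : ∀ v, idx v < (orb π v).card)
    (i2 : ∀ v, idx (π v) = if idx v + 1 < (orb π v).card then idx v + 1 else 0)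
    (i3 : ∀ a ∈ A, idx a = 0) (i4 : ∀ v, Odd (orb π v).card → idx v = 0 → v ∈ A) : ∃ μ, Mat π A μ := by
  let l : V → ℕ := fun v => (orb π v).card
  have hl : ∀ v, l (π v) = l v := fun v => by simp only [l]; rw [orb_apply]
  have hl' : ∀ v, l (π.symm v) = l v := fun v => by simp only [l]; rw [inp1_orb_symm]
  have hs : ∀ v, π.symm v ≠ v := by
    intro v h
    have := congrArg π h
    rw [Equiv.apply_symm_apply] at this
    exact hπ v this.symm
  have l1 : ∀ v, idx v < l v := i1
  have l2 : ∀ v, idx v + 1 < l v → idx (π v) = idx v + 1 := fun v h => by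
    rw [i2 v, if_pos h]
  have l2' : ∀ v, ¬ idx v + 1 < l v → idx (π v) = 0 := fun v h => by
    rw [i2 v, if_neg h]
  have l3 : ∀ v, idx v ≠ 0 → idx (π.symm v) + 1 = idx v := by
    intro v h
    by_cases h5 : idx (π.symm v) + 1 < l (π.symm v)
    · have := l2 _ h5
      rw [Equiv.apply_symm_apply] at this
      exact this.symm
    · have := l2' _ h5
      rw [Equiv.apply_symm_apply] at this
      exact absurd this h
  have l4 : ∀ v, idx v = 0 → idx (π.symm v) + 1 = l v := by
    intro v h
    by_cases h5 : idx (π.symm v) + 1 < l (π.symm v)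
    · have := l2 _ h5
      rw [Equiv.apply_symm_apply] at this
      omega
    · have h6 := l1 (π.symm v)
      rw [hl'] at h6 h5
      omega
  have l5 : ∀ v, 2 ≤ l v := by
    intro v
    have h5 : ({v, π v} : Finset V) ⊆ orb π v := by
      intro u hu
      unfold orb
      simp only [Finset.mem_insert, Finset.mem_singleton] at hu
      simp only [Finset.mem_filter, Finset.mem_univ, true_and]
      rcases hu with rfl | rfl
      · exact Equiv.Perm.SameCycle.refl _ _
      · exact Equiv.Perm.sameCycle_apply_right.mpr (Equiv.Perm.SameCycle.refl _ _)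
    have h6 := Finset.card_le_card h5
    rw [Finset.card_pair (hπ v).symm] at h6
    exact h6
  have l6 : ∀ a ∈ A, l a % 2 = 1 := fun a ha => Nat.odd_iff.mp (h1 a ha)
  have l7 : ∀ v, l v % 2 = 1 → idx v = 0 → v ∈ A := fun v h h0 => i4 v (Nat.odd_iff.mpr h) h0
  let μ : V → V := fun v =>
    if l v % 2 = 1 then (if idx v = 0 then v else if idx v % 2 = 1 then π v else π.symm v)
    else (if idx v % 2 = 0 then π v else π.symm v)
  have hμ : ∀ v, μ v = if l v % 2 = 1 then (if idx v = 0 then v else if idx v % 2 = 1 then π v else π.symm v)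
    else (if idx v % 2 = 0 then π v else π.symm v) := fun v => rfl
  have hA : ∀ v, (μ v = v ∧ l v % 2 = 1 ∧ idx v = 0) ∨ (μ v = π v ∧ μ (π v) = v ∧ ¬ (l v % 2 = 1 ∧ idx v = 0)) ∨
      (μ v = π.symm v ∧ μ (π.symm v) = v ∧ ¬ (l v % 2 = 1 ∧ idx v = 0)) := by
    intro v
    have k1 := l1 v
    by_cases c1 : l v % 2 = 1
    · by_cases c2 : idx v = 0
      · left
        refine ⟨?_, c1, c2⟩
        rw [hμ, if_pos c1, if_pos c2]
      · right
        by_cases c3 : idx v % 2 = 1
        · left
          refine ⟨?_, ?_, fun h => c2 h.2⟩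
          · rw [hμ, if_pos c1, if_neg c2, if_pos c3]
          · have k2 := l2 v (by omega)
            rw [hμ, hl, if_pos c1, if_neg (by omega), if_neg (by omega), Equiv.symm_apply_apply]
        · right
          refine ⟨?_, ?_, fun h => c2 h.2⟩
          · rw [hμ, if_pos c1, if_neg c2, if_neg c3]
          · have k2 := l3 v c2
            rw [hμ, hl', if_pos c1, if_neg (by omega), if_pos (by omega), Equiv.apply_symm_apply]
    · right
      by_cases c3 : idx v % 2 = 0
      · left
        refine ⟨?_, ?_, fun h => c1 h.1⟩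
        · rw [hμ, if_neg c1, if_pos c3]
        · have k2 := l2 v (by omega)
          rw [hμ, hl, if_neg c1, if_neg (by omega), Equiv.symm_apply_apply]
      · right
        refine ⟨?_, ?_, fun h => c1 h.1⟩
        · rw [hμ, if_neg c1, if_neg c3]
        · have k2 := l3 v (by omega)
          rw [hμ, hl', if_neg c1, if_pos (by omega), Equiv.apply_symm_apply]
  refine ⟨μ, ?_, ?_, ?_, ?_, ?_⟩
  · intro v
    rcases hA v with h | h | h
    · rw [h.1, h.1]
    · rw [h.1, h.2.1]
    · rw [h.1, h.2.1]
  · intro v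
    constructor
    · intro h
      rcases hA v with h5 | h5 | h5
      · exact l7 v h5.2.1 h5.2.2
      · exact absurd (h5.1.symm.trans h) (hπ v)
      · exact absurd (h5.1.symm.trans h) (hs v)
    · intro h
      rcases hA v with h5 | h5 | h5
      · exact h5.1
      · exact absurd ⟨l6 v h, i3 v h⟩ h5.2.2
      · exact absurd ⟨l6 v h, i3 v h⟩ h5.2.2
  · intro v hv
    rcases hA v with h5 | h5 | h5
    · exact absurd (l7 v h5.2.1 h5.2.2) hv
    · exact Or.inl h5.1
    · exact Or.inr h5.1
  · intro a ha hD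
    have k0 := i3 a ha
    have k1 := l6 a ha
    have k2 := l5 a
    have k3 := l2 a (by omega)
    have k4 := l2 (π a) (by rw [hl]; omega)
    unfold IsD at hD
    rw [hD] at k4
    omega
  · intro a ha
    have k0 := i3 a ha
    have k1 := l6 a ha
    have k2 := l5 a
    constructor
    · intro h
      have k3 := l2 a (by omega)
      have k4 := i3 _ h
      omega
    · intro h
      have k3 := l4 a k0
      have k4 := i3 _ h
      omega

theorem exists_mat (π : Equiv.Perm V) (hπ : ∀ v, π v ≠ v) (A : Finset V)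
    (h1 : ∀ a ∈ A, Odd (orb π a).card)
    (h2 : ∀ v, Odd (orb π v).card → ∃ a ∈ A, π.SameCycle v a)
    (h3 : ∀ a ∈ A, ∀ a' ∈ A, π.SameCycle a a' → a = a') : ∃ μ, Mat π A μ := by
  obtain ⟨idx, i1, i2, i3, i4⟩ := exists_idx π A h2 h3
  exact mat_of_idx π hπ A h1 idx i1 i2 i3 i4

end Pool.Agent.H38H.IN
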