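import Pool.Agent.Lib.H38H.IN.F1
import Pool.Agent.Lib.H38H.IN.F2
import Pool.Agent.Lib.H38H.IN.F3
import Pool.Agent.Lib.H38H.IN.F4
import Pool.Agent.Lib.H38H.IN.P1
import Pool.Agent.Lib.H38H.IN.C7

/-! Module IN: final assembly, `propP_of`. -/

set_option autoImplicit false

namespace Pool.Agent.H38H.IN

open Classical

variable {V : Type} [Fintype V]

theorem per_choice {A r K n0 s κ κ' : ℕ}
    (hslot : ∀ n : ℕ, n0 ≤ n → ∀ L : ℕ, (L : ℝ) ≤ (Real.log n) ^ 3 →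
      ∀ (ι : Type) [Fintype ι], Fintype.card ι = n → ∀ I : Inst ι L,
        (Nat.card {h : SB ι // (∀ T, I.ValidT K T → I.RC h r K T) ∧ ¬ I.HAM h} : ℝ) ≤
          (Nat.card (SB ι) : ℝ) / (n : ℝ) ^ (A + 5))
    (c1 : 8 * K + 20 * r + 100 ≤ κ') (c2 : κ' ≤ s) (c3 : 20 * s + 100 ≤ κ)
    {π : Equiv.Perm V} (hπ : ∀ v, π v ≠ v) {E : Finset (Sym2 V)} (hE : Marks E)
    {ξ : Finset (Sym2 (Port π))} (hξ : Realises π E ξ) {B : Finset V} (hB : Bases π B)
    (hnum : ∀ n : ℕ, Fintype.card V ≤ 4 * n → n ≤ Fintype.card V →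
      n0 ≤ n ∧ 3 ≤ n ∧ (∃ L : ℕ, (L : ℝ) ≤ (Real.log n) ^ 3 ∧
        5 * (longCycles π + 2 * E.card) ≤ L ∧ 2 * longCycles π ≤ L ∧
        n ^ (A + 5) * ((n + 1) * 2 ^ (longCycles π + 2 * E.card)) ≤ 2 ^ (L + 1)) ∧
        2 * (4 * n) ^ (A + 1) ≤ n ^ (A + 5))
    (ch : {b // b ∈ BL π B s} → Fin s) :
    Fintype.card V ^ (A + 1) * Nat.card {R : PM (Port π) // Contains R ξ ∧ (Cubic (Gr π R) ∧
      Nice κ (Gr π R) E ∧ Clean (Gr π R) E κ' (chA1 π B s ch) (tcB π B s) ∧ ¬ HC (Gr π R) E)} ≤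
      Nat.card {R : PM (Port π) // Contains R ξ} := by
  by_cases hex : ∃ R : PM (Port π), Contains R ξ ∧ (Cubic (Gr π R) ∧
      Nice κ (Gr π R) E ∧ Clean (Gr π R) E κ' (chA1 π B s ch) (tcB π B s) ∧ ¬ HC (Gr π R) E)
  · obtain ⟨R0, hR0, hcub, hnice, hclean, -⟩ := hex
    obtain ⟨μ, hμ⟩ := exists_mat π hπ (chA π B s ch) (chA_odd hB ch) (chA_ex hB ch) (chA_uniq hB ch)
    have htcπ : ∀ C ∈ tcB π B s, C.card ≤ s ∧ ∀ v ∈ C, π v ∈ C ∧ ¬ IsD π v := fun C hC =>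
      ⟨(tc_π hB s C hC).1, fun v hv => ⟨((tc_π hB s C hC).2 v hv).1, ((tc_π hB s C hC).2 v hv).2 (hπ v)⟩⟩
    let D : Dat V :=
      { π := π
        A := chA π B s ch
        μ := μ
        E := E
        ξ := ξ
        A1 := chA1 π B s ch
        tc := tcB π B s
        nofix := hπ
        mat := hμ
        marks := hE
        marksX := hξ.1
        real1 := hξ.2.1
        real2 := hξ.2.2
        dc1 := dc1_of hπ hE hξ hR0 (by omega) hnice
        dc2 := dc2_of hπ hE hξ hR0 (s := s) (by omega) (by omega) hnice hclean (chA_tc ch) htcπ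
        dc3 := dc3_of hE hξ hR0 hcub
        A1A := Finset.subset_union_right
        tcA := chA_tc ch
        tcπ := fun C hC => (htcπ C hC).2
        tcC := tc_C B s }
    exact per_dat A r K n0 s κ κ' hslot D (chA_card hπ hB ch) (fun C hC => (htcπ C hC).1) c1 c2 c3 hnum
  · have h0 : Nat.card {R : PM (Port π) // Contains R ξ ∧ (Cubic (Gr π R) ∧
      Nice κ (Gr π R) E ∧ Clean (Gr π R) E κ' (chA1 π B s ch) (tcB π B s) ∧ ¬ HC (Gr π R) E)} = 0 := by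
      have : IsEmpty {R : PM (Port π) // Contains R ξ ∧ (Cubic (Gr π R) ∧
        Nice κ (Gr π R) E ∧ Clean (Gr π R) E κ' (chA1 π B s ch) (tcB π B s) ∧ ¬ HC (Gr π R) E)} :=
        ⟨fun R => hex ⟨R.1, R.2⟩⟩
      exact Nat.card_of_isEmpty
    rw [h0]
    simp

/-- double counting -/
theorem dcount {X Y : Type} [Finite X] [Finite Y] (P : X → Prop) (Q : X → Y → Prop) (g M : ℕ)
    (h1 : ∀ x, P x → g ≤ Nat.card {y : Y // Q x y}) (h2 : ∀ y, Nat.card {x : X // P x ∧ Q x y} ≤ M) :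
    g * Nat.card {x : X // P x} ≤ Nat.card Y * M := by
  have := Fintype.ofFinite X
  have := Fintype.ofFinite Y
  have e1 : Nat.card {p : {x : X // P x} × Y // Q p.1.1 p.2} =
      ∑ x : {x : X // P x}, Nat.card {y : Y // Q x.1 y} := by
    rw [← Nat.card_sigma]
    exact Nat.card_congr
      { toFun := fun p => ⟨p.1.1, ⟨p.1.2, p.2⟩⟩
        invFun := fun p => ⟨(p.1, p.2.1), p.2.2⟩
        left_inv := fun _ => rfl
        right_inv := fun _ => rfl }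
  have e2 : Nat.card {p : {x : X // P x} × Y // Q p.1.1 p.2} =
      ∑ y : Y, Nat.card {x : X // P x ∧ Q x y} := by
    rw [← Nat.card_sigma]
    exact Nat.card_congr
      { toFun := fun p => ⟨p.1.2, ⟨p.1.1.1, p.1.1.2, p.2⟩⟩
        invFun := fun p => ⟨(⟨p.2.1, p.2.2.1⟩, p.1), p.2.2.2⟩
        left_inv := fun _ => rfl
        right_inv := fun _ => rfl }
  have l1 : g * Nat.card {x : X // P x} ≤ Nat.card {p : {x : X // P x} × Y // Q p.1.1 p.2} := by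
    rw [e1, Nat.card_eq_fintype_card (α := {x : X // P x})]
    calc g * Fintype.card {x : X // P x} = ∑ _x : {x : X // P x}, g := by
          rw [Finset.sum_const, Finset.card_univ, smul_eq_mul, mul_comm]
      _ ≤ _ := Finset.sum_le_sum fun x _ => h1 x.1 x.2
  have l2 : Nat.card {p : {x : X // P x} × Y // Q p.1.1 p.2} ≤ Nat.card Y * M := by
    rw [e2, Nat.card_eq_fintype_card (α := Y)]
    calc _ ≤ ∑ _y : Y, M := Finset.sum_le_sum fun y _ => h2 y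
      _ = _ := by rw [Finset.sum_const, Finset.card_univ, smul_eq_mul]
  exact l1.trans l2

/-- module IN -/
theorem propP_of' (h : SlotTheorem) : PropP := by
  intro A
  obtain ⟨r, K, n0, hslot⟩ := h (A + 5)
  obtain ⟨κ', hκ'⟩ : ∃ κ' : ℕ, κ' = 8 * K + 20 * r + 100 := ⟨_, rfl⟩
  obtain ⟨q, hq⟩ : ∃ q : ℕ, q = (2 * κ' + 2) + 2 * 4 ^ κ' := ⟨_, rfl⟩
  obtain ⟨s, hs⟩ : ∃ s : ℕ, s = 20 * A * q + 2 * q + κ' := ⟨_, rfl⟩
  refine ⟨20 * s + 100, fun m₀ => ?_⟩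
  obtain ⟨N₀, hN₀⟩ := numeric1 A n0 m₀
  refine ⟨max N₀ 1, ?_⟩
  intro N hN _ V _ dec hcard π hπ hlong E hE hEm ξ hξ
  have hdec : dec = fun a b => Classical.propDecidable (a = b) := Subsingleton.elim _ _
  subst hdec
  obtain ⟨B, hB⟩ := bases_ex π
  have hN1 : 1 ≤ N := le_trans (le_max_right _ _) hN
  have hqpos : 0 < q := by rw [hq]; positivity
  have hg : s - (2 * κ' + 2) - 2 * 4 ^ κ' = s - q := by rw [hq]; omega
  have hnum : ∀ n : ℕ, Fintype.card V ≤ 4 * n → n ≤ Fintype.card V →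
      n0 ≤ n ∧ 3 ≤ n ∧ (∃ L : ℕ, (L : ℝ) ≤ (Real.log n) ^ 3 ∧
        5 * (longCycles π + 2 * E.card) ≤ L ∧ 2 * longCycles π ≤ L ∧
        n ^ (A + 5) * ((n + 1) * 2 ^ (longCycles π + 2 * E.card)) ≤ 2 ^ (L + 1)) ∧
        2 * (4 * n) ^ (A + 1) ≤ n ^ (A + 5) := by
    intro n h1 h2
    rw [hcard] at h1 h2
    exact hN₀ N (le_trans (le_max_left _ _) hN) n h1 h2 _ _ hlong hEm
  have hpc := fun ch => per_choice (A := A) (r := r) (K := K) (n0 := n0) (s := s) (κ := 20 * s + 100) (κ' := κ')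
    hslot (by omega) (by omega) le_rfl hπ hE hξ hB hnum ch
  rw [hcard] at hpc
  -- the number of good choices for every matching
  have hgood : ∀ R : PM (Port π), (Contains R ξ ∧ Cubic (Gr π R) ∧ Nice (20 * s + 100) (Gr π R) E ∧
      ¬ HC (Gr π R) E) → (s - q) ^ Fintype.card {b // b ∈ BL π B s} ≤
        Nat.card {ch : {b // b ∈ BL π B s} → Fin s //
          Clean (Gr π R) E κ' (chA1 π B s ch) (tcB π B s)} := by
    rintro R ⟨hR, hc, hn, -⟩
    rw [← hg]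
    have h4 : 4 * 4 ^ κ' + 2 * (2 * κ' + 2) ≤ s := by
      have : 2 * q = 4 * 4 ^ κ' + 2 * (2 * κ' + 2) := by rw [hq]; ring
      omega
    exact clean_count (Gr π R) hc hE (real_edges hπ hE hξ hR) hn (by omega)
      (fun (b : {b // b ∈ BL π B s}) (i : Fin s) => ptB π b.1 i)
      (fun b b' i i' hh => ptB_inj hB b b' i i' hh)
      (by
        intro b i i' hii
        show (Gr π R).Adj (ptB π b.1 i) (ptB π b.1 i')
        have h5 : ptB π b.1 i' = π (ptB π b.1 i) := by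
          unfold ptB
          rw [hii, pow_succ', Equiv.Perm.mul_apply]
        rw [h5]
        exact ⟨(hπ _).symm, Or.inl rfl⟩)
      (fun C hC => ⟨(tc_cyc hπ hB s R C hC).1, (tc_cyc hπ hB s R C hC).2, tc_pt hB s C hC⟩)
      (by omega)
  obtain ⟨J, hJ⟩ : ∃ J : ℕ, J = Fintype.card {b // b ∈ BL π B s} := ⟨_, rfl⟩
  rw [← hJ] at hgood
  have hJN : (J : ℝ) ≤ 10 * A * Real.log N := by
    have h1 : J ≤ longCycles π := by
      rw [hJ, Fintype.card_coe]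
      exact (Finset.card_filter_le _ _).trans (bases_card hπ hB)
    exact le_trans (by exact_mod_cast h1) hlong
  have hfin : Finite (PM (Port π)) := inferInstance
  obtain ⟨X, hX⟩ : ∃ X : ℕ, X = Nat.card {R : PM (Port π) // Contains R ξ} := ⟨_, rfl⟩
  obtain ⟨Z, hZ⟩ : ∃ Z : ℕ, Z = Nat.card {R : PM (Port π) // Contains R ξ ∧ Cubic (Gr π R) ∧
      Nice (20 * s + 100) (Gr π R) E ∧ ¬ HC (Gr π R) E} := ⟨_, rfl⟩
  have key : N ^ (A + 1) * ((s - q) ^ J * Z) ≤ s ^ J * X := by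
    have hM : ∀ ch : {b // b ∈ BL π B s} → Fin s,
        Nat.card {R : PM (Port π) // (Contains R ξ ∧ Cubic (Gr π R) ∧ Nice (20 * s + 100) (Gr π R) E ∧
          ¬ HC (Gr π R) E) ∧ Clean (Gr π R) E κ' (chA1 π B s ch) (tcB π B s)} ≤ X / N ^ (A + 1) := by
      intro ch
      rw [Nat.le_div_iff_mul_le (by positivity), mul_comm, hX]
      refine le_trans (Nat.mul_le_mul_left _ ?_) (hpc ch)
      refine Nat.card_le_card_of_injective
        (fun R : {R : PM (Port π) // (Contains R ξ ∧ Cubic (Gr π R) ∧ Nice (20 * s + 100) (Gr π R) E ∧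
          ¬ HC (Gr π R) E) ∧ Clean (Gr π R) E κ' (chA1 π B s ch) (tcB π B s)} =>
          (⟨R.1, R.2.1.1, R.2.1.2.1, R.2.1.2.2.1, R.2.2, R.2.1.2.2.2⟩ :
          {R : PM (Port π) // Contains R ξ ∧ (Cubic (Gr π R) ∧ Nice (20 * s + 100) (Gr π R) E ∧
            Clean (Gr π R) E κ' (chA1 π B s ch) (tcB π B s) ∧ ¬ HC (Gr π R) E)})) ?_
      intro a b hab
      have h9 := Subtype.ext_iff.1 hab
      exact Subtype.ext h9
    have hd := dcount (X := PM (Port π)) (Y := {b // b ∈ BL π B s} → Fin s)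
      (fun R => Contains R ξ ∧ Cubic (Gr π R) ∧ Nice (20 * s + 100) (Gr π R) E ∧ ¬ HC (Gr π R) E)
      (fun R ch => Clean (Gr π R) E κ' (chA1 π B s ch) (tcB π B s)) ((s - q) ^ J) (X / N ^ (A + 1))
      hgood hM
    have hY : Nat.card ({b // b ∈ BL π B s} → Fin s) = s ^ J := by
      rw [Nat.card_eq_fintype_card, Fintype.card_fun, Fintype.card_fin, hJ]
    rw [hY, ← hZ] at hd
    calc N ^ (A + 1) * ((s - q) ^ J * Z) ≤ N ^ (A + 1) * (s ^ J * (X / N ^ (A + 1))) :=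
          Nat.mul_le_mul_left _ hd
      _ = s ^ J * (X / N ^ (A + 1) * N ^ (A + 1)) := by ring
      _ ≤ s ^ J * X := Nat.mul_le_mul_left _ (Nat.div_mul_le_self _ _)
  have hrat := ratio_bd A s q J N hN1 hJN (by omega) (by rw [hs]; omega)
  have hgpos : 0 < s - q := by omega
  have hNpos : (0 : ℝ) < N := by exact_mod_cast hN1
  have hgpos' : (0 : ℝ) < ((s - q : ℕ) : ℝ) ^ J := by positivity
  rw [← hX, ← hZ]
  rw [le_div_iff₀ (by positivity)]
  have key' : (N : ℝ) ^ (A + 1) * (((s - q : ℕ) : ℝ) ^ J * Z) ≤ (s : ℝ) ^ J * X := by exact_mod_cast key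
  have h6 : (N : ℝ) ^ (A + 1) * (((s - q : ℕ) : ℝ) ^ J * Z) ≤ N * ((s - q : ℕ) : ℝ) ^ J * X :=
    key'.trans (mul_le_mul_of_nonneg_right hrat (Nat.cast_nonneg _))
  have h7 : (N * ((s - q : ℕ) : ℝ) ^ J) * (Z * (N : ℝ) ^ A) ≤ (N * ((s - q : ℕ) : ℝ) ^ J) * X := by
    calc (N * ((s - q : ℕ) : ℝ) ^ J) * (Z * (N : ℝ) ^ A) =
          (N : ℝ) ^ (A + 1) * (((s - q : ℕ) : ℝ) ^ J * Z) := by ring
      _ ≤ _ := h6
  exact le_of_mul_le_mul_left h7 (by positivity)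

end Pool.Agent.H38H.IN
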