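import Pool.Agent.Lib.H38H.IN.Geo

set_option autoImplicit false

namespace Pool.Agent.H38H.IN

open Classical

variable {V : Type} [Fintype V]

/-! Chunk ING1 (M): counting edges inside sets of vertices.
`eIn G W` is the number of edges `e` of `G` with `e ∈ W.sym2` (definition in `Stm.lean`).
eIn_insert: the edges inside `insert z W` are the edges inside `W` and the pairs `s(z,u)`, `u ∈ W`, `G.Adj z u`
(`s(z,z)` is no edge). sum_dg: double counting of pairs (vertex of `W`, edge inside `W` containing it)
(or induction on `W` with eIn_insert: inserting `z` adds `dg z W` at `z` and 1 at each neighbour).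
ex_disj_adj: the edges inside `W`, the edges inside `W'` and the edge `s(u,v)` are distinct edges inside the union.
mIn is the number of marks inside; with disjoint sets the marks inside `W` and inside `W'` are distinct
(a mark `s(x,y)` inside both would have `x` in both). -/

private theorem ing1_eIn (G : SimpleGraph V) (W : Finset V) :
    eIn G W = (W.sym2.filter (fun e => e ∈ G.edgeSet)).card := rfl

private theorem ing1_dg (G : SimpleGraph V) (v : V) (W : Finset V) :
    dg G v W = (W.filter (fun u => G.Adj v u)).card := rfl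

private theorem ing1_two {α : Type} {A B C : Finset α} (hA : A ⊆ C) (hB : B ⊆ C) (hd : Disjoint A B) :
    A.card + B.card ≤ C.card := by
  rw [← Finset.card_union_of_disjoint hd]
  exact Finset.card_le_card (Finset.union_subset hA hB)

theorem eIn_insert (G : SimpleGraph V) (W : Finset V) (z : V) (hz : z ∉ W) :
    eIn G (insert z W) = eIn G W + dg G z W := by
  have h1 : (insert z W).sym2.filter (fun e => e ∈ G.edgeSet) =
      W.sym2.filter (fun e => e ∈ G.edgeSet) ∪ (W.filter (fun u => G.Adj z u)).image (fun u => s(z, u)) := by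
    ext e
    induction e using Sym2.ind with
    | _ a b =>
      rw [Finset.mem_union, Finset.mem_filter, Finset.mem_filter, Finset.mk_mem_sym2_iff,
        Finset.mk_mem_sym2_iff, SimpleGraph.mem_edgeSet, Finset.mem_image]
      constructor
      · rintro ⟨⟨ha, hb⟩, hab⟩
        rw [Finset.mem_insert] at ha hb
        rcases ha with rfl | ha
        · rcases hb with rfl | hb
          · exact absurd hab (G.loopless.irrefl _)
          · exact Or.inr ⟨b, Finset.mem_filter.mpr ⟨hb, hab⟩, rfl⟩
        · rcases hb with rfl | hb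
          · exact Or.inr ⟨a, Finset.mem_filter.mpr ⟨ha, hab.symm⟩, Sym2.eq_swap⟩
          · exact Or.inl ⟨⟨ha, hb⟩, hab⟩
      · rintro (⟨⟨ha, hb⟩, hab⟩ | ⟨u, hu, he⟩)
        · exact ⟨⟨Finset.mem_insert_of_mem ha, Finset.mem_insert_of_mem hb⟩, hab⟩
        · rw [Finset.mem_filter] at hu
          rw [Sym2.eq_iff] at he
          rcases he with ⟨rfl, rfl⟩ | ⟨rfl, rfl⟩
          · exact ⟨⟨Finset.mem_insert_self _ _, Finset.mem_insert_of_mem hu.1⟩, hu.2⟩
          · exact ⟨⟨Finset.mem_insert_of_mem hu.1, Finset.mem_insert_self _ _⟩, hu.2.symm⟩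
  have h2 : Disjoint (W.sym2.filter (fun e => e ∈ G.edgeSet))
      ((W.filter (fun u => G.Adj z u)).image (fun u => s(z, u))) := by
    rw [Finset.disjoint_right]
    intro e he he'
    obtain ⟨u, _, rfl⟩ := Finset.mem_image.mp he
    rw [Finset.mem_filter, Finset.mk_mem_sym2_iff] at he'
    exact hz he'.1.1
  have h3 : ((W.filter (fun u => G.Adj z u)).image (fun u => s(z, u))).card =
      (W.filter (fun u => G.Adj z u)).card := by
    apply Finset.card_image_of_injective
    intro u u' h
    exact Sym2.congr_right.mp h
  rw [ing1_eIn, ing1_eIn, ing1_dg, h1, Finset.card_union_of_disjoint h2, h3]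

theorem ex_insert (G : SimpleGraph V) (W : Finset V) (z : V) (hz : z ∉ W) :
    ex G (insert z W) = ex G W + dg G z W - 1 := by
  unfold ex
  rw [eIn_insert G W z hz, Finset.card_insert_of_notMem hz]
  push_cast
  ring

theorem dg_mono (G : SimpleGraph V) (v : V) {W W' : Finset V} (h : W ⊆ W') : dg G v W ≤ dg G v W' := by
  rw [ing1_dg, ing1_dg]
  exact Finset.card_le_card (Finset.filter_subset_filter _ h)

theorem eIn_mono (G : SimpleGraph V) {W W' : Finset V} (h : W ⊆ W') : eIn G W ≤ eIn G W' := by
  rw [ing1_eIn, ing1_eIn]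
  exact Finset.card_le_card (Finset.filter_subset_filter _ (Finset.sym2_mono h))

theorem sum_dg (G : SimpleGraph V) (W : Finset V) : ∑ v ∈ W, dg G v W = 2 * eIn G W := by
  induction W using Finset.induction_on with
  | empty =>
    rw [ing1_eIn]
    simp
  | insert z W hz ih =>
    rw [Finset.sum_insert hz, eIn_insert G W z hz]
    have h1 : dg G z (insert z W) = dg G z W := by
      rw [ing1_dg, ing1_dg, Finset.filter_insert, if_neg (G.loopless.irrefl z)]
    have h2 : ∀ v ∈ W, dg G v (insert z W) = dg G v W + (if G.Adj z v then 1 else 0) := by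
      intro v hv
      rw [ing1_dg, ing1_dg, Finset.filter_insert]
      by_cases h : G.Adj z v
      · rw [if_pos h.symm, if_pos h, Finset.card_insert_of_notMem]
        intro hh
        exact hz (Finset.mem_filter.mp hh).1
      · rw [if_neg (fun hh => h hh.symm), if_neg h, add_zero]
    rw [h1, Finset.sum_congr rfl h2, Finset.sum_add_distrib, ih]
    have h3 : ∑ v ∈ W, (if G.Adj z v then 1 else 0) = dg G z W := by
      rw [ing1_dg, Finset.card_filter]
    rw [h3]
    ring

theorem ex_disj (G : SimpleGraph V) {W W' : Finset V} (h : Disjoint W W') :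
    ex G W + ex G W' ≤ ex G (W ∪ W') := by
  have h1 : eIn G W + eIn G W' ≤ eIn G (W ∪ W') := by
    rw [ing1_eIn, ing1_eIn, ing1_eIn]
    apply ing1_two
    · exact Finset.filter_subset_filter _ (Finset.sym2_mono Finset.subset_union_left)
    · exact Finset.filter_subset_filter _ (Finset.sym2_mono Finset.subset_union_right)
    · rw [Finset.disjoint_left]
      intro e he he'
      induction e using Sym2.ind with
      | _ a b =>
        rw [Finset.mem_filter, Finset.mk_mem_sym2_iff] at he he'
        exact Finset.disjoint_left.mp h he.1.1 he'.1.1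
  have h2 := Finset.card_union_of_disjoint h
  unfold ex
  omega

theorem ex_disj_adj (G : SimpleGraph V) {W W' : Finset V} (h : Disjoint W W') {u v : V} (hu : u ∈ W)
    (hv : v ∈ W') (huv : G.Adj u v) : ex G W + ex G W' + 1 ≤ ex G (W ∪ W') := by
  have h1 : eIn G W + (eIn G W' + 1) ≤ eIn G (W ∪ W') := by
    have h3 : s(u, v) ∉ W'.sym2.filter (fun e => e ∈ G.edgeSet) := by
      intro hh
      rw [Finset.mem_filter, Finset.mk_mem_sym2_iff] at hh
      exact Finset.disjoint_left.mp h hu hh.1.1
    rw [ing1_eIn, ing1_eIn, ing1_eIn, ← Finset.card_insert_of_notMem h3]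
    apply ing1_two
    · exact Finset.filter_subset_filter _ (Finset.sym2_mono Finset.subset_union_left)
    · intro e he
      rcases Finset.mem_insert.mp he with rfl | he
      · rw [Finset.mem_filter, Finset.mk_mem_sym2_iff]
        exact ⟨⟨Finset.mem_union_left _ hu, Finset.mem_union_right _ hv⟩, huv⟩
      · exact Finset.filter_subset_filter _ (Finset.sym2_mono Finset.subset_union_right) he
    · rw [Finset.disjoint_left]
      intro e he he'
      induction e using Sym2.ind with
      | _ a b =>
        rw [Finset.mem_filter, Finset.mk_mem_sym2_iff] at he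
        rw [Finset.mem_insert, Finset.mem_filter, Finset.mk_mem_sym2_iff] at he'
        rcases he' with he' | he'
        · rw [Sym2.eq_iff] at he'
          rcases he' with ⟨rfl, rfl⟩ | ⟨rfl, rfl⟩
          · exact Finset.disjoint_left.mp h he.1.2 hv
          · exact Finset.disjoint_left.mp h he.1.1 hv
        · exact Finset.disjoint_left.mp h he.1.1 he'.1.1
  have h2 := Finset.card_union_of_disjoint h
  unfold ex
  omega

theorem mIn_mono (E : Finset (Sym2 V)) {W W' : Finset V} (h : W ⊆ W') : mIn E W ≤ mIn E W' := by
  unfold mIn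
  apply Finset.card_le_card
  intro e he
  rw [Finset.mem_filter] at he ⊢
  exact ⟨he.1, Finset.sym2_mono h he.2⟩

theorem mIn_disj (E : Finset (Sym2 V)) {W W' : Finset V} (h : Disjoint W W') :
    mIn E W + mIn E W' ≤ mIn E (W ∪ W') := by
  unfold mIn
  apply ing1_two
  · intro e he
    rw [Finset.mem_filter] at he ⊢
    exact ⟨he.1, Finset.sym2_mono Finset.subset_union_left he.2⟩
  · intro e he
    rw [Finset.mem_filter] at he ⊢
    exact ⟨he.1, Finset.sym2_mono Finset.subset_union_right he.2⟩
  · rw [Finset.disjoint_left]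
    intro e he he'
    induction e using Sym2.ind with
    | _ a b =>
      rw [Finset.mem_filter, Finset.mk_mem_sym2_iff] at he he'
      exact Finset.disjoint_left.mp h he.2.1 he'.2.1

/-- a mark inside the bigger set but not inside the smaller one -/
theorem mIn_lt (E : Finset (Sym2 V)) {W W' : Finset V} (h : W ⊆ W') {u v : V} (he : s(u, v) ∈ E)
    (hu : u ∈ W') (hv : v ∈ W') (hn : u ∉ W) : mIn E W + 1 ≤ mIn E W' := by
  unfold mIn
  have h3 : s(u, v) ∉ E.filter (fun e => e ∈ W.sym2) := by
    intro hh
    rw [Finset.mem_filter, Finset.mk_mem_sym2_iff] at hh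
    exact hn hh.2.1
  rw [← Finset.card_insert_of_notMem h3]
  apply Finset.card_le_card
  intro e he'
  rw [Finset.mem_insert, Finset.mem_filter] at he'
  rw [Finset.mem_filter]
  rcases he' with rfl | he'
  · exact ⟨he, Finset.mk_mem_sym2_iff.mpr ⟨hu, hv⟩⟩
  · exact ⟨he'.1, Finset.sym2_mono h he'.2⟩

end Pool.Agent.H38H.IN
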