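import Pool.Agent.Lib.H38H.IN.G1

set_option autoImplicit false

namespace Pool.Agent.H38H.IN

open Classical

variable {V : Type} [Fintype V]

/-! Chunk ING2 (S/M): connected sets (`Con`, cut definition, see Geo.lean).
con_union: let `U` be a proper nonempty part of `W ∪ W'`. If `U ∩ W` is neither empty nor `W`, an edge of `W` leaves `U`;
same for `W'`. Otherwise `U ∩ W` is empty or `W` and `U ∩ W'` is empty or `W'`; the cases (empty, W') and (W, empty) contradict
the common vertex, the cases (empty, empty), (W, W') contradict nonempty, proper. con_union_adj: the same with the edge `u v`.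
con_step: apply the definition to `U = W`. ex_mono: induction on the number of elements of `W' \ W` with con_step and ex_insert
(add the vertex `z`, the excess changes by `dg - 1 ≥ 0`). con_ex: ex_mono from a singleton, whose excess is -1. -/

theorem con_singleton (G : SimpleGraph V) (v : V) : Con G {v} := by
  refine ⟨Finset.singleton_nonempty v, ?_⟩
  intro U hU hne hneq
  rcases Finset.subset_singleton_iff.mp hU with h | h
  · rw [h] at hne
    exact absurd hne Finset.not_nonempty_empty
  · exact absurd h hneq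

/-- a part of `W` induced by a subset `U` of a bigger set: empty, everything or an edge leaves -/
private theorem ing2_part (G : SimpleGraph V) {W : Finset V} (h : Con G W) (U : Finset V) :
    (∀ x ∈ W, x ∉ U) ∨ (W ⊆ U) ∨ ∃ u ∈ U, ∃ v ∈ W, v ∉ U ∧ G.Adj u v := by
  by_cases h1 : (U ∩ W).Nonempty
  · by_cases h2 : U ∩ W = W
    · refine Or.inr (Or.inl ?_)
      rw [← h2]
      exact Finset.inter_subset_left
    · obtain ⟨u, hu, v, hv, hvU, huv⟩ := h.2 (U ∩ W) Finset.inter_subset_right h1 h2
      refine Or.inr (Or.inr ⟨u, Finset.mem_of_mem_inter_left hu, v, hv, ?_, huv⟩)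
      intro hh
      exact hvU (Finset.mem_inter.mpr ⟨hh, hv⟩)
  · refine Or.inl ?_
    intro x hx hxU
    exact h1 ⟨x, Finset.mem_inter.mpr ⟨hxU, hx⟩⟩

theorem con_union_adj (G : SimpleGraph V) {W W' : Finset V} (h : Con G W) (h' : Con G W') {u v : V}
    (hu : u ∈ W) (hv : v ∈ W') (huv : G.Adj u v) : Con G (W ∪ W') := by
  refine ⟨⟨u, Finset.mem_union_left _ hu⟩, ?_⟩
  intro U hU hne hneq
  rcases ing2_part G h U with h1 | h1 | ⟨a, ha, b, hb, hbU, hab⟩
  · rcases ing2_part G h' U with h2 | h2 | ⟨a, ha, b, hb, hbU, hab⟩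
    · obtain ⟨x, hx⟩ := hne
      rcases Finset.mem_union.mp (hU hx) with hxW | hxW
      · exact absurd hx (h1 x hxW)
      · exact absurd hx (h2 x hxW)
    · exact ⟨v, h2 hv, u, Finset.mem_union_left _ hu, h1 u hu, huv.symm⟩
    · exact ⟨a, ha, b, Finset.mem_union_right _ hb, hbU, hab⟩
  · rcases ing2_part G h' U with h2 | h2 | ⟨a, ha, b, hb, hbU, hab⟩
    · exact ⟨u, h1 hu, v, Finset.mem_union_right _ hv, h2 v hv, huv⟩
    · exact absurd (Finset.Subset.antisymm hU (Finset.union_subset h1 h2)) hneq
    · exact ⟨a, ha, b, Finset.mem_union_right _ hb, hbU, hab⟩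
  · exact ⟨a, ha, b, Finset.mem_union_left _ hb, hbU, hab⟩

theorem con_union (G : SimpleGraph V) {W W' : Finset V} (h : Con G W) (h' : Con G W') {u : V}
    (hu : u ∈ W) (hu' : u ∈ W') : Con G (W ∪ W') := by
  refine ⟨⟨u, Finset.mem_union_left _ hu⟩, ?_⟩
  intro U hU hne hneq
  rcases ing2_part G h U with h1 | h1 | ⟨a, ha, b, hb, hbU, hab⟩
  · rcases ing2_part G h' U with h2 | h2 | ⟨a, ha, b, hb, hbU, hab⟩
    · obtain ⟨x, hx⟩ := hne
      rcases Finset.mem_union.mp (hU hx) with hxW | hxW
      · exact absurd hx (h1 x hxW)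
      · exact absurd hx (h2 x hxW)
    · exact absurd (h2 hu') (h1 u hu)
    · exact ⟨a, ha, b, Finset.mem_union_right _ hb, hbU, hab⟩
  · rcases ing2_part G h' U with h2 | h2 | ⟨a, ha, b, hb, hbU, hab⟩
    · exact absurd (h1 hu) (h2 u hu')
    · exact absurd (Finset.Subset.antisymm hU (Finset.union_subset h1 h2)) hneq
    · exact ⟨a, ha, b, Finset.mem_union_right _ hb, hbU, hab⟩
  · exact ⟨a, ha, b, Finset.mem_union_left _ hb, hbU, hab⟩

theorem con_insert (G : SimpleGraph V) {W : Finset V} (h : Con G W) {u z : V} (hu : u ∈ W)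
    (huz : G.Adj u z) : Con G (insert z W) := by
  have h1 := con_union_adj G h (con_singleton G z) hu (Finset.mem_singleton_self z) huz
  have h2 : W ∪ {z} = insert z W := by
    rw [Finset.union_comm, Finset.insert_eq]
  rwa [h2] at h1

theorem con_step (G : SimpleGraph V) {W W' : Finset V} (h : W ⊆ W') (hn : W.Nonempty) (hc : Con G W')
    (hne : W ≠ W') : ∃ z ∈ W', z ∉ W ∧ 1 ≤ dg G z W := by
  obtain ⟨u, hu, v, hv, hvW, huv⟩ := hc.2 W h hn hne
  refine ⟨v, hv, hvW, ?_⟩
  unfold dg
  exact Finset.card_pos.mpr ⟨u, Finset.mem_filter.mpr ⟨hu, huv.symm⟩⟩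

private theorem ing2_mono (G : SimpleGraph V) {W' : Finset V} (hc : Con G W') (n : ℕ) :
    ∀ W : Finset V, W ⊆ W' → W.Nonempty → (W' \ W).card = n → ex G W ≤ ex G W' := by
  induction n with
  | zero =>
    intro W h hn hcard
    have h1 : W' ⊆ W := by
      rw [Finset.card_eq_zero, Finset.sdiff_eq_empty_iff_subset] at hcard
      exact hcard
    rw [Finset.Subset.antisymm h h1]
  | succ n ih =>
    intro W h hn hcard
    have hne : W ≠ W' := by
      rintro rfl
      rw [Finset.sdiff_self, Finset.card_empty] at hcard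
      omega
    obtain ⟨z, hz, hzW, hd⟩ := con_step G h hn hc hne
    have h1 := ex_insert G W z hzW
    have h2 : (W' \ insert z W).card = n := by
      have h3 : W' \ insert z W = (W' \ W).erase z := by
        ext x
        simp only [Finset.mem_sdiff, Finset.mem_insert, Finset.mem_erase]
        tauto
      rw [h3, Finset.card_erase_of_mem (Finset.mem_sdiff.mpr ⟨hz, hzW⟩), hcard]
      omega
    have h3 := ih (insert z W) (Finset.insert_subset hz h) (Finset.insert_nonempty z W) h2
    omega

theorem ex_mono (G : SimpleGraph V) {W W' : Finset V} (h : W ⊆ W') (hn : W.Nonempty) (hc : Con G W') :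
    ex G W ≤ ex G W' :=
  ing2_mono G hc _ W h hn rfl

theorem con_ex (G : SimpleGraph V) {W : Finset V} (hc : Con G W) : -1 ≤ ex G W := by
  obtain ⟨v, hv⟩ := hc.1
  have h1 := ex_mono G (Finset.singleton_subset_iff.mpr hv) (Finset.singleton_nonempty v) hc
  have h2 : (-1 : ℤ) ≤ ex G {v} := by
    unfold ex
    rw [Finset.card_singleton]
    omega
  omega

end Pool.Agent.H38H.IN
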