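import Pool.Agent.Lib.H38H.IN.G4

set_option autoImplicit false

namespace Pool.Agent.H38H.IN

open Classical

variable {V : Type} [Fintype V]

/-! Chunk ING5 (M): geodesics and uniqueness of the parent near a rigid set.
lev_path: induction on `n`. `n = 0`: `P = {z}`. Step: if `z ∈ Lev n` use the induction hypothesis (`Lev (n-1) ⊆ Lev n`).
Otherwise `z` has a neighbour `y ∈ Lev n`; take `P` for `y` and insert `z` (con_insert). All elements of the old `P` lie
in `Lev n` (`y` itself and the others, lev_mono).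
rigid_unique: suppose `y ≠ y'`. Take `P` for `y` and `P'` for `y'` (level n+1), `X = Ω ∪ P ∪ P'`: connected (con_union). `z ∉ X`: `z ∉ Ω`, and
the elements of `P` other than `y` lie in `Lev n`, which does not contain `z`; `z ≠ y` as `G.Adj z y`. `W = insert z X` is connected,
`|W| ≤ |Ω| + 2(n+1) + 1`, `ex W = ex X + dg z X - 1 ≥ ex Ω + 1` (ex_mono, ex_insert), contradiction to `Rigid`.
rigid_next: `x ∈ Lev (n+2)` by lev_adj; if `x ∈ Lev (n+1)` then `x = y` by rigid_unique.
rigid_adj: if `m = n` then `w ∈ Lev (n+1)` and a neighbour `y` of `z` at distance n (exa_pred) give `w = y`, a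
contradiction. Otherwise say `m < n`: by lev_adj `z ∈ Lev (m+2)`, so `n + 1 ≤ m + 2`. -/

theorem lev_path (G : SimpleGraph V) {Ω : Finset V} {n : ℕ} {z : V} (hz : z ∈ Lev G Ω n) :
    ∃ P : Finset V, Con G P ∧ z ∈ P ∧ (∃ w ∈ P, w ∈ Ω) ∧ P.card ≤ n + 1 ∧ (P \ Ω).card ≤ n ∧
      P ⊆ Lev G Ω n ∧ ∀ y ∈ P, y ≠ z → y ∈ Lev G Ω (n - 1) := by
  induction n generalizing z with
  | zero =>
    have hz' : z ∈ Ω := hz
    refine ⟨{z}, con_singleton G z, Finset.mem_singleton_self z, ⟨z, Finset.mem_singleton_self z, hz'⟩,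
      by simp, ?_, ?_, ?_⟩
    · rw [Finset.sdiff_eq_empty_iff_subset.2 (Finset.singleton_subset_iff.2 hz')]
      simp
    · exact Finset.singleton_subset_iff.2 hz
    · intro y hy hyz
      exact absurd (Finset.mem_singleton.1 hy) hyz
  | succ n ih =>
    by_cases h : z ∈ Lev G Ω n
    · obtain ⟨P, h1, h2, h3, h4, h5, h6, h7⟩ := ih h
      refine ⟨P, h1, h2, h3, by omega, by omega, ?_, ?_⟩
      · exact h6.trans (lev_mono G Ω (Nat.le_succ n))
      · intro y hy hyz
        exact h6 hy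
    · have hz' : z ∈ Lev G Ω n ∪ Finset.univ.filter (fun z => ∃ y ∈ Lev G Ω n, G.Adj y z) := hz
      rw [Finset.mem_union] at hz'
      rcases hz' with hz' | hz'
      · exact absurd hz' h
      rw [Finset.mem_filter] at hz'
      obtain ⟨-, y, hy, hyz⟩ := hz'
      obtain ⟨P, h1, h2, h3, h4, h5, h6, h7⟩ := ih hy
      refine ⟨insert z P, con_insert G h1 h2 hyz, Finset.mem_insert_self z P, ?_, ?_, ?_, ?_, ?_⟩
      · obtain ⟨w, hw, hw'⟩ := h3
        exact ⟨w, Finset.mem_insert_of_mem hw, hw'⟩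
      · exact (Finset.card_insert_le z P).trans (by omega)
      · have h8 : insert z P \ Ω ⊆ insert z (P \ Ω) := by
          intro x hx
          rw [Finset.mem_sdiff, Finset.mem_insert] at hx
          rw [Finset.mem_insert, Finset.mem_sdiff]
          rcases hx.1 with h | h
          · exact Or.inl h
          · exact Or.inr ⟨h, hx.2⟩
        exact (Finset.card_le_card h8).trans ((Finset.card_insert_le _ _).trans (by omega))
      · intro x hx
        rcases Finset.mem_insert.1 hx with hx | hx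
        · rw [hx]
          exact hz
        · exact lev_mono G Ω (Nat.le_succ n) (h6 hx)
      · intro x hx hxz
        rcases Finset.mem_insert.1 hx with hx | hx
        · exact absurd hx hxz
        · exact h6 hx

theorem rigid_unique (G : SimpleGraph V) {Ω : Finset V} {b n : ℕ} (hR : Rigid G Ω b) (hb : 2 * n + 3 ≤ b)
    {z y y' : V} (hz : Exa G Ω (n + 1) z) (hy : y ∈ Lev G Ω (n + 1)) (hy' : y' ∈ Lev G Ω (n + 1))
    (hzy : G.Adj z y) (hzy' : G.Adj z y') : y = y' := by
  by_contra hne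
  obtain ⟨P, h1, h2, ⟨w, hw, hw'⟩, h4, h5, h6, h7⟩ := lev_path G hy
  obtain ⟨P', h1', h2', ⟨w', hw1, hw1'⟩, h4', h5', h6', h7'⟩ := lev_path G hy'
  have hc1 : Con G (Ω ∪ P) := con_union G hR.1 h1 hw' hw
  have hc2 : Con G ((Ω ∪ P) ∪ P') :=
    con_union G hc1 h1' (Finset.mem_union_left _ hw1') hw1
  set X : Finset V := (Ω ∪ P) ∪ P' with hX
  have hyX : y ∈ X := Finset.mem_union_left _ (Finset.mem_union_right _ h2)
  have hyX' : y' ∈ X := Finset.mem_union_right _ h2'
  have hzn : z ∉ Lev G Ω n := hz.2 n (Nat.lt_succ_self n)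
  have hzΩ : z ∉ Ω := fun h => hzn (lev_mono G Ω (Nat.zero_le n) h)
  have hzP : z ∉ P := by
    intro h
    have h8 : z ≠ y := hzy.ne
    have h9 := h7 z h h8
    simp only [Nat.add_sub_cancel] at h9
    exact hzn h9
  have hzP' : z ∉ P' := by
    intro h
    have h8 : z ≠ y' := hzy'.ne
    have h9 := h7' z h h8
    simp only [Nat.add_sub_cancel] at h9
    exact hzn h9
  have hzX : z ∉ X := by
    rw [hX, Finset.mem_union, Finset.mem_union]
    rintro ((h | h) | h)
    · exact hzΩ h
    · exact hzP h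
    · exact hzP' h
  have hΩX : Ω ⊆ X := fun x hx => Finset.mem_union_left _ (Finset.mem_union_left _ hx)
  have hcW : Con G (insert z X) := con_insert G hc2 hyX hzy.symm
  have hΩn : Ω.Nonempty := hR.1.1
  have hex1 : ex G Ω ≤ ex G X := ex_mono G hΩX hΩn hc2
  have hdg : 2 ≤ dg G z X := by
    unfold dg
    rw [← Finset.card_pair hne]
    apply Finset.card_le_card
    intro x hx
    rw [Finset.mem_filter]
    rcases Finset.mem_insert.1 hx with h | h
    · rw [h]
      exact ⟨hyX, hzy⟩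
    · rw [Finset.mem_singleton.1 h]
      exact ⟨hyX', hzy'⟩
  have hex2 := ex_insert G X z hzX
  have hcard : (insert z X).card ≤ Ω.card + b := by
    rw [Finset.card_insert_of_notMem hzX]
    have h8 : X ⊆ (Ω ∪ (P \ Ω)) ∪ (P' \ Ω) := by
      intro x hx
      by_cases hxΩ : x ∈ Ω
      · exact Finset.mem_union_left _ (Finset.mem_union_left _ hxΩ)
      · rw [hX, Finset.mem_union, Finset.mem_union] at hx
        rw [Finset.mem_union, Finset.mem_union, Finset.mem_sdiff, Finset.mem_sdiff]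
        rcases hx with (h | h) | h
        · exact absurd h hxΩ
        · exact Or.inl (Or.inr ⟨h, hxΩ⟩)
        · exact Or.inr ⟨h, hxΩ⟩
    have h9 := (Finset.card_le_card h8).trans (Finset.card_union_le _ _)
    have h10 := Finset.card_union_le Ω (P \ Ω)
    omega
  have h11 := hR.2 (insert z X) (hΩX.trans (Finset.subset_insert _ _)) hcW hcard
  rw [hex2] at h11
  have h12 : (2 : ℤ) ≤ (dg G z X : ℤ) := by exact_mod_cast hdg
  linarith

theorem rigid_next (G : SimpleGraph V) {Ω : Finset V} {b n : ℕ} (hR : Rigid G Ω b) (hb : 2 * n + 3 ≤ b)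
    {z y x : V} (hz : Exa G Ω (n + 1) z) (hy : y ∈ Lev G Ω (n + 1)) (hzy : G.Adj z y) (hzx : G.Adj z x)
    (hxy : x ≠ y) : Exa G Ω (n + 2) x := by
  have h1 : x ∉ Lev G Ω (n + 1) := by
    intro h
    exact hxy (rigid_unique G hR hb hz h hy hzx hzy)
  refine ⟨lev_adj G hz.1 hzx, ?_⟩
  intro m hm h
  exact h1 (lev_mono G Ω (by omega) h)

theorem rigid_adj (G : SimpleGraph V) {Ω : Finset V} {b n m : ℕ} (hR : Rigid G Ω b) (hn : 2 * n + 3 ≤ b)
    (hm : 2 * m + 3 ≤ b) {z w : V} (hz : Exa G Ω (n + 1) z) (hw : Exa G Ω (m + 1) w) (h : G.Adj z w) :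
    m = n + 1 ∨ n = m + 1 := by
  have h1 : m + 1 ≤ n + 2 := exa_le G hw (lev_adj G hz.1 h)
  have h2 : n + 1 ≤ m + 2 := exa_le G hz (lev_adj G hw.1 h.symm)
  rcases Nat.lt_trichotomy m n with h3 | h3 | h3
  · right
    omega
  · exfalso
    subst h3
    obtain ⟨y, hy, hyz⟩ := exa_pred G hz
    have h4 : w = y := by
      apply rigid_unique G hR hn hz hw.1 (lev_mono G Ω (Nat.le_succ m) hy.1) h hyz.symm
    rw [h4] at hw
    have h5 := exa_unique G hw hy
    omega
  · left
    omega

end Pool.Agent.H38H.IN
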