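import Pool.Agent.Lib.H38H.IN.G3
import Pool.Agent.Lib.H38H.IN.G5

set_option autoImplicit false

namespace Pool.Agent.H38H.IN

open Classical

variable {V : Type} [Fintype V]

/-! Chunk ING6 (S/M): cycles near a rigid set; rigid sets from NICE and CLEAN.
cyc_near: by con_lev all of `C` lies in `Lev (n + |C|)`. Choose `z ∈ C` with maximal exact distance `k` (exa_exists). If `k = 0` then
`C ⊆ Ω`. If `k = j + 1` then `z` has two different neighbours in `C` (exists_two), both in `Lev (j+1)`: contradiction to rigid_unique.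
rigid_of_nice: for connected `W ⊇ Ω`, `|W| ≤ κ`: `ex W + mIn W ≤ 0 ≤ ex Ω + mIn Ω ≤ ex Ω + mIn W`.
rigid_of_clean: `ex {a} = -1` and `ex W < 0` for connected `W` containing `a` with `|W| ≤ κ'`. -/

theorem cyc_near (G : SimpleGraph V) {Ω C : Finset V} {b n : ℕ} (hR : Rigid G Ω b) (hC : Cyc G C) {w : V}
    (hw : w ∈ C) (hw' : w ∈ Lev G Ω n) (hb : 2 * (n + C.card) + 3 ≤ b) : C ⊆ Ω := by
  have h1 : ∀ z ∈ C, ∃ m, m ≤ n + C.card ∧ Exa G Ω m z := fun z hz =>
    exa_exists G (con_lev G hC.1 hw hw' hz)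
  choose! k hk1 hk2 using h1
  obtain ⟨z, hz, hmax⟩ := Finset.exists_max_image C k ⟨w, hw⟩
  rcases Nat.eq_zero_or_pos (k z) with h0 | h0
  · intro x hx
    have h2 := hmax x hx
    have h3 : k x = 0 := by omega
    have h4 := hk2 x hx
    rw [h3] at h4
    exact (exa_zero G).mp h4
  · exfalso
    obtain ⟨j, hj⟩ : ∃ j, k z = j + 1 := ⟨k z - 1, by omega⟩
    obtain ⟨y, hy, y', hy', hyy, hzy, hzy'⟩ := exists_two G (hC.2 z hz)
    have h2 := hk2 z hz
    rw [hj] at h2
    have h3 := hk1 z hz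
    have hl : ∀ x ∈ C, x ∈ Lev G Ω (j + 1) := by
      intro x hx
      have h4 := hmax x hx
      rw [hj] at h4
      exact lev_mono G Ω h4 (hk2 x hx).1
    exact hyy (rigid_unique G hR (by omega) h2 (hl y hy) (hl y' hy') hzy hzy')

theorem rigid_of_nice (G : SimpleGraph V) {E : Finset (Sym2 V)} {κ b : ℕ} (hN : Nice κ G E) {Ω : Finset V}
    (hc : Con G Ω) (h0 : 0 ≤ ex G Ω + mIn E Ω) (hb : Ω.card + b ≤ κ) : Rigid G Ω b := by
  refine ⟨hc, fun W hW _ hcard => ?_⟩
  have h1 := hN W (by omega)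
  have h2 := mIn_mono E hW
  unfold ex at h0 ⊢
  omega

theorem rigid_of_clean (G : SimpleGraph V) {E : Finset (Sym2 V)} {κ' b : ℕ} {A1 : Finset V}
    {tc : Finset (Finset V)} (hC : Clean G E κ' A1 tc) {a : V} (ha : a ∈ A1) (hb : b + 1 ≤ κ') :
    Rigid G {a} b := by
  refine ⟨con_singleton G a, fun W hW hcW hcard => ?_⟩
  rw [Finset.card_singleton] at hcard
  have h1 := (hC W hcW (by omega) a ha (hW (Finset.mem_singleton_self a))).1
  have h2 := con_ex G (con_singleton G a)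
  omega

end Pool.Agent.H38H.IN
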