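import Pool.Agent.Lib.H38H.Stm

/-!
Project H38H, module IN (helper49), geometry: definitions.
Connected sets, excess, balls, rigid sets. Everything is over classical decidability.
-/

set_option autoImplicit false

namespace Pool.Agent.H38H.IN

open Classical

variable {V : Type} [Fintype V]

/-- excess: edges inside minus vertices -/
noncomputable def ex (G : SimpleGraph V) (W : Finset V) : ℤ := (eIn G W : ℤ) - (W.card : ℤ)

/-- number of neighbours of `v` in `W` -/
noncomputable def dg (G : SimpleGraph V) (v : V) (W : Finset V) : ℕ := (W.filter (fun u => G.Adj v u)).card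

/-- connected nonempty set of vertices (every proper nonempty part has an edge to the rest) -/
def Con (G : SimpleGraph V) (W : Finset V) : Prop :=
  W.Nonempty ∧ ∀ U : Finset V, U ⊆ W → U.Nonempty → U ≠ W → ∃ u ∈ U, ∃ v ∈ W, v ∉ U ∧ G.Adj u v

/-- connected set in which every vertex has at least two neighbours -/
def Cyc (G : SimpleGraph V) (W : Finset V) : Prop := Con G W ∧ ∀ v ∈ W, 2 ≤ dg G v W

/-- the vertices at distance at most `n` from `Ω` -/
noncomputable def Lev (G : SimpleGraph V) (Ω : Finset V) : ℕ → Finset V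
  | 0 => Ω
  | n + 1 => Lev G Ω n ∪ Finset.univ.filter (fun z => ∃ y ∈ Lev G Ω n, G.Adj y z)

/-- exact distance `n` from `Ω` -/
def Exa (G : SimpleGraph V) (Ω : Finset V) (n : ℕ) (z : V) : Prop :=
  z ∈ Lev G Ω n ∧ ∀ m < n, z ∉ Lev G Ω m

/-- no connected superset with at most `b` more vertices has larger excess -/
def Rigid (G : SimpleGraph V) (Ω : Finset V) (b : ℕ) : Prop :=
  Con G Ω ∧ ∀ W : Finset V, Ω ⊆ W → Con G W → W.card ≤ Ω.card + b → ex G W ≤ ex G Ω

/-- the condition CLEAN of section (4d) -/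
def Clean (G : SimpleGraph V) (E : Finset (Sym2 V)) (κ' : ℕ) (A1 : Finset V) (tc : Finset (Finset V)) : Prop :=
  ∀ W : Finset V, Con G W → W.card ≤ κ' → ∀ a ∈ A1, a ∈ W →
    ex G W < 0 ∧ (∀ e ∈ E, ∀ v ∈ e, v ∉ W) ∧ (∀ C ∈ tc, Disjoint C W) ∧ ∀ a' ∈ A1, a' ∈ W → a' = a

end Pool.Agent.H38H.IN
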