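import Pool.Agent.Lib.H38H.IN.R1

set_option autoImplicit false

namespace Pool.Agent.H38H.IN

open Classical

variable {V ι : Type} [Fintype V] [Fintype ι] {L : ℕ} {G : SimpleGraph V} {E : Finset (Sym2 V)}
    {A1 : Finset V} {tc : Finset (Finset V)} {I : Inst ι L} {h : SB ι}

/-- what `HAM` gives, for a fixed 2-factor `S` of the positions -/
structure IsHAM (I : Inst ι L) (h : SB ι) (S : SimpleGraph (ι × Bool)) : Prop where
  deg : ∀ x, (S.neighborSet x).ncard = 2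
  conn : S.Connected
  adj : ∀ x y, S.Adj x y → I.PAdj h x y
  mid : ∀ x, I.kind (ap h x).1 ≠ Kind.c → S.Adj x (flip x)

/-- the graph on the vertices: the edges of `S` other than the mid edges of slots of kind b and d, and the paths of the slots of kind b -/
noncomputable def hcG (l : Loc G E A1 tc I h) (S : SimpleGraph (ι × Bool)) : SimpleGraph V where
  Adj u v := u ≠ v ∧ ((∃ x y, S.Adj x y ∧ (y = flip x → I.kind (h.1 x.1) = Kind.c) ∧ l.vx x = u ∧ l.vx y = v) ∨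
    ∃ p, I.kind (h.1 p) = Kind.b ∧ Cns (l.pth p) u v)
  symm := by
    constructor
    rintro u v ⟨h0, h1 | ⟨p, hp, hc⟩⟩
    · obtain ⟨x, y, hxy, hf, hx, hy⟩ := h1
      refine ⟨h0.symm, Or.inl ⟨y, x, hxy.symm, fun h2 => ?_, hy, hx⟩⟩
      have h3 : y = flip x := by
        rw [h2]
        unfold flip
        simp
      have h4 := hf h3
      have h5 : y.1 = x.1 := by rw [h3]; rfl
      rw [h5]
      exact h4
    · exact ⟨h0.symm, Or.inr ⟨p, hp, hc.symm⟩⟩
  loopless := by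
    constructor
    intro v hv
    exact hv.1 rfl

/-! Chunk INH1 (M): adjacency of positions in the local model. `(ap h x).1 = h.1 x.1` by definition. padj_cases: unfold `PAdj`. `Mc (ap h x) = some (ap h y)`: both kinds are c (Mc_kind, Mc_symm),
Mc_iff. `Md ..`: both kinds are d, Md_iff. s_adj_vx: from the cases: outer: outer_nb; M: `vx y = μ (vx x) ≠ vx x` and μ_adj, μ_ne; flip with kind c: c_cns, chain.
s_nb: if the kind of `x` is not c then `flip x` is one of the two neighbours, so there is exactly one other neighbour `y`; kind b: it is not reached by `Mc`, `Md`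
(kinds), so `outer x = some y`. hc_le, hc_mark: fields chain, mark, `G.Adj` of s_adj_vx, cns_ne. -/

theorem padj_cases (l : Loc G E A1 tc I h) {x y : ι × Bool} (hxy : I.PAdj h x y) :
    y = flip x ∨ I.outer x = some y ∨ (I.kind (h.1 x.1) = Kind.c ∧ I.kind (h.1 y.1) = Kind.c ∧ l.vx y = l.μ (l.vx x)) ∨
      (I.kind (h.1 x.1) = Kind.d ∧ I.kind (h.1 y.1) = Kind.d ∧ l.vx y = l.μ (l.vx x)) := by
  rcases hxy with h1 | h1 | h1 | h1
  · exact Or.inl h1
  · exact Or.inr (Or.inl h1)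
  · have h2 : I.kind (h.1 x.1) = Kind.c := (I.Mc_kind _ _ h1).1
    have h3 : I.kind (h.1 y.1) = Kind.c := (I.Mc_kind _ _ (I.Mc_symm _ _ h1)).1
    exact Or.inr (Or.inr (Or.inl ⟨h2, h3, (l.Mc_iff x y h2 h3).1 h1⟩))
  · have h2 : I.kind (h.1 x.1) = Kind.d := (I.Md_kind _ _ h1).1
    have h3 : I.kind (h.1 y.1) = Kind.d := (I.Md_kind _ _ (I.Md_symm _ _ h1)).1
    exact Or.inr (Or.inr (Or.inr ⟨h2, h3, (l.Md_iff x y h2 h3).1 h1⟩))

theorem s_adj_vx (l : Loc G E A1 tc I h) {S : SimpleGraph (ι × Bool)} (hS : IsHAM I h S) {x y : ι × Bool}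
    (hxy : S.Adj x y) (hf : y = flip x → I.kind (h.1 x.1) = Kind.c) :
    G.Adj (l.vx x) (l.vx y) ∧ (hcG l S).Adj (l.vx x) (l.vx y) := by
  have key : G.Adj (l.vx x) (l.vx y) := by
    rcases padj_cases l (hS.adj x y hxy) with h1 | h1 | ⟨h1, -, h3⟩ | ⟨h1, -, h3⟩
    · have h2 := c_cns l (hf h1)
      rw [h1]
      exact l.chain _ _ _ h2.1
    · exact (outer_nb l h1).2.2
    · have h2 := (l.μ_ne x.1 (l.vx x) (vx_mem l x) (by rw [h1]; exact fun hc => by cases hc)).1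
      rw [h3]
      exact l.μ_adj _ h2
    · have h2 := (l.μ_ne x.1 (l.vx x) (vx_mem l x) (by rw [h1]; exact fun hc => by cases hc)).1
      rw [h3]
      exact l.μ_adj _ h2
  exact ⟨key, key.ne, Or.inl ⟨x, y, hxy, hf, rfl, rfl⟩⟩

theorem s_nb (l : Loc G E A1 tc I h) {S : SimpleGraph (ι × Bool)} (hS : IsHAM I h S) {x : ι × Bool}
    (hk : I.kind (h.1 x.1) ≠ Kind.c) :
    ∃ y, y ≠ flip x ∧ S.Adj x y ∧ (∀ z, S.Adj x z → z = flip x ∨ z = y) ∧
      (I.kind (h.1 x.1) = Kind.b → I.outer x = some y) := by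
  have hmid : S.Adj x (flip x) := hS.mid x hk
  obtain ⟨p, q, hpq, hpq2⟩ := Set.ncard_eq_two.1 (hS.deg x)
  have hnb : ∀ z, S.Adj x z ↔ z = p ∨ z = q := by
    intro z
    have h1 : z ∈ S.neighborSet x ↔ z ∈ ({p, q} : Set (ι × Bool)) := by rw [hpq2]
    simpa using h1
  have hmain : ∃ y, y ≠ flip x ∧ S.Adj x y ∧ (∀ z, S.Adj x z → z = flip x ∨ z = y) := by
    rcases (hnb (flip x)).1 hmid with h1 | h1
    · refine ⟨q, ?_, (hnb q).2 (Or.inr rfl), ?_⟩
      · rw [h1]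
        exact hpq.symm
      · intro z hz
        rw [h1]
        exact (hnb z).1 hz
    · refine ⟨p, ?_, (hnb p).2 (Or.inl rfl), ?_⟩
      · rw [h1]
        exact hpq
      · intro z hz
        rw [h1]
        exact ((hnb z).1 hz).symm
  obtain ⟨y, hy1, hy2, hy3⟩ := hmain
  refine ⟨y, hy1, hy2, hy3, fun hb => ?_⟩
  rcases padj_cases l (hS.adj x y hy2) with h1 | h1 | ⟨h1, -, -⟩ | ⟨h1, -, -⟩
  · exact absurd h1 hy1
  · exact h1
  · exact absurd h1 hk
  · rw [hb] at h1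
    cases h1

theorem hc_le (l : Loc G E A1 tc I h) {S : SimpleGraph (ι × Bool)} (hS : IsHAM I h S) : hcG l S ≤ G := by
  rintro u v ⟨-, ⟨x, y, hxy, hf, rfl, rfl⟩ | ⟨p, -, hc⟩⟩
  · exact (s_adj_vx l hS hxy hf).1
  · exact l.chain p u v hc

theorem hc_mark (l : Loc G E A1 tc I h) (S : SimpleGraph (ι × Bool)) :
    ∀ e ∈ E, e ∈ (hcG l S).edgeSet := by
  intro e he
  obtain ⟨p, hp, u, v, rfl, hc⟩ := l.mark e he
  rw [SimpleGraph.mem_edgeSet]
  exact ⟨cns_ne (l.nodup p) hc, Or.inr ⟨p, hp, hc⟩⟩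

end Pool.Agent.H38H.IN
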