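import Pool.Agent.Lib.H38H.IN.H1

set_option autoImplicit false

namespace Pool.Agent.H38H.IN

open Classical

variable {V ι : Type} [Fintype V] [Fintype ι] {L : ℕ} {G : SimpleGraph V} {E : Finset (Sym2 V)}
    {A1 : Finset V} {tc : Finset (Finset V)} {I : Inst ι L} {h : SB ι}

/-! Chunk INH3 (M): degrees in `hcG` at the vertices of slots of kind c and of kind b.
Kind c: `v = vx x` (pth_ex), by vx_inj `x` is the only position with vertex `v`, and `v` is on no path of kind b (uniq). So the neighbours of `v` in `hcG` are the `vx y` for `S.Adj x y` (s_adj_vx, hf holds as the kind is c).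
`vx` is injective on the neighbours of `x`: by padj_cases (with padj for `S.Adj x y`) a neighbour is `flip x`, or `outer x` with vertex `nb x`, or has vertex `μ (vx x)`; the three vertices `vx (flip x)`, `nb x`, `μ (vx x)` are different
(nb_pth with c_cns, nb_μ, μ_ne) and each is the vertex of only one position among those (vx_inj; kinds of y: the position with vertex `μ (vx x)` has kind c; if `vx y = vx y'` for two neighbours `y`, `y'` of `x` then both are of the same of the three types,
`flip x`: equal; `outer x`: equal; `μ`: kind c, vx_inj). So ncard is 2.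
Kind b: `v` not an end: neighbours in `hcG`: the two neighbours on the path (cns_inner; no position has vertex `v`: its vertex would be `vx (p,false)` or `vx (p,true)`
of its slot, uniq). `v = vx x`: `x` is the only position with this vertex (vx_inj); neighbours: the one on the path `u` (vx_cns) and `vx y` for the unique neighbour `y ≠ flip x` of `x` (s_nb), `outer x = some y`,
`vx y = nb x ≠ u` (nb_pth). The pair `x, flip x` is excluded by the condition in hcG (kind b is not c). -/

theorem hc_deg_c (l : Loc G E A1 tc I h) {S : SimpleGraph (ι × Bool)} (hS : IsHAM I h S) {p : ι}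
    (hk : I.kind (h.1 p) = Kind.c) {v : V} (hv : v ∈ l.pth p) : ((hcG l S).neighborSet v).ncard = 2 := by
  have hb : I.kind (h.1 p) ≠ Kind.b := by rw [hk]; simp
  obtain ⟨x, hx1, hx2⟩ := pth_ex l hb hv
  subst hx1
  subst hx2
  have hd : I.kind (h.1 x.1) ≠ Kind.d := by rw [hk]; simp
  have himg : (hcG l S).neighborSet (l.vx x) = l.vx '' (S.neighborSet x) := by
    ext v'
    simp only [SimpleGraph.mem_neighborSet, Set.mem_image]
    constructor
    · rintro ⟨-, ⟨x0, y0, hxy, hf, h1, h2⟩ | ⟨p', hp', hc⟩⟩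
      · have h3 : x = x0 := vx_inj l h1.symm hd
        subst h3
        exact ⟨y0, hxy, h2⟩
      · have h3 : p' = x.1 := l.uniq _ _ _ (cns_mem hc).1 (vx_mem l x)
        subst h3
        rw [hk] at hp'
        exact absurd hp' (by simp)
    · rintro ⟨y, hy, rfl⟩
      exact (s_adj_vx l hS hy (fun _ => hk)).2
  have key : ∀ y y' : ι × Bool, S.Adj x y → S.Adj x y' → l.vx y = l.vx y' →
      (y = flip x ∨ (I.outer x = some y ∧ y' ≠ flip x) ∨ (I.kind (h.1 y.1) = Kind.c ∧ l.vx y = l.μ (l.vx x))) →
      y = y' := by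
    intro y y' hy hy' hvv hcase
    have h2 := padj_cases l (hS.adj _ _ hy')
    rcases hcase with h1 | ⟨h1, h1'⟩ | ⟨h1k, h1⟩
    · rcases h2 with h2 | h2 | ⟨-, -, h2⟩ | ⟨h2, -⟩
      · rw [h1, h2]
      · exfalso
        have h3 := l.nb_pth x (l.vx (flip x)) (c_cns l hk).1
        rw [(outer_nb l h2).1, ← hvv, h1] at h3
        exact h3 rfl
      · exfalso
        have h3 := (l.μ_ne x.1 (l.vx x) (vx_mem l x) hb).2
        rw [← h2, ← hvv, h1] at h3
        exact h3 (vx_mem l (flip x))
      · exact absurd h2 hd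
    · rcases h2 with h2 | h2 | ⟨-, -, h2⟩ | ⟨h2, -⟩
      · exact absurd h2 h1'
      · rw [h1] at h2
        exact Option.some.inj h2
      · exfalso
        have h3 := l.nb_μ x
        rw [(outer_nb l h1).1, hvv, h2] at h3
        exact h3 rfl
      · exact absurd h2 hd
    · exact vx_inj l hvv (by rw [h1k]; simp)
  rw [himg, Set.ncard_image_of_injOn, hS.deg]
  intro y hy y' hy' hvv
  have hy1 : S.Adj x y := hy
  have hy1' : S.Adj x y' := hy'
  rcases padj_cases l (hS.adj _ _ hy1) with h1 | h1 | ⟨-, h1k, h1⟩ | ⟨h1, -⟩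
  · exact key y y' hy1 hy1' hvv (Or.inl h1)
  · by_cases h2 : y' = flip x
    · exact (key y' y hy1' hy1 hvv.symm (Or.inl h2)).symm
    · exact key y y' hy1 hy1' hvv (Or.inr (Or.inl ⟨h1, h2⟩))
  · exact key y y' hy1 hy1' hvv (Or.inr (Or.inr ⟨h1k, h1⟩))
  · exact absurd h1 hd

theorem hc_deg_b (l : Loc G E A1 tc I h) {S : SimpleGraph (ι × Bool)} (hS : IsHAM I h S) {p : ι}
    (hk : I.kind (h.1 p) = Kind.b) {v : V} (hv : v ∈ l.pth p) : ((hcG l S).neighborSet v).ncard = 2 := by
  have hd : I.kind (h.1 p) ≠ Kind.d := by rw [hk]; simp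
  have hc0 : I.kind (h.1 p) ≠ Kind.c := by rw [hk]; simp
  by_cases hends : ∃ x : ι × Bool, x.1 = p ∧ l.vx x = v
  · obtain ⟨x, hx1, hx2⟩ := hends
    subst hx1
    subst hx2
    obtain ⟨u, hu, hu2⟩ := vx_cns l hd
    obtain ⟨y, hy1, hy2, hy3, hy4⟩ := s_nb l hS hc0
    have ho := hy4 hk
    have hne : u ≠ l.vx y := by
      intro hh
      have h1 := l.nb_pth x u hu
      rw [(outer_nb l ho).1, ← hh] at h1
      exact h1 rfl
    have hset : (hcG l S).neighborSet (l.vx x) = {u, l.vx y} := by
      ext z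
      simp only [SimpleGraph.mem_neighborSet, Set.mem_insert_iff, Set.mem_singleton_iff]
      constructor
      · rintro ⟨-, ⟨x0, y0, hxy, hf, h1, h2⟩ | ⟨p', hp', hc⟩⟩
        · have h3 : x = x0 := vx_inj l h1.symm hd
          subst h3
          rcases hy3 _ hxy with h4 | h4
          · exact absurd (hf h4) hc0
          · right
            rw [← h2, h4]
        · have h3 : p' = x.1 := l.uniq _ _ _ (cns_mem hc).1 (vx_mem l x)
          subst h3
          exact Or.inl (hu2 z hc)
      · rintro (rfl | rfl)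
        · exact ⟨cns_ne (l.nodup x.1) hu, Or.inr ⟨x.1, hk, hu⟩⟩
        · exact (s_adj_vx l hS hy2 (fun h4 => absurd h4 hy1)).2
    rw [hset, Set.ncard_pair hne]
  · have hf : v ≠ l.vx (p, false) := fun hh => hends ⟨(p, false), rfl, hh.symm⟩
    have ht : v ≠ l.vx (p, true) := fun hh => hends ⟨(p, true), rfl, hh.symm⟩
    obtain ⟨u1, u2, hne, h1, h2, h3⟩ := cns_inner (l.nodup p) (l.head p) (l.last p) hv hf ht
    have hset : (hcG l S).neighborSet v = {u1, u2} := by
      ext z
      simp only [SimpleGraph.mem_neighborSet, Set.mem_insert_iff, Set.mem_singleton_iff]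
      constructor
      · rintro ⟨-, ⟨x0, y0, hxy, hf', h4, h5⟩ | ⟨p', hp', hc⟩⟩
        · exfalso
          have h6 : x0.1 = p := l.uniq v _ _ (by rw [← h4]; exact vx_mem l x0) hv
          exact hends ⟨x0, h6, h4⟩
        · have h6 : p' = p := l.uniq _ _ _ (cns_mem hc).1 hv
          subst h6
          exact h3 z hc
      · rintro (rfl | rfl)
        · exact ⟨cns_ne (l.nodup p) h1, Or.inr ⟨p, hk, h1⟩⟩
        · exact ⟨cns_ne (l.nodup p) h2, Or.inr ⟨p, hk, h2⟩⟩
    rw [hset, Set.ncard_pair hne]

end Pool.Agent.H38H.IN
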