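import Pool.Agent.Lib.H38H.IN.Geo

/-!
Project H38H, module IN (helper49): the local model. For one matching of the ports (so for one signed bijection `h`), the graph `G` seen from
the positions of the instance `I`: the link at the slot `p` is a path `pth p` of `G`, `vx x` is the vertex of the half at the position `x`, `nb x` the
vertex matched to it by the matching of the ports.
-/

set_option autoImplicit false

namespace Pool.Agent.H38H.IN

open Classical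

/-- `u` and `v` are consecutive in the list `l` -/
def Cns {V : Type} (l : List V) (u v : V) : Prop := [u, v] <:+: l ∨ [v, u] <:+: l

structure Loc {V ι : Type} [Fintype V] [Fintype ι] {L : ℕ} (G : SimpleGraph V) (E : Finset (Sym2 V))
    (A1 : Finset V) (tc : Finset (Finset V)) (I : Inst ι L) (h : SB ι) where
  /-- the partner for the matching of π-edges (identity at the exceptional vertices) -/
  μ : V → V
  /-- the path of the link at a slot -/
  pth : ι → List V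
  /-- vertex of a position -/
  vx : ι × Bool → V
  /-- vertex matched to a position -/
  nb : ι × Bool → V
  μμ : ∀ v, μ (μ v) = v
  μ_adj : ∀ v, μ v ≠ v → G.Adj v (μ v)
  nodup : ∀ p, (pth p).Nodup
  cover : ∀ v, ∃ p, v ∈ pth p
  uniq : ∀ v p q, v ∈ pth p → v ∈ pth q → p = q
  head : ∀ p, (pth p).head? = some (vx (p, false))
  last : ∀ p, (pth p).getLast? = some (vx (p, true))
  chain : ∀ p u v, Cns (pth p) u v → G.Adj u v
  len_c : ∀ p, I.kind (h.1 p) = Kind.c → (pth p).length = 2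
  len_d : ∀ p, I.kind (h.1 p) = Kind.d → (pth p).length = 1
  len_b : ∀ p, I.kind (h.1 p) = Kind.b → 2 ≤ (pth p).length ∧ (pth p).length ≤ 4
  mark : ∀ e ∈ E, ∃ p, I.kind (h.1 p) = Kind.b ∧ ∃ u v, e = s(u, v) ∧ Cns (pth p) u v
  μ_ne : ∀ p v, v ∈ pth p → I.kind (h.1 p) ≠ Kind.b → μ v ≠ v ∧ μ v ∉ pth p
  μ_kind : ∀ p q v, v ∈ pth p → μ v ∈ pth q → I.kind (h.1 p) ≠ Kind.b → I.kind (h.1 q) ≠ Kind.b →
    I.kind (h.1 p) = I.kind (h.1 q)
  Mc_iff : ∀ x y, I.kind (h.1 x.1) = Kind.c → I.kind (h.1 y.1) = Kind.c →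
    (I.Mc (ap h x) = some (ap h y) ↔ vx y = μ (vx x))
  Md_iff : ∀ x y, I.kind (h.1 x.1) = Kind.d → I.kind (h.1 y.1) = Kind.d →
    (I.Md (h.1 x.1) = some (h.1 y.1) ↔ vx y = μ (vx x))
  out_some : ∀ x y, I.outer x = some y → nb x = vx y
  nb_adj : ∀ x, G.Adj (vx x) (nb x)
  nb_μ : ∀ x, nb x ≠ μ (vx x)
  nb_pth : ∀ x v, Cns (pth x.1) (vx x) v → nb x ≠ v
  nb_d : ∀ x, I.kind (h.1 x.1) = Kind.d → nb x ≠ nb (flip x)
  end_obj : ∀ x, I.outer x = none → nb x ∈ A1 ∨ (∃ C ∈ tc, nb x ∈ C) ∨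
    (μ (nb x) ≠ nb x ∧ s(nb x, μ (nb x)) ∈ E)
  end_inj : ∀ x y, I.outer x = none → I.outer y = none → nb x = nb y → x = y
  core : ∀ p, I.kind (h.1 p) = Kind.b →
    (∃ a ∈ A1, ∀ v ∈ pth p, v = a ∨ Cns (pth p) v a) ∨ (∃ C ∈ tc, ∀ v ∈ pth p, v ∈ C) ∨
    (∃ e ∈ E, ∀ v ∈ pth p, v ∈ e ∨ ∃ u ∈ e, Cns (pth p) v u)
  tc_con : ∀ C ∈ tc, Con G C
  tc_nb : ∀ C ∈ tc, ∀ v ∈ C, ∃ y ∈ C, ∃ z ∈ C, y ≠ z ∧ G.Adj v y ∧ G.Adj v z ∧
    (∀ x, vx x = v → nb x ≠ y ∧ nb x ≠ z) ∧ (∀ x, I.outer x = none → nb x = v → vx x ≠ y ∧ vx x ≠ z)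

/-- the assumptions of sections 5.2: NICE, CLEAN and the sizes of the constants -/
structure RCH {V : Type} [Fintype V] (G : SimpleGraph V) (E : Finset (Sym2 V)) (A1 : Finset V)
    (tc : Finset (Finset V)) (r K s κ κ' : ℕ) : Prop where
  marks : Marks E
  nice : Nice κ G E
  clean : Clean G E κ' A1 tc
  tcs : ∀ C ∈ tc, C.card ≤ s
  c1 : 8 * K + 20 * r + 100 ≤ κ'
  c2 : κ' ≤ s
  c3 : 20 * s + 100 ≤ κ

/-- objects of the first three types: a long exceptional vertex, a tiny odd cycle of π, a mark -/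
def Obj0 {V : Type} [Fintype V] (E : Finset (Sym2 V)) (A1 : Finset V) (tc : Finset (Finset V))
    (Ω : Finset V) : Prop :=
  (∃ a ∈ A1, Ω = {a}) ∨ Ω ∈ tc ∨ ∃ u v, s(u, v) ∈ E ∧ Ω = {u, v}

section
variable {V ι : Type} [Fintype V] [Fintype ι] {L : ℕ} {G : SimpleGraph V} {E : Finset (Sym2 V)}
    {A1 : Finset V} {tc : Finset (Finset V)} {I : Inst ι L} {h : SB ι}

/-- the vertices of the links on the component of `x` in `F` -/
noncomputable def Loc.Z (l : Loc G E A1 tc I h) (x : ι × Bool) : Finset V :=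
  Finset.univ.filter (fun v => ∃ y, I.SameF x y ∧ v ∈ l.pth y.1)

/-- `x` is a root of first type (an end) with object `Ω` -/
def Loc.R1 (l : Loc G E A1 tc I h) (x : ι × Bool) (Ω : Finset V) : Prop :=
  I.outer x = none ∧ Obj0 E A1 tc Ω ∧ l.nb x ∈ Ω ∧ l.vx x ∉ Ω

/-- `x` is a root of second type (on the root edge of a tiny cycle) with object `Ω` -/
def Loc.R2 (l : Loc G E A1 tc I h) (K : ℕ) (T : Finset (ι × Bool)) (x : ι × Bool) (Ω : Finset V) : Prop :=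
  I.Tiny K x ∧ (x ∈ T ∨ ∃ t ∈ T, I.outer t = some x) ∧ Ω = l.Z x

/-- `x` is a root with object `Ω`, the vertex of `x` is at distance `δ` from `Ω` -/
def Loc.RootAt (l : Loc G E A1 tc I h) (K : ℕ) (T : Finset (ι × Bool)) (x : ι × Bool) (Ω : Finset V)
    (δ : ℕ) : Prop :=
  (δ = 1 ∧ l.R1 x Ω) ∨ (δ = 0 ∧ l.R2 K T x Ω)

end

end Pool.Agent.H38H.IN
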