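import Pool.Agent.Lib.H38H.IN.Loc

set_option autoImplicit false

namespace Pool.Agent.H38H.IN

open Classical

/-! Chunk INR0 (S/M, pure): lists and `Cns` (consecutive elements). -/

private theorem inr0_iff {V : Type} {l : List V} {u v : V} :
    [u, v] <:+: l ↔ ∃ k, l[k]? = some u ∧ l[k + 1]? = some v := by
  rw [List.infix_iff_getElem?]
  constructor
  · rintro ⟨k, hk, h⟩
    have h0 := h 0 (by simp)
    have h1 := h 1 (by simp)
    refine ⟨k, ?_, ?_⟩
    · simpa using h0
    · simpa [Nat.add_comm] using h1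
  · rintro ⟨k, h0, h1⟩
    refine ⟨k, ?_, ?_⟩
    · have := List.getElem?_eq_some_iff.mp h1
      obtain ⟨h2, -⟩ := this
      simp; omega
    · intro i hi
      have hi2 : i = 0 ∨ i = 1 := by simp at hi; omega
      rcases hi2 with rfl | rfl
      · simpa using h0
      · simpa [Nat.add_comm] using h1

private theorem inr0_cns {V : Type} {l : List V} {u v : V} (h : Cns l u v) :
    ∃ i j : ℕ, l[i]? = some u ∧ l[j]? = some v ∧ (j = i + 1 ∨ i = j + 1) := by
  rcases h with h | h
  · obtain ⟨k, h0, h1⟩ := inr0_iff.mp h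
    exact ⟨k, k + 1, h0, h1, Or.inl rfl⟩
  · obtain ⟨k, h0, h1⟩ := inr0_iff.mp h
    exact ⟨k + 1, k, h1, h0, Or.inr rfl⟩

private theorem inr0_of {V : Type} {l : List V} {u v : V} {i j : ℕ} (hi : l[i]? = some u) (hj : l[j]? = some v)
    (h : j = i + 1 ∨ i = j + 1) : Cns l u v := by
  rcases h with rfl | rfl
  · exact Or.inl (inr0_iff.mpr ⟨i, hi, hj⟩)
  · exact Or.inr (inr0_iff.mpr ⟨j, hj, hi⟩)

private theorem inr0_inj {V : Type} {l : List V} (hl : l.Nodup) {i j : ℕ} {u : V} (hi : l[i]? = some u)
    (hj : l[j]? = some u) : i = j :=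
  (List.getElem?_inj (List.getElem?_eq_some_iff.mp hi).1 hl).mp (hi.trans hj.symm)

theorem cns_symm {V : Type} {l : List V} {u v : V} (h : Cns l u v) : Cns l v u := h.symm

theorem cns_mem {V : Type} {l : List V} {u v : V} (h : Cns l u v) : u ∈ l ∧ v ∈ l := by
  obtain ⟨i, j, hi, hj, -⟩ := inr0_cns h
  exact ⟨List.mem_of_getElem? hi, List.mem_of_getElem? hj⟩

theorem cns_ne {V : Type} {l : List V} (hl : l.Nodup) {u v : V} (h : Cns l u v) : u ≠ v := by
  obtain ⟨i, j, hi, hj, hij⟩ := inr0_cns h
  rintro rfl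
  have := inr0_inj hl hi hj
  omega

private theorem inr0_head {V : Type} {l : List V} {x : V} (hx : l.head? = some x) : l[0]? = some x := by
  rw [← hx, List.head?_eq_getElem?]

private theorem inr0_last {V : Type} {l : List V} {x : V} (hx : l.getLast? = some x) : l[l.length - 1]? = some x := by
  rw [← hx, List.getLast?_eq_getElem?]

private theorem inr0_get {V : Type} {l : List V} {i : ℕ} (hi : i < l.length) : ∃ u, l[i]? = some u :=
  ⟨l[i], List.getElem?_eq_getElem hi⟩

private theorem inr0_lt {V : Type} {l : List V} {i : ℕ} {u : V} (h : l[i]? = some u) : i < l.length :=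
  (List.getElem?_eq_some_iff.mp h).1

/-- PROOF. `l = a ++ w :: b` with `a`, `b` nonempty (otherwise `w` is the head or the last element); the neighbours are the last element of `a` and the head of `b`. -/
theorem cns_inner {V : Type} {l : List V} (hl : l.Nodup) {x y w : V} (hx : l.head? = some x)
    (hy : l.getLast? = some y) (hw : w ∈ l) (hwx : w ≠ x) (hwy : w ≠ y) :
    ∃ u v, u ≠ v ∧ Cns l w u ∧ Cns l w v ∧ ∀ z, Cns l w z → z = u ∨ z = v := by
  obtain ⟨i, hi⟩ := List.mem_iff_getElem?.mp hw
  have h0 := inr0_head hx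
  have h1 := inr0_last hy
  have hi0 : i ≠ 0 := by
    rintro rfl
    rw [h0] at hi
    exact hwx (Option.some.inj hi).symm
  have hi1 : i ≠ l.length - 1 := by
    intro he
    rw [he, h1] at hi
    exact hwy (Option.some.inj hi).symm
  have hil := inr0_lt hi
  obtain ⟨u, hu⟩ := inr0_get (l := l) (i := i - 1) (by omega)
  obtain ⟨v, hv⟩ := inr0_get (l := l) (i := i + 1) (by omega)
  refine ⟨u, v, ?_, inr0_of hi hu (Or.inr (by omega)), inr0_of hi hv (Or.inl rfl), ?_⟩
  · rintro rfl
    have := inr0_inj hl hu hv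
    omega
  · intro z hz
    obtain ⟨a, b, ha, hb, hab⟩ := inr0_cns hz
    have hai := inr0_inj hl ha hi
    subst hai
    rcases hab with rfl | hab
    · right
      rw [hv] at hb
      exact (Option.some.inj hb).symm
    · left
      have : b = a - 1 := by omega
      subst this
      rw [hu] at hb
      exact (Option.some.inj hb).symm

/-- PROOF. `l = x :: u :: b`. -/
theorem cns_head {V : Type} {l : List V} (hl : l.Nodup) {x : V} (hx : l.head? = some x)
    (h2 : 2 ≤ l.length) : ∃ u, Cns l x u ∧ ∀ z, Cns l x z → z = u := by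
  have h0 := inr0_head hx
  obtain ⟨u, hu⟩ := inr0_get (l := l) (i := 1) (by omega)
  refine ⟨u, inr0_of h0 hu (Or.inl rfl), ?_⟩
  intro z hz
  obtain ⟨a, b, ha, hb, hab⟩ := inr0_cns hz
  have hai := inr0_inj hl ha h0
  subst hai
  have : b = 1 := by omega
  subst this
  rw [hu] at hb
  exact (Option.some.inj hb).symm

/-- PROOF. reverse of cns_head -/
theorem cns_last {V : Type} {l : List V} (hl : l.Nodup) {x : V} (hx : l.getLast? = some x)
    (h2 : 2 ≤ l.length) : ∃ u, Cns l x u ∧ ∀ z, Cns l x z → z = u := by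
  have h0 := inr0_last hx
  obtain ⟨u, hu⟩ := inr0_get (l := l) (i := l.length - 2) (by omega)
  refine ⟨u, inr0_of h0 hu (Or.inr (by omega)), ?_⟩
  intro z hz
  obtain ⟨a, b, ha, hb, hab⟩ := inr0_cns hz
  have hai := inr0_inj hl ha h0
  have hbl := inr0_lt hb
  have : b = l.length - 2 := by omega
  subst this
  rw [hu] at hb
  exact (Option.some.inj hb).symm

/-- a list of length 2 -/
theorem cns_two {V : Type} {l : List V} {x y : V} (hx : l.head? = some x) (hy : l.getLast? = some y)
    (h2 : l.length = 2) (hl : l.Nodup) : l = [x, y] ∧ x ≠ y ∧ Cns l x y := by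
  obtain ⟨a, b, rfl⟩ := List.length_eq_two.mp h2
  simp at hx hy
  subst hx hy
  refine ⟨rfl, ?_, Or.inl (List.infix_refl _)⟩
  simpa using hl

theorem list_one {V : Type} {l : List V} {x y : V} (hx : l.head? = some x) (hy : l.getLast? = some y)
    (h2 : l.length = 1) : l = [x] ∧ x = y := by
  obtain ⟨a, rfl⟩ := List.length_eq_one_iff.mp h2
  simp at hx hy
  subst hx hy
  exact ⟨rfl, rfl⟩

theorem head_ne_last {V : Type} {l : List V} (hl : l.Nodup) {x y : V} (hx : l.head? = some x)
    (hy : l.getLast? = some y) (h2 : 2 ≤ l.length) : x ≠ y := by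
  rintro rfl
  have := inr0_inj hl (inr0_head hx) (inr0_last hy)
  omega

/-- a property which is inherited by consecutive elements holds for all elements or for none -/
theorem cns_conn {V : Type} {l : List V} {P : V → Prop} (h : ∀ u v, Cns l u v → P u → P v) {x : V}
    (hx : x ∈ l) (hP : P x) {y : V} (hy : y ∈ l) : P y := by
  obtain ⟨i, hi⟩ := List.mem_iff_getElem?.mp hx
  obtain ⟨j, hj⟩ := List.mem_iff_getElem?.mp hy
  have key : ∀ k : ℕ, ∀ a b, l[0]? = some a → l[k]? = some b → (P a ↔ P b) := by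
    intro k
    induction k with
    | zero =>
      intro a b ha hb
      rw [ha] at hb
      rw [Option.some.inj hb]
    | succ k ih =>
      intro a b ha hb
      have hk := inr0_lt hb
      obtain ⟨c, hc⟩ := inr0_get (l := l) (i := k) (by omega)
      rw [ih a c ha hc]
      exact ⟨h c b (inr0_of hc hb (Or.inl rfl)), h b c (inr0_of hb hc (Or.inr rfl))⟩
  have hi0 := inr0_lt hi
  obtain ⟨a, ha⟩ := inr0_get (l := l) (i := 0) (by omega)
  exact (key j a y ha hj).mp ((key i a x ha hi).mpr hP)

end Pool.Agent.H38H.IN
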