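import Pool.Agent.Lib.H38H.IN.Q0
import Pool.Agent.Lib.H38H.IN.R0

set_option autoImplicit false

namespace Pool.Agent.H38H.IN

open Classical

variable {V : Type} {π : Equiv.Perm V} {A : Finset V} {μ : V → V}

/-! Chunk INP2 (M, pure): unmarked links. `IsD π v` means `π (π v) = v`. For `v ∉ A`, not in a 2-cycle, `π v ≠ π⁻¹ v` and `{μ v, eps v} = {π v, π⁻¹ v}`.
eps_facts: say `μ v = π v`, `y = eps v = π⁻¹ v ∉ A`: `μ y ∈ {v, π⁻¹ y}`; `μ y = v` would give `y = μ v = π v`; so `μ y = π⁻¹ y ≠ π y` and `eps y = π y = v`. If `eps v = a ∈ A`: `a` has the two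
π-neighbours `v` and `y' = oth a v ≠ v`, `y' ∉ A` (Mat.nb), not in a 2-cycle, `μ y' ≠ a` as `μ a = a`, so `eps y' = a`, `oth a y' = v`. All other facts follow by unfolding and cases. A port `p` at a vertex not in a 2-cycle
has `p.1.2 = false`. -/

theorem isD_apply (v : V) : IsD π (π v) ↔ IsD π v := by
  unfold IsD
  exact π.injective.eq_iff

theorem isD_symm (v : V) : IsD π (π.symm v) ↔ IsD π v := by
  unfold IsD
  rw [Equiv.apply_symm_apply]
  constructor
  · intro h
    rw [h, Equiv.apply_symm_apply]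
  · intro h
    rw [← h, Equiv.symm_apply_apply, h]

theorem eps_facts (hM : Mat π A μ) (hπ : ∀ v, π v ≠ v) {v : V} (hv : v ∉ A) (hd : ¬ IsD π v) :
    eps π μ v ≠ v ∧ eps π μ v ≠ μ v ∧ (eps π μ v = π v ∨ eps π μ v = π.symm v) ∧
      ¬ IsD π (eps π μ v) ∧ (eps π μ v ∉ A → eps π μ (eps π μ v) = v) := by
  have hne : π v ≠ π.symm v := by
    intro h
    apply hd
    unfold IsD
    rw [h, Equiv.apply_symm_apply]
  have hs : π.symm v ≠ v := by
    intro h
    apply hπ v
    rw [← h, Equiv.apply_symm_apply, h]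
  by_cases h1 : μ v = π v
  · have he : eps π μ v = π.symm v := if_pos h1
    rw [he]
    refine ⟨hs, ?_, Or.inr rfl, ?_, ?_⟩
    · rw [h1]
      exact hne.symm
    · rw [isD_symm]
      exact hd
    · intro hy
      have h2 : μ (π.symm v) ≠ π (π.symm v) := by
        intro h
        rw [Equiv.apply_symm_apply] at h
        have h3 := hM.inv (π.symm v)
        rw [h, h1] at h3
        exact hne h3
      have h3 : eps π μ (π.symm v) = π (π.symm v) := if_neg h2
      rw [h3, Equiv.apply_symm_apply]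
  · have h1' : μ v = π.symm v := (hM.mem v hv).resolve_left h1
    have he : eps π μ v = π v := if_neg h1
    rw [he]
    refine ⟨hπ v, ?_, Or.inl rfl, ?_, ?_⟩
    · rw [h1']
      exact hne
    · rw [isD_apply]
      exact hd
    · intro hy
      have h2 : μ (π v) = π (π v) := by
        refine (hM.mem _ hy).resolve_right fun h => ?_
        rw [Equiv.symm_apply_apply] at h
        have h3 := hM.inv (π v)
        rw [h, h1'] at h3
        exact hne h3.symm
      have h3 : eps π μ (π v) = π.symm (π v) := if_pos h2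
      rw [h3, Equiv.symm_apply_apply]

theorem oth_facts (hM : Mat π A μ) (hπ : ∀ v, π v ≠ v) {v : V} (hv : v ∉ A) (hd : ¬ IsD π v)
    (he : eps π μ v ∈ A) :
    oth π (eps π μ v) v ≠ v ∧ oth π (eps π μ v) v ∉ A ∧ ¬ IsD π (oth π (eps π μ v) v) ∧
      eps π μ (oth π (eps π μ v) v) = eps π μ v ∧ oth π (eps π μ v) (oth π (eps π μ v) v) = v ∧
      (oth π (eps π μ v) v = π (eps π μ v) ∨ oth π (eps π μ v) v = π.symm (eps π μ v)) := by
  obtain ⟨_, _, hc, _, _⟩ := eps_facts hM hπ hv hd
  obtain ⟨a, ha⟩ : ∃ a, a = eps π μ v := ⟨_, rfl⟩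
  rw [← ha] at hc he ⊢
  have hnd := hM.nd a he
  have hne : π a ≠ π.symm a := by
    intro h
    apply hnd
    unfold IsD
    rw [h, Equiv.apply_symm_apply]
  have hfix : μ a = a := (hM.fix a).2 he
  have hb := hM.nb a he
  have hno : ∀ y, y ∉ A → μ y ≠ a := by
    intro y hy h
    have h1 := hM.inv y
    rw [h, hfix] at h1
    rw [h1] at he
    exact hy he
  rcases hc with hc | hc
  · have hv' : v = π.symm a := by rw [hc, Equiv.symm_apply_apply]
    have h1 : v ≠ π a := by
      rw [hv']
      exact hne.symm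
    have ho : oth π a v = π a := if_neg h1
    have h2 : μ (π a) = π (π a) := by
      refine (hM.mem _ hb.1).resolve_right fun h => ?_
      rw [Equiv.symm_apply_apply] at h
      exact hno _ hb.1 h
    have h3 : eps π μ (π a) = π.symm (π a) := if_pos h2
    have h4 : oth π a (π a) = π.symm a := if_pos rfl
    rw [ho, h4]
    refine ⟨h1.symm, hb.1, ?_, ?_, hv'.symm, Or.inl rfl⟩
    · rw [isD_apply]
      exact hnd
    · rw [h3, Equiv.symm_apply_apply]
  · have hv' : v = π a := by rw [hc, Equiv.apply_symm_apply]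
    have ho : oth π a v = π.symm a := if_pos hv'
    have h2 : μ (π.symm a) ≠ π (π.symm a) := by
      intro h
      rw [Equiv.apply_symm_apply] at h
      exact hno _ hb.2 h
    have h3 : eps π μ (π.symm a) = π (π.symm a) := if_neg h2
    have h4 : oth π a (π.symm a) = π a := if_neg hne.symm
    rw [ho, h4]
    refine ⟨?_, hb.2, ?_, ?_, hv'.symm, Or.inr rfl⟩
    · rw [hv']
      exact hne.symm
    · rw [isD_symm]
      exact hnd
    · rw [h3, Equiv.apply_symm_apply]

theorem mv_facts (hM : Mat π A μ) (hπ : ∀ v, π v ≠ v) (v : V) :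
    mv π A μ (mv π A μ v) = v ∧ (mv π A μ v ∈ A ↔ v ∈ A) ∧ (IsD π (mv π A μ v) ↔ IsD π v) ∧
      (¬ IsD π v → v ∉ A → mv π A μ v ≠ v) := by
  by_cases h : IsD π v ∨ v ∈ A
  · have h1 : mv π A μ v = v := if_pos h
    rw [h1, h1]
    exact ⟨rfl, Iff.rfl, Iff.rfl, fun h2 h3 => absurd h (not_or.2 ⟨h2, h3⟩)⟩
  · obtain ⟨hd, hv⟩ := not_or.1 h
    by_cases he : eps π μ v ∈ A
    · have h1 : mv π A μ v = oth π (eps π μ v) v := by
        unfold mv
        rw [if_neg h, if_pos he]
      obtain ⟨h2, h3, h4, h5, h6, _⟩ := oth_facts hM hπ hv hd he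
      rw [← h1] at h2 h3 h4 h5 h6
      have h7 : mv π A μ (mv π A μ v) = v := by
        have h8 : mv π A μ (mv π A μ v) = oth π (eps π μ (mv π A μ v)) (mv π A μ v) := by
          conv_lhs => unfold mv
          rw [if_neg (not_or.2 ⟨by unfold mv at h4; exact h4, by unfold mv at h3; exact h3⟩), if_pos (by
            have h9 : eps π μ (mv π A μ v) ∈ A := by
              rw [h5]
              exact he
            unfold mv at h9
            exact h9)]
          rfl
        rw [h8, h5, h6]
      exact ⟨h7, iff_of_false h3 hv, iff_of_false h4 hd, fun _ _ => h2⟩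
    · have h1 : mv π A μ v = eps π μ v := by
        unfold mv
        rw [if_neg h, if_neg he]
      obtain ⟨h2, h3, _, h4, h5⟩ := eps_facts hM hπ hv hd
      have h6 := h5 he
      have h7 : mv π A μ (eps π μ v) = v := by
        unfold mv
        rw [if_neg (not_or.2 ⟨h4, he⟩), h6, if_neg hv]
      rw [h1, h7]
      exact ⟨rfl, iff_of_false he hv, iff_of_false h4 hd, fun _ _ => h2⟩

theorem mate_mate (hM : Mat π A μ) (hπ : ∀ v, π v ≠ v) (p : Port π) :
    mate π A μ (mate π A μ p) = p := by
  obtain ⟨⟨v, b⟩, hp⟩ := p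
  obtain ⟨h1, h2, h3, h4⟩ := mv_facts hM hπ v
  by_cases hd : IsD π v
  · have e1 : mate π A μ ⟨(v, b), hp⟩ = ⟨(v, !b), fun _ => hd⟩ := dif_pos hd
    have e2 : mate π A μ ⟨(v, !b), fun _ => hd⟩ = ⟨(v, !!b), fun _ => hd⟩ := dif_pos hd
    rw [e1, e2]
    apply Subtype.ext
    simp
  · have e1 : mate π A μ ⟨(v, b), hp⟩ = ⟨(mv π A μ v, false), by simp⟩ := dif_neg hd
    have hd' : ¬ IsD π (mv π A μ v) := fun h => hd (h3.1 h)
    have e2 : mate π A μ ⟨(mv π A μ v, false), by simp⟩ = ⟨(mv π A μ (mv π A μ v), false), by simp⟩ :=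
      dif_neg hd'
    rw [e1, e2]
    have hb : b = false := by
      by_contra hb
      exact hd (hp (by simpa using hb))
    subst hb
    apply Subtype.ext
    show (mv π A μ (mv π A μ v), false) = (v, false)
    rw [h1]

theorem mate_vert (p : Port π) : (mate π A μ p).1.1 = mv π A μ p.1.1 := by
  obtain ⟨⟨v, b⟩, hp⟩ := p
  by_cases hd : IsD π v
  · have e1 : mate π A μ ⟨(v, b), hp⟩ = ⟨(v, !b), fun _ => hd⟩ := dif_pos hd
    have e2 : mv π A μ v = v := if_pos (Or.inl hd)
    rw [e1]
    exact e2.symm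
  · have e1 : mate π A μ ⟨(v, b), hp⟩ = ⟨(mv π A μ v, false), by simp⟩ := dif_neg hd
    rw [e1]

theorem mate_ne (hM : Mat π A μ) (hπ : ∀ v, π v ≠ v) (p : Port π) (hp : p.1.1 ∉ A) : mate π A μ p ≠ p := by
  obtain ⟨⟨v, b⟩, hpb⟩ := p
  obtain ⟨h1, h2, h3, h4⟩ := mv_facts hM hπ v
  by_cases hd : IsD π v
  · have e1 : mate π A μ ⟨(v, b), hpb⟩ = ⟨(v, !b), fun _ => hd⟩ := dif_pos hd
    rw [e1]
    intro h
    have h5 := congrArg (fun q : Port π => q.1.2) h
    simp at h5
  · have e1 : mate π A μ ⟨(v, b), hpb⟩ = ⟨(mv π A μ v, false), by simp⟩ := dif_neg hd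
    rw [e1]
    intro h
    exact h4 hd hp (congrArg (fun q : Port π => q.1.1) h)

theorem p0_ends (v : V) : (p0 π A μ v).head? = some v ∧ (p0 π A μ v).getLast? = some (mv π A μ v) := by
  unfold p0 mv
  split_ifs <;> simp

theorem p0_nodup (hM : Mat π A μ) (hπ : ∀ v, π v ≠ v) (v : V) : (p0 π A μ v).Nodup := by
  by_cases h : IsD π v ∨ v ∈ A
  · have e1 : p0 π A μ v = [v] := if_pos h
    rw [e1]
    simp
  · obtain ⟨hd, hv⟩ := not_or.1 h
    obtain ⟨h1, h2, _, h4, h5⟩ := eps_facts hM hπ hv hd
    by_cases he : eps π μ v ∈ A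
    · obtain ⟨h6, h7, _⟩ := oth_facts hM hπ hv hd he
      have e1 : p0 π A μ v = [v, eps π μ v, oth π (eps π μ v) v] := by
        unfold p0
        rw [if_neg h, if_pos he]
      rw [e1]
      have h8 : eps π μ v ≠ oth π (eps π μ v) v := fun h8 => h7 (h8 ▸ he)
      simp [h1.symm, h6.symm, h8]
    · have e1 : p0 π A μ v = [v, eps π μ v] := by
        unfold p0
        rw [if_neg h, if_neg he]
      rw [e1]
      simp [h1.symm]

theorem p0_reverse (hM : Mat π A μ) (hπ : ∀ v, π v ≠ v) (v : V) :
    p0 π A μ (mv π A μ v) = (p0 π A μ v).reverse := by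
  by_cases h : IsD π v ∨ v ∈ A
  · have e1 : p0 π A μ v = [v] := if_pos h
    have e2 : mv π A μ v = v := if_pos h
    rw [e2, e1]
    rfl
  · obtain ⟨hd, hv⟩ := not_or.1 h
    obtain ⟨h1, h2, _, h4, h5⟩ := eps_facts hM hπ hv hd
    by_cases he : eps π μ v ∈ A
    · obtain ⟨h6, h7, h8, h9, h10, _⟩ := oth_facts hM hπ hv hd he
      have e1 : p0 π A μ v = [v, eps π μ v, oth π (eps π μ v) v] := by
        unfold p0
        rw [if_neg h, if_pos he]
      have e2 : mv π A μ v = oth π (eps π μ v) v := by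
        unfold mv
        rw [if_neg h, if_pos he]
      rw [e1, e2]
      unfold p0
      rw [if_neg (not_or.2 ⟨h8, h7⟩), h9, if_pos he, h10]
      rfl
    · have e1 : p0 π A μ v = [v, eps π μ v] := by
        unfold p0
        rw [if_neg h, if_neg he]
      have e2 : mv π A μ v = eps π μ v := by
        unfold mv
        rw [if_neg h, if_neg he]
      rw [e1, e2]
      unfold p0
      rw [if_neg (not_or.2 ⟨h4, he⟩), h5 he, if_neg hv]
      rfl

theorem p0_cns (hM : Mat π A μ) (hπ : ∀ v, π v ≠ v) {v u w : V} (h : Cns (p0 π A μ v) u w) :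
    (w = π u ∨ u = π w) ∧ w ≠ μ u := by
  by_cases h0 : IsD π v ∨ v ∈ A
  · have e1 : p0 π A μ v = [v] := if_pos h0
    rw [e1] at h
    rcases h with h | h
    · have := h.length_le
      simp at this
    · have := h.length_le
      simp at this
  · obtain ⟨hd, hv⟩ := not_or.1 h0
    obtain ⟨h1, h2, h3, h4, h5⟩ := eps_facts hM hπ hv hd
    have hs : ∀ x y : V, x = π.symm y → y = π x := by
      intro x y hxy
      rw [hxy, Equiv.apply_symm_apply]
    have hμ : ∀ x y : V, x ≠ μ y → y ≠ μ x := by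
      intro x y hxy h
      apply hxy
      rw [h, hM.inv]
    have hve : (eps π μ v = π v ∨ v = π (eps π μ v)) := h3.imp id (hs _ _)
    by_cases he : eps π μ v ∈ A
    · obtain ⟨h6, h7, h8, h9, h10, h11⟩ := oth_facts hM hπ hv hd he
      have e1 : p0 π A μ v = [v, eps π μ v, oth π (eps π μ v) v] := by
        unfold p0
        rw [if_neg h0, if_pos he]
      obtain ⟨a, ha⟩ : ∃ a, a = eps π μ v := ⟨_, rfl⟩
      obtain ⟨o, ho⟩ : ∃ o, o = oth π a v := ⟨_, rfl⟩
      rw [← ha] at h1 h2 hve he h6 h7 h11 e1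
      rw [← ho] at h6 h7 h11 e1
      have hfix : μ a = a := (hM.fix a).2 he
      have hao : o ≠ μ a := by
        rw [hfix]
        exact fun h => h7 (h ▸ he)
      have hoe : (o = π a ∨ a = π o) := h11.imp id (hs _ _)
      rw [e1] at h
      have key : (u = v ∧ w = a) ∨ (u = a ∧ w = o) ∨ (w = v ∧ u = a) ∨ (w = a ∧ u = o) := by
        rcases h with h | h
        · rw [List.infix_cons_iff, List.infix_cons_iff] at h
          rcases h with h | h | h
          · simp at h
            tauto
          · simp at h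
            tauto
          · have := h.length_le
            simp at this
        · rw [List.infix_cons_iff, List.infix_cons_iff] at h
          rcases h with h | h | h
          · simp at h
            tauto
          · simp at h
            tauto
          · have := h.length_le
            simp at this
      rcases key with ⟨rfl, rfl⟩ | ⟨rfl, rfl⟩ | ⟨rfl, rfl⟩ | ⟨rfl, rfl⟩
      · exact ⟨hve, h2⟩
      · exact ⟨hoe, hao⟩
      · exact ⟨hve.symm, hμ _ _ h2⟩
      · exact ⟨hoe.symm, hμ _ _ hao⟩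
    · have e1 : p0 π A μ v = [v, eps π μ v] := by
        unfold p0
        rw [if_neg h0, if_neg he]
      obtain ⟨a, ha⟩ : ∃ a, a = eps π μ v := ⟨_, rfl⟩
      rw [← ha] at h1 h2 hve e1
      rw [e1] at h
      have key : (u = v ∧ w = a) ∨ (w = v ∧ u = a) := by
        rcases h with h | h
        · rw [List.infix_cons_iff] at h
          rcases h with h | h
          · simp at h
            tauto
          · have := h.length_le
            simp at this
        · rw [List.infix_cons_iff] at h
          rcases h with h | h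
          · simp at h
            tauto
          · have := h.length_le
            simp at this
      rcases key with ⟨rfl, rfl⟩ | ⟨rfl, rfl⟩
      · exact ⟨hve, h2⟩
      · exact ⟨hve.symm, hμ _ _ h2⟩

theorem p0_mem (hM : Mat π A μ) (hπ : ∀ v, π v ≠ v) {v u : V} (hv : v ∉ A) :
    u ∈ p0 π A μ v ↔ u = v ∨ u = mv π A μ v ∨ (u ∈ A ∧ ¬ IsD π v ∧ eps π μ v = u) := by
  by_cases h : IsD π v ∨ v ∈ A
  · have hd : IsD π v := h.resolve_right hv
    have e1 : p0 π A μ v = [v] := if_pos h
    have e2 : mv π A μ v = v := if_pos h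
    rw [e1, e2, List.mem_singleton]
    tauto
  · obtain ⟨hd, _⟩ := not_or.1 h
    by_cases he : eps π μ v ∈ A
    · have e1 : p0 π A μ v = [v, eps π μ v, oth π (eps π μ v) v] := by
        unfold p0
        rw [if_neg h, if_pos he]
      have e2 : mv π A μ v = oth π (eps π μ v) v := by
        unfold mv
        rw [if_neg h, if_pos he]
      rw [e1, e2, List.mem_cons, List.mem_cons, List.mem_singleton]
      constructor
      · rintro (h1 | h1 | h1)
        · exact Or.inl h1
        · exact Or.inr (Or.inr ⟨h1 ▸ he, hd, h1.symm⟩)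
        · exact Or.inr (Or.inl h1)
      · rintro (h1 | h1 | ⟨_, _, h1⟩)
        · exact Or.inl h1
        · exact Or.inr (Or.inr h1)
        · exact Or.inr (Or.inl h1.symm)
    · have e1 : p0 π A μ v = [v, eps π μ v] := by
        unfold p0
        rw [if_neg h, if_neg he]
      have e2 : mv π A μ v = eps π μ v := by
        unfold mv
        rw [if_neg h, if_neg he]
      rw [e1, e2, List.mem_cons, List.mem_singleton]
      constructor
      · rintro (h1 | h1)
        · exact Or.inl h1
        · exact Or.inr (Or.inl h1)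
      · rintro (h1 | h1 | ⟨h2, _, h1⟩)
        · exact Or.inl h1
        · exact Or.inr h1
        · exact Or.inr h1.symm

end Pool.Agent.H38H.IN
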