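import Pool.Agent.Lib.H38H.IN.P2

set_option autoImplicit false

namespace Pool.Agent.H38H.IN

open Classical

namespace Dat
variable {V : Type} [Fintype V] (D : Dat V)

/-! Chunk INP3 (M): the ports at which links are joined. Every `p` with `JB p` belongs to a mark `e_p = s(vert p, vert (sg p)) ∈ E`: for `InX` by real2 (`s(p, sg p) ∈ ξ`), for `InM` by definition. By disjointness of marks
(`D.marks.2`) the mark at a vertex is unique. A port cannot be InX and InM: the mark would be `s(v, w)` with `w = μ v = π v` or `π⁻¹ v`, against real2 (`s(v,w) ≠ s(u, π u)`; use `Mat.mem`; `v ∉ A` by dc2).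
sg_facts: InX: `s(sg p, p) ∈ ξ`, marksX gives uniqueness; InM: `sg p = (μ v, false)`, not InX (otherwise `μ v` is in a mark from `ξ`, which is `s(v, μ v)`, same contradiction), InM with `μ (μ v) = v`. The two vertices differ since marks are not
diagonal. jb_vert: two InX ports: dc3; InX and InM at one vertex: excluded as above (same mark); two InM: both are port false. jb_A: dc2 with `a = v`, or `a = π v` (then `v = π.symm a`), or `a = π.symm v`.
jb_mt: 2-cycle vertex: `mt p` is the other port of the same vertex, excluded by jb_vert. Otherwise `vert (mt p) = eps v` (not in `A` by jb_A, so mv = eps) is in a mark `f`. `f ≠ e_p`: dc1 (`eps v = π v` or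
`v = π (eps v)`). `f = e_p = s(v, eps v)`: so `vert (sg p) = eps v`: InX: against real2; InM: `μ v = eps v` against eps_facts. -/

private theorem inp3_mark {e f : Sym2 V} (he : e ∈ D.E) (hf : f ∈ D.E) {v : V} (h1 : v ∈ e) (h2 : v ∈ f) : e = f := by
  by_contra h
  exact D.marks.2 e he f hf h v h1 h2

private theorem inp3_xi {p q r : Port D.π} (h1 : s(p, q) ∈ D.ξ) (h2 : s(p, r) ∈ D.ξ) : q = r := by
  have h : s(p, q) = s(p, r) := by
    by_contra h
    exact D.marksX.2 _ h1 _ h2 h p (Sym2.mem_mk_left _ _) (Sym2.mem_mk_left _ _)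
  exact Sym2.congr_right.mp h

private theorem inp3_mu {v : V} (h : D.μ v ≠ v) : ∃ u, s(v, D.μ v) = s(u, D.π u) := by
  have hA : v ∉ D.A := fun hA => h ((D.mat.fix v).mpr hA)
  rcases D.mat.mem v hA with h2 | h2
  · exact ⟨v, by rw [h2]⟩
  · refine ⟨D.π.symm v, ?_⟩
    rw [h2, Equiv.apply_symm_apply]
    exact Sym2.eq_swap

private theorem inp3_both {p q : Port D.π} (hp : InX D.ξ p) (hq : D.InM q) (h : p.1.1 = q.1.1) : False := by
  obtain ⟨r, hr⟩ := hp
  obtain ⟨h1, h2⟩ := D.real2 p r hr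
  obtain ⟨-, h4, h5⟩ := hq
  have h6 : s(p.1.1, r.1.1) = s(q.1.1, D.μ q.1.1) :=
    D.inp3_mark h1 h5 (Sym2.mem_mk_left _ _) (by rw [h]; exact Sym2.mem_mk_left _ _)
  obtain ⟨u, hu⟩ := D.inp3_mu h4
  exact h2 u (h6.trans hu)

private theorem inp3_sgX {p : Port D.π} (hp : InX D.ξ p) : s(p, D.sg p) ∈ D.ξ := by
  unfold sg
  rw [dif_pos hp]
  exact hp.choose_spec

private theorem inp3_sgM {p : Port D.π} (hp : ¬ InX D.ξ p) : (D.sg p).1 = (D.μ p.1.1, false) := by
  unfold sg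
  rw [dif_neg hp]

theorem sg_facts {p : Port D.π} (hp : D.JB p) :
    D.JB (D.sg p) ∧ D.sg (D.sg p) = p ∧ D.sg p ≠ p ∧ (D.sg p).1.1 ≠ p.1.1 ∧
      s(p.1.1, (D.sg p).1.1) ∈ D.E ∧ (s(p, D.sg p) ∈ D.ξ ∨ ((D.sg p).1.1 = D.μ p.1.1 ∧ D.InM p)) := by
  by_cases hX : InX D.ξ p
  · have h1 := D.inp3_sgX hX
    have h2 : InX D.ξ (D.sg p) := ⟨p, by rw [Sym2.eq_swap]; exact h1⟩
    have h3 := D.inp3_sgX h2
    have h4 : D.sg (D.sg p) = p := D.inp3_xi h3 (by rw [Sym2.eq_swap]; exact h1)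
    obtain ⟨h5, -⟩ := D.real2 p _ h1
    have h6 : (D.sg p).1.1 ≠ p.1.1 := by
      intro h
      refine D.marks.1 _ h5 ?_
      rw [Sym2.mk_isDiag_iff]
      exact h.symm
    refine ⟨Or.inl h2, h4, ?_, h6, h5, Or.inl h1⟩
    intro h
    rw [h] at h6
    exact h6 rfl
  · rcases hp with hp | hp
    · exact absurd hp hX
    · have h1 := D.inp3_sgM hX
      have h1a : (D.sg p).1.1 = D.μ p.1.1 := by rw [h1]
      have h1b : (D.sg p).1.2 = false := by rw [h1]
      have h2 : D.InM (D.sg p) := by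
        refine ⟨h1b, ?_, ?_⟩
        · rw [h1a, D.mat.inv]
          exact fun h => hp.2.1 h.symm
        · rw [h1a, D.mat.inv, Sym2.eq_swap]
          exact hp.2.2
      have h3 : ¬ InX D.ξ (D.sg p) := fun h => D.inp3_both h h2 rfl
      have h4 := D.inp3_sgM h3
      have h5 : D.sg (D.sg p) = p := by
        apply Subtype.ext
        rw [h4, h1a, D.mat.inv]
        exact Prod.ext rfl hp.1.symm
      have h6 : (D.sg p).1.1 ≠ p.1.1 := by rw [h1a]; exact hp.2.1
      refine ⟨Or.inr h2, h5, ?_, h6, ?_, Or.inr ⟨h1a, hp⟩⟩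
      · intro h
        rw [h] at h6
        exact h6 rfl
      · rw [h1a]
        exact hp.2.2

theorem not_both {p : Port D.π} (hp : InX D.ξ p) (hq : D.InM p) : False := D.inp3_both hp hq rfl

theorem jb_vert {p q : Port D.π} (hp : D.JB p) (hq : D.JB q) (hv : p.1.1 = q.1.1) : p = q := by
  rcases hp with hp | hp
  · rcases hq with hq | hq
    · exact D.dc3 p q hp hq hv
    · exact (D.inp3_both hp hq hv).elim
  · rcases hq with hq | hq
    · exact (D.inp3_both hq hp hv.symm).elim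
    · apply Subtype.ext
      exact Prod.ext hv (hp.1.trans hq.1.symm)

theorem jb_A {p : Port D.π} (hp : D.JB p) : p.1.1 ∉ D.A ∧ D.π p.1.1 ∉ D.A ∧ D.π.symm p.1.1 ∉ D.A := by
  obtain ⟨-, -, -, -, h5, -⟩ := D.sg_facts hp
  refine ⟨fun h => ?_, fun h => ?_, fun h => ?_⟩
  · exact (D.dc2 _ h _ h5).1 (Sym2.mem_mk_left _ _)
  · have := (D.dc2 _ h _ h5).2.2
    rw [Equiv.symm_apply_apply] at this
    exact this (Sym2.mem_mk_left _ _)
  · have := (D.dc2 _ h _ h5).2.1
    rw [Equiv.apply_symm_apply] at this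
    exact this (Sym2.mem_mk_left _ _)

private theorem inp3_epsA {p : Port D.π} (hp : D.JB p) (hd : ¬ IsD D.π p.1.1) : eps D.π D.μ p.1.1 ∉ D.A := by
  obtain ⟨h1, h2, h3⟩ := D.jb_A hp
  rcases (eps_facts D.mat D.nofix h1 hd).2.2.1 with h | h
  · rw [h]; exact h2
  · rw [h]; exact h3

private theorem inp3_eps_ne {p : Port D.π} (hp : D.JB p) (hd : ¬ IsD D.π p.1.1) :
    eps D.π D.μ p.1.1 ≠ (D.sg p).1.1 := by
  obtain ⟨h1, -, -⟩ := D.jb_A hp
  obtain ⟨e1, e2, e3, -, -⟩ := eps_facts D.mat D.nofix h1 hd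
  obtain ⟨-, -, -, -, h5, h6⟩ := D.sg_facts hp
  intro h
  rcases h6 with h6 | h6
  · have h7 := (D.real2 p _ h6).2
    rcases e3 with e3 | e3
    · exact h7 p.1.1 (by rw [← h, e3])
    · refine h7 (D.π.symm p.1.1) ?_
      rw [← h, e3, Equiv.apply_symm_apply]
      exact Sym2.eq_swap
  · exact e2 (h.trans h6.1)

theorem jb_mv {p : Port D.π} (hp : D.JB p) :
    (IsD D.π p.1.1 ∧ mv D.π D.A D.μ p.1.1 = p.1.1 ∧ p0 D.π D.A D.μ p.1.1 = [p.1.1]) ∨
    (¬ IsD D.π p.1.1 ∧ mv D.π D.A D.μ p.1.1 = eps D.π D.μ p.1.1 ∧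
      p0 D.π D.A D.μ p.1.1 = [p.1.1, eps D.π D.μ p.1.1]) := by
  by_cases hd : IsD D.π p.1.1
  · left
    refine ⟨hd, ?_, ?_⟩
    · unfold mv
      rw [if_pos (Or.inl hd)]
    · unfold p0
      rw [if_pos (Or.inl hd)]
  · right
    have hA := (D.jb_A hp).1
    have he := D.inp3_epsA hp hd
    have hn : ¬ (IsD D.π p.1.1 ∨ p.1.1 ∈ D.A) := by
      rintro (h | h)
      · exact hd h
      · exact hA h
    refine ⟨hd, ?_, ?_⟩
    · unfold mv
      rw [if_neg hn, if_neg he]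
    · unfold p0
      rw [if_neg hn, if_neg he]

theorem jb_mt {p : Port D.π} (hp : D.JB p) : ¬ D.JB (D.mt p) := by
  intro hm
  by_cases hd : IsD D.π p.1.1
  · have h1 : (D.mt p).1 = (p.1.1, !p.1.2) := by
      unfold mt mate
      rw [dif_pos hd]
    have h2 := D.jb_vert hm hp (by rw [h1])
    rw [h2] at h1
    have h3 := congrArg Prod.snd h1
    simp at h3
  · have hA := (D.jb_A hp).1
    obtain ⟨e1, e2, e3, -, -⟩ := eps_facts D.mat D.nofix hA hd
    have h1 : (D.mt p).1.1 = eps D.π D.μ p.1.1 := by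
      have h2 : (D.mt p).1.1 = mv D.π D.A D.μ p.1.1 := by
        unfold mt
        exact mate_vert p
      rw [h2]
      rcases D.jb_mv hp with h | h
      · exact absurd h.1 hd
      · exact h.2.1
    obtain ⟨-, -, -, -, h5, h6⟩ := D.sg_facts hp
    obtain ⟨-, -, -, -, k5, k6⟩ := D.sg_facts hm
    by_cases hef : s(p.1.1, (D.sg p).1.1) = s((D.mt p).1.1, (D.sg (D.mt p)).1.1)
    · have h7 : (D.mt p).1.1 ∈ s(p.1.1, (D.sg p).1.1) := by rw [hef]; exact Sym2.mem_mk_left _ _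
      rw [h1, Sym2.mem_iff] at h7
      rcases h7 with h7 | h7
      · exact e1 h7
      · exact D.inp3_eps_ne hp hd h7
    · have h8 := D.dc1 _ h5 _ k5 hef p.1.1 (Sym2.mem_mk_left _ _) (D.mt p).1.1 (Sym2.mem_mk_left _ _)
      have h9 := D.dc1 _ k5 _ h5 (Ne.symm hef) (D.mt p).1.1 (Sym2.mem_mk_left _ _) p.1.1 (Sym2.mem_mk_left _ _)
      rw [h1] at h8 h9
      rcases e3 with e3 | e3
      · exact h8 e3
      · rw [e3, Equiv.apply_symm_apply] at h9
        exact h9 rfl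

/-- the four vertices `mv v, v, v', mv v'` of a joined link: `mv v`, `v` are different from `v'`, `mv v'` -/
theorem jb_disj {p : Port D.π} (hp : D.JB p) :
    ∀ u ∈ p0 D.π D.A D.μ p.1.1, u ∉ p0 D.π D.A D.μ (D.sg p).1.1 := by
  obtain ⟨hq, hs, -, h4, -, -⟩ := D.sg_facts hp
  have k1 : ¬ IsD D.π p.1.1 → eps D.π D.μ p.1.1 ≠ (D.sg p).1.1 := fun hd => D.inp3_eps_ne hp hd
  have k2 : ¬ IsD D.π (D.sg p).1.1 → eps D.π D.μ (D.sg p).1.1 ≠ p.1.1 := by
    intro hd
    have := D.inp3_eps_ne hq hd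
    rw [hs] at this
    exact this
  have k3 : ¬ IsD D.π p.1.1 → ¬ IsD D.π (D.sg p).1.1 → eps D.π D.μ p.1.1 ≠ eps D.π D.μ (D.sg p).1.1 := by
    intro hd hd' h
    have a1 := (eps_facts D.mat D.nofix (D.jb_A hp).1 hd).2.2.2.2 (D.inp3_epsA hp hd)
    have a2 := (eps_facts D.mat D.nofix (D.jb_A hq).1 hd').2.2.2.2 (D.inp3_epsA hq hd')
    rw [h, a2] at a1
    exact h4 a1
  intro u hu hu'
  rcases D.jb_mv hp with ⟨a1, -, a3⟩ | ⟨a1, -, a3⟩ <;> rcases D.jb_mv hq with ⟨b1, -, b3⟩ | ⟨b1, -, b3⟩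
  · rw [a3] at hu
    rw [b3] at hu'
    simp only [List.mem_cons, List.not_mem_nil, or_false] at hu hu'
    exact h4 (hu'.symm.trans hu)
  · rw [a3] at hu
    rw [b3] at hu'
    simp only [List.mem_cons, List.not_mem_nil, or_false] at hu hu'
    rcases hu' with hu' | hu'
    · exact h4 (hu'.symm.trans hu)
    · exact k2 b1 (hu'.symm.trans hu)
  · rw [a3] at hu
    rw [b3] at hu'
    simp only [List.mem_cons, List.not_mem_nil, or_false] at hu hu'
    rcases hu with hu | hu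
    · exact h4 (hu'.symm.trans hu)
    · exact k1 a1 (hu.symm.trans hu')
  · rw [a3] at hu
    rw [b3] at hu'
    simp only [List.mem_cons, List.not_mem_nil, or_false] at hu hu'
    rcases hu with hu | hu <;> rcases hu' with hu' | hu'
    · exact h4 (hu'.symm.trans hu)
    · exact k2 b1 (hu'.symm.trans hu)
    · exact k1 a1 (hu.symm.trans hu')
    · exact k3 a1 b1 (hu.symm.trans hu')

end Dat

end Pool.Agent.H38H.IN
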