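import Pool.Agent.Lib.H38H.IN.P3

set_option autoImplicit false

namespace Pool.Agent.H38H.IN

open Classical

namespace Dat
variable {V : Type} [Fintype V] (D : Dat V)

/-! Chunk INP4 (M): the involution `tau` on the open ports. `mt (mt p) = p` (mate_mate), `vert (mt p) = mv (vert p)` (mate_vert), `mv` preserves `A`, 2-cycles (mv_facts).
Case 1: `mt p` not JB: `tau p = mt p`, open; `mt (tau p) = p` is not JB as `p` is open, so `tau (tau p) = p`; `tau p ≠ p` by mate_ne. Case 2: `q = mt p` is JB, `q' = sg q`: `tau p = mt q'`, not JB by jb_mt, not in `A` (jb_A, mv_facts);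
`mt (tau p) = q'` is JB, `sg q' = q`, so `tau (tau p) = mt q = p`; `tau p = p` would give `q' = q`.
kdp_tau: case 2: both b. Case 1: `IsD` is the same; if `eps v ∈ A` then `eps (mv v) = eps v` (oth_facts); otherwise `mv v = eps v`, `eps (eps v) = v`, `s(eps v, v) = s(v, eps v)`.
pp_tau: case 1: p0_reverse. Case 2: `pp p = p0 v ++ p0 (vert q')`, `v = mv (vert q)`, `pp (tau p) = p0 (mv (vert q')) ++ p0 (vert q)`; p0_reverse twice and `List.reverse_append`. pp_head, pp_last: p0_ends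
(the lists are not empty). -/

theorem inp4_mt_mt (p : Port D.π) : D.mt (D.mt p) = p := mate_mate D.mat D.nofix p

theorem inp4_vert (p : Port D.π) : (D.mt p).1.1 = mv D.π D.A D.μ p.1.1 := mate_vert p

theorem inp4_memA (p : Port D.π) : (D.mt p).1.1 ∈ D.A ↔ p.1.1 ∈ D.A := by
  rw [inp4_vert]
  exact (mv_facts D.mat D.nofix p.1.1).2.1

theorem inp4_tau1 {p : Port D.π} (h : ¬ D.JB (D.mt p)) : D.tau p = D.mt p := by
  unfold Dat.tau
  rw [if_neg h]

theorem inp4_tau2 {p : Port D.π} (h : D.JB (D.mt p)) : D.tau p = D.mt (D.sg (D.mt p)) := by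
  unfold Dat.tau
  rw [if_pos h]

theorem opn_tau {p : Port D.π} (hp : D.Opn p) : D.Opn (D.tau p) := by
  by_cases h : D.JB (D.mt p)
  · rw [inp4_tau2 D h]
    have h1 := (sg_facts D h).1
    exact ⟨fun h2 => (jb_A D h1).1 ((inp4_memA D _).1 h2), jb_mt D h1⟩
  · rw [inp4_tau1 D h]
    exact ⟨fun h2 => hp.1 ((inp4_memA D _).1 h2), h⟩

theorem tau_tau {p : Port D.π} (hp : D.Opn p) : D.tau (D.tau p) = p := by
  by_cases h : D.JB (D.mt p)
  · rw [inp4_tau2 D h]
    have h1 := sg_facts D h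
    have h2 : D.JB (D.mt (D.mt (D.sg (D.mt p)))) := by rw [inp4_mt_mt]; exact h1.1
    rw [inp4_tau2 D h2, inp4_mt_mt, h1.2.1, inp4_mt_mt]
  · rw [inp4_tau1 D h]
    have h2 : ¬ D.JB (D.mt (D.mt p)) := by rw [inp4_mt_mt]; exact hp.2
    rw [inp4_tau1 D h2, inp4_mt_mt]

theorem tau_ne {p : Port D.π} (hp : D.Opn p) : D.tau p ≠ p := by
  by_cases h : D.JB (D.mt p)
  · rw [inp4_tau2 D h]
    have h1 := sg_facts D h
    intro h2
    apply h1.2.2.1
    rw [← inp4_mt_mt D (D.sg (D.mt p)), h2]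
  · rw [inp4_tau1 D h]
    exact mate_ne D.mat D.nofix p hp.1

theorem kdp_tau {p : Port D.π} (hp : D.Opn p) : D.kdp (D.tau p) = D.kdp p := by
  by_cases h : D.JB (D.mt p)
  · have h1 := sg_facts D h
    have h2 : D.JB (D.mt (D.tau p)) := by rw [inp4_tau2 D h, inp4_mt_mt]; exact h1.1
    unfold Dat.kdp
    rw [if_pos h, if_pos h2]
  · have h2 : ¬ D.JB (D.mt (D.tau p)) := by rw [inp4_tau1 D h, inp4_mt_mt]; exact hp.2
    unfold Dat.kdp
    rw [if_neg h, if_neg h2, inp4_tau1 D h, inp4_vert]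
    by_cases hD : IsD D.π p.1.1
    · rw [if_pos hD, if_pos ((mv_facts D.mat D.nofix p.1.1).2.2.1.2 hD)]
    · rw [if_neg hD, if_neg (fun h3 => hD ((mv_facts D.mat D.nofix p.1.1).2.2.1.1 h3))]
      by_cases hA : eps D.π D.μ p.1.1 ∈ D.A
      · have h3 := oth_facts D.mat D.nofix hp.1 hD hA
        have h4 : mv D.π D.A D.μ p.1.1 = oth D.π (eps D.π D.μ p.1.1) p.1.1 := by
          unfold mv
          rw [if_neg (by
            rintro (h5 | h5)
            · exact hD h5
            · exact hp.1 h5), if_pos hA]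
        rw [h4, h3.2.2.2.1, if_pos (Or.inl hA), if_pos (Or.inl hA)]
      · have h3 := eps_facts D.mat D.nofix hp.1 hD
        have h4 : mv D.π D.A D.μ p.1.1 = eps D.π D.μ p.1.1 := by
          unfold mv
          rw [if_neg (by
            rintro (h5 | h5)
            · exact hD h5
            · exact hp.1 h5), if_neg hA]
        rw [h4, h3.2.2.2.2 hA]
        have h5 : s(eps D.π D.μ p.1.1, p.1.1) = s(p.1.1, eps D.π D.μ p.1.1) := Sym2.eq_swap
        rw [h5]
        have h6 : (p.1.1 ∈ D.A ∨ s(p.1.1, eps D.π D.μ p.1.1) ∈ D.E) ↔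
            (eps D.π D.μ p.1.1 ∈ D.A ∨ s(p.1.1, eps D.π D.μ p.1.1) ∈ D.E) := by
          constructor
          · rintro (h7 | h7)
            · exact absurd h7 hp.1
            · exact Or.inr h7
          · rintro (h7 | h7)
            · exact absurd h7 hA
            · exact Or.inr h7
        simp only [h6]

theorem pp_tau {p : Port D.π} (hp : D.Opn p) : D.pp (D.tau p) = (D.pp p).reverse := by
  by_cases h : D.JB (D.mt p)
  · have h1 := sg_facts D h
    have h2 : D.JB (D.mt (D.tau p)) := by rw [inp4_tau2 D h, inp4_mt_mt]; exact h1.1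
    have h3 : D.mt (D.tau p) = D.sg (D.mt p) := by rw [inp4_tau2 D h, inp4_mt_mt]
    unfold Dat.pp
    rw [if_pos h, if_pos h2, h3, h1.2.1, inp4_tau2 D h, inp4_vert, inp4_vert,
      List.reverse_append, p0_reverse D.mat D.nofix, p0_reverse D.mat D.nofix]
  · have h2 : ¬ D.JB (D.mt (D.tau p)) := by rw [inp4_tau1 D h, inp4_mt_mt]; exact hp.2
    unfold Dat.pp
    rw [if_neg h, if_neg h2, inp4_tau1 D h, inp4_vert, p0_reverse D.mat D.nofix]

theorem pp_head {p : Port D.π} (hp : D.Opn p) : (D.pp p).head? = some p.1.1 := by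
  by_cases h : D.JB (D.mt p)
  · unfold Dat.pp
    rw [if_pos h, List.head?_append, (p0_ends p.1.1).1]
    rfl
  · unfold Dat.pp
    rw [if_neg h]
    exact (p0_ends p.1.1).1

theorem pp_last {p : Port D.π} (hp : D.Opn p) : (D.pp p).getLast? = some (D.tau p).1.1 := by
  by_cases h : D.JB (D.mt p)
  · unfold Dat.pp
    rw [if_pos h, List.getLast?_append, (p0_ends (D.sg (D.mt p)).1.1).2, inp4_tau2 D h, inp4_vert]
    rfl
  · unfold Dat.pp
    rw [if_neg h, inp4_tau1 D h, inp4_vert]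
    exact (p0_ends p.1.1).2

end Dat

end Pool.Agent.H38H.IN
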