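import Pool.Agent.Lib.H38H.IN.P4

set_option autoImplicit false

namespace Pool.Agent.H38H.IN

open Classical

theorem inp5_infix {α : Type} {l1 l2 : List α} {u w : α} (h : [u, w] <:+: l1 ++ l2) :
    [u, w] <:+: l1 ∨ [u, w] <:+: l2 ∨ (l1.getLast? = some u ∧ l2.head? = some w) := by
  rw [List.infix_append_iff] at h
  rcases h with h | h | ⟨a, b, hab, ha, hb⟩
  · exact Or.inl h
  · exact Or.inr (Or.inl h)
  · match a, hab, ha with
    | [], hab, ha =>
      simp only [List.nil_append] at hab
      subst hab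
      exact Or.inr (Or.inl hb.isInfix)
    | [x], hab, ha =>
      simp only [List.singleton_append, List.cons.injEq] at hab
      obtain ⟨h1, h2⟩ := hab
      subst h1
      subst h2
      right
      right
      obtain ⟨t, ht⟩ := ha
      obtain ⟨t', ht'⟩ := hb
      constructor
      · rw [← ht]
        simp
      · rw [← ht']
        simp
    | [x, y], hab, ha =>
      simp only [List.cons_append, List.nil_append, List.cons.injEq] at hab
      obtain ⟨h1, h2, h3⟩ := hab
      subst h1
      subst h2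
      exact Or.inl ha.isInfix
    | x :: y :: z :: t, hab, ha =>
      exfalso
      have := congrArg List.length hab
      simp at this

theorem inp5_cns {α : Type} {l1 l2 : List α} {u w : α} (h : Cns (l1 ++ l2) u w) :
    Cns l1 u w ∨ Cns l2 u w ∨ (l1.getLast? = some u ∧ l2.head? = some w) ∨
      (l1.getLast? = some w ∧ l2.head? = some u) := by
  rcases h with h | h
  · rcases inp5_infix h with h | h | h
    · exact Or.inl (Or.inl h)
    · exact Or.inr (Or.inl (Or.inl h))
    · exact Or.inr (Or.inr (Or.inl h))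
  · rcases inp5_infix h with h | h | h
    · exact Or.inl (Or.inr h)
    · exact Or.inr (Or.inl (Or.inr h))
    · exact Or.inr (Or.inr (Or.inr h))

namespace Dat
variable {V : Type} [Fintype V] (D : Dat V)

/-! Chunk INP5 (M): the paths of the links. Case 1: `mt p` not JB, `pp p = p0 v`. Case 2: `q = mt p` JB, `v = vert p = mv (vert q)`, `pp p = p0 v ++ p0 (vert (sg q))`, where `p0 v` is the reverse of `p0 (vert q)` (p0_reverse), of length
1 or 2 (jb_mv), ending in `vert q`; same for `sg q`. pp_nodup: p0_nodup, jb_disj. pp_len: kinds by definition of kdp. pp_cns: inside p0 parts p0_cns; at the junction the pair `vert q`, `vert (sg q)`: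
sg_facts: `s(q, sg q) ∈ ξ`, or `vert (sg q) = μ (vert q)`, a π-neighbour by Mat.mem.
pp_cover: `u ∈ A`: the port `(π u, false)` (`π u ∉ A`, not a 2-cycle; not JB by jb_A since `π.symm (π u) = u ∈ A`); its eps is `u` (`μ (π u) ≠ u` as `μ u = u`), so `u ∈ p0`. `u ∉ A`: if some port of `u` is open: take it. Otherwise all ports of `u` are JB; by jb_vert there is only one,
`q`, so `u` is not in a 2-cycle, and `p = mt q` is open (jb_mt, mv_facts), `mt p = q`, `u = vert q ∈ p0 (vert p)` (last element).
pp_uniq: which open ports `p` have `u ∈ pp p`? By p0_mem: case 1: `u ∈ {v, mv v}` or `u = eps v ∈ A`; case 2: `u ∈ {v, vert q, vert (sg q), mv (vert (sg q))}`. If `u ∈ A`: `p` is a port of a π-neighbour of `u`, there are two of them, exchanged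
by mt = tau. If `u ∉ A` has an open port `p1` (any other open port of `u` is its mate, a 2-cycle vertex, and then `tau p1` = mate `p1`): `p = p1` or `p = tau p1`. If not: the only port `q` of `u` is JB and `p ∈ {mt q, tau (mt q)}`. In all cases the set of `p` is contained in `{p1, tau p1}`. -/

theorem inp5_mv {p : Port D.π} : mv D.π D.A D.μ (D.mt p).1.1 = p.1.1 := by
  rw [inp4_vert]
  exact (mv_facts D.mat D.nofix p.1.1).1

theorem inp5_p0 (p : Port D.π) : p0 D.π D.A D.μ p.1.1 = (p0 D.π D.A D.μ (D.mt p).1.1).reverse := by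
  rw [inp4_vert, p0_reverse D.mat D.nofix, List.reverse_reverse]

theorem inp5_port {r r' : Port D.π} (h : r.1.1 = r'.1.1) : r' = r ∨ r' = D.mt r := by
  obtain ⟨⟨v, b⟩, hb⟩ := r
  obtain ⟨⟨v', b'⟩, hb'⟩ := r'
  simp only at h
  subst h
  by_cases hbb : b' = b
  · subst hbb
    exact Or.inl rfl
  · right
    have hD : IsD D.π v := by
      cases b with
      | true => exact hb rfl
      | false =>
        cases b' with
        | true => exact hb' rfl
        | false => exact absurd rfl hbb
    have h2 : b' = !b := by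
      cases b <;> cases b' <;> simp_all
    unfold Dat.mt mate
    simp only
    rw [dif_pos hD]
    apply Subtype.ext
    simp [h2]

theorem inp5_port_nd {r r' : Port D.π} (h : r.1.1 = r'.1.1) (hd : ¬ IsD D.π r.1.1) : r' = r := by
  obtain ⟨⟨v, b⟩, hb⟩ := r
  obtain ⟨⟨v', b'⟩, hb'⟩ := r'
  simp only at h
  subst h
  have h1 : b = false := by
    cases b with
    | true => exact absurd (hb rfl) hd
    | false => rfl
  have h2 : b' = false := by
    cases b' with
    | true => exact absurd (hb' rfl) hd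
    | false => rfl
  subst h1
  subst h2
  rfl

/-- the ports of a joined link whose link is joined: members of `p0` -/
theorem inp5_jb_mem {q : Port D.π} (hq : D.JB q) {u : V} (hu : u ∈ p0 D.π D.A D.μ q.1.1) :
    u ∉ D.A ∧ (u = q.1.1 ∨ u = (D.mt q).1.1) := by
  rw [inp4_vert]
  rcases jb_mv D hq with ⟨-, h1, h2⟩ | ⟨h0, h1, h2⟩
  · rw [h2] at hu
    have : u = q.1.1 := by simpa using hu
    rw [this]
    exact ⟨(jb_A D hq).1, Or.inl rfl⟩
  · rw [h2] at hu
    simp only [List.mem_cons, List.not_mem_nil, or_false] at hu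
    rcases hu with hu | hu
    · rw [hu]
      exact ⟨(jb_A D hq).1, Or.inl rfl⟩
    · rw [hu, h1]
      refine ⟨?_, Or.inr rfl⟩
      rw [← h1]
      intro h3
      exact (jb_A D hq).1 ((mv_facts D.mat D.nofix q.1.1).2.1.1 h3)

/-- members of `pp` outside `A` -/
theorem inp5_mem {p : Port D.π} (hp : D.Opn p) {u : V} (hu : u ∈ D.pp p) (hA : u ∉ D.A) :
    ∃ r : Port D.π, (r = p ∨ r = D.mt p ∨ r = D.tau p ∨ r = D.mt (D.tau p)) ∧ r.1.1 = u := by
  by_cases h : D.JB (D.mt p)
  · have h3 : D.mt (D.tau p) = D.sg (D.mt p) := by rw [inp4_tau2 D h, inp4_mt_mt]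
    unfold Dat.pp at hu
    rw [if_pos h, List.mem_append] at hu
    rcases hu with hu | hu
    · rw [inp5_p0, List.mem_reverse] at hu
      rcases (inp5_jb_mem D h hu).2 with h4 | h4
      · exact ⟨D.mt p, Or.inr (Or.inl rfl), h4.symm⟩
      · rw [inp4_mt_mt] at h4
        exact ⟨p, Or.inl rfl, h4.symm⟩
    · rcases (inp5_jb_mem D (sg_facts D h).1 hu).2 with h4 | h4
      · exact ⟨D.mt (D.tau p), Or.inr (Or.inr (Or.inr rfl)), by rw [h3, h4]⟩
      · exact ⟨D.tau p, Or.inr (Or.inr (Or.inl rfl)), by rw [inp4_tau2 D h, h4]⟩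
  · unfold Dat.pp at hu
    rw [if_neg h, p0_mem D.mat D.nofix hp.1] at hu
    rcases hu with hu | hu | hu
    · exact ⟨p, Or.inl rfl, hu.symm⟩
    · exact ⟨D.mt p, Or.inr (Or.inl rfl), by rw [inp4_vert, hu]⟩
    · exact absurd hu.1 hA

/-- members of `pp` in `A` -/
theorem inp5_memA {p : Port D.π} (hp : D.Opn p) {u : V} (hu : u ∈ D.pp p) (hA : u ∈ D.A) :
    ¬ D.JB (D.mt p) ∧ ¬ IsD D.π p.1.1 ∧ eps D.π D.μ p.1.1 = u := by
  by_cases h : D.JB (D.mt p)
  · exfalso
    unfold Dat.pp at hu
    rw [if_pos h, List.mem_append] at hu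
    rcases hu with hu | hu
    · rw [inp5_p0, List.mem_reverse] at hu
      exact (inp5_jb_mem D h hu).1 hA
    · exact (inp5_jb_mem D (sg_facts D h).1 hu).1 hA
  · refine ⟨h, ?_⟩
    unfold Dat.pp at hu
    rw [if_neg h, p0_mem D.mat D.nofix hp.1] at hu
    rcases hu with hu | hu | hu
    · exact absurd (by rw [← hu]; exact hA) hp.1
    · exact absurd ((mv_facts D.mat D.nofix p.1.1).2.1.1 (by rw [← hu]; exact hA)) hp.1
    · exact hu.2

/-- the open port of the link of a port -/
noncomputable def inp5_op (r : Port D.π) : Port D.π := if D.Opn r then r else D.mt r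

theorem inp5_op_mem {p : Port D.π} (hp : D.Opn p) {r : Port D.π}
    (hr : r = p ∨ r = D.mt p ∨ r = D.tau p ∨ r = D.mt (D.tau p)) :
    inp5_op D r = p ∨ inp5_op D r = D.tau p := by
  have key : ∀ p : Port D.π, D.Opn p → inp5_op D p = p ∧
      (inp5_op D (D.mt p) = p ∨ inp5_op D (D.mt p) = D.tau p) := by
    intro p hp
    refine ⟨by unfold inp5_op; rw [if_pos hp], ?_⟩
    unfold inp5_op
    by_cases h : D.Opn (D.mt p)
    · rw [if_pos h]
      right
      rw [inp4_tau1 D h.2]
    · rw [if_neg h, inp4_mt_mt]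
      exact Or.inl rfl
  have h1 := key p hp
  have h2 := key (D.tau p) (opn_tau D hp)
  rw [tau_tau D hp] at h2
  rcases hr with rfl | rfl | rfl | rfl
  · exact Or.inl h1.1
  · exact h1.2
  · exact Or.inr h2.1
  · exact h2.2.symm

theorem pp_nodup {p : Port D.π} (hp : D.Opn p) : (D.pp p).Nodup := by
  by_cases h : D.JB (D.mt p)
  · unfold Dat.pp
    rw [if_pos h, List.nodup_append]
    refine ⟨p0_nodup D.mat D.nofix _, p0_nodup D.mat D.nofix _, ?_⟩
    intro a ha b hb hab
    subst hab
    rw [inp5_p0, List.mem_reverse] at ha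
    exact jb_disj D h a ha hb
  · unfold Dat.pp
    rw [if_neg h]
    exact p0_nodup D.mat D.nofix _

theorem pp_len {p : Port D.π} (hp : D.Opn p) : (D.kdp p = Kind.c → (D.pp p).length = 2) ∧
    (D.kdp p = Kind.d → (D.pp p).length = 1) ∧
    (D.kdp p = Kind.b → 2 ≤ (D.pp p).length ∧ (D.pp p).length ≤ 4) := by
  by_cases h : D.JB (D.mt p)
  · have hk : D.kdp p = Kind.b := by unfold Dat.kdp; rw [if_pos h]
    rw [hk]
    refine ⟨fun h1 => absurd h1 (by simp), fun h1 => absurd h1 (by simp), fun _ => ?_⟩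
    unfold Dat.pp
    rw [if_pos h, inp5_p0, List.length_append, List.length_reverse]
    have h1 : (p0 D.π D.A D.μ (D.mt p).1.1).length = 1 ∨ (p0 D.π D.A D.μ (D.mt p).1.1).length = 2 := by
      rcases jb_mv D h with ⟨-, -, h2⟩ | ⟨-, -, h2⟩ <;> rw [h2] <;> simp
    have h2 : (p0 D.π D.A D.μ (D.sg (D.mt p)).1.1).length = 1 ∨
        (p0 D.π D.A D.μ (D.sg (D.mt p)).1.1).length = 2 := by
      rcases jb_mv D (sg_facts D h).1 with ⟨-, -, h2⟩ | ⟨-, -, h2⟩ <;> rw [h2] <;> simp
    omega
  · unfold Dat.kdp Dat.pp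
    rw [if_neg h, if_neg h]
    by_cases hD : IsD D.π p.1.1
    · rw [if_pos hD]
      refine ⟨fun h1 => absurd h1 (by simp), fun _ => ?_, fun h1 => absurd h1 (by simp)⟩
      unfold p0
      rw [if_pos (Or.inl hD)]
      rfl
    · rw [if_neg hD]
      have h5 : ¬ (IsD D.π p.1.1 ∨ p.1.1 ∈ D.A) := by
        rintro (h6 | h6)
        · exact hD h6
        · exact hp.1 h6
      by_cases hA : eps D.π D.μ p.1.1 ∈ D.A
      · rw [if_pos (Or.inl hA)]
        refine ⟨fun h1 => absurd h1 (by simp), fun h1 => absurd h1 (by simp), fun _ => ?_⟩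
        unfold p0
        rw [if_neg h5, if_pos hA]
        simp
      · have hl : (p0 D.π D.A D.μ p.1.1).length = 2 := by
          unfold p0
          rw [if_neg h5, if_neg hA]
          rfl
        rw [hl]
        refine ⟨fun _ => rfl, ?_, fun _ => ⟨le_refl _, by norm_num⟩⟩
        by_cases hE : eps D.π D.μ p.1.1 ∈ D.A ∨ s(p.1.1, eps D.π D.μ p.1.1) ∈ D.E
        · rw [if_pos hE]
          intro h1
          exact absurd h1 (by simp)
        · rw [if_neg hE]
          intro h1
          exact absurd h1 (by simp)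

theorem pp_cns {p : Port D.π} (hp : D.Opn p) {u w : V} (h : Cns (D.pp p) u w) :
    w = D.π u ∨ u = D.π w ∨ ∃ a b : Port D.π, s(a, b) ∈ D.ξ ∧ a.1.1 = u ∧ b.1.1 = w := by
  by_cases hJ : D.JB (D.mt p)
  · unfold Dat.pp at h
    rw [if_pos hJ] at h
    have hl : (p0 D.π D.A D.μ p.1.1).getLast? = some (D.mt p).1.1 := by
      rw [(p0_ends p.1.1).2, inp4_vert]
    have hh : (p0 D.π D.A D.μ (D.sg (D.mt p)).1.1).head? = some (D.sg (D.mt p)).1.1 :=
      (p0_ends _).1
    have hs := sg_facts D hJ
    have junction : (D.sg (D.mt p)).1.1 = D.π (D.mt p).1.1 ∨ (D.mt p).1.1 = D.π (D.sg (D.mt p)).1.1 ∨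
        s(D.mt p, D.sg (D.mt p)) ∈ D.ξ := by
      rcases hs.2.2.2.2.2 with h1 | ⟨h1, -⟩
      · exact Or.inr (Or.inr h1)
      · rcases D.mat.mem _ (jb_A D hJ).1 with h2 | h2
        · exact Or.inl (by rw [h1, h2])
        · right
          left
          rw [h1, h2, Equiv.apply_symm_apply]
    rcases inp5_cns h with h1 | h1 | ⟨h1, h2⟩ | ⟨h1, h2⟩
    · rcases (p0_cns D.mat D.nofix h1).1 with h3 | h3
      · exact Or.inl h3
      · exact Or.inr (Or.inl h3)
    · rcases (p0_cns D.mat D.nofix h1).1 with h3 | h3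
      · exact Or.inl h3
      · exact Or.inr (Or.inl h3)
    · rw [hl] at h1
      rw [hh] at h2
      have h1' := Option.some.inj h1
      have h2' := Option.some.inj h2
      rw [← h1', ← h2']
      rcases junction with h3 | h3 | h3
      · exact Or.inl h3
      · exact Or.inr (Or.inl h3)
      · exact Or.inr (Or.inr ⟨_, _, h3, rfl, rfl⟩)
    · rw [hl] at h1
      rw [hh] at h2
      have h1' := Option.some.inj h1
      have h2' := Option.some.inj h2
      rw [← h1', ← h2']
      rcases junction with h3 | h3 | h3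
      · exact Or.inr (Or.inl h3)
      · exact Or.inl h3
      · exact Or.inr (Or.inr ⟨_, _, by rw [Sym2.eq_swap]; exact h3, rfl, rfl⟩)
  · unfold Dat.pp at h
    rw [if_neg hJ] at h
    rcases (p0_cns D.mat D.nofix h).1 with h3 | h3
    · exact Or.inl h3
    · exact Or.inr (Or.inl h3)

theorem pp_cover (u : V) : ∃ p, D.Opn p ∧ u ∈ D.pp p := by
  have hsub : ∀ p : Port D.π, ∀ u, u ∈ p0 D.π D.A D.μ p.1.1 → u ∈ D.pp p := by
    intro p u hu
    unfold Dat.pp
    split
    · exact List.mem_append.2 (Or.inl hu)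
    · exact hu
  by_cases hA : u ∈ D.A
  · have h1 : D.π u ∉ D.A := (D.mat.nb u hA).1
    have h2 : ¬ D.JB (⟨(D.π u, false), by simp⟩ : Port D.π) := by
      intro h3
      have h4 := (jb_A D h3).2.2
      simp only [Equiv.symm_apply_apply] at h4
      exact h4 hA
    refine ⟨⟨(D.π u, false), by simp⟩, ⟨h1, h2⟩, hsub _ _ ?_⟩
    rw [p0_mem D.mat D.nofix h1]
    right
    right
    have h5 : ¬ IsD D.π (D.π u) := by
      rw [isD_apply]
      exact D.mat.nd u hA
    refine ⟨hA, h5, ?_⟩
    have h6 : D.μ (D.π u) = D.π (D.π u) := by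
      rcases D.mat.mem _ h1 with h7 | h7
      · exact h7
      · exfalso
        rw [Equiv.symm_apply_apply] at h7
        have h8 := D.mat.inv (D.π u)
        rw [h7, (D.mat.fix u).2 hA] at h8
        exact D.nofix u h8.symm
    unfold eps
    rw [if_pos h6, Equiv.symm_apply_apply]
  · by_cases hO : ∃ p : Port D.π, D.Opn p ∧ p.1.1 = u
    · obtain ⟨p, hp, hpu⟩ := hO
      refine ⟨p, hp, hsub _ _ ?_⟩
      rw [p0_mem D.mat D.nofix hp.1]
      exact Or.inl hpu.symm
    · have hq : D.JB (⟨(u, false), by simp⟩ : Port D.π) := by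
        by_contra h1
        exact hO ⟨_, ⟨hA, h1⟩, rfl⟩
      have hp : D.Opn (D.mt (⟨(u, false), by simp⟩ : Port D.π)) :=
        ⟨fun h1 => hA ((inp4_memA D _).1 h1), jb_mt D hq⟩
      refine ⟨_, hp, hsub _ _ ?_⟩
      rw [p0_mem D.mat D.nofix hp.1]
      right
      left
      rw [inp5_mv]

theorem pp_uniq {p q : Port D.π} (hp : D.Opn p) (hq : D.Opn q) {u : V} (h1 : u ∈ D.pp p)
    (h2 : u ∈ D.pp q) : q = p ∨ q = D.tau p := by
  by_cases hA : u ∈ D.A
  · obtain ⟨a1, a2, a3⟩ := inp5_memA D hp h1 hA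
    obtain ⟨b1, b2, b3⟩ := inp5_memA D hq h2 hA
    by_cases hv : p.1.1 = q.1.1
    · exact Or.inl (inp5_port_nd D hv a2)
    · right
      rw [inp4_tau1 D a1]
      have h3 := eps_facts D.mat D.nofix hp.1 a2
      have h4 := eps_facts D.mat D.nofix hq.1 b2
      rw [a3] at h3
      rw [b3] at h4
      have hm : mv D.π D.A D.μ p.1.1 = oth D.π u p.1.1 := by
        unfold mv
        rw [if_neg (by
          rintro (h5 | h5)
          · exact a2 h5
          · exact hp.1 h5), a3, if_pos hA]
      have hp2 : p.1.1 = D.π u ∨ p.1.1 = D.π.symm u := by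
        rcases h3.2.2.1 with h5 | h5
        · right
          rw [h5, Equiv.symm_apply_apply]
        · left
          rw [h5, Equiv.apply_symm_apply]
      have hq2 : q.1.1 = D.π u ∨ q.1.1 = D.π.symm u := by
        rcases h4.2.2.1 with h5 | h5
        · right
          rw [h5, Equiv.symm_apply_apply]
        · left
          rw [h5, Equiv.apply_symm_apply]
      have hvq : (D.mt p).1.1 = q.1.1 := by
        rw [inp4_vert, hm]
        unfold oth
        rcases hp2 with h5 | h5
        · rw [if_pos h5]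
          rcases hq2 with h6 | h6
          · exact absurd (h5.trans h6.symm) hv
          · exact h6.symm
        · by_cases h7 : p.1.1 = D.π u
          · rw [if_pos h7]
            rcases hq2 with h6 | h6
            · exact absurd (h7.trans h6.symm) hv
            · exact h6.symm
          · rw [if_neg h7]
            rcases hq2 with h6 | h6
            · exact h6.symm
            · exact absurd (h5.trans h6.symm) hv
      exact inp5_port_nd D hvq (by rw [hvq]; exact b2)
  · obtain ⟨r, hr, hru⟩ := inp5_mem D hp h1 hA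
    obtain ⟨r', hr', hru'⟩ := inp5_mem D hq h2 hA
    have hr2 : r' = p ∨ r' = D.mt p ∨ r' = D.tau p ∨ r' = D.mt (D.tau p) := by
      rcases inp5_port D (hru.trans hru'.symm) with h3 | h3
      · rw [h3]; exact hr
      · rcases hr with h4 | h4 | h4 | h4
        · rw [h3, h4]; exact Or.inr (Or.inl rfl)
        · rw [h3, h4, inp4_mt_mt]; exact Or.inl rfl
        · rw [h3, h4]; exact Or.inr (Or.inr (Or.inr rfl))
        · rw [h3, h4, inp4_mt_mt]; exact Or.inr (Or.inr (Or.inl rfl))
    have e1 := inp5_op_mem D hp hr2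
    have e2 := inp5_op_mem D hq hr'
    rcases e1 with e1 | e1 <;> rcases e2 with e2 | e2
    · left
      rw [← e2, e1]
    · right
      rw [← e1, e2, tau_tau D hq]
    · right
      rw [← e1, e2]
    · left
      rw [← tau_tau D hq, ← e2, e1, tau_tau D hp]

end Dat

end Pool.Agent.H38H.IN
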