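import Pool.Agent.Lib.H38H.IN.P5

set_option autoImplicit false

namespace Pool.Agent.H38H.IN

open Classical

namespace Dat
variable {V : Type} [Fintype V] (D : Dat V)

/-! Chunk INP6 (M): marks, cores and kinds.
pp_mark: `e ∈ E`. real1. (a) `e = s(p.1.1, q.1.1)`, `s(p,q) ∈ ξ`: `p` is JB, `sg p = q` (marksX); the open port `p' = mt p` (jb_mt, jb_A) has `mt p' = p` JB, kind b, path `p0 (mv u) ++ p0 u'` where `p0 (mv u)` ends in `u = vert p` and `p0 u'`
begins with `u' = vert q`. (b) `e = s(v, π v)` with `π v = μ v` or `v = μ (π v)`, i.e. `π v = μ v` (Mat.inv): the port `(v, false)` is InM; same. (c) `e = s(v, π v)`, `μ v ≠ π v`: `v, π v ∉ A` (dc2), so `μ v = π⁻¹ v`, not a 2-cycle (otherwise `π⁻¹ v = π v`),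
`eps v = π v`. The port `(v, false)` is open: it is not JB (the mark at `v` is `e`: InX against real2, InM: `μ v = π v`). `mt (v,false) = (π v, false)` is not JB for the same reason. So kind b as `s(v, eps v) ∈ E`, path `[v, π v]`.
pp_core: kind b: case `mt p` JB: the mark `e = s(u,u')`, `u = vert (mt p)`; the path is `[mv u,] u, u' [, mv u']`: second alternative. Case `eps v ∈ A`: path `[v, a, oth a v]`: first alternative. Case `s(v, eps v) ∈ E`: path `[v, eps v]`.
pp_μ: kind c: path `[v, eps v]`, both not in `A`, `μ v ≠ eps v`, `μ (eps v) ≠ v`, not in 2-cycles. Kind d: path `[v]`, `μ v = π v ≠ v`. -/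

theorem inp6_cns {l l' : List V} {x y : V} (h1 : l.getLast? = some x) (h2 : l'.head? = some y) :
    Cns (l ++ l') x y := by
  left
  obtain ⟨ys, rfl⟩ := List.getLast?_eq_some_iff.1 h1
  cases l' with
  | nil => simp at h2
  | cons z t =>
    simp only [List.head?_cons, Option.some.injEq] at h2
    subst h2
    exact ⟨ys, t, by simp⟩

theorem inp6_jb {q : Port D.π} (hq : D.JB q) :
    D.Opn (D.mt q) ∧ D.JB (D.mt (D.mt q)) ∧ D.mt (D.mt q) = q ∧ D.kdp (D.mt q) = Kind.b ∧
      D.pp (D.mt q) = (p0 D.π D.A D.μ q.1.1).reverse ++ p0 D.π D.A D.μ (D.sg q).1.1 := by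
  have h1 : D.mt (D.mt q) = q := mate_mate D.mat D.nofix q
  have h2 : (D.mt q).1.1 = mv D.π D.A D.μ q.1.1 := mate_vert q
  have h3 := mv_facts D.mat D.nofix q.1.1
  have h4 : D.JB (D.mt (D.mt q)) := by rw [h1]; exact hq
  refine ⟨⟨?_, jb_mt D hq⟩, h4, h1, ?_, ?_⟩
  · rw [h2, h3.2.1]
    exact (jb_A D hq).1
  · unfold kdp
    rw [if_pos h4]
  · unfold pp
    rw [if_pos h4, h1, h2, p0_reverse D.mat D.nofix]

theorem inp6_jbmark {q : Port D.π} (hq : D.JB q) :
    ∃ p, D.Opn p ∧ D.kdp p = Kind.b ∧ Cns (D.pp p) q.1.1 (D.sg q).1.1 := by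
  obtain ⟨h1, h2, h3, h4, h5⟩ := inp6_jb D hq
  refine ⟨D.mt q, h1, h4, ?_⟩
  rw [h5]
  refine inp6_cns ?_ (p0_ends _).1
  rw [List.getLast?_reverse]
  exact (p0_ends _).1

/-- two marks with a common vertex are equal -/
theorem inp6_mark_eq {e f : Sym2 V} (he : e ∈ D.E) (hf : f ∈ D.E) {v : V} (h1 : v ∈ e) (h2 : v ∈ f) :
    e = f := by
  by_contra h
  exact D.marks.2 e he f hf h v h1 h2

theorem pp_mark {e : Sym2 V} (he : e ∈ D.E) :
    ∃ p, D.Opn p ∧ D.kdp p = Kind.b ∧ ∃ u v, e = s(u, v) ∧ Cns (D.pp p) u v := by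
  rcases D.real1 e he with ⟨v, rfl⟩ | ⟨p, q, hpq, rfl⟩
  · by_cases hv : D.μ v = D.π v
    · have hM : D.InM ⟨(v, false), by simp⟩ := ⟨rfl, by rw [hv]; exact D.nofix v, by rw [hv]; exact he⟩
      have hJ : D.JB ⟨(v, false), by simp⟩ := Or.inr hM
      obtain ⟨p, h1, h2, h3⟩ := inp6_jbmark D hJ
      refine ⟨p, h1, h2, v, D.π v, rfl, ?_⟩
      have h4 : (D.sg ⟨(v, false), by simp⟩).1.1 = D.π v := by
        unfold sg
        rw [dif_neg (fun h5 => not_both D h5 hM)]
        exact hv
      rw [h4] at h3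
      exact h3
    · have hvA : v ∉ D.A := fun h => (D.dc2 v h _ he).1 (Sym2.mem_mk_left _ _)
      have hvA' : D.π v ∉ D.A := fun h => (D.dc2 _ h _ he).1 (Sym2.mem_mk_right _ _)
      have hms : D.μ v = D.π.symm v := by
        rcases D.mat.mem v hvA with h | h
        · exact absurd h hv
        · exact h
      have hD : ¬ IsD D.π v := by
        intro h
        apply hv
        rw [hms, Equiv.symm_apply_eq]
        exact h.symm
      have heps : eps D.π D.μ v = D.π v := by
        unfold eps
        rw [if_neg hv]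
      have hmv : mv D.π D.A D.μ v = D.π v := by
        unfold mv
        rw [if_neg (by tauto), heps, if_neg hvA']
      have hp0 : p0 D.π D.A D.μ v = [v, D.π v] := by
        unfold p0
        rw [if_neg (by tauto), heps, if_neg hvA']
      have hnj : ∀ q : Port D.π, (q.1.1 = v ∨ q.1.1 = D.π v) → ¬ D.JB q := by
        rintro q hq (hX | hM)
        · obtain ⟨q', hq'⟩ := hX
          obtain ⟨r1, r2⟩ := D.real2 q q' hq'
          have h5 : q.1.1 ∈ s(v, D.π v) := by
            rcases hq with h | h
            · rw [h]; exact Sym2.mem_mk_left _ _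
            · rw [h]; exact Sym2.mem_mk_right _ _
          exact r2 v (inp6_mark_eq D r1 he (Sym2.mem_mk_left _ _) h5)
        · obtain ⟨-, -, r1⟩ := hM
          have h5 : q.1.1 ∈ s(v, D.π v) := by
            rcases hq with h | h
            · rw [h]; exact Sym2.mem_mk_left _ _
            · rw [h]; exact Sym2.mem_mk_right _ _
          have h6 := inp6_mark_eq D r1 he (Sym2.mem_mk_left _ _) h5
          rcases hq with h | h
          · rw [h] at h6
            exact hv (Sym2.congr_right.1 h6)
          · rw [h, Sym2.eq_swap] at h6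
            have h7 := Sym2.congr_left.1 h6
            apply hv
            rw [← h7, D.mat.inv]
            exact h7.symm ▸ rfl
      have hmt : D.mt ⟨(v, false), by simp⟩ = ⟨(D.π v, false), by simp⟩ := by
        unfold mt mate
        rw [dif_neg hD]
        apply Subtype.ext
        simp only [hmv]
      have hnJ : ¬ D.JB (D.mt ⟨(v, false), by simp⟩) := by
        rw [hmt]
        exact hnj _ (Or.inr rfl)
      refine ⟨⟨(v, false), by simp⟩, ⟨hvA, hnj _ (Or.inl rfl)⟩, ?_, v, D.π v, rfl, ?_⟩
      · unfold kdp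
        rw [if_neg hnJ, if_neg hD, if_pos]
        right
        simp only [heps]
        exact he
      · unfold pp
        rw [if_neg hnJ]
        simp only [hp0]
        exact Or.inl (List.infix_refl _)
  · have hX : InX D.ξ p := ⟨q, hpq⟩
    have hJ : D.JB p := Or.inl hX
    obtain ⟨p', h1, h2, h3⟩ := inp6_jbmark D hJ
    refine ⟨p', h1, h2, p.1.1, q.1.1, rfl, ?_⟩
    have h4 : D.sg p = q := by
      unfold sg
      rw [dif_pos hX]
      have h5 := hX.choose_spec
      by_contra h6
      have h7 : s(p, hX.choose) ≠ s(p, q) := fun h => h6 (Sym2.congr_right.1 h)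
      exact D.marksX.2 _ h5 _ hpq h7 p (Sym2.mem_mk_left _ _) (Sym2.mem_mk_left _ _)
    rw [h4] at h3
    exact h3

theorem pp_core {p : Port D.π} (hp : D.Opn p) (hk : D.kdp p = Kind.b) :
    (∃ a ∈ D.A, (∀ v ∈ D.pp p, v = a ∨ Cns (D.pp p) v a) ∧ ∀ v ∈ D.pp p, v = a ∨ v = D.π a ∨ v = D.π.symm a) ∨
    ∃ e ∈ D.E, ∀ v ∈ D.pp p, v ∈ e ∨ ∃ u ∈ e, Cns (D.pp p) v u := by
  by_cases hJ : D.JB (D.mt p)
  · right
    obtain ⟨h1, h2, h3, h4, h5⟩ := inp6_jb D hJ
    have hmm : D.mt (D.mt p) = p := mate_mate D.mat D.nofix p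
    rw [hmm] at h5
    obtain ⟨s1, s2, s3, s4, s5, s6⟩ := sg_facts D hJ
    refine ⟨_, s5, ?_⟩
    obtain ⟨u, hu⟩ : ∃ u, u = (D.mt p).1.1 := ⟨_, rfl⟩
    obtain ⟨u', hu'⟩ : ∃ u, u = (D.sg (D.mt p)).1.1 := ⟨_, rfl⟩
    have j1 := jb_mv D hJ
    have j2 := jb_mv D s1
    rw [← hu] at j1 h5 ⊢
    rw [← hu'] at j2 h5 ⊢
    have m1 : u ∈ s(u, u') := Sym2.mem_mk_left _ _
    have m2 : u' ∈ s(u, u') := Sym2.mem_mk_right _ _
    rcases j1 with ⟨-, -, j1⟩ | ⟨-, -, j1⟩
    · rcases j2 with ⟨-, -, j2⟩ | ⟨-, -, j2⟩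
      · rw [h5, j1, j2]
        intro v hv
        simp only [List.reverse_cons, List.reverse_nil, List.nil_append, List.cons_append,
          List.mem_cons, List.not_mem_nil, or_false] at hv
        rcases hv with rfl | rfl
        · exact Or.inl m1
        · exact Or.inl m2
      · rw [h5, j1, j2]
        intro v hv
        simp only [List.reverse_cons, List.reverse_nil, List.nil_append, List.cons_append,
          List.mem_cons, List.not_mem_nil, or_false] at hv
        rcases hv with rfl | rfl | rfl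
        · exact Or.inl m1
        · exact Or.inl m2
        · right
          refine ⟨u', m2, Or.inr ?_⟩
          exact ⟨[u], [], by simp⟩
    · rcases j2 with ⟨-, -, j2⟩ | ⟨-, -, j2⟩
      · rw [h5, j1, j2]
        intro v hv
        simp only [List.reverse_cons, List.reverse_nil, List.nil_append, List.cons_append,
          List.mem_cons, List.not_mem_nil, or_false] at hv
        rcases hv with rfl | rfl | rfl
        · right
          refine ⟨u, m1, Or.inl ?_⟩
          exact ⟨[], [u'], by simp⟩
        · exact Or.inl m1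
        · exact Or.inl m2
      · rw [h5, j1, j2]
        intro v hv
        simp only [List.reverse_cons, List.reverse_nil, List.nil_append, List.cons_append,
          List.mem_cons, List.not_mem_nil, or_false] at hv
        rcases hv with rfl | rfl | rfl | rfl
        · right
          refine ⟨u, m1, Or.inl ?_⟩
          exact ⟨[], [u', eps D.π D.μ u'], by simp⟩
        · exact Or.inl m1
        · exact Or.inl m2
        · right
          refine ⟨u', m2, Or.inr ?_⟩
          exact ⟨[eps D.π D.μ u, u], [], by simp⟩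
  · have hpA := hp.1
    unfold kdp at hk
    rw [if_neg hJ] at hk
    by_cases hD : IsD D.π p.1.1
    · rw [if_pos hD] at hk
      exact absurd hk (by simp)
    · rw [if_neg hD] at hk
      have hpp : D.pp p = p0 D.π D.A D.μ p.1.1 := by
        unfold pp
        rw [if_neg hJ]
      obtain ⟨e1, e2, e3, e4, e5⟩ := eps_facts D.mat D.nofix hpA hD
      by_cases hA : eps D.π D.μ p.1.1 ∈ D.A
      · left
        have hp0 : p0 D.π D.A D.μ p.1.1 = [p.1.1, eps D.π D.μ p.1.1,
            oth D.π (eps D.π D.μ p.1.1) p.1.1] := by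
          unfold p0
          rw [if_neg (by tauto), if_pos hA]
        obtain ⟨o1, o2, o3, o4, o5, o6⟩ := oth_facts D.mat D.nofix hpA hD hA
        refine ⟨_, hA, ?_, ?_⟩
        · rw [hpp, hp0]
          intro v hv
          simp only [List.mem_cons, List.not_mem_nil, or_false] at hv
          rcases hv with rfl | rfl | rfl
          · right
            exact Or.inl ⟨[], [oth D.π (eps D.π D.μ p.1.1) p.1.1], by simp⟩
          · left; rfl
          · right
            exact Or.inr ⟨[p.1.1], [], by simp⟩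
        · rw [hpp, hp0]
          intro v hv
          simp only [List.mem_cons, List.not_mem_nil, or_false] at hv
          rcases hv with rfl | rfl | rfl
          · right
            rcases e3 with h | h
            · right
              rw [h]
              simp
            · left
              rw [h]
              simp
          · left; rfl
          · right
            exact o6
      · right
        have hE : s(p.1.1, eps D.π D.μ p.1.1) ∈ D.E := by
          by_contra hcon
          have h9 : ¬ (eps D.π D.μ p.1.1 ∈ D.A ∨ s(p.1.1, eps D.π D.μ p.1.1) ∈ D.E) := by tauto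
          rw [if_neg h9] at hk
          exact absurd hk (by simp)
        have hp0 : p0 D.π D.A D.μ p.1.1 = [p.1.1, eps D.π D.μ p.1.1] := by
          unfold p0
          rw [if_neg (by tauto), if_neg hA]
        refine ⟨_, hE, ?_⟩
        rw [hpp, hp0]
        intro v hv
        simp only [List.mem_cons, List.not_mem_nil, or_false] at hv
        rcases hv with rfl | rfl
        · exact Or.inl (Sym2.mem_mk_left _ _)
        · exact Or.inl (Sym2.mem_mk_right _ _)

theorem pp_μ {p : Port D.π} (hp : D.Opn p) (hk : D.kdp p ≠ Kind.b) {v : V} (hv : v ∈ D.pp p) :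
    D.μ v ≠ v ∧ D.μ v ∉ D.pp p ∧ (D.μ v = D.π v ∨ D.μ v = D.π.symm v) ∧ (IsD D.π v ↔ D.kdp p = Kind.d) := by
  have hJ : ¬ D.JB (D.mt p) := by
    intro h
    apply hk
    unfold kdp
    rw [if_pos h]
  have hpA := hp.1
  have hpp : D.pp p = p0 D.π D.A D.μ p.1.1 := by
    unfold pp
    rw [if_neg hJ]
  have hfix : ∀ u, u ∉ D.A → D.μ u ≠ u := fun u hu h => hu ((D.mat.fix u).1 h)
  by_cases hD : IsD D.π p.1.1
  · have hkd : D.kdp p = Kind.d := by
      unfold kdp
      rw [if_neg hJ, if_pos hD]
    have hp0 : p0 D.π D.A D.μ p.1.1 = [p.1.1] := by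
      unfold p0
      rw [if_pos (Or.inl hD)]
    rw [hpp, hp0, List.mem_singleton] at hv
    rw [hpp, hp0, hv, hkd]
    refine ⟨hfix _ hpA, ?_, D.mat.mem _ hpA, by tauto⟩
    rw [List.mem_singleton]
    exact hfix _ hpA
  · have hn : ¬ (eps D.π D.μ p.1.1 ∈ D.A ∨ s(p.1.1, eps D.π D.μ p.1.1) ∈ D.E) := by
      intro h
      apply hk
      unfold kdp
      rw [if_neg hJ, if_neg hD, if_pos h]
    have hkd : D.kdp p = Kind.c := by
      unfold kdp
      rw [if_neg hJ, if_neg hD, if_neg hn]
    have hA : eps D.π D.μ p.1.1 ∉ D.A := fun h => hn (Or.inl h)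
    have hp0 : p0 D.π D.A D.μ p.1.1 = [p.1.1, eps D.π D.μ p.1.1] := by
      unfold p0
      rw [if_neg (by tauto), if_neg hA]
    obtain ⟨e1, e2, e3, e4, e5⟩ := eps_facts D.mat D.nofix hpA hD
    obtain ⟨d1, d2, d3, d4, d5⟩ := eps_facts D.mat D.nofix hA e4
    rw [hpp, hp0, hkd]
    rw [hpp, hp0] at hv
    simp only [List.mem_cons, List.not_mem_nil, or_false] at hv ⊢
    rcases hv with rfl | rfl
    · refine ⟨hfix _ hpA, ?_, D.mat.mem _ hpA, ?_⟩
      · rintro (h | h)
        · exact hfix _ hpA h
        · exact e2 h.symm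
      · constructor
        · intro h; exact absurd h hD
        · intro h; exact absurd h (by simp)
    · refine ⟨hfix _ hA, ?_, D.mat.mem _ hA, ?_⟩
      · rintro (h | h)
        · rw [e5 hA] at d2
          exact d2 h.symm
        · exact hfix _ hA h
      · constructor
        · intro h; exact absurd h e4
        · intro h; exact absurd h (by simp)

end Dat

end Pool.Agent.H38H.IN
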