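import Pool.Agent.Lib.H38H.IN.P6

set_option autoImplicit false

namespace Pool.Agent.H38H.IN

open Classical

namespace Dat
variable {V : Type} [Fintype V] (D : Dat V)

/-! Chunk INP7 (M): the graph of a matching of the ports. gr_ports: the neighbours of `v` in `Gr π R` are among `π v`, `π⁻¹ v` and the vertices `vert (R p)`, `p` a port of `v`. In a 2-cycle: `π v`, `vert (R (v,false))`, `vert (R (v,true))`; otherwise `π v`, `π⁻¹ v`,
`vert (R (v,false))`. As there are exactly 3 neighbours these are pairwise different and different from `v`. gr_chain: pp_cns, `Contains`: `R a = b`. gr_nb_pth: the neighbour `w` of `v = vert p` on its path is a π-neighbour (gr_ports), or `s(a,b) ∈ ξ`, `vert a = v`, `R a = b`,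
`a ≠ p` since `p` is open and `a` is InX: `vert (R a) ≠ vert (R p)`. gr_μ: `μ v = π v` or `π⁻¹ v`, or `μ v = v` (v ∈ A), all different from `vert (R p)`. -/

omit [Fintype V] in
private theorem inp7_three [Finite V] {S : Set V} (hS : S.ncard = 3) {a b c : V} (h : ∀ x ∈ S, x = a ∨ x = b ∨ x = c) :
    a ≠ b ∧ a ≠ c ∧ b ≠ c ∧ a ∈ S ∧ b ∈ S ∧ c ∈ S := by
  have h1 : S ⊆ (({a, b, c} : Finset V) : Set V) := by
    intro x hx
    simpa using h x hx
  have h2 : (({a, b, c} : Finset V) : Set V).ncard ≤ S.ncard := by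
    rw [hS, Set.ncard_coe_finset]
    exact Finset.card_le_three
  have h3 : S = (({a, b, c} : Finset V) : Set V) := Set.eq_of_subset_of_ncard_le h1 h2 (Set.toFinite _)
  have h4 : ({a, b, c} : Finset V).card = 3 := by
    rw [← Set.ncard_coe_finset, ← h3, hS]
  have h5 : ∀ x, x ∈ S ↔ x = a ∨ x = b ∨ x = c := by
    intro x
    rw [h3]
    simp
  refine ⟨?_, ?_, ?_, (h5 a).mpr (by simp), (h5 b).mpr (by simp), (h5 c).mpr (by simp)⟩
  · rintro rfl
    have h6 : ({a, a, c} : Finset V) = {a, c} := by simp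
    rw [h6] at h4
    have := Finset.card_le_two (a := a) (b := c)
    omega
  · rintro rfl
    have h6 : ({a, b, a} : Finset V) = {a, b} := by
      ext x
      simp only [Finset.mem_insert, Finset.mem_singleton]
      tauto
    rw [h6] at h4
    have := Finset.card_le_two (a := a) (b := b)
    omega
  · rintro rfl
    have h6 : ({a, b, b} : Finset V) = {a, b} := by simp
    rw [h6] at h4
    have := Finset.card_le_two (a := a) (b := b)
    omega

theorem gr_π (R : PM (Port D.π)) (v : V) : (Gr D.π R).Adj v (D.π v) :=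
  ⟨(D.nofix v).symm, Or.inl rfl⟩

theorem gr_ports (R : PM (Port D.π)) (hc : Cubic (Gr D.π R)) (p : Port D.π) :
    (Gr D.π R).Adj p.1.1 (R.1 p).1.1 ∧ (R.1 p).1.1 ≠ D.π p.1.1 ∧ (R.1 p).1.1 ≠ D.π.symm p.1.1 ∧
      ∀ q : Port D.π, q.1.1 = p.1.1 → q ≠ p → (R.1 q).1.1 ≠ (R.1 p).1.1 := by
  have h3 := hc p.1.1
  have hN : ∀ x ∈ (Gr D.π R).neighborSet p.1.1, x = D.π p.1.1 ∨ x = D.π.symm p.1.1 ∨
      ∃ q : Port D.π, q.1.1 = p.1.1 ∧ (R.1 q).1.1 = x := by
    intro x hx
    obtain ⟨-, h | h | h⟩ := hx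
    · exact Or.inl h.symm
    · right; left
      rw [← h, Equiv.symm_apply_apply]
    · exact Or.inr (Or.inr h)
  by_cases hd : IsD D.π p.1.1
  · have hsymm : D.π.symm p.1.1 = D.π p.1.1 := by
      unfold IsD at hd
      rw [Equiv.symm_apply_eq]
      exact hd.symm
    let o : Port D.π := ⟨(p.1.1, !p.1.2), fun _ => hd⟩
    have ho : o.1.1 = p.1.1 := rfl
    have hq : ∀ q : Port D.π, q.1.1 = p.1.1 → q = p ∨ q = o := by
      intro q hq
      by_cases h : q.1.2 = p.1.2
      · left
        exact Subtype.ext (Prod.ext hq h)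
      · right
        refine Subtype.ext (Prod.ext hq ?_)
        change q.1.2 = !p.1.2
        cases hq2 : q.1.2 <;> cases hp2 : p.1.2 <;> simp_all
    have hT := inp7_three h3 (a := D.π p.1.1) (b := (R.1 p).1.1) (c := (R.1 o).1.1) (by
      intro x hx
      rcases hN x hx with h | h | ⟨q, h, h'⟩
      · exact Or.inl h
      · exact Or.inl (h.trans hsymm)
      · rcases hq q h with rfl | rfl
        · exact Or.inr (Or.inl h'.symm)
        · exact Or.inr (Or.inr h'.symm))
    obtain ⟨t1, t2, t3, t4, t5, t6⟩ := hT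
    refine ⟨t5, t1.symm, by rw [hsymm]; exact t1.symm, ?_⟩
    intro q h1 h2
    rcases hq q h1 with rfl | rfl
    · exact absurd rfl h2
    · exact t3.symm
  · have hq : ∀ q : Port D.π, q.1.1 = p.1.1 → q = p := by
      intro q hq
      have h1 : ∀ r : Port D.π, r.1.1 = p.1.1 → r.1.2 = false := by
        intro r hr
        by_contra h
        have h2 : r.1.2 = true := by simpa using h
        have := r.2 h2
        rw [hr] at this
        exact hd this
      exact Subtype.ext (Prod.ext hq ((h1 q hq).trans (h1 p rfl).symm))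
    have hT := inp7_three h3 (a := D.π p.1.1) (b := D.π.symm p.1.1) (c := (R.1 p).1.1) (by
      intro x hx
      rcases hN x hx with h | h | ⟨q, h, h'⟩
      · exact Or.inl h
      · exact Or.inr (Or.inl h)
      · have := hq q h
        subst this
        exact Or.inr (Or.inr h'.symm))
    obtain ⟨t1, t2, t3, t4, t5, t6⟩ := hT
    refine ⟨t6, t2.symm, t3.symm, ?_⟩
    intro q h1 h2
    exact absurd (hq q h1) h2

theorem gr_chain (R : PM (Port D.π)) (hR : Contains R D.ξ) {p : Port D.π} (hp : D.Opn p) {u w : V}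
    (hc : Cubic (Gr D.π R)) (h : Cns (D.pp p) u w) : (Gr D.π R).Adj u w := by
  rcases D.pp_cns hp h with h | h | ⟨a, b, h1, h2, h3⟩
  · rw [h]
    exact D.gr_π R u
  · rw [h]
    exact (D.gr_π R w).symm
  · have h4 := (D.gr_ports R hc a).1
    rw [hR a b h1, h2, h3] at h4
    exact h4

theorem gr_nb_pth (R : PM (Port D.π)) (hR : Contains R D.ξ) (hc : Cubic (Gr D.π R)) {p : Port D.π}
    (hp : D.Opn p) {w : V} (h : Cns (D.pp p) p.1.1 w) : (R.1 p).1.1 ≠ w := by
  obtain ⟨-, g1, g2, g3⟩ := D.gr_ports R hc p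
  rcases D.pp_cns hp h with h | h | ⟨a, b, h1, h2, h3⟩
  · rw [h]
    exact g1
  · have : w = D.π.symm p.1.1 := by rw [h, Equiv.symm_apply_apply]
    rw [this]
    exact g2
  · have h4 : a ≠ p := by
      rintro rfl
      exact hp.2 (Or.inl ⟨b, h1⟩)
    have h5 := g3 a h2 h4
    rw [hR a b h1, h3] at h5
    exact h5.symm

theorem gr_μ (R : PM (Port D.π)) (hc : Cubic (Gr D.π R)) (p : Port D.π) : (R.1 p).1.1 ≠ D.μ p.1.1 := by
  obtain ⟨g0, g1, g2, g3⟩ := D.gr_ports R hc p
  by_cases hA : p.1.1 ∈ D.A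
  · rw [(D.mat.fix _).mpr hA]
    exact g0.ne'
  · rcases D.mat.mem _ hA with h | h
    · rw [h]; exact g1
    · rw [h]; exact g2

/-- a port is matched to an open or a dead port, if it is not InX -/
theorem match_cases (R : PM (Port D.π)) (hR : Contains R D.ξ) {p : Port D.π} (hp : ¬ InX D.ξ p) :
    D.Opn (R.1 p) ∨ D.Dead (R.1 p) := by
  by_cases hA : (R.1 p).1.1 ∈ D.A
  · exact Or.inr (Or.inl hA)
  · by_cases hM : D.InM (R.1 p)
    · exact Or.inr (Or.inr hM)
    · left
      refine ⟨hA, ?_⟩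
      rintro (⟨q, hq⟩ | h)
      · have h1 := hR _ _ hq
        rw [R.2.1 p] at h1
        subst h1
        exact hp ⟨R.1 p, by rw [Sym2.eq_swap]; exact hq⟩
      · exact hM h

private theorem inp7_dead {p : Port D.π} (hp : D.Dead p) : p.1.2 = false := by
  rcases hp with h | h
  · by_contra h1
    have h2 : p.1.2 = true := by simpa using h1
    exact D.mat.nd _ h (p.2 h2)
  · exact h.1

/-- dead ports with the same vertex are equal, and not open -/
theorem dead_vert {p q : Port D.π} (hp : D.Dead p) (hq : D.Dead q) (h : p.1.1 = q.1.1) : p = q :=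
  Subtype.ext (Prod.ext h ((D.inp7_dead hp).trans (D.inp7_dead hq).symm))

end Dat

end Pool.Agent.H38H.IN
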