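import Pool.Agent.Lib.H38H.PR2

set_option autoImplicit false

namespace Pool.Agent.H38H.IN

open Classical

/-! Chunk INT5 (S/M, pure): conjugation and averaging. `conjPM σ R = σ R σ⁻¹`. avg_count: for every `g` the map `R ↦ conjPM (act g) R` is a bijection of the set `Z` of matchings
containing `ξ` (if `act g` fixes all points of the pairs in `ξ`; the inverse is conjugation by the inverse), so
`#{R ∈ Z | bad R} * |Γ| = #{(g,R) | bad (g R)} = ∑_R #{g | bad (g R)}`. By h1 the sum over the `R` not in Bad2, times K, is at most `|Z| |Γ|`,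
by h2 the sum over the others (`#{g | ...} ≤ |Γ|`), times B, is at most `|Z| |Γ|`. Cancel `|Γ| > 0`. -/

/-- conjugation of a perfect matching by a permutation -/
def conjPM {P : Type} (σ : Equiv.Perm P) (R : PM P) : PM P :=
  ⟨σ.symm.trans (R.1.trans σ), by
    refine ⟨fun x => ?_, fun x h => ?_⟩
    · simp only [Equiv.trans_apply, Equiv.symm_apply_apply, R.2.1, Equiv.apply_symm_apply]
    · simp only [Equiv.trans_apply] at h
      apply R.2.2 (σ.symm x)
      have h1 := congrArg σ.symm h
      rwa [Equiv.symm_apply_apply] at h1⟩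

theorem conjPM_apply {P : Type} (σ : Equiv.Perm P) (R : PM P) (x : P) :
    (conjPM σ R).1 x = σ (R.1 (σ.symm x)) := rfl

theorem int5_conj {P : Type} (σ : Equiv.Perm P) (R : PM P) : conjPM σ.symm (conjPM σ R) = R := by
  apply Subtype.ext
  apply Equiv.ext
  intro x
  change (conjPM σ.symm (conjPM σ R)).1 x = R.1 x
  rw [conjPM_apply, conjPM_apply, Equiv.symm_symm, Equiv.symm_apply_apply, Equiv.symm_apply_apply]

theorem int5_cont {P : Type} {σ : Equiv.Perm P} {ξ : Finset (Sym2 P)} (hfix : ∀ f ∈ ξ, ∀ x ∈ f, σ x = x)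
    {R : PM P} (h : Contains R ξ) : Contains (conjPM σ R) ξ := by
  intro p q hpq
  have h1 : σ p = p := hfix _ hpq p (Sym2.mem_mk_left p q)
  have h2 : σ q = q := hfix _ hpq q (Sym2.mem_mk_right p q)
  have h3 : σ.symm p = p := by rw [Equiv.symm_apply_eq]; exact h1.symm
  rw [conjPM_apply, h3, h p q hpq, h2]

theorem avg_count {P Γ : Type} [Finite P] [Finite Γ] [Nonempty Γ] (act : Γ → Equiv.Perm P) (ξ : Finset (Sym2 P))
    (hfix : ∀ g, ∀ f ∈ ξ, ∀ x ∈ f, act g x = x) (bad Bad2 : PM P → Prop) (B K : ℕ)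
    (h1 : ∀ R : PM P, Contains R ξ → ¬ Bad2 R →
      K * Nat.card {g : Γ // bad (conjPM (act g) R)} ≤ Nat.card Γ)
    (h2 : B * Nat.card {R : PM P // Contains R ξ ∧ Bad2 R} ≤ Nat.card {R : PM P // Contains R ξ}) :
    B * K * Nat.card {R : PM P // Contains R ξ ∧ bad R} ≤ (B + K) * Nat.card {R : PM P // Contains R ξ} := by
  have hfin : Finite (PM P) := by
    unfold PM
    infer_instance
  have hf1 : Fintype (PM P) := Fintype.ofFinite _
  have hf2 : Fintype Γ := Fintype.ofFinite _
  set Z : Finset (PM P) := Finset.univ.filter (fun R => Contains R ξ) with hZ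
  have hmZ : ∀ R, R ∈ Z ↔ Contains R ξ := fun R => by simp [hZ]
  have e0 : Nat.card {R : PM P // Contains R ξ} = Z.card := by
    rw [Nat.card_eq_fintype_card, Fintype.card_subtype]
  have e1 : ∀ q : PM P → Prop, Nat.card {R : PM P // Contains R ξ ∧ q R} = (Z.filter q).card := by
    intro q
    rw [Nat.card_eq_fintype_card, Fintype.card_subtype, hZ, Finset.filter_filter]
  have e2 : ∀ R, Nat.card {g : Γ // bad (conjPM (act g) R)} =
      (Finset.univ.filter (fun g : Γ => bad (conjPM (act g) R))).card := by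
    intro R
    rw [Nat.card_eq_fintype_card, Fintype.card_subtype]
  have eG : Nat.card Γ = Fintype.card Γ := Nat.card_eq_fintype_card
  rw [e0, e1] at h2
  rw [e0, e1]
  have hG : 0 < Fintype.card Γ := Fintype.card_pos
  -- invariance
  have hinv : ∀ g : Γ, (Z.filter (fun R => bad (conjPM (act g) R))).card = (Z.filter bad).card := by
    intro g
    have hsym : ∀ f ∈ ξ, ∀ x ∈ f, (act g).symm x = x := by
      intro f hf x hx
      rw [Equiv.symm_apply_eq]
      exact (hfix g f hf x hx).symm
    refine Finset.card_bij' (fun R _ => conjPM (act g) R) (fun R _ => conjPM (act g).symm R) ?_ ?_ ?_ ?_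
    · intro R hR
      rw [Finset.mem_filter, hmZ] at hR ⊢
      exact ⟨int5_cont (hfix g) hR.1, hR.2⟩
    · intro R hR
      rw [Finset.mem_filter, hmZ] at hR ⊢
      refine ⟨int5_cont hsym hR.1, ?_⟩
      have h3 := int5_conj (act g).symm R
      rw [Equiv.symm_symm] at h3
      rw [h3]
      exact hR.2
    · intro R _
      exact int5_conj (act g) R
    · intro R _
      have h3 := int5_conj (act g).symm R
      rw [Equiv.symm_symm] at h3
      exact h3
  set nn : PM P → ℕ := fun R => (Finset.univ.filter (fun g : Γ => bad (conjPM (act g) R))).card with hnn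
  have hswap : Fintype.card Γ * (Z.filter bad).card = ∑ R ∈ Z, nn R := by
    have h3 : ∑ g : Γ, (Z.filter (fun R => bad (conjPM (act g) R))).card =
        Fintype.card Γ * (Z.filter bad).card := by
      rw [Finset.sum_congr rfl (fun g _ => hinv g), Finset.sum_const, Finset.card_univ, smul_eq_mul]
    rw [← h3]
    simp only [hnn, Finset.card_filter]
    exact Finset.sum_comm
  have hsplit : ∑ R ∈ Z, nn R = ∑ R ∈ Z.filter Bad2, nn R + ∑ R ∈ Z.filter (fun R => ¬ Bad2 R), nn R :=
    (Finset.sum_filter_add_sum_filter_not Z Bad2 nn).symm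
  have hA : K * ∑ R ∈ Z.filter (fun R => ¬ Bad2 R), nn R ≤ Z.card * Fintype.card Γ := by
    rw [Finset.mul_sum]
    calc ∑ R ∈ Z.filter (fun R => ¬ Bad2 R), K * nn R
        ≤ ∑ _R ∈ Z.filter (fun R => ¬ Bad2 R), Fintype.card Γ := by
          apply Finset.sum_le_sum
          intro R hR
          rw [Finset.mem_filter, hmZ] at hR
          have h3 := h1 R hR.1 hR.2
          rw [e2, eG] at h3
          exact h3
      _ = (Z.filter (fun R => ¬ Bad2 R)).card * Fintype.card Γ := by
          rw [Finset.sum_const, smul_eq_mul]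
      _ ≤ _ := Nat.mul_le_mul_right _ (Finset.card_filter_le _ _)
  have hB : B * ∑ R ∈ Z.filter Bad2, nn R ≤ Z.card * Fintype.card Γ := by
    have h3 : ∑ R ∈ Z.filter Bad2, nn R ≤ (Z.filter Bad2).card * Fintype.card Γ := by
      calc ∑ R ∈ Z.filter Bad2, nn R ≤ ∑ _R ∈ Z.filter Bad2, Fintype.card Γ := by
            apply Finset.sum_le_sum
            intro R _
            exact Finset.card_filter_le _ _
        _ = _ := by rw [Finset.sum_const, smul_eq_mul]
    calc B * ∑ R ∈ Z.filter Bad2, nn R ≤ B * ((Z.filter Bad2).card * Fintype.card Γ) :=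
          Nat.mul_le_mul_left _ h3
      _ = B * (Z.filter Bad2).card * Fintype.card Γ := by ring
      _ ≤ _ := Nat.mul_le_mul_right _ h2
  have hfinal : (B * K * (Z.filter bad).card) * Fintype.card Γ ≤ ((B + K) * Z.card) * Fintype.card Γ := by
    calc (B * K * (Z.filter bad).card) * Fintype.card Γ
        = B * K * (Fintype.card Γ * (Z.filter bad).card) := by ring
      _ = K * (B * ∑ R ∈ Z.filter Bad2, nn R) + B * (K * ∑ R ∈ Z.filter (fun R => ¬ Bad2 R), nn R) := by
          rw [hswap, hsplit]
          ring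
      _ ≤ K * (Z.card * Fintype.card Γ) + B * (Z.card * Fintype.card Γ) :=
          Nat.add_le_add (Nat.mul_le_mul_left _ hB) (Nat.mul_le_mul_left _ hA)
      _ = _ := by ring
  exact Nat.le_of_mul_le_mul_right hfinal hG

end Pool.Agent.H38H.IN
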