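import Pool.Agent.Lib.H38H.IN.Loc
import Pool.Agent.Lib.H38H.IN.T5

/-!
Project H38H, module IN (helper49): ports, links, and the data of section 5 of PROOF.md.
-/

set_option autoImplicit false

namespace Pool.Agent.H38H.IN

open Classical

/-- the cycle of `v` -/
noncomputable def orb {V : Type} [Fintype V] (π : Equiv.Perm V) (v : V) : Finset V :=
  Finset.univ.filter (fun u => π.SameCycle v u)

/-- `μ` pairs the vertices outside `A` by edges of `π`; no two elements of `A` are consecutive or in 2-cycles -/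
structure Mat {V : Type} (π : Equiv.Perm V) (A : Finset V) (μ : V → V) : Prop where
  inv : ∀ v, μ (μ v) = v
  fix : ∀ v, μ v = v ↔ v ∈ A
  mem : ∀ v, v ∉ A → μ v = π v ∨ μ v = π.symm v
  nd : ∀ a ∈ A, ¬ IsD π a
  nb : ∀ a ∈ A, π a ∉ A ∧ π.symm a ∉ A

section vert
variable {V : Type} (π : Equiv.Perm V) (A : Finset V) (μ : V → V)

/-- the other π-neighbour of a vertex (for vertices outside `A` and not in 2-cycles) -/
noncomputable def eps (v : V) : V := if μ v = π v then π.symm v else π v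

/-- the π-neighbour of `a` other than `v` -/
noncomputable def oth (a v : V) : V := if v = π a then π.symm a else π a

/-- the other end of the unmarked link that starts at `v` -/
noncomputable def mv (v : V) : V :=
  if IsD π v ∨ v ∈ A then v
  else if eps π μ v ∈ A then oth π (eps π μ v) v else eps π μ v

/-- the path of the unmarked link that starts at `v` -/
noncomputable def p0 (v : V) : List V :=
  if IsD π v ∨ v ∈ A then [v]
  else if eps π μ v ∈ A then [v, eps π μ v, oth π (eps π μ v) v] else [v, eps π μ v]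

/-- the port at the other end of the unmarked link -/
noncomputable def mate (p : Port π) : Port π :=
  if hD : IsD π p.1.1 then ⟨(p.1.1, !p.1.2), fun _ => hD⟩ else ⟨(mv π A μ p.1.1, false), by simp⟩

end vert

/-- `p` is a point of a pair of `ξ` -/
def InX {P : Type} (ξ : Finset (Sym2 P)) (p : P) : Prop := ∃ q, s(p, q) ∈ ξ

/-- everything that is fixed before the matching of the ports -/
structure Dat (V : Type) [Fintype V] where
  π : Equiv.Perm V
  A : Finset V
  μ : V → V
  E : Finset (Sym2 V)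
  ξ : Finset (Sym2 (Port π))
  A1 : Finset V
  tc : Finset (Finset V)
  nofix : ∀ v, π v ≠ v
  mat : Mat π A μ
  marks : Marks E
  marksX : Marks ξ
  real1 : ∀ e ∈ E, (∃ v, e = s(v, π v)) ∨ ∃ p q : Port π, s(p, q) ∈ ξ ∧ e = s(p.1.1, q.1.1)
  real2 : ∀ p q : Port π, s(p, q) ∈ ξ → s(p.1.1, q.1.1) ∈ E ∧ ∀ v, s(p.1.1, q.1.1) ≠ s(v, π v)
  dc1 : ∀ e ∈ E, ∀ f ∈ E, e ≠ f → ∀ u ∈ e, ∀ v ∈ f, v ≠ π u
  dc2 : ∀ a ∈ A, ∀ e ∈ E, a ∉ e ∧ π a ∉ e ∧ π.symm a ∉ e
  dc3 : ∀ p q : Port π, InX ξ p → InX ξ q → p.1.1 = q.1.1 → p = q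
  A1A : A1 ⊆ A
  tcA : ∀ a ∈ A, a ∈ A1 ∨ ∃ C ∈ tc, a ∈ C
  tcπ : ∀ C ∈ tc, ∀ v ∈ C, π v ∈ C ∧ ¬ IsD π v
  tcC : ∀ C ∈ tc, C.Nonempty ∧ ∀ U ⊆ C, U.Nonempty → (∀ v ∈ U, π v ∈ U) → U = C

namespace Dat
variable {V : Type} [Fintype V] (D : Dat V)

/-- mate of a port -/
noncomputable def mt (p : Port D.π) : Port D.π := mate D.π D.A D.μ p

/-- port 0 of a vertex of a mark which is a `μ`-edge -/
def InM (p : Port D.π) : Prop := p.1.2 = false ∧ D.μ p.1.1 ≠ p.1.1 ∧ s(p.1.1, D.μ p.1.1) ∈ D.E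

/-- ports at which two unmarked links are joined by a mark -/
def JB (p : Port D.π) : Prop := InX D.ξ p ∨ D.InM p

/-- the port on the other side of the mark -/
noncomputable def sg (p : Port D.π) : Port D.π :=
  if h : InX D.ξ p then h.choose else ⟨(D.μ p.1.1, false), by simp⟩

/-- open ports -/
def Opn (p : Port D.π) : Prop := p.1.1 ∉ D.A ∧ ¬ D.JB p

/-- dead ports -/
def Dead (p : Port D.π) : Prop := p.1.1 ∈ D.A ∨ D.InM p

/-- the other open port of the link -/
noncomputable def tau (p : Port D.π) : Port D.π :=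
  if D.JB (D.mt p) then D.mt (D.sg (D.mt p)) else D.mt p

/-- kind of the link of an open port -/
noncomputable def kdp (p : Port D.π) : Kind :=
  if D.JB (D.mt p) then Kind.b
  else if IsD D.π p.1.1 then Kind.d
  else if eps D.π D.μ p.1.1 ∈ D.A ∨ s(p.1.1, eps D.π D.μ p.1.1) ∈ D.E then Kind.b
  else Kind.c

/-- path of the link of an open port, starting at its vertex -/
noncomputable def pp (p : Port D.π) : List V :=
  if D.JB (D.mt p) then p0 D.π D.A D.μ p.1.1 ++ p0 D.π D.A D.μ (D.sg (D.mt p)).1.1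
  else p0 D.π D.A D.μ p.1.1

end Dat

end Pool.Agent.H38H.IN
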