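import Pool.Agent.Lib.H38H.IN.P6

set_option autoImplicit false

namespace Pool.Agent.H38H.IN

open Classical

namespace Dat
variable {V : Type} [Fintype V] (D : Dat V) {ι : Type} [Fintype ι] (e : ι × Bool ≃ {p : Port D.π // D.Opn p})

/-- kind of a link -/
noncomputable def kdI (a : ι) : Kind := D.kdp (e (a, false)).1

/-- vertex of a half -/
noncomputable def vtI (x : ι × Bool) : V := (e x).1.1.1

/-- partner of a half of kind c -/
noncomputable def McI (x : ι × Bool) : Option (ι × Bool) :=
  if h : ∃ y : ι × Bool, D.kdI e x.1 = Kind.c ∧ D.kdI e y.1 = Kind.c ∧ D.vtI e y = D.μ (D.vtI e x)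
  then some h.choose else none

/-- partner of a link of kind d -/
noncomputable def MdI (a : ι) : Option ι :=
  if h : ∃ b : ι, D.kdI e a = Kind.d ∧ D.kdI e b = Kind.d ∧ D.vtI e (b, false) = D.μ (D.vtI e (a, false))
  then some h.choose else none

/-- position matched to a position -/
noncomputable def outI (R : PM (Port D.π)) (x : ι × Bool) : Option (ι × Bool) :=
  if h : D.Opn (R.1 (e x).1) then some (e.symm ⟨_, h⟩) else none

/-- the permutation of the positions given by a signed bijection -/
def apE (g : SB ι) : Equiv.Perm (ι × Bool) where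
  toFun := ap g
  invFun := pa g
  left_inv x := by
    obtain ⟨p, i⟩ := x
    cases i <;> cases hh : g.2 p <;> simp [ap, pa, hh]
  right_inv y := by
    obtain ⟨a, i⟩ := y
    cases i <;> cases hh : g.2 (g.1.symm a) <;> simp [ap, pa, hh]

/-- the permutation of the ports given by a signed bijection -/
noncomputable def act (g : SB ι) : Equiv.Perm (Port D.π) := (apE g).extendDomain e

theorem act_open (g : SB ι) (x : ι × Bool) : D.act e g (e x).1 = (e (ap g x)).1 :=
  Equiv.Perm.extendDomain_apply_image (apE g) e x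

theorem act_not (g : SB ι) {p : Port D.π} (hp : ¬ D.Opn p) : D.act e g p = p :=
  Equiv.Perm.extendDomain_apply_not_subtype (apE g) e hp

/-! Chunk INQ1 (M): facts used for the instance. `he` says that `flip` corresponds to `tau`. kdI_flip: kdp_tau. vt_inj: `vtI e x = vtI e y =: v`: `v` is on the paths of both ports (pp_head), so by pp_uniq `e y ∈ {e x, tau (e x)}`, i.e. `y = x` or `y = flip x`; if the kind is not d then `vtI e (flip x)` is the last element of
`pp (e x)` (pp_last), different from the head as the list has length at least 2 and no repetitions. Mc_iff', Md_iff': choose and vt_inj. partner: `μ v` is on the path of an open port (pp_cover) `e z`; if its kind is not b then by pp_μ (2-cycles: `IsD (μ v) ↔ IsD v`, isD_apply, isD_symm) it has the kind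
of `x`; `μ v ∈ pp (e z)`, of length 1 or 2, so `μ v` is the vertex of `z` or `flip z`. -/

theorem kdI_port (he : ∀ x, (e (flip x)).1 = D.tau (e x).1) (x : ι × Bool) :
    D.kdp (e x).1 = D.kdI e x.1 := by
  obtain ⟨a, b⟩ := x
  cases b with
  | false => rfl
  | true =>
    have h1 := he (a, false)
    have h2 : flip ((a, false) : ι × Bool) = (a, true) := rfl
    rw [h2] at h1
    rw [h1, D.kdp_tau (e (a, false)).2]
    rfl

theorem inq1_head (x : ι × Bool) : (D.pp (e x).1).head? = some (D.vtI e x) := D.pp_head (e x).2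

theorem inq1_last (he : ∀ x, (e (flip x)).1 = D.tau (e x).1) (x : ι × Bool) :
    (D.pp (e x).1).getLast? = some (D.vtI e (flip x)) := by
  rw [D.pp_last (e x).2, ← he x]
  rfl

theorem inq1_mem (x : ι × Bool) : D.vtI e x ∈ D.pp (e x).1 := List.mem_of_mem_head? (D.inq1_head e x)

theorem inq1_mem' (he : ∀ x, (e (flip x)).1 = D.tau (e x).1) (x : ι × Bool) :
    D.vtI e (flip x) ∈ D.pp (e x).1 := List.mem_of_getLast? (D.inq1_last e he x)

theorem vt_inj (he : ∀ x, (e (flip x)).1 = D.tau (e x).1) {x y : ι × Bool}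
    (h : D.vtI e x = D.vtI e y) : y = x ∨ (y = flip x ∧ D.kdI e x.1 = Kind.d) := by
  have h1 := D.inq1_mem e x
  have h2 := D.inq1_mem e y
  rw [← h] at h2
  rcases D.pp_uniq (e x).2 (e y).2 h1 h2 with h3 | h3
  · exact Or.inl (e.injective (Subtype.ext h3))
  · right
    rw [← he x] at h3
    have h4 : y = flip x := e.injective (Subtype.ext h3)
    refine ⟨h4, ?_⟩
    by_contra hk
    have hk' : D.kdp (e x).1 ≠ Kind.d := by
      rw [D.kdI_port e he]
      exact hk
    obtain ⟨l1, l2, l3⟩ := D.pp_len (e x).2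
    have hlen : 2 ≤ (D.pp (e x).1).length := by
      cases hkk : D.kdp (e x).1 with
      | b => exact (l3 hkk).1
      | c =>
        rw [l1 hkk]
      | d => exact absurd hkk hk'
    have hn := D.pp_nodup (e x).2
    have hh := D.inq1_head e x
    have hl := D.inq1_last e he x
    rw [← h4, ← h] at hl
    generalize D.pp (e x).1 = l at *
    match l with
    | [] => simp at hlen
    | [a] => simp at hlen
    | a :: b :: l' =>
      rw [List.head?_cons, Option.some_inj] at hh
      rw [List.getLast?_cons_cons] at hl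
      have h5 := List.mem_of_getLast? hl
      rw [← hh] at h5
      exact (List.nodup_cons.1 hn).1 h5

theorem vt_d (he : ∀ x, (e (flip x)).1 = D.tau (e x).1) {x : ι × Bool} (h : D.kdI e x.1 = Kind.d) :
    D.vtI e (flip x) = D.vtI e x := by
  rw [← D.kdI_port e he] at h
  have hlen := (D.pp_len (e x).2).2.1 h
  obtain ⟨w, hw⟩ := List.length_eq_one_iff.1 hlen
  have hh := D.inq1_head e x
  have hl := D.inq1_last e he x
  rw [hw] at hh hl
  rw [List.head?_cons, Option.some_inj] at hh
  rw [List.getLast?_singleton, Option.some_inj] at hl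
  rw [← hh, ← hl]

theorem Mc_iff' (he : ∀ x, (e (flip x)).1 = D.tau (e x).1) (x y : ι × Bool) :
    D.McI e x = some y ↔ D.kdI e x.1 = Kind.c ∧ D.kdI e y.1 = Kind.c ∧ D.vtI e y = D.μ (D.vtI e x) := by
  unfold McI
  constructor
  · intro h
    split_ifs at h with h1
    · rw [← Option.some.inj h]
      exact h1.choose_spec
  · intro h
    have h1 : ∃ y : ι × Bool, D.kdI e x.1 = Kind.c ∧ D.kdI e y.1 = Kind.c ∧ D.vtI e y = D.μ (D.vtI e x) :=
      ⟨y, h⟩
    rw [dif_pos h1]
    obtain ⟨-, k2, k3⟩ := h1.choose_spec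
    rcases D.vt_inj e he (k3.trans h.2.2.symm) with h4 | ⟨-, h4⟩
    · rw [h4]
    · rw [k2] at h4
      exact absurd h4 (by intro h; cases h)

theorem Md_iff' (he : ∀ x, (e (flip x)).1 = D.tau (e x).1) (a b : ι) :
    D.MdI e a = some b ↔ D.kdI e a = Kind.d ∧ D.kdI e b = Kind.d ∧
      D.vtI e (b, false) = D.μ (D.vtI e (a, false)) := by
  unfold MdI
  constructor
  · intro h
    split_ifs at h with h1
    · rw [← Option.some.inj h]
      exact h1.choose_spec
  · intro h
    have h1 : ∃ b : ι, D.kdI e a = Kind.d ∧ D.kdI e b = Kind.d ∧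
      D.vtI e (b, false) = D.μ (D.vtI e (a, false)) := ⟨b, h⟩
    rw [dif_pos h1]
    obtain ⟨-, -, k3⟩ := h1.choose_spec
    rcases D.vt_inj e he (k3.trans h.2.2.symm) with h4 | ⟨h4, -⟩
    · exact congrArg some (congrArg Prod.fst h4).symm
    · exact congrArg some (congrArg Prod.fst h4).symm

theorem partner (he : ∀ x, (e (flip x)).1 = D.tau (e x).1) (x : ι × Bool)
    (hk : D.kdI e x.1 ≠ Kind.b) : (∃ y : ι × Bool, D.kdI e y.1 = Kind.b ∧ D.μ (D.vtI e x) ∈ D.pp (e y).1) ∨
      ∃ y : ι × Bool, D.kdI e y.1 = D.kdI e x.1 ∧ D.vtI e y = D.μ (D.vtI e x) := by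
  obtain ⟨p, hp, hw⟩ := D.pp_cover (D.μ (D.vtI e x))
  obtain ⟨z, hz⟩ := e.surjective ⟨p, hp⟩
  have hpz : p = (e z).1 := by rw [hz]
  rw [hpz] at hw
  by_cases hb : D.kdI e z.1 = Kind.b
  · exact Or.inl ⟨z, hb, hw⟩
  · right
    have hkx : D.kdp (e x).1 ≠ Kind.b := by
      rw [D.kdI_port e he]
      exact hk
    have hkz : D.kdp (e z).1 ≠ Kind.b := by
      rw [D.kdI_port e he]
      exact hb
    obtain ⟨-, -, hπ, hx⟩ := D.pp_μ (e x).2 hkx (D.inq1_mem e x)
    obtain ⟨-, -, -, hz'⟩ := D.pp_μ (e z).2 hkz hw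
    rw [D.kdI_port e he] at hx hz'
    have hD : IsD D.π (D.μ (D.vtI e x)) ↔ IsD D.π (D.vtI e x) := by
      rcases hπ with h | h
      · rw [h]
        exact isD_apply _
      · rw [h]
        exact isD_symm _
    have hkk : D.kdI e z.1 = D.kdI e x.1 := by
      have h1 : D.kdI e z.1 = Kind.d ↔ D.kdI e x.1 = Kind.d := by
        rw [← hx, ← hz', hD]
      cases hcx : D.kdI e x.1 with
      | b => exact absurd hcx hk
      | d => exact h1.2 hcx
      | c =>
        cases hcz : D.kdI e z.1 with
        | b => exact absurd hcz hb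
        | c => rfl
        | d =>
          have h2 := h1.1 hcz
          rw [hcx] at h2
          exact absurd h2 (by intro h; cases h)
    have hlen : (D.pp (e z).1).length = 1 ∨ (D.pp (e z).1).length = 2 := by
      obtain ⟨l1, l2, l3⟩ := D.pp_len (e z).2
      cases hkk : D.kdp (e z).1 with
      | b => exact absurd hkk hkz
      | c => exact Or.inr (l1 hkk)
      | d => exact Or.inl (l2 hkk)
    have hh := D.inq1_head e z
    have hl := D.inq1_last e he z
    generalize D.pp (e z).1 = l at *
    rcases hlen with hlen | hlen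
    · obtain ⟨w, rfl⟩ := List.length_eq_one_iff.1 hlen
      rw [List.head?_cons, Option.some_inj] at hh
      rw [List.mem_singleton] at hw
      exact ⟨z, hkk, by rw [← hh, hw]⟩
    · obtain ⟨w, w', rfl⟩ := List.length_eq_two.1 hlen
      rw [List.head?_cons, Option.some_inj] at hh
      rw [List.getLast?_cons_cons, List.getLast?_singleton, Option.some_inj] at hl
      rw [List.mem_cons, List.mem_singleton] at hw
      rcases hw with hw | hw
      · exact ⟨z, hkk, by rw [← hh, hw]⟩
      · exact ⟨flip z, hkk, by rw [← hl, hw]⟩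

/-- the partner of a link is another link -/
theorem partner_ne (he : ∀ x, (e (flip x)).1 = D.tau (e x).1) {x y : ι × Bool}
    (hk : D.kdI e x.1 ≠ Kind.b) (h : D.vtI e y = D.μ (D.vtI e x)) : x.1 ≠ y.1 := by
  intro hxy
  have hkx : D.kdp (e x).1 ≠ Kind.b := by
    rw [D.kdI_port e he]
    exact hk
  obtain ⟨-, hn, -, -⟩ := D.pp_μ (e x).2 hkx (D.inq1_mem e x)
  rw [← h] at hn
  have h1 : y = x ∨ y = flip x := by
    obtain ⟨a, b⟩ := x
    obtain ⟨a', b'⟩ := y
    have h2 : a = a' := hxy
    subst h2
    cases b <;> cases b' <;> simp [flip]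
  rcases h1 with rfl | rfl
  · exact hn (D.inq1_mem e y)
  · exact hn (D.inq1_mem' e he x)

end Dat

end Pool.Agent.H38H.IN
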