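import Pool.Agent.Lib.H38H.IN.Q1
import Pool.Agent.Lib.H38H.IN.T4

set_option autoImplicit false

namespace Pool.Agent.H38H.IN

open Classical

namespace Dat
variable {V : Type} [Fintype V] (D : Dat V) {ι : Type} [Fintype ι] (e : ι × Bool ≃ {p : Port D.π // D.Opn p})

/-! Chunk INQ2 (M): special links. special_bd: let `B` be the set of links of kind b. By pp_core each contains an element of `A` or a mark (both endpoints or one of them: choose a vertex); the paths of different links are disjoint (pp_uniq), so `|B| ≤ |A| + |E|`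
(map a link to `a ∈ A`, or to the mark `e` with an endpoint on the path: two links with the same mark: by pp_mark the mark is consecutive on the path of one link; simpler: in the second case of pp_core a vertex of the path is in `e` or next to
`u ∈ e`, so some endpoint of `e` is on the path; each endpoint is on one path only, so at most 2 links per mark: this gives `|B| ≤ |A| + 2 |E|`, which is enough). The paths of the links in `B` have at most `4 |B|` vertices (pp_len). A special link `a` of kind c or d has a half `x` with `μ (vtI x)` on a path of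
kind b (partner: the second alternative would make McI resp. MdI (for MdI use vt_d to pass to the half false) defined); `a ↦ μ (vtI x)` is injective (μ is, and vt_inj). So at most `4 |B|` of them; total `5 |B| ≤ 5 (|A| + 2 |E|)`. -/

theorem inq2_cns {l : List V} {u w : V} (h : Cns l u w) : w ∈ l := by
  rcases h with h | h
  · exact h.subset (by simp)
  · exact h.subset (by simp)

theorem inq2_pp (he : ∀ x, (e (flip x)).1 = D.tau (e x).1) (y : ι × Bool) {v : V} (hv : v ∈ D.pp (e y).1) :
    v ∈ D.pp (e (y.1, false)).1 := by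
  obtain ⟨a, b⟩ := y
  cases b with
  | false => exact hv
  | true =>
    have h1 := he (a, false)
    have h2 : flip ((a, false) : ι × Bool) = (a, true) := rfl
    rw [h2] at h1
    rw [h1, D.pp_tau (e (a, false)).2, List.mem_reverse] at hv
    exact hv

theorem inq2_sym {P : Type} (s : Finset (Sym2 P)) :
    (s.biUnion (fun x => x.toFinset)).card ≤ 2 * s.card := by
  refine (Finset.card_biUnion_le_card_mul _ _ 2 (fun x _ => ?_)).trans ?_
  · rw [Sym2.card_toFinset]
    split_ifs <;> omega
  · rw [mul_comm]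

theorem inq2_len {p : Port D.π} (hp : D.Opn p) : (D.pp p).length ≤ 4 := by
  obtain ⟨h1, h2, h3⟩ := D.pp_len hp
  cases hk : D.kdp p with
  | b => exact (h3 hk).2
  | c =>
    rw [h1 hk]
    omega
  | d =>
    rw [h2 hk]
    omega

theorem inq2_B (he : ∀ x, (e (flip x)).1 = D.tau (e x).1) :
    (Finset.univ.filter (fun a : ι => D.kdI e a = Kind.b)).card ≤ D.A.card + 2 * D.E.card := by
  have hex : ∀ a : ι, ∃ w : V, D.kdI e a = Kind.b → w ∈ D.pp (e (a, false)).1 ∧
      w ∈ D.A ∪ D.E.biUnion (fun x => x.toFinset) := by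
    intro a
    by_cases hk : D.kdI e a = Kind.b
    · have hh := D.inq1_mem e (a, false)
      rcases D.pp_core (e (a, false)).2 hk with ⟨u, hu, h1, -⟩ | ⟨f, hf, h1⟩
      · refine ⟨u, fun _ => ⟨?_, Finset.mem_union_left _ hu⟩⟩
        rcases h1 _ hh with h2 | h2
        · rw [← h2]
          exact hh
        · exact inq2_cns h2
      · rcases h1 _ hh with h2 | ⟨u, hu, h2⟩
        · exact ⟨_, fun _ => ⟨hh, Finset.mem_union_right _ (Finset.mem_biUnion.2
            ⟨f, hf, by rw [Sym2.mem_toFinset]; exact h2⟩)⟩⟩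
        · exact ⟨u, fun _ => ⟨inq2_cns h2, Finset.mem_union_right _ (Finset.mem_biUnion.2
            ⟨f, hf, by rw [Sym2.mem_toFinset]; exact hu⟩)⟩⟩
    · exact ⟨(e (a, false)).1.1.1, fun h => absurd h hk⟩
  choose w hw using hex
  have h1 : (Finset.univ.filter (fun a : ι => D.kdI e a = Kind.b)).card ≤
      (D.A ∪ D.E.biUnion (fun x => x.toFinset)).card := by
    refine Finset.card_le_card_of_injOn w ?_ ?_
    · intro a ha
      exact Finset.mem_coe.2 (hw a (Finset.mem_filter.1 (Finset.mem_coe.1 ha)).2).2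
    · intro a ha a' ha' haa
      have h1 := (hw a (Finset.mem_filter.1 (Finset.mem_coe.1 ha)).2).1
      have h2 := (hw a' (Finset.mem_filter.1 (Finset.mem_coe.1 ha')).2).1
      rw [← haa] at h2
      rcases D.pp_uniq (e (a, false)).2 (e (a', false)).2 h1 h2 with h3 | h3
      · exact (congrArg Prod.fst (e.injective (Subtype.ext h3))).symm
      · rw [← he (a, false)] at h3
        exact (congrArg Prod.fst (e.injective (Subtype.ext h3))).symm
  refine h1.trans ((Finset.card_union_le _ _).trans ?_)
  exact Nat.add_le_add_left (inq2_sym D.E) _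

theorem special_bd (he : ∀ x, (e (flip x)).1 = D.tau (e x).1) :
    (Finset.univ.filter (fun a : ι => D.kdI e a = Kind.b ∨
      (D.kdI e a = Kind.c ∧ (D.McI e (a, false) = none ∨ D.McI e (a, true) = none)) ∨
      (D.kdI e a = Kind.d ∧ D.MdI e a = none))).card ≤ 5 * (D.A.card + 2 * D.E.card) := by
  obtain ⟨B, hB⟩ : ∃ B, B = Finset.univ.filter (fun a : ι => D.kdI e a = Kind.b) := ⟨_, rfl⟩
  obtain ⟨P, hP⟩ : ∃ P : Finset V, P = B.biUnion (fun a => (D.pp (e (a, false)).1).toFinset) := ⟨_, rfl⟩
  have hPc : P.card ≤ 4 * B.card := by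
    rw [hP]
    refine (Finset.card_biUnion_le_card_mul _ _ 4 (fun a _ => ?_)).trans (by rw [mul_comm])
    exact (List.toFinset_card_le _).trans (D.inq2_len (e (a, false)).2)
  have hPm : ∀ (y : ι × Bool) (v : V), D.kdI e y.1 = Kind.b → v ∈ D.pp (e y).1 → v ∈ P := by
    intro y v hk hv
    rw [hP, Finset.mem_biUnion]
    refine ⟨y.1, ?_, ?_⟩
    · rw [hB, Finset.mem_filter]
      exact ⟨Finset.mem_univ _, hk⟩
    · rw [List.mem_toFinset]
      exact D.inq2_pp e he y hv
  obtain ⟨S, hS⟩ : ∃ S, S = Finset.univ.filter (fun a : ι =>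
      (D.kdI e a = Kind.c ∧ (D.McI e (a, false) = none ∨ D.McI e (a, true) = none)) ∨
      (D.kdI e a = Kind.d ∧ D.MdI e a = none)) := ⟨_, rfl⟩
  have hmc : ∀ x : ι × Bool, D.kdI e x.1 = Kind.c → D.McI e x = none → D.μ (D.vtI e x) ∈ P := by
    intro x hk hn
    rcases D.partner e he x (by rw [hk]; intro h; cases h) with ⟨y, hy1, hy2⟩ | ⟨y, hy1, hy2⟩
    · exact hPm y _ hy1 hy2
    · have h1 := (D.Mc_iff' e he x y).2 ⟨hk, hy1.trans hk, hy2⟩
      rw [hn] at h1
      exact absurd h1 (by intro h; cases h)
  have hmd : ∀ a : ι, D.kdI e a = Kind.d → D.MdI e a = none → D.μ (D.vtI e (a, false)) ∈ P := by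
    intro a hk hn
    rcases D.partner e he (a, false) (by rw [hk]; intro h; cases h) with ⟨y, hy1, hy2⟩ | ⟨y, hy1, hy2⟩
    · exact hPm y _ hy1 hy2
    · have hyd : D.kdI e y.1 = Kind.d := hy1.trans hk
      have h0 : D.vtI e (y.1, false) = D.vtI e y := by
        obtain ⟨a', b⟩ := y
        cases b with
        | false => rfl
        | true =>
          have h2 : flip ((a', true) : ι × Bool) = (a', false) := rfl
          rw [← h2]
          exact D.vt_d e he hyd
      have h1 := (D.Md_iff' e he a y.1).2 ⟨hk, hyd, h0.trans hy2⟩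
      rw [hn] at h1
      exact absurd h1 (by intro h; cases h)
  have hex : ∀ a : ι, ∃ x : ι × Bool, x.1 = a ∧ (a ∈ S → D.μ (D.vtI e x) ∈ P) := by
    intro a
    by_cases ha : a ∈ S
    · rw [hS, Finset.mem_filter] at ha
      rcases ha.2 with ⟨hk, h1 | h1⟩ | ⟨hk, h1⟩
      · exact ⟨(a, false), rfl, fun _ => hmc (a, false) hk h1⟩
      · exact ⟨(a, true), rfl, fun _ => hmc (a, true) hk h1⟩
      · exact ⟨(a, false), rfl, fun _ => hmd a hk h1⟩
    · exact ⟨(a, false), rfl, fun h => absurd h ha⟩
  choose x hx1 hx2 using hex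
  have hSc : S.card ≤ P.card := by
    refine Finset.card_le_card_of_injOn (fun a => D.μ (D.vtI e (x a))) ?_ ?_
    · intro a ha
      exact Finset.mem_coe.2 (hx2 a (Finset.mem_coe.1 ha))
    · intro a _ a' _ haa
      have h1 : D.vtI e (x a) = D.vtI e (x a') := by
        rw [← D.mat.inv (D.vtI e (x a)), ← D.mat.inv (D.vtI e (x a'))]
        exact congrArg D.μ haa
      rcases D.vt_inj e he h1 with h2 | ⟨h2, -⟩
      · rw [← hx1 a, ← hx1 a', h2]
      · rw [← hx1 a, ← hx1 a', h2]
        rfl
  have hsub : Finset.univ.filter (fun a : ι => D.kdI e a = Kind.b ∨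
      (D.kdI e a = Kind.c ∧ (D.McI e (a, false) = none ∨ D.McI e (a, true) = none)) ∨
      (D.kdI e a = Kind.d ∧ D.MdI e a = none)) ⊆ B ∪ S := by
    intro a ha
    rw [Finset.mem_filter] at ha
    rw [Finset.mem_union, hB, hS, Finset.mem_filter, Finset.mem_filter]
    rcases ha.2 with h1 | h1
    · exact Or.inl ⟨Finset.mem_univ _, h1⟩
    · exact Or.inr ⟨Finset.mem_univ _, h1⟩
  have h1 := Finset.card_le_card hsub
  have h2 := Finset.card_union_le B S
  have h3 := D.inq2_B e he
  rw [← hB] at h3
  omega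

end Dat

end Pool.Agent.H38H.IN
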