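import Pool.Agent.Lib.H38H.IN.Q1

set_option autoImplicit false

namespace Pool.Agent.H38H.IN

open Classical

namespace Dat
variable {V : Type} [Fintype V] (D : Dat V) {ι : Type} [Fintype ι] (e : ι × Bool ≃ {p : Port D.π // D.Opn p})

/-! Chunk INQ3 (M): short orbits. cyc_small: for a permutation `π`, the set of `v` not in a 2-cycle, not fixed, with `π^(2k) v = v` for some `1 ≤ k ≤ m`: the cycle of `v` (support of `cycleOf π v`, an element of `cycleFactorsFinset`) has at least 3 and at most `2m`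
elements (its length divides `2k`; `Equiv.Perm.IsCycle.pow_eq_one_iff`, orderOf, or `(π ^ (2k)) v = v` iff the support card divides `2k`); the number of such cycles is at most `longCycles π` (`cycleType = cycleFactorsFinset.val.map (card ∘ support)`); sum over the cycles.
orbits_bd: if `x` is in the set then `McI x` is defined, so the kind of `x` is c (Mc_iff'). Claim: if `y` has kind c, `w = vtI y`, `McI y = some z`, `y' = flip z`, then kind of `y'` is c, `vtI z = μ w`, `vtI y' = eps (μ w)`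
(path `[μ w, eps (μ w)]`), and: if `μ w = π w` then `eps (μ w) = π (π w)` and `μ (π (π w)) = π (π (π w))`; if `μ w = π⁻¹ w` the same with `π⁻¹`. (`μ (μ w) = w`, so `eps (μ w)` is the π-neighbour of `μ w` other than `w`; `eps (eps u) = u` for `u = μ w` says that
`μ (eps u) ≠ u`, so it is the other neighbour of `eps u`.) By induction the `j`-th iterate has vertex `π^(2j) v` for all `j`, or `π^(-2j) v` for all `j`, `v = vtI x`. So `π^(2k) v = v`. `x ↦ vtI x` is injective on halves of kind c (vt_inj), `v` is not in a 2-cycle (pp_μ). -/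

theorem inq3_factor (π : Equiv.Perm V) {v : V} (h1 : ¬ IsD π v) (h2 : π v ≠ v) :
    3 ≤ (π.cycleOf v).support.card := by
  have hc : (π.cycleOf v).IsCycle := (Equiv.Perm.isCycle_cycleOf_iff π).2 h2
  have hvs : v ∈ π.support := by simpa using h2
  have hs : ∀ u, u ∈ (π.cycleOf v).support ↔ π.SameCycle v u ∧ v ∈ π.support :=
    fun u => Equiv.Perm.mem_support_cycleOf_iff
  have h3 : π (π v) ≠ v := h1
  have e1 : v ∈ (π.cycleOf v).support := (hs v).2 ⟨Equiv.Perm.SameCycle.refl _ _, hvs⟩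
  have e2 : π v ∈ (π.cycleOf v).support := (hs _).2 ⟨⟨1, by simp⟩, hvs⟩
  have e3 : π (π v) ∈ (π.cycleOf v).support := by
    refine (hs _).2 ⟨⟨2, ?_⟩, hvs⟩
    rw [show (2 : ℤ) = ((2 : ℕ) : ℤ) from rfl, zpow_natCast, pow_two]
    rfl
  have hsub : ({v, π v, π (π v)} : Finset V) ⊆ (π.cycleOf v).support := by
    intro u hu
    simp only [Finset.mem_insert, Finset.mem_singleton] at hu
    rcases hu with rfl | rfl | rfl
    · exact e1
    · exact e2
    · exact e3
  have hcard : ({v, π v, π (π v)} : Finset V).card = 3 := by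
    rw [Finset.card_eq_three]
    exact ⟨v, π v, π (π v), h2.symm, h3.symm, fun h => h2 (π.injective h).symm, rfl⟩
  rw [← hcard]
  exact Finset.card_le_card hsub

theorem inq3_len (π : Equiv.Perm V) {v : V} (h2 : π v ≠ v) {k : ℕ} (hk : 1 ≤ k)
    (h : (π ^ (2 * k)) v = v) : (π.cycleOf v).support.card ≤ 2 * k := by
  have hc : (π.cycleOf v).IsCycle := (Equiv.Perm.isCycle_cycleOf_iff π).2 h2
  have h3 : ((π.cycleOf v) ^ (2 * k)) v = v := by
    rw [Equiv.Perm.cycleOf_pow_apply_self, h]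
  have h4 : (π.cycleOf v) v ≠ v := by
    rw [Equiv.Perm.cycleOf_apply_self]
    exact h2
  have h5 : (π.cycleOf v) ^ (2 * k) = 1 := (hc.pow_eq_one_iff' h4).2 h3
  have h6 := orderOf_dvd_of_pow_eq_one h5
  rw [hc.orderOf] at h6
  exact Nat.le_of_dvd (by omega) h6

theorem inq3_long (π : Equiv.Perm V) :
    (π.cycleFactorsFinset.filter (fun c => 3 ≤ c.support.card)).card = longCycles π := by
  unfold longCycles
  rw [Equiv.Perm.cycleType_def, Multiset.filter_map, Multiset.card_map]
  rfl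

theorem cyc_small (π : Equiv.Perm V) (m : ℕ) :
    (Finset.univ.filter (fun v : V => ¬ IsD π v ∧ π v ≠ v ∧ ∃ k, 1 ≤ k ∧ k ≤ m ∧ (π ^ (2 * k)) v = v)).card ≤
      2 * longCycles π * m := by
  have hsub : (Finset.univ.filter (fun v : V => ¬ IsD π v ∧ π v ≠ v ∧ ∃ k, 1 ≤ k ∧ k ≤ m ∧ (π ^ (2 * k)) v = v)) ⊆
      (π.cycleFactorsFinset.filter (fun c => 3 ≤ c.support.card)).biUnion
        (fun c => if c.support.card ≤ 2 * m then c.support else ∅) := by
    intro v hv
    rw [Finset.mem_filter] at hv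
    obtain ⟨-, h1, h2, k, hk1, hk2, hk3⟩ := hv
    rw [Finset.mem_biUnion]
    refine ⟨π.cycleOf v, ?_, ?_⟩
    · rw [Finset.mem_filter]
      refine ⟨?_, inq3_factor π h1 h2⟩
      rw [Equiv.Perm.cycleOf_mem_cycleFactorsFinset_iff, Equiv.Perm.mem_support]
      exact h2
    · have h3 := inq3_len π h2 hk1 hk3
      rw [if_pos (by omega)]
      exact Equiv.Perm.mem_support_cycleOf_iff.2 ⟨Equiv.Perm.SameCycle.refl _ _, by simpa using h2⟩
  refine (Finset.card_le_card hsub).trans ?_
  refine (Finset.card_biUnion_le_card_mul _ _ (2 * m) ?_).trans ?_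
  · intro c _
    split_ifs with h
    · exact h
    · simp
  · rw [inq3_long]
    exact le_of_eq (by ring)

theorem inq3_c {p : Port D.π} (hp : D.Opn p) (hk : D.kdp p = Kind.c) :
    p.1.1 ∉ D.A ∧ ¬ IsD D.π p.1.1 ∧ (D.tau p).1.1 = eps D.π D.μ p.1.1 := by
  unfold kdp at hk
  split_ifs at hk with h1 h2 h3
  refine ⟨hp.1, h2, ?_⟩
  push Not at h3
  have h4 : D.tau p = D.mt p := by
    unfold tau
    rw [if_neg h1]
  rw [h4]
  unfold mt
  rw [mate_vert]
  unfold mv
  rw [if_neg (by push Not; exact ⟨h2, hp.1⟩), if_neg h3.1]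

theorem inq3_step (he : ∀ x, (e (flip x)).1 = D.tau (e x).1) {y z : ι × Bool}
    (h : D.McI e y = some z) :
    (D.μ (D.vtI e y) = D.π (D.vtI e y) → D.vtI e (flip z) = D.π (D.π (D.vtI e y)) ∧
      (D.kdI e (flip z).1 = Kind.c → D.μ (D.vtI e (flip z)) = D.π (D.vtI e (flip z)))) ∧
    (D.μ (D.vtI e y) = D.π.symm (D.vtI e y) → D.vtI e (flip z) = D.π.symm (D.π.symm (D.vtI e y)) ∧
      (D.kdI e (flip z).1 = Kind.c → D.μ (D.vtI e (flip z)) = D.π.symm (D.vtI e (flip z)))) ∧
    (D.μ (D.vtI e y) = D.π (D.vtI e y) ∨ D.μ (D.vtI e y) = D.π.symm (D.vtI e y)) ∧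
    D.kdI e y.1 = Kind.c ∧ ¬ IsD D.π (D.vtI e y) := by
  rw [D.Mc_iff' e he] at h
  obtain ⟨hy, hz, hv⟩ := h
  have hy' : D.kdp (e y).1 = Kind.c := by rw [D.kdI_port e he, hy]
  have hz' : D.kdp (e z).1 = Kind.c := by rw [D.kdI_port e he, hz]
  have ay := D.inq3_c (e y).2 hy'
  have az := D.inq3_c (e z).2 hz'
  have fz : D.vtI e (flip z) = eps D.π D.μ (D.μ (D.vtI e y)) := by
    have h1 : D.vtI e (flip z) = (D.tau (e z).1).1.1 := by
      unfold vtI
      rw [he]
    rw [h1, az.2.2]
    rw [← hv]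
    rfl
  have ay1 : D.vtI e y ∉ D.A := ay.1
  have ay2 : ¬ IsD D.π (D.vtI e y) := ay.2.1
  have hflip : D.kdI e (flip z).1 = Kind.c → D.vtI e (flip z) ∉ D.A := fun _ => (e (flip z)).2.1
  set w := D.vtI e y with hw
  have hμμ := D.mat.inv w
  have hinj : ∀ a b, D.μ a = D.μ b → a = b := by
    intro a b hab
    rw [← D.mat.inv a, hab, D.mat.inv]
  refine ⟨?_, ?_, D.mat.mem w ay1, hy, ay2⟩
  · intro h1
    have h2 : D.vtI e (flip z) = D.π (D.π w) := by
      rw [fz]
      unfold eps
      rw [hμμ, h1, if_neg]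
      intro h3
      exact ay2 h3.symm
    refine ⟨h2, fun hk => ?_⟩
    rcases D.mat.mem _ (hflip hk) with h3 | h3
    · exact h3
    · exfalso
      rw [h2, Equiv.symm_apply_apply, ← h1] at h3
      have h4 := hinj _ _ h3
      rw [h1] at h4
      exact ay2 h4
  · intro h1
    have h2 : D.vtI e (flip z) = D.π.symm (D.π.symm w) := by
      rw [fz]
      unfold eps
      rw [hμμ, h1, Equiv.apply_symm_apply, if_pos rfl]
    refine ⟨h2, fun hk => ?_⟩
    rcases D.mat.mem _ (hflip hk) with h3 | h3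
    · exfalso
      rw [h2, Equiv.apply_symm_apply, ← h1] at h3
      have h4 := hinj _ _ h3
      apply ay2
      unfold IsD
      rw [h1, Equiv.symm_apply_eq, Equiv.symm_apply_eq] at h4
      exact h4.symm
    · exact h3

theorem inq3_bind {P : Option (ι × Bool) → Option (ι × Bool)}
    (hP : P = fun o => o.bind (fun y => (D.McI e y).map flip)) {o : Option (ι × Bool)} {y' : ι × Bool}
    (h : P o = some y') : ∃ y z, o = some y ∧ D.McI e y = some z ∧ y' = flip z := by
  subst hP
  cases o with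
  | none => simp at h
  | some y =>
    simp only [Option.bind_some, Option.map_eq_some_iff] at h
    obtain ⟨z, hz, rfl⟩ := h
    exact ⟨y, z, rfl, hz, rfl⟩

theorem inq3_none {P : Option (ι × Bool) → Option (ι × Bool)}
    (hP : P = fun o => o.bind (fun y => (D.McI e y).map flip)) (k : ℕ) : P^[k] none = none := by
  subst hP
  induction k with
  | zero => rfl
  | succ k ih => rw [Function.iterate_succ_apply', ih]; rfl

theorem inq3_kc (he : ∀ x, (e (flip x)).1 = D.tau (e x).1) {y z : ι × Bool}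
    (h : D.McI e y = some z) : D.kdI e (flip z).1 = Kind.c := by
  rw [D.Mc_iff' e he] at h
  exact h.2.1

theorem inq3_iter1 (he : ∀ x, (e (flip x)).1 = D.tau (e x).1) {P : Option (ι × Bool) → Option (ι × Bool)}
    (hP : P = fun o => o.bind (fun y => (D.McI e y).map flip)) (x : ι × Bool)
    (hx : D.μ (D.vtI e x) = D.π (D.vtI e x)) (j : ℕ) :
    ∀ y, P^[j] (some x) = some y → D.vtI e y = (D.π ^ (2 * j)) (D.vtI e x) ∧
      D.μ (D.vtI e y) = D.π (D.vtI e y) := by
  induction j with
  | zero =>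
    intro y hy
    simp only [Function.iterate_zero, id_eq, Option.some.injEq] at hy
    subst hy
    exact ⟨by simp, hx⟩
  | succ j ih =>
    intro y hy
    rw [Function.iterate_succ_apply'] at hy
    obtain ⟨y0, z, h1, h2, rfl⟩ := D.inq3_bind e hP hy
    obtain ⟨h3, h4⟩ := ih y0 h1
    have h5 := (D.inq3_step e he h2).1 h4
    refine ⟨?_, h5.2 (D.inq3_kc e he h2)⟩
    rw [h5.1, h3, show 2 * (j + 1) = (2 * j + 1) + 1 by ring, pow_succ', pow_succ']
    rfl

theorem inq3_iter2 (he : ∀ x, (e (flip x)).1 = D.tau (e x).1) {P : Option (ι × Bool) → Option (ι × Bool)}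
    (hP : P = fun o => o.bind (fun y => (D.McI e y).map flip)) (x : ι × Bool)
    (hx : D.μ (D.vtI e x) = D.π.symm (D.vtI e x)) (j : ℕ) :
    ∀ y, P^[j] (some x) = some y → (D.π ^ (2 * j)) (D.vtI e y) = (D.vtI e x) ∧
      D.μ (D.vtI e y) = D.π.symm (D.vtI e y) := by
  induction j with
  | zero =>
    intro y hy
    simp only [Function.iterate_zero, id_eq, Option.some.injEq] at hy
    subst hy
    exact ⟨by simp, hx⟩
  | succ j ih =>
    intro y hy
    rw [Function.iterate_succ_apply'] at hy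
    obtain ⟨y0, z, h1, h2, rfl⟩ := D.inq3_bind e hP hy
    obtain ⟨h3, h4⟩ := ih y0 h1
    have h5 := (D.inq3_step e he h2).2.1 h4
    refine ⟨?_, h5.2 (D.inq3_kc e he h2)⟩
    rw [h5.1, ← h3, show 2 * (j + 1) = (2 * j + 1) + 1 by ring, pow_succ, pow_succ]
    simp only [Equiv.Perm.mul_apply, Equiv.apply_symm_apply]

theorem orbits_bd (he : ∀ x, (e (flip x)).1 = D.tau (e x).1) (m : ℕ) :
    (Finset.univ.filter (fun x : ι × Bool => ∃ k, 1 ≤ k ∧ k ≤ m ∧
      ((fun o : Option (ι × Bool) => o.bind (fun y => (D.McI e y).map flip))^[k]) (some x) = some x)).card ≤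
      2 * longCycles D.π * m := by
  set P : Option (ι × Bool) → Option (ι × Bool) := fun o => o.bind (fun y => (D.McI e y).map flip) with hP
  have hfirst : ∀ x, (∃ k, 1 ≤ k ∧ k ≤ m ∧ P^[k] (some x) = some x) → ∃ z, D.McI e x = some z := by
    rintro x ⟨k, hk1, -, hk3⟩
    obtain ⟨k', rfl⟩ : ∃ k', k = k' + 1 := ⟨k - 1, by omega⟩
    rw [Function.iterate_succ_apply] at hk3
    cases hz : D.McI e x with
    | none =>
      exfalso
      have h1 : P (some x) = none := by
        rw [hP]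
        simp [hz]
      rw [h1, D.inq3_none e hP] at hk3
      exact absurd hk3 (by simp)
    | some z => exact ⟨z, rfl⟩
  refine le_trans ?_ (cyc_small D.π m)
  refine Finset.card_le_card_of_injOn (fun x => D.vtI e x) ?_ ?_
  · intro x hx
    rw [Finset.mem_coe, Finset.mem_filter] at hx
    obtain ⟨z, hz⟩ := hfirst x hx.2
    obtain ⟨k, hk1, hk2, hk3⟩ := hx.2
    have h1 := (D.inq3_step e he hz).2.2
    rw [Finset.mem_coe, Finset.mem_filter]
    refine ⟨Finset.mem_univ _, h1.2.2, D.nofix _, k, hk1, hk2, ?_⟩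
    rcases h1.1 with h2 | h2
    · exact ((D.inq3_iter1 e he hP x h2 k) x hk3).1.symm
    · exact ((D.inq3_iter2 e he hP x h2 k) x hk3).1
  · intro x hx y hy hxy
    rw [Finset.mem_coe, Finset.mem_filter] at hx hy
    obtain ⟨z, hz⟩ := hfirst x hx.2
    have h1 := (D.inq3_step e he hz).2.2.2.1
    rcases D.vt_inj e he hxy with h2 | ⟨-, h2⟩
    · exact h2.symm
    · rw [h1] at h2
      exact absurd h2 (by simp)

end Dat

end Pool.Agent.H38H.IN
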