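import Pool.Agent.Lib.H38H.IN.Q2
import Pool.Agent.Lib.H38H.IN.Q3

set_option autoImplicit false

namespace Pool.Agent.H38H.IN

open Classical

namespace Dat
variable {V : Type} [Fintype V] (D : Dat V) {ι : Type} [Fintype ι] (e : ι × Bool ≃ {p : Port D.π // D.Opn p})

/-! Chunk INQ4 (S/M): the fields of the instance. -/

theorem outI_iff (R : PM (Port D.π)) (x y : ι × Bool) : D.outI e R x = some y ↔ R.1 (e x).1 = (e y).1 := by
  unfold outI
  constructor
  · intro h
    split_ifs at h with h1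
    rw [Option.some.injEq] at h
    rw [← h, Equiv.apply_symm_apply]
  · intro h
    have h1 : D.Opn (R.1 (e x).1) := by
      rw [h]
      exact (e y).2
    rw [dif_pos h1, Option.some.injEq, Equiv.symm_apply_eq]
    exact Subtype.ext h

theorem outI_symm (R : PM (Port D.π)) (x y : ι × Bool) (h : D.outI e R x = some y) :
    D.outI e R y = some x := by
  rw [D.outI_iff e] at h ⊢
  rw [← h, R.2.1]

theorem outI_ne (R : PM (Port D.π)) (x : ι × Bool) : D.outI e R x ≠ some x := by
  intro h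
  rw [D.outI_iff e] at h
  exact R.2.2 _ h

theorem McI_symm (he : ∀ x, (e (flip x)).1 = D.tau (e x).1) (x y : ι × Bool) (h : D.McI e x = some y) :
    D.McI e y = some x := by
  rw [D.Mc_iff' e he] at h ⊢
  refine ⟨h.2.1, h.1, ?_⟩
  rw [h.2.2, D.mat.inv]

theorem McI_kind (he : ∀ x, (e (flip x)).1 = D.tau (e x).1) (x y : ι × Bool) (h : D.McI e x = some y) :
    D.kdI e x.1 = Kind.c ∧ x.1 ≠ y.1 := by
  rw [D.Mc_iff' e he] at h
  refine ⟨h.1, D.partner_ne e he ?_ h.2.2⟩
  rw [h.1]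
  simp

theorem MdI_symm (he : ∀ x, (e (flip x)).1 = D.tau (e x).1) (a b : ι) (h : D.MdI e a = some b) :
    D.MdI e b = some a := by
  rw [D.Md_iff' e he] at h ⊢
  refine ⟨h.2.1, h.1, ?_⟩
  rw [h.2.2, D.mat.inv]

theorem MdI_kind (he : ∀ x, (e (flip x)).1 = D.tau (e x).1) (a b : ι) (h : D.MdI e a = some b) :
    D.kdI e a = Kind.d ∧ a ≠ b := by
  rw [D.Md_iff' e he] at h
  refine ⟨h.1, ?_⟩
  have hk : D.kdI e (a, false).1 ≠ Kind.b := by
    simp only [h.1]
    simp
  exact D.partner_ne e he hk h.2.2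

/-- the relations `FAe` and the one of `Inst.comps_le` agree -/
theorem comps_bd (R : PM (Port D.π)) (L : ℕ) (h : FewE (fun x => (e x).1) R L) :
    ∃ T : Finset (ι × Bool), T.card ≤ L ∧
      ∀ x, ∃ t ∈ T, Relation.ReflTransGen (fun a b => b = flip a ∨ D.outI e R a = some b) t x := by
  obtain ⟨T, h1, h2⟩ := h
  refine ⟨T, h1, fun x => ?_⟩
  obtain ⟨t, ht, h3⟩ := h2 x
  refine ⟨t, ht, Relation.ReflTransGen.mono (fun a b hab => ?_) _ _ h3⟩
  rcases hab with hab | hab
  · exact Or.inl hab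
  · exact Or.inr ((D.outI_iff e R a b).2 hab)

/-- the instance -/
noncomputable def inst (he : ∀ x, (e (flip x)).1 = D.tau (e x).1) (R : PM (Port D.π)) (L : ℕ)
    (h1 : 5 * (D.A.card + 2 * D.E.card) ≤ L) (h2 : 2 * longCycles D.π ≤ L)
    (h3 : FewE (fun x => (e x).1) R L) : Inst ι L where
  outer := D.outI e R
  outer_symm := D.outI_symm e R
  outer_ne := D.outI_ne e R
  kind := D.kdI e
  Mc := D.McI e
  Mc_symm := D.McI_symm e he
  Mc_kind := D.McI_kind e he
  Md := D.MdI e
  Md_symm := D.MdI_symm e he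
  Md_kind := D.MdI_kind e he
  special_le := (D.special_bd e he).trans h1
  comps_le := D.comps_bd e R L h3
  orbits_le := fun m => (D.orbits_bd e he m).trans (Nat.mul_le_mul_right m h2)

end Dat

end Pool.Agent.H38H.IN
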