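import Pool.Agent.Lib.H38H.IN.Q1

set_option autoImplicit false

namespace Pool.Agent.H38H.IN

open Classical

theorem ap_flip {ι : Type} (g : SB ι) (x : ι × Bool) : ap g (flip x) = flip (ap g x) := by
  obtain ⟨p, i⟩ := x
  cases i <;> cases hh : g.2 p <;> simp [ap, flip, hh]

namespace Dat
variable {V : Type} [Fintype V] (D : Dat V) {ι : Type} [Fintype ι] (e : ι × Bool ≃ {p : Port D.π // D.Opn p})

/-- the path of the link at a slot -/
noncomputable def pS (g : SB ι) (p : ι) : List V := D.pp (e (ap g (p, false))).1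

/-! Chunk INQ5 (S/M): paths at the slots. `ap g (p, i) = (g.1 p, ..)`, `ap g (p, true) = flip (ap g (p,false))` (ap_flip), `(e (flip x)).1 = tau (e x).1`. The ports `e (ap g (p,false))`, `e (ap g (p,true))` are exchanged by `tau`. pS_cover: pp_cover gives an open port `e z`, `z = ap g x`
(`x = pa g z`, apE is a bijection), `x = (p, i)`; `pp (e (ap g (p,false)))` is `pp (e z)` or its reverse (pp_tau). pS_uniq: pp_uniq: `e (ap g (q,false)) = e (ap g (p,false))` or `= e (ap g (p,true))`, so `q = p` (apE injective). pS_len: kdI_port. -/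

theorem inq5_true (he : ∀ x, (e (flip x)).1 = D.tau (e x).1) (g : SB ι) (p : ι) :
    (e (ap g (p, true))).1 = D.tau (e (ap g (p, false))).1 := by
  have h1 : ap g (p, true) = flip (ap g (p, false)) := ap_flip g (p, false)
  rw [h1]
  exact he _

theorem inq5_pS (he : ∀ x, (e (flip x)).1 = D.tau (e x).1) (g : SB ι) (x : ι × Bool) :
    D.pS e g x.1 = D.pp (e (ap g x)).1 ∨ D.pS e g x.1 = (D.pp (e (ap g x)).1).reverse := by
  obtain ⟨p, i⟩ := x
  cases i with
  | false => exact Or.inl rfl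
  | true =>
    right
    rw [D.inq5_true e he, D.pp_tau (e (ap g (p, false))).2, List.reverse_reverse]
    rfl

theorem inq5_surj (g : SB ι) (z : ι × Bool) : ∃ x, ap g x = z :=
  ⟨pa g z, (apE g).right_inv z⟩

theorem inq5_inj (g : SB ι) {x y : ι × Bool} (h : ap g x = ap g y) : x = y :=
  (apE g).injective h

theorem pS_nodup (g : SB ι) (p : ι) : (D.pS e g p).Nodup :=
  D.pp_nodup (e (ap g (p, false))).2

theorem pS_cover (he : ∀ x, (e (flip x)).1 = D.tau (e x).1) (g : SB ι) (v : V) : ∃ p, v ∈ D.pS e g p := by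
  obtain ⟨p, hp, hw⟩ := D.pp_cover v
  obtain ⟨z, hz⟩ := e.surjective ⟨p, hp⟩
  obtain ⟨x, hx⟩ := inq5_surj g z
  have h1 : (e (ap g x)).1 = p := by rw [hx, hz]
  refine ⟨x.1, ?_⟩
  rcases D.inq5_pS e he g x with h | h
  · rw [h, h1]
    exact hw
  · rw [h, h1, List.mem_reverse]
    exact hw

theorem pS_uniq (he : ∀ x, (e (flip x)).1 = D.tau (e x).1) (g : SB ι) (v : V) (p q : ι)
    (h1 : v ∈ D.pS e g p) (h2 : v ∈ D.pS e g q) : p = q := by
  rcases D.pp_uniq (e (ap g (p, false))).2 (e (ap g (q, false))).2 h1 h2 with h3 | h3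
  · have h4 := inq5_inj g (e.injective (Subtype.ext h3))
    exact (congrArg Prod.fst h4).symm
  · rw [← D.inq5_true e he] at h3
    have h4 := inq5_inj g (e.injective (Subtype.ext h3))
    exact (congrArg Prod.fst h4).symm

theorem pS_head (g : SB ι) (p : ι) : (D.pS e g p).head? = some (D.vtI e (ap g (p, false))) :=
  D.pp_head (e (ap g (p, false))).2

theorem pS_last (he : ∀ x, (e (flip x)).1 = D.tau (e x).1) (g : SB ι) (p : ι) :
    (D.pS e g p).getLast? = some (D.vtI e (ap g (p, true))) := by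
  have h1 : ap g (p, true) = flip (ap g (p, false)) := ap_flip g (p, false)
  rw [h1]
  exact D.inq1_last e he (ap g (p, false))

theorem pS_len (he : ∀ x, (e (flip x)).1 = D.tau (e x).1) (g : SB ι) (p : ι) :
    (D.kdI e (g.1 p) = Kind.c → (D.pS e g p).length = 2) ∧
    (D.kdI e (g.1 p) = Kind.d → (D.pS e g p).length = 1) ∧
    (D.kdI e (g.1 p) = Kind.b → 2 ≤ (D.pS e g p).length ∧ (D.pS e g p).length ≤ 4) := by
  have h1 : D.kdp (e (ap g (p, false))).1 = D.kdI e (g.1 p) := D.kdI_port e he (ap g (p, false))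
  rw [← h1]
  exact D.pp_len (e (ap g (p, false))).2

theorem pS_mark (he : ∀ x, (e (flip x)).1 = D.tau (e x).1) (g : SB ι) :
    ∀ f ∈ D.E, ∃ p, D.kdI e (g.1 p) = Kind.b ∧ ∃ u v, f = s(u, v) ∧ Cns (D.pS e g p) u v := by
  intro f hf
  obtain ⟨p, hp, hk, u, v, hfuv, hc⟩ := D.pp_mark hf
  obtain ⟨z, hz⟩ := e.surjective ⟨p, hp⟩
  obtain ⟨x, hx⟩ := inq5_surj g z
  have h1 : (e (ap g x)).1 = p := by rw [hx, hz]
  refine ⟨x.1, ?_, u, v, hfuv, ?_⟩
  · have h2 : D.kdp (e (ap g x)).1 = D.kdI e (g.1 x.1) := D.kdI_port e he (ap g x)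
    rw [← h2, h1]
    exact hk
  · rcases D.inq5_pS e he g x with h | h
    · rw [h, h1]
      exact hc
    · rw [h, h1]
      unfold Cns at hc ⊢
      have e1 : [u, v] = [v, u].reverse := rfl
      have e2 : [v, u] = [u, v].reverse := rfl
      rcases hc with hc | hc
      · right
        rw [e2, List.reverse_infix]
        exact hc
      · left
        rw [e1, List.reverse_infix]
        exact hc

/-- the path at the slot of a position, seen from that position -/
theorem pS_pp (he : ∀ x, (e (flip x)).1 = D.tau (e x).1) (g : SB ι) (x : ι × Bool) :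
    D.pS e g x.1 = D.pp (e (ap g x)).1 ∨ D.pS e g x.1 = (D.pp (e (ap g x)).1).reverse :=
  D.inq5_pS e he g x

end Dat

end Pool.Agent.H38H.IN
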