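import Pool.Agent.Lib.H38H.IN.Q5
import Pool.Agent.Lib.H38H.IN.P7

set_option autoImplicit false

namespace Pool.Agent.H38H.IN

open Classical

namespace Dat
variable {V : Type} [Fintype V] (D : Dat V) {ι : Type} [Fintype ι] (e : ι × Bool ≃ {p : Port D.π // D.Opn p})

/-! Chunk INQ6 (S/M): the matching `μ` at the slots. lμ_adj: `v ∉ A`, Mat.mem, gr_π (for `v` or for `π⁻¹ v`). lμ_ne: pp_μ with kdI_port (the kind at the port `e (ap g (p,false))` is `kdI (g.1 p)`). lμ_kind: pp_μ for both (`IsD (μ v) ↔ IsD v`, isD_apply, isD_symm); kinds not b are determined by being d.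
lMc: Mc_iff'. lMd: Md_iff' for the halves false; for kind d both halves of a link have the same vertex (vt_d), `(ap g x).1 = g.1 x.1`. -/

theorem lμ_adj (R : PM (Port D.π)) (v : V) (hv : D.μ v ≠ v) : (Gr D.π R).Adj v (D.μ v) := by
  by_cases hA : v ∈ D.A
  · exact absurd ((D.mat.fix v).2 hA) hv
  · rcases D.mat.mem v hA with h | h
    · rw [h]
      exact D.gr_π R v
    · rw [h]
      have h1 := D.gr_π R (D.π.symm v)
      rw [Equiv.apply_symm_apply] at h1
      exact h1.symm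

theorem lμ_ne (he : ∀ x, (e (flip x)).1 = D.tau (e x).1) (g : SB ι) (p : ι) (v : V)
    (hv : v ∈ D.pS e g p) (hk : D.kdI e (g.1 p) ≠ Kind.b) : D.μ v ≠ v ∧ D.μ v ∉ D.pS e g p := by
  have hk' : D.kdp (e (ap g (p, false))).1 ≠ Kind.b := by
    rw [D.kdI_port e he]
    exact hk
  obtain ⟨h1, h2, -, -⟩ := D.pp_μ (e (ap g (p, false))).2 hk' hv
  exact ⟨h1, h2⟩

theorem lμ_kind (he : ∀ x, (e (flip x)).1 = D.tau (e x).1) (g : SB ι) (p q : ι) (v : V)
    (hv : v ∈ D.pS e g p) (hv' : D.μ v ∈ D.pS e g q) (hk : D.kdI e (g.1 p) ≠ Kind.b)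
    (hk' : D.kdI e (g.1 q) ≠ Kind.b) : D.kdI e (g.1 p) = D.kdI e (g.1 q) := by
  have hk1 : D.kdp (e (ap g (p, false))).1 ≠ Kind.b := by
    rw [D.kdI_port e he]
    exact hk
  have hk2 : D.kdp (e (ap g (q, false))).1 ≠ Kind.b := by
    rw [D.kdI_port e he]
    exact hk'
  obtain ⟨-, -, hπ, hx⟩ := D.pp_μ (e (ap g (p, false))).2 hk1 hv
  obtain ⟨-, -, -, hz⟩ := D.pp_μ (e (ap g (q, false))).2 hk2 hv'
  rw [D.kdI_port e he] at hx hz
  have hx' : IsD D.π v ↔ D.kdI e (g.1 p) = Kind.d := hx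
  have hz' : IsD D.π (D.μ v) ↔ D.kdI e (g.1 q) = Kind.d := hz
  have hD : IsD D.π (D.μ v) ↔ IsD D.π v := by
    rcases hπ with h | h
    · rw [h]
      exact isD_apply _
    · rw [h]
      exact isD_symm _
  have h1 : D.kdI e (g.1 p) = Kind.d ↔ D.kdI e (g.1 q) = Kind.d := by
    rw [← hx', ← hz', hD]
  cases hcx : D.kdI e (g.1 p) with
  | b => exact absurd hcx hk
  | d => exact (h1.1 hcx).symm
  | c =>
    cases hcz : D.kdI e (g.1 q) with
    | b => exact absurd hcz hk'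
    | c => rfl
    | d =>
      have h2 := h1.2 hcz
      rw [hcx] at h2
      exact absurd h2 (by intro h; cases h)

theorem lMc (he : ∀ x, (e (flip x)).1 = D.tau (e x).1) (g : SB ι) (x y : ι × Bool)
    (hx : D.kdI e (g.1 x.1) = Kind.c) (hy : D.kdI e (g.1 y.1) = Kind.c) :
    (D.McI e (ap g x) = some (ap g y) ↔ D.vtI e (ap g y) = D.μ (D.vtI e (ap g x))) := by
  rw [D.Mc_iff' e he]
  constructor
  · intro h
    exact h.2.2
  · intro h
    exact ⟨hx, hy, h⟩

theorem lMd (he : ∀ x, (e (flip x)).1 = D.tau (e x).1) (g : SB ι) (x y : ι × Bool)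
    (hx : D.kdI e (g.1 x.1) = Kind.d) (hy : D.kdI e (g.1 y.1) = Kind.d) :
    (D.MdI e (g.1 x.1) = some (g.1 y.1) ↔ D.vtI e (ap g y) = D.μ (D.vtI e (ap g x))) := by
  rw [D.Md_iff' e he]
  have key : ∀ z : ι × Bool, D.kdI e z.1 = Kind.d → D.vtI e (z.1, false) = D.vtI e z := by
    intro z hz
    obtain ⟨a, b⟩ := z
    cases b with
    | false => rfl
    | true =>
      have h1 : D.vtI e (flip (a, true)) = D.vtI e (a, true) := D.vt_d e he (x := (a, true)) hz
      have h2 : flip ((a, true) : ι × Bool) = (a, false) := rfl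
      rw [h2] at h1
      exact h1
  have k1 : D.vtI e (g.1 x.1, false) = D.vtI e (ap g x) := key (ap g x) hx
  have k2 : D.vtI e (g.1 y.1, false) = D.vtI e (ap g y) := key (ap g y) hy
  rw [k1, k2]
  constructor
  · intro h
    exact h.2.2
  · intro h
    exact ⟨hx, hy, h⟩

end Dat

end Pool.Agent.H38H.IN
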