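import Pool.Agent.Lib.H38H.IN.Q5
import Pool.Agent.Lib.H38H.IN.P7

set_option autoImplicit false

namespace Pool.Agent.H38H.IN

open Classical

namespace Dat
variable {V : Type} [Fintype V] (D : Dat V) {ι : Type} [Fintype ι] (e : ι × Bool ≃ {p : Port D.π // D.Opn p})

/-- the vertex matched to a position -/
noncomputable def nS (g : SB ι) (R' : PM (Port D.π)) (x : ι × Bool) : V := (R'.1 (e (ap g x)).1).1.1

/-! Chunk INQ7 (M): the conjugate matching `R' = conjPM (act e g) R`. `act` fixes the ports which are not open, in particular the InX ports, so `R'` contains `ξ`. `R' (act q) = act (R q)` (conjPM_apply), `act (e x) = e (ap g x)` (act_open).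
conj_some: outI: `R (e x) = e y`. conj_none: `R (e x)` is not open, so `R' (e (ap g x)) = act (R (e x)) = R (e x)`, dead by match_cases (`e x` is open, so not InX). lend_obj: the vertex of a dead port: in `A` (then in `A1` or in some `C ∈ tc`: tcA), or InM. lend_inj: dead_vert: `R (e x) = R (e y)`.
l_nb: gr_ports, gr_μ for `R'` and the port `e (ap g x)`; l_nb_pth: pS_pp (Cns of a reversed list is the same), gr_nb_pth; l_nb_d: kind d: the ports of `x`, `flip x` are two ports of the same vertex (vt_d), gr_ports. -/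

theorem inq7_out {R : PM (Port D.π)} {x y : ι × Bool} (h : D.outI e R x = some y) :
    R.1 (e x).1 = (e y).1 := by
  unfold outI at h
  split_ifs at h with h1
  rw [Option.some.injEq] at h
  rw [← h, Equiv.apply_symm_apply]

theorem inq7_symm (g : SB ι) (x : ι × Bool) : (D.act e g).symm (e (ap g x)).1 = (e x).1 := by
  rw [Equiv.symm_apply_eq, D.act_open e g x]

theorem inq7_cns {l : List V} {u v : V} (h : Cns l.reverse u v) : Cns l u v := by
  unfold Cns at h ⊢
  rcases h with h | h
  · right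
    rw [← List.reverse_infix]
    simpa using h
  · left
    rw [← List.reverse_infix]
    simpa using h

theorem conj_contains (g : SB ι) {R : PM (Port D.π)} (hR : Contains R D.ξ) :
    Contains (conjPM (D.act e g) R) D.ξ := by
  refine int5_cont (fun f hf x hx => ?_) hR
  refine D.act_not e g (fun ho => ho.2 (Or.inl ?_))
  obtain ⟨y, rfl⟩ := Sym2.mem_iff_exists.1 hx
  exact ⟨y, hf⟩

theorem conj_some (g : SB ι) {R : PM (Port D.π)} {x y : ι × Bool} (h : D.outI e R x = some y) :
    (conjPM (D.act e g) R).1 (e (ap g x)).1 = (e (ap g y)).1 := by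
  rw [conjPM_apply, D.inq7_symm e g x, D.inq7_out e h, D.act_open e g y]

theorem conj_none (g : SB ι) {R : PM (Port D.π)} (hR : Contains R D.ξ) {x : ι × Bool}
    (h : D.outI e R x = none) :
    (conjPM (D.act e g) R).1 (e (ap g x)).1 = R.1 (e x).1 ∧ D.Dead (R.1 (e x).1) := by
  have h1 : ¬ D.Opn (R.1 (e x).1) := by
    intro h2
    unfold outI at h
    rw [dif_pos h2] at h
    exact absurd h (by simp)
  constructor
  · rw [conjPM_apply, D.inq7_symm e g x, D.act_not e g h1]
  · have h2 : ¬ InX D.ξ (e x).1 := fun h3 => (e x).2.2 (Or.inl h3)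
    rcases D.match_cases R hR h2 with h3 | h3
    · exact absurd h3 h1
    · exact h3

theorem lout_some (g : SB ι) {R : PM (Port D.π)} {x y : ι × Bool} (h : D.outI e R x = some y) :
    D.nS e g (conjPM (D.act e g) R) x = D.vtI e (ap g y) := by
  unfold nS
  rw [D.conj_some e g h]
  rfl

theorem lend_obj (g : SB ι) {R : PM (Port D.π)} (hR : Contains R D.ξ) {x : ι × Bool}
    (h : D.outI e R x = none) :
    D.nS e g (conjPM (D.act e g) R) x ∈ D.A1 ∨ (∃ C ∈ D.tc, D.nS e g (conjPM (D.act e g) R) x ∈ C) ∨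
      (D.μ (D.nS e g (conjPM (D.act e g) R) x) ≠ D.nS e g (conjPM (D.act e g) R) x ∧
        s(D.nS e g (conjPM (D.act e g) R) x, D.μ (D.nS e g (conjPM (D.act e g) R) x)) ∈ D.E) := by
  obtain ⟨h1, h2⟩ := D.conj_none e g hR h
  unfold nS
  rw [h1]
  rcases h2 with h2 | h2
  · rcases D.tcA _ h2 with h3 | h3
    · exact Or.inl h3
    · exact Or.inr (Or.inl h3)
  · exact Or.inr (Or.inr ⟨h2.2.1, h2.2.2⟩)

theorem lend_inj (g : SB ι) {R : PM (Port D.π)} (hR : Contains R D.ξ) {x y : ι × Bool}
    (hx : D.outI e R x = none) (hy : D.outI e R y = none)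
    (h : D.nS e g (conjPM (D.act e g) R) x = D.nS e g (conjPM (D.act e g) R) y) : x = y := by
  obtain ⟨h1, h2⟩ := D.conj_none e g hR hx
  obtain ⟨h3, h4⟩ := D.conj_none e g hR hy
  unfold nS at h
  rw [h1, h3] at h
  have h5 := D.dead_vert h2 h4 h
  exact e.injective (Subtype.ext (R.1.injective h5))

theorem l_nb (g : SB ι) {R' : PM (Port D.π)} (hc : Cubic (Gr D.π R')) (x : ι × Bool) :
    (Gr D.π R').Adj (D.vtI e (ap g x)) (D.nS e g R' x) ∧ D.nS e g R' x ≠ D.μ (D.vtI e (ap g x)) := by
  exact ⟨(D.gr_ports R' hc _).1, D.gr_μ R' hc _⟩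

theorem l_nb_pth (he : ∀ x, (e (flip x)).1 = D.tau (e x).1) (g : SB ι) {R' : PM (Port D.π)}
    (hR : Contains R' D.ξ) (hc : Cubic (Gr D.π R')) (x : ι × Bool) (v : V)
    (h : Cns (D.pS e g x.1) (D.vtI e (ap g x)) v) : D.nS e g R' x ≠ v := by
  have h1 : Cns (D.pp (e (ap g x)).1) (e (ap g x)).1.1.1 v := by
    rcases D.pS_pp e he g x with h2 | h2
    · rw [h2] at h
      exact h
    · rw [h2] at h
      exact inq7_cns h
  exact D.gr_nb_pth R' hR hc (e (ap g x)).2 h1

theorem l_nb_d (he : ∀ x, (e (flip x)).1 = D.tau (e x).1) (g : SB ι) {R' : PM (Port D.π)}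
    (hc : Cubic (Gr D.π R')) (x : ι × Bool) (hk : D.kdI e (g.1 x.1) = Kind.d) :
    D.nS e g R' x ≠ D.nS e g R' (flip x) := by
  have h1 : D.vtI e (flip (ap g x)) = D.vtI e (ap g x) := D.vt_d e he hk
  rw [← ap_flip] at h1
  refine (D.gr_ports R' hc (e (ap g (flip x))).1).2.2.2 (e (ap g x)).1 h1.symm ?_
  intro h2
  have h3 := e.injective (Subtype.ext h2)
  rw [ap_flip] at h3
  have h4 := congrArg Prod.snd h3
  unfold flip at h4
  simp at h4

end Dat

end Pool.Agent.H38H.IN
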