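import Pool.Agent.Lib.H38H.IN.Q7

set_option autoImplicit false

namespace Pool.Agent.H38H.IN

open Classical

namespace Dat
variable {V : Type} [Fintype V] (D : Dat V) {ι : Type} [Fintype ι] (e : ι × Bool ≃ {p : Port D.π // D.Opn p})

/-! Chunk INQ8 (M): cores and tiny odd cycles. l_core: pp_core for the port `e (ap g (p,false))`. If `a ∈ A1`: first alternative. Otherwise `a ∈ C ∈ tc` (tcA) and all vertices of the path are `a`, `π a`, `π⁻¹ a`, in `C` (tcπ; `C` is closed under `π`, finite, so also under `π⁻¹`).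
Mark: third. l_con: `C` is connected in `Gr π R`: a nonempty part `U ≠ C` is not closed under `π` (tcC), so some `u ∈ U` has `π u ∉ U`, `π u ∈ C`, gr_π. l_tc: the two neighbours `π v`, `π⁻¹ v` of `v ∈ C`, different as `v` is not in a 2-cycle; a position `x` with vertex
`v`: `nS x = vert (R' p)` for a port `p` of `v`: different from both by gr_ports. If `outI x = none` and `nS x = v` then `v = vert q`, `q = R' (e (ap g x))`, `R' q = e (ap g x)` has vertex `vtI (ap g x)`: gr_ports for `q`. -/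

theorem inq8_symm {C : Finset V} (hC : C ∈ D.tc) {v : V} (hv : v ∈ C) : D.π.symm v ∈ C := by
  have h1 : C.image D.π = C := by
    apply Finset.eq_of_subset_of_card_le
    · intro w hw
      obtain ⟨u, hu, rfl⟩ := Finset.mem_image.mp hw
      exact (D.tcπ C hC u hu).1
    · rw [Finset.card_image_of_injective _ D.π.injective]
  rw [← h1] at hv
  obtain ⟨u, hu, rfl⟩ := Finset.mem_image.mp hv
  rw [Equiv.symm_apply_apply]
  exact hu

theorem l_core (he : ∀ x, (e (flip x)).1 = D.tau (e x).1) (g : SB ι) (p : ι)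
    (hk : D.kdI e (g.1 p) = Kind.b) :
    (∃ a ∈ D.A1, ∀ v ∈ D.pS e g p, v = a ∨ Cns (D.pS e g p) v a) ∨ (∃ C ∈ D.tc, ∀ v ∈ D.pS e g p, v ∈ C) ∨
    (∃ f ∈ D.E, ∀ v ∈ D.pS e g p, v ∈ f ∨ ∃ u ∈ f, Cns (D.pS e g p) v u) := by
  have hk2 : D.kdp (e (ap g (p, false))).1 = Kind.b := by
    rw [D.kdI_port e he]
    exact hk
  unfold pS
  rcases D.pp_core (e (ap g (p, false))).2 hk2 with ⟨a, haA, h1, h2⟩ | ⟨f, hf, h1⟩
  · rcases D.tcA a haA with h3 | ⟨C, hC, haC⟩
    · exact Or.inl ⟨a, h3, h1⟩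
    · refine Or.inr (Or.inl ⟨C, hC, fun v hv => ?_⟩)
      rcases h2 v hv with h4 | h4 | h4
      · rw [h4]
        exact haC
      · rw [h4]
        exact (D.tcπ C hC a haC).1
      · rw [h4]
        exact D.inq8_symm hC haC
  · exact Or.inr (Or.inr ⟨f, hf, h1⟩)

theorem l_con (R : PM (Port D.π)) {C : Finset V} (hC : C ∈ D.tc) : Con (Gr D.π R) C := by
  obtain ⟨h1, h2⟩ := D.tcC C hC
  refine ⟨h1, fun U hU hne hneq => ?_⟩
  by_contra hcon
  apply hneq
  apply h2 U hU hne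
  intro v hv
  by_contra hv2
  exact hcon ⟨v, hv, D.π v, (D.tcπ C hC v (hU hv)).1, hv2, D.gr_π R v⟩

theorem l_tc (g : SB ι) {R : PM (Port D.π)} (hc : Cubic (Gr D.π (conjPM (D.act e g) R)))
    {C : Finset V} (hC : C ∈ D.tc) {v : V} (hv : v ∈ C) :
    ∃ y ∈ C, ∃ z ∈ C, y ≠ z ∧ (Gr D.π (conjPM (D.act e g) R)).Adj v y ∧
      (Gr D.π (conjPM (D.act e g) R)).Adj v z ∧
      (∀ x, D.vtI e (ap g x) = v → D.nS e g (conjPM (D.act e g) R) x ≠ y ∧
        D.nS e g (conjPM (D.act e g) R) x ≠ z) ∧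
      (∀ x, D.outI e R x = none → D.nS e g (conjPM (D.act e g) R) x = v →
        D.vtI e (ap g x) ≠ y ∧ D.vtI e (ap g x) ≠ z) := by
  obtain ⟨h1, h2⟩ := D.tcπ C hC v hv
  refine ⟨D.π v, h1, D.π.symm v, D.inq8_symm hC hv, ?_, D.gr_π _ v, ?_, ?_, ?_⟩
  · intro h
    apply h2
    unfold IsD
    rw [h, Equiv.apply_symm_apply]
  · have h3 := D.gr_π (conjPM (D.act e g) R) (D.π.symm v)
    rw [Equiv.apply_symm_apply] at h3
    exact h3.symm
  · intro x hx
    obtain ⟨-, g1, g2, -⟩ := D.gr_ports _ hc (e (ap g x)).1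
    have h3 : (e (ap g x)).1.1.1 = v := hx
    rw [h3] at g1 g2
    exact ⟨g1, g2⟩
  · intro x _ hx
    obtain ⟨-, g1, g2, -⟩ := D.gr_ports _ hc ((conjPM (D.act e g) R).1 (e (ap g x)).1)
    have h3 : ((conjPM (D.act e g) R).1 (e (ap g x)).1).1.1 = v := hx
    rw [h3, (conjPM (D.act e g) R).2.1] at g1 g2
    exact ⟨g1, g2⟩

end Dat

end Pool.Agent.H38H.IN
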