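import Pool.Agent.Lib.H38H.IN.Q4
import Pool.Agent.Lib.H38H.IN.Q6
import Pool.Agent.Lib.H38H.IN.Q8

/-! Module IN: the local model of a conjugate matching (assembly). -/

set_option autoImplicit false

namespace Pool.Agent.H38H.IN

open Classical

namespace Dat
variable {V : Type} [Fintype V] (D : Dat V) {ι : Type} [Fintype ι] (e : ι × Bool ≃ {p : Port D.π // D.Opn p})

noncomputable def locOf (he : ∀ x, (e (flip x)).1 = D.tau (e x).1) (R : PM (Port D.π)) (L : ℕ)
    (h1 : 5 * (D.A.card + 2 * D.E.card) ≤ L) (h2 : 2 * longCycles D.π ≤ L)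
    (h3 : FewE (fun x => (e x).1) R L) (hR : Contains R D.ξ) (g : SB ι)
    (hc : Cubic (Gr D.π (conjPM (D.act e g) R))) :
    Loc (Gr D.π (conjPM (D.act e g) R)) D.E D.A1 D.tc (D.inst e he R L h1 h2 h3) g where
  μ := D.μ
  pth := D.pS e g
  vx := fun x => D.vtI e (ap g x)
  nb := D.nS e g (conjPM (D.act e g) R)
  μμ := D.mat.inv
  μ_adj := D.lμ_adj (conjPM (D.act e g) R)
  nodup := D.pS_nodup e g
  cover := D.pS_cover e he g
  uniq := D.pS_uniq e he g
  head := D.pS_head e g
  last := D.pS_last e he g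
  chain := fun p u v h => D.gr_chain (conjPM (D.act e g) R) (D.conj_contains e g hR) (e (ap g (p, false))).2 hc h
  len_c := fun p h => (D.pS_len e he g p).1 h
  len_d := fun p h => (D.pS_len e he g p).2.1 h
  len_b := fun p h => (D.pS_len e he g p).2.2 h
  mark := D.pS_mark e he g
  μ_ne := fun p v hv hk => D.lμ_ne e he g p v hv hk
  μ_kind := fun p q v hv hv' hk hk' => D.lμ_kind e he g p q v hv hv' hk hk'
  Mc_iff := fun x y hx hy => D.lMc e he g x y hx hy
  Md_iff := fun x y hx hy => D.lMd e he g x y hx hy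
  out_some := fun x y h => D.lout_some e g h
  nb_adj := fun x => (D.l_nb e g hc x).1
  nb_μ := fun x => (D.l_nb e g hc x).2
  nb_pth := fun x v h => D.l_nb_pth e he g (D.conj_contains e g hR) hc x v h
  nb_d := fun x hk => D.l_nb_d e he g hc x hk
  end_obj := fun x h => D.lend_obj e g hR h
  end_inj := fun x y hx hy h => D.lend_inj e g hR hx hy h
  core := fun p hk => D.l_core e he g p hk
  tc_con := fun C hC => D.l_con (conjPM (D.act e g) R) hC
  tc_nb := fun C hC v hv => D.l_tc e g hc hC hv

end Dat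

end Pool.Agent.H38H.IN
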