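import Pool.Agent.Lib.H38H.IN.R0

set_option autoImplicit false

namespace Pool.Agent.H38H.IN

open Classical

variable {V ι : Type} [Fintype V] [Fintype ι] {L : ℕ} {G : SimpleGraph V} {E : Finset (Sym2 V)}
    {A1 : Finset V} {tc : Finset (Finset V)} {I : Inst ι L} {h : SB ι}

/-! Chunk INR1 (S/M): first facts about the local model (R0.lean for lists; `flip (p,i) = (p,!i)`, `vx (p,false)` is the head of `pth p` and
`vx (p,true)` its last element). For a slot of kind c the path is `[vx (p,false), vx (p,true)]`, for kind d it is `[vx (p,false)]`. ap_pa: definitions. -/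

theorem ap_pa (h : SB ι) (y : ι × Bool) : ap h (pa h y) = y := by
  obtain ⟨a, b⟩ := y
  unfold ap pa
  simp

theorem pa_ap (h : SB ι) (x : ι × Bool) : pa h (ap h x) = x := by
  obtain ⟨a, b⟩ := x
  unfold ap pa
  simp

theorem flip_flip (x : ι × Bool) : flip (flip x) = x := by
  obtain ⟨a, b⟩ := x
  unfold flip
  simp

theorem eq_or_flip {x y : ι × Bool} (h1 : x.1 = y.1) : y = x ∨ y = flip x := by
  obtain ⟨a, b⟩ := x
  obtain ⟨a', b'⟩ := y
  simp only at h1
  subst h1
  unfold flip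
  cases b <;> cases b' <;> simp

theorem vx_mem (l : Loc G E A1 tc I h) (x : ι × Bool) : l.vx x ∈ l.pth x.1 := by
  obtain ⟨p, b⟩ := x
  cases b with
  | false => exact List.mem_of_mem_head? (l.head p)
  | true => exact List.mem_of_mem_getLast? (l.last p)

theorem c_cns (l : Loc G E A1 tc I h) {x : ι × Bool} (hk : I.kind (h.1 x.1) = Kind.c) :
    Cns (l.pth x.1) (l.vx x) (l.vx (flip x)) ∧ l.vx (flip x) ≠ l.vx x := by
  obtain ⟨p, b⟩ := x
  obtain ⟨_, h2, h3⟩ := cns_two (l.head p) (l.last p) (l.len_c p hk) (l.nodup p)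
  cases b with
  | false => exact ⟨h3, h2.symm⟩
  | true => exact ⟨h3.symm, h2⟩

theorem d_eq (l : Loc G E A1 tc I h) {x : ι × Bool} (hk : I.kind (h.1 x.1) = Kind.d) :
    l.vx (flip x) = l.vx x := by
  obtain ⟨p, b⟩ := x
  obtain ⟨_, h2⟩ := list_one (l.head p) (l.last p) (l.len_d p hk)
  cases b with
  | false => exact h2.symm
  | true => exact h2

theorem inr1_two (l : Loc G E A1 tc I h) {p : ι} (hk : I.kind (h.1 p) ≠ Kind.d) : 2 ≤ (l.pth p).length := by
  cases hk' : I.kind (h.1 p) with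
  | b => exact (l.len_b p hk').1
  | c => exact (l.len_c p hk').ge
  | d => exact absurd hk' hk

theorem b_ne (l : Loc G E A1 tc I h) {x : ι × Bool} (hk : I.kind (h.1 x.1) ≠ Kind.d) :
    l.vx (flip x) ≠ l.vx x := by
  obtain ⟨p, b⟩ := x
  have h2 := head_ne_last (l.nodup p) (l.head p) (l.last p) (inr1_two l hk)
  cases b with
  | false => exact h2.symm
  | true => exact h2

theorem pth_mem (l : Loc G E A1 tc I h) {p : ι} {v : V} (hk : I.kind (h.1 p) ≠ Kind.b) (hv : v ∈ l.pth p) :
    v = l.vx (p, false) ∨ v = l.vx (p, true) := by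
  cases hk' : I.kind (h.1 p) with
  | b => exact absurd hk' hk
  | c =>
    obtain ⟨h1, _, _⟩ := cns_two (l.head p) (l.last p) (l.len_c p hk') (l.nodup p)
    rw [h1] at hv
    simpa using hv
  | d =>
    obtain ⟨h1, _⟩ := list_one (l.head p) (l.last p) (l.len_d p hk')
    rw [h1] at hv
    exact Or.inl (by simpa using hv)

theorem pth_ex (l : Loc G E A1 tc I h) {p : ι} {v : V} (hk : I.kind (h.1 p) ≠ Kind.b) (hv : v ∈ l.pth p) :
    ∃ x : ι × Bool, x.1 = p ∧ l.vx x = v := by
  rcases pth_mem l hk hv with h1 | h1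
  · exact ⟨(p, false), rfl, h1.symm⟩
  · exact ⟨(p, true), rfl, h1.symm⟩

theorem vx_slot (l : Loc G E A1 tc I h) {x y : ι × Bool} (hv : l.vx x = l.vx y) : x.1 = y.1 := by
  have h1 := vx_mem l x
  rw [hv] at h1
  exact l.uniq _ _ _ h1 (vx_mem l y)

theorem vx_inj (l : Loc G E A1 tc I h) {x y : ι × Bool} (hv : l.vx x = l.vx y)
    (hk : I.kind (h.1 x.1) ≠ Kind.d) : x = y := by
  rcases eq_or_flip (vx_slot l hv) with h1 | h1
  · exact h1.symm
  · rw [h1] at hv
    exact absurd hv.symm (b_ne l hk)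

theorem vx_d (l : Loc G E A1 tc I h) {x y : ι × Bool} (h1 : x.1 = y.1) (hk : I.kind (h.1 x.1) = Kind.d) :
    l.vx x = l.vx y := by
  rcases eq_or_flip h1 with h2 | h2
  · rw [h2]
  · rw [h2]
    exact (d_eq l hk).symm

/-- an end of a path of length at least 2 has exactly one neighbour on the path -/
theorem vx_cns (l : Loc G E A1 tc I h) {x : ι × Bool} (hk : I.kind (h.1 x.1) ≠ Kind.d) :
    ∃ u, Cns (l.pth x.1) (l.vx x) u ∧ ∀ z, Cns (l.pth x.1) (l.vx x) z → z = u := by
  obtain ⟨p, b⟩ := x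
  cases b with
  | false => exact cns_head (l.nodup p) (l.head p) (inr1_two l hk)
  | true => exact cns_last (l.nodup p) (l.last p) (inr1_two l hk)

/-- the path of a slot is a connected set -/
theorem pth_con (l : Loc G E A1 tc I h) (p : ι) : Con G (l.pth p).toFinset := by
  refine ⟨⟨l.vx (p, false), List.mem_toFinset.2 (vx_mem l (p, false))⟩, ?_⟩
  intro U hU hne hneq
  by_contra hcon
  push Not at hcon
  apply hneq
  obtain ⟨x, hx⟩ := hne
  refine Finset.Subset.antisymm hU fun y hy => ?_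
  refine cns_conn (P := fun v => v ∈ U) ?_ (List.mem_toFinset.1 (hU hx)) hx (List.mem_toFinset.1 hy)
  intro u v huv hu
  by_contra hv
  exact hcon u hu v (List.mem_toFinset.2 (cns_mem huv).2) hv (l.chain p u v huv)

theorem pth_card (l : Loc G E A1 tc I h) (p : ι) : (l.pth p).toFinset.card ≤ 4 := by
  refine (List.toFinset_card_le _).trans ?_
  cases hk' : I.kind (h.1 p) with
  | b => exact (l.len_b p hk').2
  | c =>
    rw [l.len_c p hk']
    norm_num
  | d =>
    rw [l.len_d p hk']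
    norm_num

theorem outer_nb (l : Loc G E A1 tc I h) {x y : ι × Bool} (h1 : I.outer x = some y) :
    l.nb x = l.vx y ∧ l.nb y = l.vx x ∧ G.Adj (l.vx x) (l.vx y) := by
  have h2 := l.out_some x y h1
  refine ⟨h2, l.out_some y x (I.outer_symm _ _ h1), ?_⟩
  rw [← h2]
  exact l.nb_adj x

end Pool.Agent.H38H.IN
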