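import Pool.Agent.Lib.H38H.IN.R1

set_option autoImplicit false

namespace Pool.Agent.H38H.IN

open Classical

variable {V ι : Type} [Fintype V] [Fintype ι] {L : ℕ} {G : SimpleGraph V} {E : Finset (Sym2 V)}
    {A1 : Finset V} {tc : Finset (Finset V)} {I : Inst ι L} {h : SB ι}

/-! Chunk INR2 (M): one step. Unfold `Inst.step`. Kind c: `Mc (ap h x) = some y'`, `w = pa h y'`, so `ap h w = y'`; `Mc_symm` and `Mc_kind` show that the slot
of `w` has kind c too, Mc_iff gives `vx w = μ (vx x)`. With the bit true `x' = flip w`; otherwise `outer w = some x'`. Kind d: `Md (h.1 x.1) = some a`,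
`w = pa h (a, β)`, `h.1 w.1 = a`, `outer w = some x'`. step_facts: `μ (vx w) = vx x`. Mid step: `vx (flip w)` is in `pth w.1`,
`μ (vx w)` is not (μ_ne), so `vx x' ≠ vx x`; `μ (vx x') ∉ pth w.1` so `vx w ≠ μ (vx x')`. Outer step: `nb w = vx x'`, `nb x' = vx w` (outer_nb) and nb_μ.
step_some: `μ (vx x)` lies in a path `pth q` (cover) of kind not b, so of the kind of `x` (μ_kind), it is `vx y` for some position `y` of `q`
(pth_ex), `Mc_iff`/`Md_iff`. step_bit: if `β ≠ β'`: kind c: the same `w`, `vx x' = vx (flip w)` and `vx x1 = nb w` (or conversely) differ by nb_pth (c_cns).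
Kind d: `w1 = flip w` up to order (the positions of `(a,true)`, `(a,false)`), `vx x' = nb w`, `vx x1 = nb (flip w)`, nb_d. -/

/-- the shape of a step -/
theorem inr2_cases {x w x' : ι × Bool} {β : Bool} (hs : I.step h x β = some (w, x')) :
    (I.kind (h.1 x.1) = Kind.c ∧ I.Mc (ap h x) = some (ap h w) ∧
      ((β = true ∧ x' = flip w) ∨ (β = false ∧ I.outer w = some x'))) ∨
    (I.kind (h.1 x.1) = Kind.d ∧ I.Md (h.1 x.1) = some (h.1 w.1) ∧ (ap h w).2 = β ∧
      I.outer w = some x') := by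
  unfold Inst.step at hs
  have hk : (ap h x).1 = h.1 x.1 := rfl
  rw [hk] at hs
  cases hkk : I.kind (h.1 x.1) with
  | c =>
    rw [hkk] at hs
    simp only at hs
    left
    rw [Option.bind_eq_some_iff] at hs
    obtain ⟨y, hy, hs⟩ := hs
    cases β with
    | true =>
      simp only [if_true, Option.some.injEq, Prod.mk.injEq] at hs
      obtain ⟨h1, h2⟩ := hs
      refine ⟨rfl, ?_, Or.inl ⟨rfl, ?_⟩⟩
      · rw [← h1, ap_pa]; exact hy
      · rw [← h2, h1]
    | false =>
      simp only [Bool.false_eq_true, if_false, Option.map_eq_some_iff, Prod.mk.injEq] at hs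
      obtain ⟨a, ha, h1, h2⟩ := hs
      refine ⟨rfl, ?_, Or.inr ⟨rfl, ?_⟩⟩
      · rw [← h1, ap_pa]; exact hy
      · rw [← h1, ← h2]; exact ha
  | d =>
    rw [hkk] at hs
    simp only at hs
    right
    rw [Option.bind_eq_some_iff] at hs
    obtain ⟨y, hy, hs⟩ := hs
    simp only [Option.map_eq_some_iff, Prod.mk.injEq] at hs
    obtain ⟨a, ha, h1, h2⟩ := hs
    have h3 : ap h w = (y, β) := by rw [← h1, ap_pa]
    refine ⟨rfl, ?_, ?_, ?_⟩
    · have : h.1 w.1 = y := by
        have := congrArg Prod.fst h3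
        exact this
      rw [this]
      exact hy
    · rw [h3]
    · rw [← h1, ← h2]; exact ha
  | b =>
    rw [hkk] at hs
    simp at hs

theorem step_facts (l : Loc G E A1 tc I h) {x w x' : ι × Bool} {β : Bool}
    (hs : I.step h x β = some (w, x')) :
    I.kind (h.1 x.1) ≠ Kind.b ∧ I.kind (h.1 w.1) = I.kind (h.1 x.1) ∧ l.vx w = l.μ (l.vx x) ∧
      G.Adj (l.vx w) (l.vx x') ∧ l.vx x' ≠ l.vx x ∧ l.vx w ≠ l.μ (l.vx x') ∧
      (I.outer w = some x' ∨ (I.kind (h.1 x.1) = Kind.c ∧ x' = flip w)) := by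
  rcases inr2_cases hs with ⟨hk, hM, hc⟩ | ⟨hk, hM, hc, ho⟩
  · have hkw : I.kind (h.1 w.1) = Kind.c := (I.Mc_kind _ _ (I.Mc_symm _ _ hM)).1
    have hv : l.vx w = l.μ (l.vx x) := (l.Mc_iff x w hk hkw).1 hM
    have hv2 : l.μ (l.vx w) = l.vx x := by rw [hv, l.μμ]
    have hb : I.kind (h.1 w.1) ≠ Kind.b := by rw [hkw]; simp
    refine ⟨by rw [hk]; simp, by rw [hkw, hk], hv, ?_, ?_, ?_, ?_⟩
    · rcases hc with ⟨-, hc⟩ | ⟨-, hc⟩
      · rw [hc]
        exact l.chain _ _ _ (c_cns l hkw).1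
      · exact (outer_nb l hc).2.2
    · rcases hc with ⟨-, hc⟩ | ⟨-, hc⟩
      · intro hh
        have h1 := (l.μ_ne w.1 (l.vx w) (vx_mem l w) hb).2
        rw [hv2, ← hh, hc] at h1
        exact h1 (vx_mem l (flip w))
      · intro hh
        have h1 := l.nb_μ w
        rw [hv2, (outer_nb l hc).1] at h1
        exact h1 hh
    · rcases hc with ⟨-, hc⟩ | ⟨-, hc⟩
      · intro hh
        have h1 := (l.μ_ne w.1 (l.vx (flip w)) (vx_mem l (flip w)) hb).2
        rw [← hc, ← hh] at h1
        exact h1 (vx_mem l w)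
      · intro hh
        have h1 := l.nb_μ x'
        rw [(outer_nb l hc).2.1] at h1
        exact h1 hh
    · rcases hc with ⟨-, hc⟩ | ⟨-, hc⟩
      · exact Or.inr ⟨hk, hc⟩
      · exact Or.inl hc
  · have hkw : I.kind (h.1 w.1) = Kind.d := (I.Md_kind _ _ (I.Md_symm _ _ hM)).1
    have hv : l.vx w = l.μ (l.vx x) := (l.Md_iff x w hk hkw).1 hM
    have hv2 : l.μ (l.vx w) = l.vx x := by rw [hv, l.μμ]
    refine ⟨by rw [hk]; simp, by rw [hkw, hk], hv, (outer_nb l ho).2.2, ?_, ?_, Or.inl ho⟩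
    · intro hh
      have h1 := l.nb_μ w
      rw [hv2, (outer_nb l ho).1] at h1
      exact h1 hh
    · intro hh
      have h1 := l.nb_μ x'
      rw [(outer_nb l ho).2.1] at h1
      exact h1 hh

theorem step_some (l : Loc G E A1 tc I h) {x : ι × Bool} (hk : I.kind (h.1 x.1) ≠ Kind.b)
    (h1 : ∀ q, l.μ (l.vx x) ∈ l.pth q → I.kind (h.1 q) ≠ Kind.b)
    (h2 : ∀ w, l.vx w = l.μ (l.vx x) → I.outer w ≠ none) (β : Bool) : (I.step h x β).isSome := by
  obtain ⟨q, hq⟩ := l.cover (l.μ (l.vx x))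
  have hkq := h1 q hq
  have hkk := l.μ_kind x.1 q (l.vx x) (vx_mem l x) hq hk hkq
  obtain ⟨y, hy1, hy2⟩ := pth_ex l hkq hq
  subst hy1
  unfold Inst.step
  have hk' : (ap h x).1 = h.1 x.1 := rfl
  rw [hk']
  cases hkx : I.kind (h.1 x.1) with
  | c =>
    have hM := (l.Mc_iff x y hkx (by rw [← hkk, hkx])).2 hy2
    simp only [hM, Option.bind_some, pa_ap]
    cases β with
    | true => simp
    | false =>
      have := h2 y hy2
      rw [← Option.isSome_iff_ne_none] at this
      simpa using this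
  | d =>
    have hky : I.kind (h.1 y.1) = Kind.d := by rw [← hkk, hkx]
    have hM := (l.Md_iff x y hkx hky).2 hy2
    simp only [hM, Option.bind_some]
    have h3 : (pa h (h.1 y.1, β)).1 = y.1 := by simp [pa]
    have h4 : l.vx (pa h (h.1 y.1, β)) = l.vx y := vx_d l h3 (by rw [h3]; exact hky)
    have := h2 _ (h4.trans hy2)
    rw [← Option.isSome_iff_ne_none] at this
    simpa using this
  | b => exact absurd hkx hk

theorem step_bit (l : Loc G E A1 tc I h) {x w x' w1 x1 : ι × Bool} {β β' : Bool}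
    (hs : I.step h x β = some (w, x')) (hs' : I.step h x β' = some (w1, x1))
    (hv : l.vx x' = l.vx x1) : β = β' := by
  by_contra hne
  have hsf := step_facts l hs
  rcases inr2_cases hs with ⟨hk, hM, hc⟩ | ⟨hk, hM, hc, ho⟩
  · rcases inr2_cases hs' with ⟨hk', hM', hc'⟩ | ⟨hk', hM', hc', ho'⟩
    · have hkw : I.kind (h.1 w.1) = Kind.c := (I.Mc_kind _ _ (I.Mc_symm _ _ hM)).1
      have hw : w1 = w := by
        have h1 : ap h w = ap h w1 := by
          rw [hM] at hM'
          exact Option.some.inj hM'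
        rw [← pa_ap h w1, ← h1, pa_ap]
      subst hw
      rcases hc with ⟨hb, hc⟩ | ⟨hb, hc⟩ <;> rcases hc' with ⟨hb', hc'⟩ | ⟨hb', hc'⟩
      · exact hne (by rw [hb, hb'])
      · have h1 := l.nb_pth w1 (l.vx (flip w1)) (c_cns l hkw).1
        rw [(outer_nb l hc').1, ← hc] at h1
        exact h1 hv.symm
      · have h1 := l.nb_pth w1 (l.vx (flip w1)) (c_cns l hkw).1
        rw [(outer_nb l hc).1, ← hc'] at h1
        exact h1 hv
      · exact hne (by rw [hb, hb'])
    · rw [hk] at hk'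
      exact absurd hk' (by simp)
  · rcases inr2_cases hs' with ⟨hk', hM', hc'⟩ | ⟨hk', hM', hc', ho'⟩
    · rw [hk] at hk'
      exact absurd hk' (by simp)
    · have hkw : I.kind (h.1 w.1) = Kind.d := (I.Md_kind _ _ (I.Md_symm _ _ hM)).1
      have h1 : w.1 = w1.1 := by
        rw [hM] at hM'
        exact h.1.injective (Option.some.inj hM')
      rcases eq_or_flip h1 with h2 | h2
      · subst h2
        exact hne (by rw [← hc, ← hc'])
      · subst h2
        have h3 := l.nb_d w hkw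
        rw [(outer_nb l ho).1, (outer_nb l ho').1] at h3
        exact h3 hv

end Pool.Agent.H38H.IN
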