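import Pool.Agent.Lib.H38H.IN.R1
import Pool.Agent.Lib.H38H.IN.G3

set_option autoImplicit false

namespace Pool.Agent.H38H.IN

open Classical

variable {V ι : Type} [Fintype V] [Fintype ι] {L : ℕ} {G : SimpleGraph V} {E : Finset (Sym2 V)}
    {A1 : Finset V} {tc : Finset (Finset V)} {I : Inst ι L} {h : SB ι}

/-! Chunk INR3 (M): the vertex set `l.Z x` of a component of `F` without ends. `SameF` is an equivalence relation (`FAdj` is symmetric). If `SameF x y` then
all of `pth y.1` is in `Z x`, and `SameF x (flip y)`, and `SameF x y'` for `outer y = some y'`.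
z_cyc, two neighbours: `v ∈ pth y.1`. If `v` is not an end of the path: two neighbours on the path (cns_inner). If `v = vx y'`, `y'.1 = y.1` and the path has
length at least 2: the neighbour on the path (vx_cns) and `nb y' = vx (outer y')`, different by nb_pth. Kind d: `nb y` and
`nb (flip y)`, nb_d. Connected: let `U` be a nonempty part of `Z` that no edge to the rest leaves. With one vertex of a path it contains
the whole path (cns_conn), then the vertex `vx (outer y)` for the positions `y` of that slot, so by induction along SameF everything.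
z_card: the map `y ↦ y.1` is two-to-one from the positions of the component to its slots, so at most `K` slots, at most 4 vertices each.
z_μ: two neighbours of `vx x` in `Z` different from `μ (vx x)`: kind c: `vx (flip x)` (not `μ` by μ_ne) and `nb x` (nb_μ);
kind d: `nb x`, `nb (flip x)` (nb_μ, d_eq). With `ex Z ≤ 0` use cyc_out. z_same: a vertex of `Z x` and `Z y` lies on the path of one slot (uniq). -/

private theorem inr3_nb_mem (l : Loc G E A1 tc I h) {K : ℕ} {x : ι × Bool} (h1 : I.Tiny K x)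
    {y : ι × Bool} (h2 : I.SameF x y) : l.nb y ∈ l.Z x := by
  cases hz : I.outer y with
  | none => exact absurd hz (h1.1 y h2)
  | some z =>
    have h3 := (outer_nb l hz).1
    rw [h3]
    unfold Loc.Z
    rw [Finset.mem_filter]
    exact ⟨Finset.mem_univ _, z, h2.trans (Relation.ReflTransGen.single (Or.inr hz)), vx_mem l z⟩

theorem sameF_symm (I : Inst ι L) {x y : ι × Bool} (h1 : I.SameF x y) : I.SameF y x := by
  have h2 : ∀ a b, I.FAdj a b → I.FAdj b a := by
    intro a b hab
    rcases hab with h3 | h3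
    · left
      rw [h3, flip_flip]
    · right
      exact I.outer_symm a b h3
  unfold Inst.SameF at h1 ⊢
  induction h1 with
  | refl => exact Relation.ReflTransGen.refl
  | tail _ hc ih => exact Relation.ReflTransGen.head (h2 _ _ hc) ih

theorem sameF_flip (I : Inst ι L) (x : ι × Bool) : I.SameF x (flip x) :=
  Relation.ReflTransGen.single (Or.inl rfl)

theorem tiny_same (I : Inst ι L) {K : ℕ} {x y : ι × Bool} (h1 : I.Tiny K x) (h2 : I.SameF x y) :
    I.Tiny K y := by
  refine ⟨fun z hz => h1.1 z (h2.trans hz), ?_⟩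
  have h3 : (fun z => I.SameF y z) = (fun z => I.SameF x z) := by
    funext z
    exact propext ⟨fun hz => h2.trans hz, fun hz => (sameF_symm I h2).trans hz⟩
  have h4 : Nat.card {z // I.SameF y z} = Nat.card {z // I.SameF x z} := by
    rw [h3]
  rw [h4]
  exact h1.2

theorem z_sub (l : Loc G E A1 tc I h) {x y : ι × Bool} (h1 : I.SameF x y) : ∀ v ∈ l.pth y.1, v ∈ l.Z x := by
  intro v hv
  unfold Loc.Z
  rw [Finset.mem_filter]
  exact ⟨Finset.mem_univ _, y, h1, hv⟩

private theorem inr3_con (l : Loc G E A1 tc I h) (x : ι × Bool) : Con G (l.Z x) := by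
  refine ⟨⟨l.vx x, z_sub l Relation.ReflTransGen.refl _ (vx_mem l x)⟩, ?_⟩
  intro U hU hne hneq
  by_contra hcon
  push Not at hcon
  have hA : ∀ y, I.SameF x y → (∃ v ∈ l.pth y.1, v ∈ U) → ∀ v ∈ l.pth y.1, v ∈ U := by
    intro y hy hv
    obtain ⟨v, hv1, hv2⟩ := hv
    intro w hw
    refine cns_conn (P := fun v => v ∈ U) ?_ hv1 hv2 hw
    intro a b hab ha
    by_contra hb
    exact hcon a ha b (z_sub l hy b (cns_mem hab).2) hb (l.chain y.1 a b hab)
  have hB : ∀ y y', I.SameF x y → l.vx y ∈ U → I.SameF y y' → l.vx y' ∈ U := by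
    intro y y' hy hu hyy
    unfold Inst.SameF at hyy
    induction hyy with
    | refl => exact hu
    | @tail b c hb hc ih =>
      have hxb : I.SameF x b := hy.trans hb
      rcases hc with rfl | hc
      · exact hA b hxb ⟨l.vx b, vx_mem l b, ih⟩ _ (vx_mem l (flip b))
      · by_contra hn
        exact hcon _ ih _ (z_sub l (hxb.trans (Relation.ReflTransGen.single (Or.inr hc))) _ (vx_mem l c)) hn
          (outer_nb l hc).2.2
  obtain ⟨u, hu⟩ := hne
  have hu' := hU hu
  unfold Loc.Z at hu'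
  rw [Finset.mem_filter] at hu'
  obtain ⟨_, y0, hy0, huy⟩ := hu'
  have h0 : l.vx y0 ∈ U := hA y0 hy0 ⟨u, huy, hu⟩ _ (vx_mem l y0)
  apply hneq
  apply Finset.Subset.antisymm hU
  intro v hv
  unfold Loc.Z at hv
  rw [Finset.mem_filter] at hv
  obtain ⟨_, y1, hy1, hvy⟩ := hv
  have h1 : l.vx y1 ∈ U := hB y0 y1 hy0 h0 ((sameF_symm I hy0).trans hy1)
  exact hA y1 hy1 ⟨_, vx_mem l y1, h1⟩ v hvy

private theorem inr3_end (l : Loc G E A1 tc I h) {K : ℕ} {x : ι × Bool} (h1 : I.Tiny K x)
    {y : ι × Bool} (h2 : I.SameF x y) : 2 ≤ dg G (l.vx y) (l.Z x) := by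
  have hf : I.SameF x (flip y) := h2.trans (sameF_flip I y)
  by_cases hk : I.kind (h.1 y.1) = Kind.d
  · have h3 := d_eq l hk
    refine two_le_dg G (inr3_nb_mem l h1 h2) (inr3_nb_mem l h1 hf) (l.nb_adj y) ?_ (l.nb_d y hk)
    have := l.nb_adj (flip y)
    rwa [h3] at this
  · obtain ⟨u, hu, _⟩ := vx_cns l hk
    exact two_le_dg G (inr3_nb_mem l h1 h2) (z_sub l h2 u (cns_mem hu).2) (l.nb_adj y)
      (l.chain y.1 _ _ hu) (l.nb_pth y u hu)

theorem z_cyc (l : Loc G E A1 tc I h) {K : ℕ} {x : ι × Bool} (h1 : I.Tiny K x) : Cyc G (l.Z x) := by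
  refine ⟨inr3_con l x, ?_⟩
  intro v hv
  have hv' := hv
  unfold Loc.Z at hv'
  rw [Finset.mem_filter] at hv'
  obtain ⟨_, y, hy, hvy⟩ := hv'
  have hyy : ∀ b, I.SameF x (y.1, b) := by
    intro b
    rcases eq_or_flip (x := y) (y := (y.1, b)) rfl with h3 | h3
    · rw [h3]
      exact hy
    · rw [h3]
      exact hy.trans (sameF_flip I y)
  by_cases hf : v = l.vx (y.1, false)
  · rw [hf]
    exact inr3_end l h1 (hyy false)
  by_cases ht : v = l.vx (y.1, true)
  · rw [ht]
    exact inr3_end l h1 (hyy true)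
  obtain ⟨a, b, hab, ha, hb, _⟩ := cns_inner (l.nodup y.1) (l.head y.1) (l.last y.1) hvy hf ht
  exact two_le_dg G (z_sub l hy a (cns_mem ha).2) (z_sub l hy b (cns_mem hb).2)
    (l.chain y.1 _ _ ha) (l.chain y.1 _ _ hb) hab

theorem z_card (l : Loc G E A1 tc I h) {K : ℕ} {x : ι × Bool} (h1 : I.Tiny K x) :
    (l.Z x).card ≤ 4 * K := by
  have hP : Nat.card {y // I.SameF x y} = (Finset.univ.filter (fun y => I.SameF x y)).card := by
    rw [Nat.card_eq_fintype_card, Fintype.card_subtype]
  set P : Finset (ι × Bool) := Finset.univ.filter (fun y => I.SameF x y) with hPd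
  set S : Finset ι := P.image Prod.fst with hS
  have h2 : S ×ˢ (Finset.univ : Finset Bool) ⊆ P := by
    intro z hz
    rw [Finset.mem_product] at hz
    have hz1 := hz.1
    rw [hS, Finset.mem_image] at hz1
    obtain ⟨y, hy, hyz⟩ := hz1
    rw [hPd, Finset.mem_filter] at hy
    rw [hPd, Finset.mem_filter]
    refine ⟨Finset.mem_univ _, ?_⟩
    rcases eq_or_flip (x := y) (y := z) hyz with h3 | h3
    · rw [h3]
      exact hy.2
    · rw [h3]
      exact hy.2.trans (sameF_flip I y)
  have h3 := Finset.card_le_card h2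
  rw [Finset.card_product, Finset.card_univ, Fintype.card_bool] at h3
  have h4 : l.Z x ⊆ S.biUnion (fun p => (l.pth p).toFinset) := by
    intro v hv
    unfold Loc.Z at hv
    rw [Finset.mem_filter] at hv
    obtain ⟨_, y, hy, hvy⟩ := hv
    rw [Finset.mem_biUnion]
    refine ⟨y.1, ?_, List.mem_toFinset.mpr hvy⟩
    rw [hS, Finset.mem_image]
    exact ⟨y, Finset.mem_filter.mpr ⟨Finset.mem_univ _, hy⟩, rfl⟩
  have h5 := Finset.card_le_card h4
  have h6 := Finset.card_biUnion_le_card_mul S (fun p => (l.pth p).toFinset) 4 (fun p _ => pth_card l p)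
  have h7 := h1.2
  rw [hP] at h7
  omega

theorem z_μ (l : Loc G E A1 tc I h) {K : ℕ} {x : ι × Bool} (h1 : I.Tiny K x) (he : ex G (l.Z x) ≤ 0)
    (hk : I.kind (h.1 x.1) ≠ Kind.b) : l.μ (l.vx x) ∉ l.Z x := by
  have hrefl : I.SameF x x := Relation.ReflTransGen.refl
  have hf : I.SameF x (flip x) := sameF_flip I x
  obtain ⟨h2, h3⟩ := l.μ_ne x.1 (l.vx x) (vx_mem l x) hk
  have h4 := l.μ_adj (l.vx x) h2
  have hv : l.vx x ∈ l.Z x := z_sub l hrefl _ (vx_mem l x)
  by_cases hd : I.kind (h.1 x.1) = Kind.d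
  · have h5 := d_eq l hd
    have h6 := l.nb_adj (flip x)
    rw [h5] at h6
    refine cyc_out G (z_cyc l h1) he hv (inr3_nb_mem l h1 hrefl) (inr3_nb_mem l h1 hf) (l.nb_adj x) h6
      (l.nb_d x hd) h4 (fun hh => l.nb_μ x hh.symm) ?_
    intro hh
    apply l.nb_μ (flip x)
    rw [h5]
    exact hh.symm
  · have hc : I.kind (h.1 x.1) = Kind.c := by
      cases hh : I.kind (h.1 x.1) with
      | c => rfl
      | d => exact absurd hh hd
      | b => exact absurd hh hk
    obtain ⟨h5, h6⟩ := c_cns l hc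
    have h7 : l.vx (flip x) ∈ l.pth x.1 := (cns_mem h5).2
    refine cyc_out G (z_cyc l h1) he hv (z_sub l hrefl _ h7) (inr3_nb_mem l h1 hrefl) (l.chain x.1 _ _ h5)
      (l.nb_adj x) (fun hh => l.nb_pth x _ h5 hh.symm) h4 ?_ (fun hh => l.nb_μ x hh.symm)
    intro hh
    rw [hh] at h3
    exact h3 h7

theorem z_same (l : Loc G E A1 tc I h) {x y : ι × Bool} {v : V} (h1 : v ∈ l.Z x) (h2 : v ∈ l.Z y) :
    I.SameF x y := by
  unfold Loc.Z at h1 h2
  rw [Finset.mem_filter] at h1 h2
  obtain ⟨_, a, ha, hva⟩ := h1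
  obtain ⟨_, b, hb, hvb⟩ := h2
  have h3 := l.uniq v a.1 b.1 hva hvb
  have h4 : I.SameF a b := by
    rcases eq_or_flip (x := a) (y := b) h3 with h5 | h5
    · rw [h5]
      exact Relation.ReflTransGen.refl
    · rw [h5]
      exact sameF_flip I a
  exact (ha.trans h4).trans (sameF_symm I hb)

theorem z_eq (l : Loc G E A1 tc I h) {x y : ι × Bool} (h1 : I.SameF x y) : l.Z x = l.Z y := by
  ext v
  unfold Loc.Z
  rw [Finset.mem_filter, Finset.mem_filter]
  constructor
  · rintro ⟨_, a, ha, hva⟩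
    exact ⟨Finset.mem_univ _, a, (sameF_symm I h1).trans ha, hva⟩
  · rintro ⟨_, a, ha, hva⟩
    exact ⟨Finset.mem_univ _, a, h1.trans ha, hva⟩

end Pool.Agent.H38H.IN
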