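import Pool.Agent.Lib.H38H.IN.R3
import Pool.Agent.Lib.H38H.IN.G6

set_option autoImplicit false

namespace Pool.Agent.H38H.IN

open Classical

variable {V ι : Type} [Fintype V] [Fintype ι] {L : ℕ} {G : SimpleGraph V} {E : Finset (Sym2 V)}
    {A1 : Finset V} {tc : Finset (Finset V)} {I : Inst ι L} {h : SB ι} {r K s κ κ' : ℕ}

/-! Chunk INR4 (M): objects are rigid and far from each other. Call an object other than `{a}` fat: a mark `{u,v}` (connected since `s(u,v)` is an edge of `G`: fields mark, chain; `ex = -1` at least and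
`mIn ≥ 1`), a tiny odd cycle (Cyc by tc_con, tc_nb, two_le_dg; `ex ≥ 0`), `Z x` for tiny `x` (z_cyc, z_card). A fat object has `ex + mIn ≥ 0` and at most `s` vertices, so
it is Rigid with `b = κ - s` (rigid_of_nice). `{a}` is Rigid with `b = κ' - 1` (rigid_of_clean).
Near objects: `z` is at distance at most `n ≤ 2r + 5` from `Ω` and `Ω'`; lev_path gives connected `P`, `P'` with at most `n+1` vertices containing `z` and
meeting `Ω`, `Ω'`; `P ∪ P'` is connected (con_union). (a) `Ω = {a}`: then `W = P ∪ P'` contains `a`, and CLEAN for `W` shows that `W` contains no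
mark endpoint, meets no tiny odd cycle and contains no other `a'`; if `Ω' = Z x` then `W ∪ Z x` (at most `4K + 2n + 2 ≤ κ'` vertices, connected, `ex ≥ 0` by
ex_mono and cyc_ex) contradicts CLEAN. (b) both fat, `W = Ω ∪ P ∪ P' ∪ Ω'` connected, at most `2s + 2n + 2 ≤ κ` vertices, `ex W + mIn W ≤ 0`. Two different marks: disjoint,
`mIn W ≥ 2`, `ex W ≥ -1`, contradiction. A mark and a cycle: `ex W ≥ 0` (ex_mono), `mIn W ≥ 1`, contradiction. Two
cycles: cyc_near in both directions (distances at most `2n`: `P ∪ P'` has at most `2n+2` vertices, con_lev; `b = κ - s`) gives `Ω = Ω'` as sets. So obj_near.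
z_obj: it remains to exclude `Z x = C ∈ tc`: `v = vx x ∈ C` has two neighbours in `C` different from `nb x` (tc_nb), and `nb x = vx (outer x) ∈ Z x = C`
(outer x is some position as `x` is tiny), so `ex C ≥ 1` by cyc_out, contradiction to Nice. z_z: z_same. -/

theorem inr4_q (G : SimpleGraph V) {Ω Ω' : Finset V} {z : V} {n : ℕ} (hz : z ∈ Lev G Ω n)
    (hz' : z ∈ Lev G Ω' n) : ∃ Q : Finset V, Con G Q ∧ z ∈ Q ∧ (∃ w ∈ Q, w ∈ Ω) ∧ (∃ w ∈ Q, w ∈ Ω') ∧
      Q.card ≤ 2 * n + 2 := by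
  obtain ⟨P, h1, h2, ⟨w, hw, hw'⟩, h4, -, -, -⟩ := lev_path G hz
  obtain ⟨P', h1', h2', ⟨w', hw1, hw1'⟩, h4', -, -, -⟩ := lev_path G hz'
  refine ⟨P ∪ P', con_union G h1 h1' h2 h2', Finset.mem_union_left _ h2, ⟨w, Finset.mem_union_left _ hw, hw'⟩,
    ⟨w', Finset.mem_union_right _ hw1, hw1'⟩, ?_⟩
  have := Finset.card_union_le P P'
  omega

theorem inr4_w (G : SimpleGraph V) {Ω Ω' : Finset V} (hc : Con G Ω) (hc' : Con G Ω') {z : V} {n : ℕ}
    (hz : z ∈ Lev G Ω n) (hz' : z ∈ Lev G Ω' n) : ∃ W : Finset V, Con G W ∧ Ω ⊆ W ∧ Ω' ⊆ W ∧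
      W.card ≤ Ω.card + Ω'.card + 2 * n + 2 := by
  obtain ⟨Q, h1, -, ⟨w, hw, hw'⟩, ⟨w', hw1, hw1'⟩, h5⟩ := inr4_q G hz hz'
  have h6 : Con G (Ω ∪ Q) := con_union G hc h1 hw' hw
  refine ⟨(Ω ∪ Q) ∪ Ω', con_union G h6 hc' (Finset.mem_union_right _ hw1) hw1',
    fun x hx => Finset.mem_union_left _ (Finset.mem_union_left _ hx), Finset.subset_union_right, ?_⟩
  have h7 := Finset.card_union_le (Ω ∪ Q) Ω'
  have h8 := Finset.card_union_le Ω Q
  omega

theorem obj_mono {Ω : Finset V} {b b' : ℕ} (h1 : Rigid G Ω b) (h2 : b' ≤ b) : Rigid G Ω b' :=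
  ⟨h1.1, fun W hW hc hcard => h1.2 W hW hc (by omega)⟩

theorem inr4_nice (H : RCH G E A1 tc r K s κ κ') {W : Finset V} (hW : W.card ≤ κ) :
    ex G W + mIn E W ≤ 0 := by
  have h1 := H.nice W hW
  unfold ex
  omega

/-- fat sets -/
theorem inr4_fat (H : RCH G E A1 tc r K s κ κ') {Ω : Finset V} (hc : Con G Ω) (h0 : 0 ≤ ex G Ω + mIn E Ω)
    (hs : Ω.card ≤ s) : Rigid G Ω (κ - s) :=
  rigid_of_nice G H.nice hc h0 (by have := H.c3; omega)

theorem inr4_tc (l : Loc G E A1 tc I h) {C : Finset V} (hC : C ∈ tc) : Cyc G C := by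
  refine ⟨l.tc_con C hC, fun v hv => ?_⟩
  obtain ⟨y, hy, z, hz, hyz, hvy, hvz, -⟩ := l.tc_nb C hC v hv
  exact two_le_dg G hy hz hvy hvz hyz

theorem inr4_cyc (H : RCH G E A1 tc r K s κ κ') {C : Finset V} (hC : Cyc G C) (hs : C.card ≤ s) :
    Rigid G C (κ - s) ∧ ex G C = 0 := by
  have h1 := cyc_ex G hC.2
  have h2 := inr4_nice H (W := C) (by have := H.c3; omega)
  have h3 : (0 : ℤ) ≤ mIn E C := Int.natCast_nonneg _
  exact ⟨inr4_fat H hC.1 (by omega) hs, by omega⟩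

theorem inr4_mark (l : Loc G E A1 tc I h) (H : RCH G E A1 tc r K s κ κ') {u v : V} (he : s(u, v) ∈ E) :
    Con G {u, v} ∧ 1 ≤ mIn E {u, v} ∧ ({u, v} : Finset V).card ≤ 2 := by
  obtain ⟨p, -, u', v', he', hcns⟩ := l.mark _ he
  have hadj := l.chain p u' v' hcns
  have huv : G.Adj u v := by
    rw [Sym2.eq_iff] at he'
    rcases he' with ⟨rfl, rfl⟩ | ⟨rfl, rfl⟩
    · exact hadj
    · exact hadj.symm
  refine ⟨con_insert G (con_singleton G v) (Finset.mem_singleton_self v) huv.symm, ?_, Finset.card_le_two⟩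
  have h1 := mIn_lt E (W := ∅) (W' := {u, v}) (Finset.empty_subset _) he (Finset.mem_insert_self _ _)
    (Finset.mem_insert_of_mem (Finset.mem_singleton_self _)) (Finset.notMem_empty _)
  omega

theorem inr4_s (H : RCH G E A1 tc r K s κ κ') : 8 * K + 20 * r + 100 ≤ κ' ∧ κ' ≤ s ∧ 20 * s + 100 ≤ κ :=
  ⟨H.c1, H.c2, H.c3⟩

theorem obj_rigid (l : Loc G E A1 tc I h) (H : RCH G E A1 tc r K s κ κ') {Ω : Finset V}
    (hΩ : Obj0 E A1 tc Ω) : Rigid G Ω (κ' - 1) ∧ ex G Ω ≤ 0 ∧ Ω.card ≤ s := by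
  obtain ⟨c1, c2, c3⟩ := inr4_s H
  rcases hΩ with ⟨a, ha, rfl⟩ | hC | ⟨u, v, he, rfl⟩
  · have h1 := (H.clean {a} (con_singleton G a) (by rw [Finset.card_singleton]; omega) a ha
      (Finset.mem_singleton_self a)).1
    refine ⟨rigid_of_clean G H.clean ha (by omega), h1.le, ?_⟩
    rw [Finset.card_singleton]
    omega
  · have h1 := inr4_cyc H (inr4_tc l hC) (H.tcs _ hC)
    exact ⟨obj_mono h1.1 (by omega), h1.2.le, H.tcs _ hC⟩
  · obtain ⟨h1, h2, h3⟩ := inr4_mark l H he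
    have h4 := con_ex G h1
    have h5 := inr4_nice H (W := {u, v}) (by omega)
    have h6 : (1 : ℤ) ≤ mIn E {u, v} := by exact_mod_cast h2
    refine ⟨obj_mono (inr4_fat H h1 (by omega) (by omega)) (by omega), by omega, by omega⟩

theorem inr4_zc (l : Loc G E A1 tc I h) (H : RCH G E A1 tc r K s κ κ') {x : ι × Bool}
    (hx : I.Tiny K x) : (l.Z x).card ≤ s := by
  obtain ⟨c1, c2, c3⟩ := inr4_s H
  have := z_card l hx
  omega

theorem z_rigid (l : Loc G E A1 tc I h) (H : RCH G E A1 tc r K s κ κ') {x : ι × Bool}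
    (hx : I.Tiny K x) : Rigid G (l.Z x) (κ' - 1) ∧ ex G (l.Z x) ≤ 0 := by
  obtain ⟨c1, c2, c3⟩ := inr4_s H
  have h1 := inr4_cyc H (z_cyc l hx) (inr4_zc l H hx)
  exact ⟨obj_mono h1.1 (by omega), h1.2.le⟩

/-- an object near a long exceptional vertex -/
theorem inr4_a (H : RCH G E A1 tc r K s κ κ') {a : V} (ha : a ∈ A1) {Ω' : Finset V}
    (hΩ' : Obj0 E A1 tc Ω') {z : V} {n : ℕ} (hn : n ≤ 2 * r + 5)
    (hz : z ∈ Lev G {a} n) (hz' : z ∈ Lev G Ω' n) : Ω' = {a} := by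
  obtain ⟨c1, c2, c3⟩ := inr4_s H
  obtain ⟨Q, h1, -, ⟨w, hw, hw'⟩, ⟨w', hw1, hw1'⟩, h5⟩ := inr4_q G hz hz'
  rw [Finset.mem_singleton] at hw'
  subst hw'
  obtain ⟨-, h6, h7, h8⟩ := H.clean Q h1 (by omega) w ha hw
  rcases hΩ' with ⟨a', ha', rfl⟩ | hC | ⟨u, v, he, rfl⟩
  · rw [Finset.mem_singleton] at hw1'
    subst hw1'
    rw [h8 w' ha' hw1]
  · exact absurd hw1 (Finset.disjoint_left.1 (h7 _ hC) hw1')
  · exact absurd hw1 (h6 _ he w' (by
      rw [Finset.mem_insert, Finset.mem_singleton] at hw1'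
      rwa [Sym2.mem_iff]))

/-- two near cycles are equal: one inclusion -/
theorem inr4_cc (H : RCH G E A1 tc r K s κ κ') {C C' : Finset V} (hC : Cyc G C) (hs : C.card ≤ s)
    (hC' : Cyc G C') (hs' : C'.card ≤ s) {z : V} {n : ℕ} (hn : n ≤ 2 * r + 5)
    (hz : z ∈ Lev G C n) (hz' : z ∈ Lev G C' n) : C' ⊆ C := by
  obtain ⟨c1, c2, c3⟩ := inr4_s H
  obtain ⟨Q, h1, h2, -, ⟨w', hw1, hw1'⟩, h5⟩ := inr4_q G hz hz'
  have h6 := con_lev G h1 h2 hz hw1
  exact cyc_near G (inr4_cyc H hC hs).1 hC' hw1' h6 (by omega)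

/-- a mark is not near a cycle -/
theorem inr4_mc (l : Loc G E A1 tc I h) (H : RCH G E A1 tc r K s κ κ') {C : Finset V} (hC : Cyc G C)
    (hs : C.card ≤ s) {u v : V} (he : s(u, v) ∈ E) {z : V} {n : ℕ} (hn : n ≤ 2 * r + 5)
    (hz : z ∈ Lev G C n) (hz' : z ∈ Lev G {u, v} n) : False := by
  obtain ⟨c1, c2, c3⟩ := inr4_s H
  obtain ⟨h1, h2, h3⟩ := inr4_mark l H he
  obtain ⟨W, hW1, hW2, hW3, hW4⟩ := inr4_w G hC.1 h1 hz hz'
  have h4 := ex_mono G hW2 hC.1.1 hW1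
  have h5 := (inr4_cyc H hC hs).2
  have h6 := mIn_mono E hW3
  have h7 := inr4_nice H (W := W) (by omega)
  omega

theorem obj_near (l : Loc G E A1 tc I h) (H : RCH G E A1 tc r K s κ κ') {Ω Ω' : Finset V}
    (hΩ : Obj0 E A1 tc Ω) (hΩ' : Obj0 E A1 tc Ω') {z : V} {n : ℕ} (hn : n ≤ 2 * r + 5)
    (hz : z ∈ Lev G Ω n) (hz' : z ∈ Lev G Ω' n) : Ω = Ω' := by
  obtain ⟨c1, c2, c3⟩ := inr4_s H
  rcases hΩ with ⟨a, ha, rfl⟩ | hC | ⟨u, v, he, rfl⟩
  · exact (inr4_a H ha hΩ' hn hz hz').symm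
  · rcases hΩ' with ⟨a', ha', rfl⟩ | hC' | ⟨u', v', he', rfl⟩
    · exact inr4_a H ha' (Or.inr (Or.inl hC)) hn hz' hz
    · exact Finset.Subset.antisymm
        (inr4_cc H (inr4_tc l hC') (H.tcs _ hC') (inr4_tc l hC) (H.tcs _ hC) hn hz' hz)
        (inr4_cc H (inr4_tc l hC) (H.tcs _ hC) (inr4_tc l hC') (H.tcs _ hC') hn hz hz')
    · exact (inr4_mc l H (inr4_tc l hC) (H.tcs _ hC) he' hn hz hz').elim
  · rcases hΩ' with ⟨a', ha', rfl⟩ | hC' | ⟨u', v', he', rfl⟩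
    · exact inr4_a H ha' (Or.inr (Or.inr ⟨u, v, he, rfl⟩)) hn hz' hz
    · exact (inr4_mc l H (inr4_tc l hC') (H.tcs _ hC') he hn hz' hz).elim
    · by_cases hee : s(u, v) = s(u', v')
      · rw [Sym2.eq_iff] at hee
        rcases hee with ⟨rfl, rfl⟩ | ⟨rfl, rfl⟩
        · rfl
        · exact Finset.pair_comm _ _
      · exfalso
        obtain ⟨h1, h2, h3⟩ := inr4_mark l H he
        obtain ⟨h1', h2', h3'⟩ := inr4_mark l H he'
        obtain ⟨W, hW1, hW2, hW3, hW4⟩ := inr4_w G h1 h1' hz hz'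
        have hd : Disjoint ({u, v} : Finset V) {u', v'} := by
          rw [Finset.disjoint_left]
          intro x hx hx'
          rw [Finset.mem_insert, Finset.mem_singleton] at hx hx'
          exact H.marks.2 _ he _ he' hee x (Sym2.mem_iff.2 hx) (Sym2.mem_iff.2 hx')
        have h5 := mIn_disj E hd
        have h6 := mIn_mono E (Finset.union_subset hW2 hW3)
        have h7 := inr4_nice H (W := W) (by omega)
        have h8 := con_ex G hW1
        omega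

theorem z_obj (l : Loc G E A1 tc I h) (H : RCH G E A1 tc r K s κ κ') {Ω' : Finset V} {x : ι × Bool}
    (hx : I.Tiny K x) (hΩ' : Obj0 E A1 tc Ω') {z : V} {n : ℕ} (hn : n ≤ 2 * r + 5)
    (hz : z ∈ Lev G (l.Z x) n) (hz' : z ∈ Lev G Ω' n) : False := by
  obtain ⟨c1, c2, c3⟩ := inr4_s H
  have hZ := z_cyc l hx
  have hZs := inr4_zc l H hx
  have hZ0 := (inr4_cyc H hZ hZs).2
  rcases hΩ' with ⟨a', ha', rfl⟩ | hC' | ⟨u', v', he', rfl⟩
  · obtain ⟨W, hW1, hW2, hW3, hW4⟩ := inr4_w G hZ.1 (con_singleton G a') hz hz'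
    rw [Finset.card_singleton] at hW4
    have hk := z_card l hx
    have h1 := (H.clean W hW1 (by omega) a' ha' (hW3 (Finset.mem_singleton_self a'))).1
    have h2 := ex_mono G hW2 hZ.1.1 hW1
    omega
  · have hcy := inr4_tc l hC'
    have heq : l.Z x = Ω' := Finset.Subset.antisymm
        (inr4_cc H hcy (H.tcs _ hC') hZ hZs hn hz' hz)
        (inr4_cc H hZ hZs hcy (H.tcs _ hC') hn hz hz')
    have hv : l.vx x ∈ Ω' := by
      rw [← heq]
      exact z_sub l Relation.ReflTransGen.refl _ (vx_mem l x)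
    obtain ⟨y, hy, y', hy', hyy, hvy, hvy', hnb, -⟩ := l.tc_nb Ω' hC' _ hv
    obtain ⟨hn1, hn2⟩ := hnb x rfl
    obtain ⟨x', hx'⟩ : ∃ x', I.outer x = some x' := Option.ne_none_iff_exists'.1 (hx.1 x Relation.ReflTransGen.refl)
    have hmem : l.nb x ∈ Ω' := by
      rw [l.out_some x x' hx', ← heq]
      exact z_sub l (Relation.ReflTransGen.single (Or.inr hx')) _ (vx_mem l x')
    exact cyc_out G hcy (by rw [← heq]; exact hZ0.le) hv hy hy' hvy hvy' hyy (l.nb_adj x) hn1 hn2 hmem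
  · exact inr4_mc l H hZ hZs he' hn hz hz'

theorem z_z (l : Loc G E A1 tc I h) (H : RCH G E A1 tc r K s κ κ') {x y : ι × Bool}
    (hx : I.Tiny K x) (hy : I.Tiny K y) {z : V} {n : ℕ} (hn : n ≤ 2 * r + 5)
    (hz : z ∈ Lev G (l.Z x) n) (hz' : z ∈ Lev G (l.Z y) n) : I.SameF x y := by
  have h1 := inr4_cc H (z_cyc l hy) (inr4_zc l H hy) (z_cyc l hx) (inr4_zc l H hx) hn hz' hz
  have h2 : l.vx x ∈ l.Z x := z_sub l Relation.ReflTransGen.refl _ (vx_mem l x)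
  exact z_same l h2 (h1 h2)

end Pool.Agent.H38H.IN
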