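import Pool.Agent.Lib.H38H.IN.R2
import Pool.Agent.Lib.H38H.IN.R4

set_option autoImplicit false

namespace Pool.Agent.H38H.IN

open Classical

variable {V ι : Type} [Fintype V] [Fintype ι] {L : ℕ} {G : SimpleGraph V} {E : Finset (Sym2 V)}
    {A1 : Finset V} {tc : Finset (Finset V)} {I : Inst ι L} {h : SB ι} {r K s κ κ' : ℕ}

/-! Chunk INR5 (M): roots and distances of the nodes. root_at: an end `x`: end_obj gives `a ∈ A1` (`Ω = {a}`), `C ∈ tc` or a mark `{u, μ u}`, `u = nb x`. `vx x ∉ Ω`: `vx x ≠ nb x`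
(nb_adj); mark: `vx x = μ u` would give `nb x = u = μ (vx x)` against nb_μ; `C`: the two neighbours of `nb x` from tc_nb (applied to `v = nb x`) differ
from `vx x`, `ex C ≤ 0` (obj_rigid), cyc_out. Other roots are tiny (ValidT; `outer t = some x` gives SameF t x).
root_rigid: R4. node_level: induction on `m` (the list of bits). Base: type 1: `vx x ∉ Ω` has the neighbour `nb x ∈ Ω`, exact distance 1 (exa_one);
type 2: `vx x ∈ Z x` (exa_zero). Step `β :: m`: `node x m = some p'`, `step p'.2 β = some p`. By step_facts the kind at `p'.2` is not b, so by induction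
`μ (vx p'.2) = vx p.1` has exact distance `δ + 2|m| + 1`; its neighbour `vx p'.2` is one closer and differs from `vx p.2`, so rigid_next gives `δ + 2|m| + 2` for `vx p.2`.
Second part (kind at `p.2` not b, distance of `μ (vx p.2)`, which is a neighbour by μ_adj, μ_ne): if the distance of `vx p.2` is 0 (type 2, empty list) then `μ (vx x) ∉ Z x` (z_μ), exact distance 1. Otherwise `vx p.2`
has a neighbour one closer different from `μ (vx p.2)`: for the empty list `nb x ∈ Ω` (nb_μ); for `β :: m` it is `vx p.1 ≠ μ (vx p.2)` (step_facts). rigid_next. -/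

theorem root_at (l : Loc G E A1 tc I h) (H : RCH G E A1 tc r K s κ κ') {T : Finset (ι × Bool)}
    (hT : I.ValidT K T) {x : ι × Bool} (hx : I.Root T x) : ∃ Ω δ, l.RootAt K T x Ω δ := by
  rcases hx with h1 | h1 | ⟨y, hy, h1⟩
  · have hadj := l.nb_adj x
    rcases l.end_obj x h1 with ha | ⟨C, hC, hxC⟩ | ⟨hne, hE⟩
    · refine ⟨{l.nb x}, 1, Or.inl ⟨rfl, h1, Or.inl ⟨l.nb x, ha, rfl⟩, Finset.mem_singleton_self _, ?_⟩⟩
      rw [Finset.mem_singleton]
      exact hadj.ne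
    · refine ⟨C, 1, Or.inl ⟨rfl, h1, Or.inr (Or.inl hC), hxC, ?_⟩⟩
      have hcyc : Cyc G C := by
        refine ⟨l.tc_con C hC, fun v hv => ?_⟩
        obtain ⟨y, hy, z, hz, hyz, hvy, hvz, -, -⟩ := l.tc_nb C hC v hv
        exact two_le_dg G hy hz hvy hvz hyz
      obtain ⟨-, hex, -⟩ := obj_rigid l H (Ω := C) (Or.inr (Or.inl hC))
      obtain ⟨y, hy, z, hz, hyz, hvy, hvz, -, h2⟩ := l.tc_nb C hC (l.nb x) hxC
      obtain ⟨h3, h4⟩ := h2 x h1 rfl
      exact cyc_out G hcyc hex hxC hy hz hvy hvz hyz hadj.symm h3 h4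
    · refine ⟨{l.nb x, l.μ (l.nb x)}, 1, Or.inl ⟨rfl, h1, Or.inr (Or.inr ⟨_, _, hE, rfl⟩),
        Finset.mem_insert_self _ _, ?_⟩⟩
      rw [Finset.mem_insert, Finset.mem_singleton]
      rintro (h2 | h2)
      · exact hadj.ne h2
      · apply l.nb_μ x
        rw [h2, l.μμ]
  · exact ⟨_, 0, Or.inr ⟨rfl, hT.1 x h1, Or.inl h1, rfl⟩⟩
  · refine ⟨_, 0, Or.inr ⟨rfl, ?_, Or.inr ⟨y, hy, h1⟩, rfl⟩⟩
    exact tiny_same I (hT.1 y hy) (Relation.ReflTransGen.single (Or.inr h1))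

theorem root_rigid (l : Loc G E A1 tc I h) (H : RCH G E A1 tc r K s κ κ') {T : Finset (ι × Bool)}
    {x : ι × Bool} {Ω : Finset V} {δ : ℕ} (hx : l.RootAt K T x Ω δ) :
    Rigid G Ω (κ' - 1) ∧ δ ≤ 1 := by
  rcases hx with ⟨rfl, h1⟩ | ⟨rfl, h1⟩
  · exact ⟨(obj_rigid l H h1.2.1).1, le_refl 1⟩
  · obtain ⟨h2, -, rfl⟩ := h1
    exact ⟨(z_rigid l H h2).1, Nat.zero_le 1⟩

/-- the last step of a nonempty list -/
theorem node_cons (l : Loc G E A1 tc I h) {x : ι × Bool} {β : Bool} {m : List Bool}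
    {p : (ι × Bool) × (ι × Bool)} (hp : I.node h x (β :: m) = some p) :
    ∃ p', I.node h x m = some p' ∧ I.step h p'.2 β = some p := by
  have h1 : (I.node h x m).bind (fun p => I.step h p.2 β) = some p := hp
  exact Option.bind_eq_some_iff.1 h1

theorem node_level (l : Loc G E A1 tc I h) (H : RCH G E A1 tc r K s κ κ') {T : Finset (ι × Bool)}
    {x : ι × Bool} {Ω : Finset V} {δ : ℕ} (hx : l.RootAt K T x Ω δ) (m : List Bool) (hm : m.length ≤ r)
    {p : (ι × Bool) × (ι × Bool)} (hp : I.node h x m = some p) :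
    Exa G Ω (δ + 2 * m.length) (l.vx p.2) ∧
      (I.kind (h.1 p.2.1) ≠ Kind.b → Exa G Ω (δ + 2 * m.length + 1) (l.μ (l.vx p.2)) ∧
        G.Adj (l.vx p.2) (l.μ (l.vx p.2))) := by
  obtain ⟨hR, hδ⟩ := root_rigid l H hx
  have hc := H.c1
  have hμ : ∀ y : ι × Bool, I.kind (h.1 y.1) ≠ Kind.b → G.Adj (l.vx y) (l.μ (l.vx y)) := fun y hk =>
    l.μ_adj _ (l.μ_ne y.1 _ (vx_mem l y) hk).1
  induction m generalizing p with
  | nil =>
    have h0 : some (x, x) = some p := hp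
    obtain rfl : (x, x) = p := Option.some_injective _ h0
    rcases hx with ⟨rfl, h1⟩ | ⟨rfl, h1⟩
    · obtain ⟨h2, h3, h4, h5⟩ := h1
      have h6 : Exa G Ω 1 (l.vx x) := exa_one G h5 h4 (l.nb_adj x).symm
      refine ⟨h6, fun hk => ⟨?_, hμ x hk⟩⟩
      exact rigid_next G hR (n := 0) (by omega) h6 (lev_mono G Ω (Nat.zero_le 1) h4) (l.nb_adj x) (hμ x hk)
        (l.nb_μ x).symm
    · obtain ⟨h2, h3, rfl⟩ := h1
      have h4 : l.vx x ∈ l.Z x := z_sub l Relation.ReflTransGen.refl _ (vx_mem l x)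
      refine ⟨(exa_zero G).2 h4, fun hk => ⟨?_, hμ x hk⟩⟩
      exact exa_one G (z_μ l h2 (z_rigid l H h2).2 hk) h4 (hμ x hk)
  | cons β m ih =>
    rw [List.length_cons] at hm
    obtain ⟨p', hp', hs⟩ := node_cons l hp
    obtain ⟨k1, -, k3, k4, k5, k6, -⟩ := step_facts l hs
    obtain ⟨i1, i2⟩ := ih (by omega) hp'
    obtain ⟨i3, i4⟩ := i2 k1
    rw [← k3] at i3 i4
    have e1 : Exa G Ω (δ + 2 * m.length + 2) (l.vx p.2) :=
      rigid_next G hR (n := δ + 2 * m.length) (by omega) i3 (lev_mono G Ω (Nat.le_succ _) i1.1) i4.symm k4 k5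
    have e2 : δ + 2 * (β :: m).length = δ + 2 * m.length + 2 := by
      rw [List.length_cons]
      ring
    rw [e2]
    refine ⟨e1, fun hk => ⟨?_, hμ p.2 hk⟩⟩
    exact rigid_next G hR (n := δ + 2 * m.length + 1) (by omega) e1 (lev_mono G Ω (Nat.le_succ _) i3.1)
      k4.symm (hμ p.2 hk) k6.symm

end Pool.Agent.H38H.IN
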