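import Pool.Agent.Lib.H38H.IN.R5

set_option autoImplicit false

namespace Pool.Agent.H38H.IN

open Classical

variable {V ι : Type} [Fintype V] [Fintype ι] {L : ℕ} {G : SimpleGraph V} {E : Finset (Sym2 V)}
    {A1 : Finset V} {tc : Finset (Finset V)} {I : Inst ι L} {h : SB ι} {r K s κ κ' : ℕ}

/-! Chunk INR6 (M): the trees do not meet special links. core_obj: from the field core (`{a}`, `C`, or the mark `{u,v}`): every vertex of the path is in `Ω'` or consecutive on
the path to a vertex of `Ω'`. far_b: `v` is a vertex at exact distance `k ≥ 2` (type 1) or `k ≥ 0` (type 2) from `Ω`, `k ≤ 2r + 2`, and at distance `≤ 1` from an object `Ω'` of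
the first three types: impossible (type 2: z_obj; type 1: obj_near gives `Ω = Ω'`, so `k ≤ 1` by exa_le).
node_kind: suppose the slot of `p.2` has kind b. core_obj gives `Ω'`; `vx p.2` is at distance `≤ 1` from `Ω'`. Type 2: z_obj. Type 1: by obj_near `Ω = Ω'`, so
`1 + 2|m| ≤ 1`, `m = []`, `p = (x,x)`; `vx x ∉ Ω` so `vx x` is consecutive to some `u ∈ Ω`; `nb x ∈ Ω` also is a neighbour; nb_pth: different; contradiction to rigid_unique.
node_next: a vertex `μ (vx p.2)` in a path of kind b, or `vx w = μ (vx p.2)` with `outer w = none` (end_obj: `nb w` is in an object, so `vx w` is at distance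
`≤ 1` from it): excluded by far_b with node_level. node_ok: induction with step_some. -/

theorem core_obj (l : Loc G E A1 tc I h) {p : ι} (hk : I.kind (h.1 p) = Kind.b) :
    ∃ Ω', Obj0 E A1 tc Ω' ∧ ∀ v ∈ l.pth p, v ∈ Ω' ∨ ∃ u ∈ Ω', Cns (l.pth p) v u := by
  rcases l.core p hk with ⟨a, ha, h1⟩ | ⟨C, hC, h1⟩ | ⟨e, he, h1⟩
  · refine ⟨{a}, Or.inl ⟨a, ha, rfl⟩, fun v hv => ?_⟩
    rcases h1 v hv with h2 | h2
    · exact Or.inl (Finset.mem_singleton.2 h2)
    · exact Or.inr ⟨a, Finset.mem_singleton_self a, h2⟩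
  · exact ⟨C, Or.inr (Or.inl hC), fun v hv => Or.inl (h1 v hv)⟩
  · induction e using Sym2.ind with
    | _ a b =>
      refine ⟨{a, b}, Or.inr (Or.inr ⟨a, b, he, rfl⟩), fun v hv => ?_⟩
      have hm : ∀ u, u ∈ s(a, b) → u ∈ ({a, b} : Finset V) := by
        intro u hu
        rw [Sym2.mem_iff] at hu
        rw [Finset.mem_insert, Finset.mem_singleton]
        exact hu
      rcases h1 v hv with h2 | ⟨u, hu, h2⟩
      · exact Or.inl (hm v h2)
      · exact Or.inr ⟨u, hm u hu, h2⟩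

theorem inr6_lev (l : Loc G E A1 tc I h) {p : ι} {Ω' : Finset V}
    (hv : ∀ v ∈ l.pth p, v ∈ Ω' ∨ ∃ u ∈ Ω', Cns (l.pth p) v u) : ∀ v ∈ l.pth p, v ∈ Lev G Ω' 1 := by
  intro v hvp
  rcases hv v hvp with h1 | ⟨u, hu, h1⟩
  · exact lev_mono G Ω' (Nat.zero_le 1) h1
  · exact lev_adj G (n := 0) hu (l.chain p v u h1).symm

theorem far_b (l : Loc G E A1 tc I h) (H : RCH G E A1 tc r K s κ κ') {T : Finset (ι × Bool)}
    {x : ι × Bool} {Ω : Finset V} {δ : ℕ} (hx : l.RootAt K T x Ω δ) {v : V} {k : ℕ} (hk : k ≤ 2 * r + 2)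
    (hk2 : 2 ≤ k + 2 * (1 - δ)) (hv : Exa G Ω k v) {Ω' : Finset V} (hΩ' : Obj0 E A1 tc Ω')
    (hv' : v ∈ Lev G Ω' 1) : False := by
  have h1 : v ∈ Lev G Ω (2 * r + 5) := lev_mono G Ω (by omega) hv.1
  have h2 : v ∈ Lev G Ω' (2 * r + 5) := lev_mono G Ω' (by omega) hv'
  rcases hx with ⟨hδ, hR⟩ | ⟨hδ, hR⟩
  · have h3 := obj_near l H hR.2.1 hΩ' (le_refl _) h1 h2
    rw [← h3] at hv'
    have h4 := exa_le G hv hv'
    omega
  · rw [hR.2.2] at h1
    exact z_obj l H hR.1 hΩ' (le_refl _) h1 h2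

theorem node_kind (l : Loc G E A1 tc I h) (H : RCH G E A1 tc r K s κ κ') {T : Finset (ι × Bool)}
    {x : ι × Bool} {Ω : Finset V} {δ : ℕ} (hx : l.RootAt K T x Ω δ) (m : List Bool) (hm : m.length ≤ r)
    {p : (ι × Bool) × (ι × Bool)} (hp : I.node h x m = some p) : I.kind (h.1 p.2.1) ≠ Kind.b := by
  intro hb
  obtain ⟨Ω', hΩ', hv⟩ := core_obj l hb
  have hlev := inr6_lev l hv (l.vx p.2) (vx_mem l p.2)
  have hex := (node_level l H hx m hm hp).1
  obtain ⟨hrig, hδ⟩ := root_rigid l H hx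
  by_cases hc : 2 ≤ (δ + 2 * m.length) + 2 * (1 - δ)
  · exact far_b l H hx (by omega) hc hex hΩ' hlev
  · have hδ1 : δ = 1 := by omega
    have hm0 : m.length = 0 := by omega
    have hm1 : m = [] := List.length_eq_zero_iff.1 hm0
    subst hm1
    subst hδ1
    have hp' : p = (x, x) := by
      have h1 : I.node h x [] = some (x, x) := rfl
      rw [h1] at hp
      exact (Option.some.inj hp).symm
    subst hp'
    rcases hx with ⟨-, hR⟩ | ⟨h0, -⟩
    · simp only [List.length_nil, Nat.mul_zero, Nat.add_zero] at hex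
      have h1 : l.vx x ∈ Lev G Ω (2 * r + 5) := lev_mono G Ω (by omega) hex.1
      have h2 : l.vx x ∈ Lev G Ω' (2 * r + 5) := lev_mono G Ω' (by omega) hlev
      have h3 := obj_near l H hR.2.1 hΩ' (le_refl _) h1 h2
      subst h3
      rcases hv (l.vx x) (vx_mem l x) with h4 | ⟨u, hu, h4⟩
      · exact hR.2.2.2 h4
      · have hc1 := H.c1
        have hu' : u ∈ Lev G Ω 1 := lev_mono G Ω (Nat.zero_le 1) hu
        have hn' : l.nb x ∈ Lev G Ω 1 := lev_mono G Ω (Nat.zero_le 1) hR.2.2.1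
        have h5 := rigid_unique G hrig (n := 0) (by omega) hex hn' hu' (l.nb_adj x)
          (l.chain _ _ _ h4)
        exact l.nb_pth x u h4 h5
    · exact absurd h0 (by decide)

theorem node_next (l : Loc G E A1 tc I h) (H : RCH G E A1 tc r K s κ κ') {T : Finset (ι × Bool)}
    {x : ι × Bool} {Ω : Finset V} {δ : ℕ} (hx : l.RootAt K T x Ω δ) (m : List Bool) (hm : m.length < r)
    {p : (ι × Bool) × (ι × Bool)} (hp : I.node h x m = some p) :
    (∀ q, l.μ (l.vx p.2) ∈ l.pth q → I.kind (h.1 q) ≠ Kind.b) ∧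
      ∀ w, l.vx w = l.μ (l.vx p.2) → I.outer w ≠ none := by
  have hkind := node_kind l H hx m (le_of_lt hm) hp
  obtain ⟨hex, hadj⟩ := (node_level l H hx m (le_of_lt hm) hp).2 hkind
  obtain ⟨hrig, hδ⟩ := root_rigid l H hx
  refine ⟨fun q hq hb => ?_, fun w hw ho => ?_⟩
  · obtain ⟨Ω', hΩ', hv⟩ := core_obj l hb
    exact far_b l H hx (by omega) (by omega) hex hΩ' (inr6_lev l hv _ hq)
  · have key : ∃ Ω', Obj0 E A1 tc Ω' ∧ l.nb w ∈ Ω' := by
      rcases l.end_obj w ho with h1 | ⟨C, hC, h1⟩ | ⟨-, h1⟩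
      · exact ⟨{l.nb w}, Or.inl ⟨_, h1, rfl⟩, Finset.mem_singleton_self _⟩
      · exact ⟨C, Or.inr (Or.inl hC), h1⟩
      · exact ⟨_, Or.inr (Or.inr ⟨_, _, h1, rfl⟩), Finset.mem_insert_self _ _⟩
    obtain ⟨Ω', hΩ', hv⟩ := key
    have h1 : l.vx w ∈ Lev G Ω' 1 := lev_adj G (n := 0) hv (l.nb_adj w).symm
    rw [hw] at h1
    exact far_b l H hx (by omega) (by omega) hex hΩ' h1

theorem node_ok (l : Loc G E A1 tc I h) (H : RCH G E A1 tc r K s κ κ') {T : Finset (ι × Bool)}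
    {x : ι × Bool} {Ω : Finset V} {δ : ℕ} (hx : l.RootAt K T x Ω δ) (m : List Bool) (hm : m.length ≤ r) :
    (I.node h x m).isSome := by
  induction m with
  | nil => rfl
  | cons β m ih =>
    rw [List.length_cons] at hm
    obtain ⟨p', hp'⟩ := Option.isSome_iff_exists.1 (ih (by omega))
    have h1 := node_kind l H hx m (by omega) hp'
    obtain ⟨h2, h3⟩ := node_next l H hx m (by omega) hp'
    have h4 : I.node h x (β :: m) = I.step h p'.2 β := by
      show (I.node h x m).bind _ = _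
      rw [hp']
      rfl
    rw [h4]
    exact step_some l h1 h2 h3 β

end Pool.Agent.H38H.IN
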