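import Pool.Agent.Lib.H38H.IN.R6

set_option autoImplicit false

namespace Pool.Agent.H38H.IN

open Classical

variable {V ι : Type} [Fintype V] [Fintype ι] {L : ℕ} {G : SimpleGraph V} {E : Finset (Sym2 V)}
    {A1 : Finset V} {tc : Finset (Finset V)} {I : Inst ι L} {h : SB ι} {r K s κ κ' : ℕ}

/-! Chunk INR7 (M): different nodes have different vertices. same_obj: `v` is close to both objects. Types 1,1: obj_near. Types 1,2: z_obj. Types 2,2: z_z gives
`SameF x y`, so `Z x = Z y` (z_eq).
root_unique: two roots with the same object and the same vertex. Type 1: `nb x`, `nb y ∈ Ω` are neighbours of `vx x = vx y`, which is at exact distance 1: rigid_unique gives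
`nb x = nb y`, end_inj. Type 2: `x` and `y` are in one component, ValidT gives one `t ∈ T` with `x, y ∈ {t, t'}`, `outer t = some t'`. If `x ≠ y` then
`G.Adj (vx x) (vx y)` by outer_nb, a contradiction.
node_unique: induction on the lists. The exact distances `δ + 2|m|`, `δ + 2|m'|` agree (exa_unique), so `|m| = |m'|`. Both empty: root_unique. `β :: m`, `γ :: m'` (node_cons, predecessors `p'`, `q'`):
`vx p.1` and `vx q.1` are neighbours of `vx p.2 = vx q.2` one closer (node_level for `p'`: `vx p.1 = μ (vx p'.2)`, step_facts), so equal (rigid_unique); apply `μ`: `vx p'.2 = vx q'.2`; by induction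
`x = y`, `m = m'`, so `p' = q'`, and step_bit gives `β = γ`. -/

theorem same_obj (l : Loc G E A1 tc I h) (H : RCH G E A1 tc r K s κ κ') {T : Finset (ι × Bool)}
    {x y : ι × Bool} {Ω Ω' : Finset V} {δ δ' : ℕ} (hx : l.RootAt K T x Ω δ) (hy : l.RootAt K T y Ω' δ')
    {v : V} {n : ℕ} (hn : n ≤ 2 * r + 5) (h1 : v ∈ Lev G Ω n) (h2 : v ∈ Lev G Ω' n) : Ω = Ω' ∧ δ = δ' := by
  rcases hx with ⟨hδ, hx1⟩ | ⟨hδ, hx2⟩
  · rcases hy with ⟨hδ', hy1⟩ | ⟨hδ', hy2⟩
    · exact ⟨obj_near l H hx1.2.1 hy1.2.1 hn h1 h2, by rw [hδ, hδ']⟩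
    · exfalso
      obtain ⟨ht, -, rfl⟩ := hy2
      exact z_obj l H ht hx1.2.1 hn h2 h1
  · rcases hy with ⟨hδ', hy1⟩ | ⟨hδ', hy2⟩
    · exfalso
      obtain ⟨ht, -, rfl⟩ := hx2
      exact z_obj l H ht hy1.2.1 hn h1 h2
    · obtain ⟨ht, -, rfl⟩ := hx2
      obtain ⟨ht', -, rfl⟩ := hy2
      exact ⟨z_eq l (z_z l H ht ht' hn h1 h2), by rw [hδ, hδ']⟩

/-- the element of `T` belonging to a root of second type -/
theorem inr7_rep {K : ℕ} {T : Finset (ι × Bool)} (hT : I.ValidT K T) {x y : ι × Bool}
    (hx : x ∈ T ∨ ∃ t ∈ T, I.outer t = some x) (hy : y ∈ T ∨ ∃ t ∈ T, I.outer t = some y)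
    (htx : I.Tiny K x) (hxy : I.SameF x y) : x = y ∨ I.outer x = some y ∨ I.outer y = some x := by
  obtain ⟨t0, -, hu⟩ := hT.2 x htx
  have key : ∀ z, I.SameF x z → (z ∈ T ∨ ∃ t ∈ T, I.outer t = some z) → z = t0 ∨ I.outer t0 = some z := by
    intro z hz h1
    rcases h1 with h1 | ⟨t, h1, h2⟩
    · left
      exact hu z ⟨h1, sameF_symm I hz⟩
    · right
      have h3 : I.SameF t z := Relation.ReflTransGen.single (Or.inr h2)
      have h4 : I.SameF t x := h3.trans (sameF_symm I hz)
      rw [← hu t ⟨h1, h4⟩]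
      exact h2
  rcases key x Relation.ReflTransGen.refl hx with h1 | h1
  · rcases key y hxy hy with h2 | h2
    · exact Or.inl (h1.trans h2.symm)
    · exact Or.inr (Or.inl (by rw [h1]; exact h2))
  · rcases key y hxy hy with h2 | h2
    · exact Or.inr (Or.inr (by rw [h2]; exact h1))
    · left
      rw [h1] at h2
      exact Option.some.inj h2

theorem root_unique (l : Loc G E A1 tc I h) (H : RCH G E A1 tc r K s κ κ') {T : Finset (ι × Bool)}
    (hT : I.ValidT K T) {x y : ι × Bool} {Ω : Finset V} {δ : ℕ} (hx : l.RootAt K T x Ω δ)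
    (hy : l.RootAt K T y Ω δ) (hv : l.vx x = l.vx y) : x = y := by
  have hR := root_rigid l H hx
  have hc := H.c1
  rcases hx with ⟨hδ, hx1⟩ | ⟨hδ, hx2⟩
  · rcases hy with ⟨hδ', hy1⟩ | ⟨hδ', hy2⟩
    · obtain ⟨ho, hO, hnb, hvx⟩ := hx1
      obtain ⟨ho', hO', hnb', hvx'⟩ := hy1
      have h1 : Exa G Ω (0 + 1) (l.vx x) := exa_one G hvx hnb (l.nb_adj x).symm
      have h2 : l.nb x ∈ Lev G Ω (0 + 1) := lev_mono G Ω (Nat.zero_le _) hnb
      have h3 : l.nb y ∈ Lev G Ω (0 + 1) := lev_mono G Ω (Nat.zero_le _) hnb'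
      have h4 : G.Adj (l.vx x) (l.nb y) := by rw [hv]; exact l.nb_adj y
      exact l.end_inj x y ho ho' (rigid_unique G hR.1 (by omega) h1 h2 h3 (l.nb_adj x) h4)
    · omega
  · rcases hy with ⟨hδ', hy1⟩ | ⟨hδ', hy2⟩
    · omega
    · have hs := vx_slot l hv
      have hsame : I.SameF x y := by
        rcases eq_or_flip hs with h1 | h1
        · rw [h1]
          exact Relation.ReflTransGen.refl
        · rw [h1]
          exact sameF_flip I x
      rcases inr7_rep hT hx2.2.1 hy2.2.1 hx2.1 hsame with h1 | h1 | h1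
      · exact h1
      · exact absurd hv (outer_nb l h1).2.2.ne
      · exact absurd hv (outer_nb l h1).2.2.ne'

theorem node_unique (l : Loc G E A1 tc I h) (H : RCH G E A1 tc r K s κ κ') {T : Finset (ι × Bool)}
    (hT : I.ValidT K T) {x y : ι × Bool} {Ω : Finset V} {δ : ℕ} (hx : l.RootAt K T x Ω δ)
    (hy : l.RootAt K T y Ω δ) (m m' : List Bool) (hm : m.length ≤ r) (hm' : m'.length ≤ r)
    {p q : (ι × Bool) × (ι × Bool)} (hp : I.node h x m = some p) (hq : I.node h y m' = some q)
    (hv : l.vx p.2 = l.vx q.2) : x = y ∧ m = m' := by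
  have hR := root_rigid l H hx
  have hc := H.c1
  induction m generalizing m' p q with
  | nil =>
    have e1 := (node_level l H hx [] hm hp).1
    have e2 := (node_level l H hy m' hm' hq).1
    rw [← hv] at e2
    have e3 := exa_unique G e1 e2
    simp only [List.length_nil] at e3
    have e4 : m' = [] := List.eq_nil_of_length_eq_zero (by omega)
    subst e4
    simp only [Inst.node, Option.some.injEq] at hp hq
    subst hp
    subst hq
    exact ⟨root_unique l H hT hx hy hv, rfl⟩
  | cons β m ih =>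
    cases m' with
    | nil =>
      exfalso
      have e1 := (node_level l H hx _ hm hp).1
      have e2 := (node_level l H hy _ hm' hq).1
      rw [← hv] at e2
      have e3 := exa_unique G e1 e2
      simp only [List.length_nil, List.length_cons] at e3
      omega
    | cons γ m' =>
      have e1 := (node_level l H hx _ hm hp).1
      have e2 := (node_level l H hy _ hm' hq).1
      have e2' := e2
      rw [← hv] at e2'
      have e3 := exa_unique G e1 e2'
      simp only [List.length_cons] at e3 hm hm' e1 e2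
      obtain ⟨p', hp', hs⟩ := node_cons l hp
      obtain ⟨q', hq', hs'⟩ := node_cons l hq
      obtain ⟨w, x'⟩ := p
      obtain ⟨w1, x1⟩ := q
      obtain ⟨f1, f2, f3, f4, f5, f6, f7⟩ := step_facts l hs
      obtain ⟨g1, g2, g3, g4, g5, g6, g7⟩ := step_facts l hs'
      have k1 := ((node_level l H hx m (by omega) hp').2 f1).1
      have k2 := ((node_level l H hy m' (by omega) hq').2 g1).1
      simp only at hv e1 e2
      rw [← f3] at k1
      rw [← g3] at k2
      have hvw : l.vx w = l.vx w1 := by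
        refine rigid_unique G (n := δ + 2 * m.length + 1) hR.1 (by omega) (z := l.vx x') ?_ ?_ ?_ f4.symm ?_
        · have : δ + 2 * m.length + 1 + 1 = δ + 2 * (m.length + 1) := by ring
          rw [this]
          exact e1
        · exact lev_mono G Ω (by omega) k1.1
        · exact lev_mono G Ω (by omega) k2.1
        · rw [hv]
          exact g4.symm
      have hpp : l.vx p'.2 = l.vx q'.2 := by
        rw [← l.μμ (l.vx p'.2), ← f3, hvw, g3, l.μμ]
      obtain ⟨h1, h2⟩ := ih m' (by omega) (by omega) hp' hq' hpp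
      subst h2
      refine ⟨h1, ?_⟩
      rw [← h1, hp'] at hq'
      have h3 : p' = q' := Option.some.inj hq'
      rw [← h3] at hs'
      rw [step_bit l hs hs' hv]

end Pool.Agent.H38H.IN
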