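import Pool.Agent.Lib.H38H.IN.R7

set_option autoImplicit false

namespace Pool.Agent.H38H.IN

open Classical

variable {V ι : Type} [Fintype V] [Fintype ι] {L : ℕ} {G : SimpleGraph V} {E : Finset (Sym2 V)}
    {A1 : Finset V} {tc : Finset (Finset V)} {I : Inst ι L} {h : SB ι} {r K s κ κ' : ℕ}

/-! Chunk INR8 (M): the fields ends and targets of `RC`. slot_adj: two positions of one slot of kind not b have the same vertex or adjacent vertices (then kind c and `y = flip x`).
rc_ends: by node_kind the slots of `p.2`, `q.2` have kind not b. The vertices `vx p.2`, `vx q.2` are equal or adjacent, so `vx q.2` is within `2r + 2` of both objects: same_obj.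
Equal: node_unique. Adjacent (kind c, `q.2 = flip p.2`): the exact distances are `δ + 2|l|`, `δ + 2|m|`. If both are positive: rigid_adj, they differ by 1, parity contradiction. If one is 0, say
`δ + 2|l| = 0`: type 2, `p = (x,x)`, `vx x ∈ Z x`, the whole path of its slot is in `Z x` (z_sub), so `vx q.2` has distance 0 and `q = (y,y)`, `y = flip x`; `x` and `y` are different, both
in `{t, t'}` with `outer t = some t'`, so `outer x = some (flip x)`, `nb x = vx (flip x)` contradicts nb_pth (c_cns).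
rc_targets: node_cons for both, `p', q'`; `vx p.1 = μ (vx p'.2)`, `vx q.1 = μ (vx q'.2)` (step_facts), same slot, kind not b. same_obj as above. Equal vertices: apply `μ`, node_unique for `p', q'`. Adjacent: exact
distances `δ + 2|l| + 1`, `δ + 2|m| + 1` (node_level), positive, rigid_adj, parity. -/

theorem slot_adj (l : Loc G E A1 tc I h) {x y : ι × Bool} (h1 : x.1 = y.1)
    (hk : I.kind (h.1 x.1) ≠ Kind.b) :
    l.vx x = l.vx y ∨ (I.kind (h.1 x.1) = Kind.c ∧ y = flip x ∧ G.Adj (l.vx x) (l.vx y)) := by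
  rcases eq_or_flip h1 with h2 | h2
  · left
    rw [h2]
  · cases hk' : I.kind (h.1 x.1) with
    | b => exact absurd hk' hk
    | d =>
      left
      rw [h2, d_eq l hk']
    | c =>
      right
      refine ⟨rfl, h2, ?_⟩
      rw [h2]
      exact l.chain x.1 _ _ (c_cns l hk').1

/-- the case of a root of type 2 whose slot has kind c, met by another node at the other position -/
theorem inr8_zero (l : Loc G E A1 tc I h) (H : RCH G E A1 tc r K s κ κ') {T : Finset (ι × Bool)}
    (hT : I.ValidT K T) {x y : ι × Bool} {Ω : Finset V} (hx : l.RootAt K T x Ω 0)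
    (hy : l.RootAt K T y Ω 0) (m' : List Bool)
    (hm' : m'.length ≤ r) {q : (ι × Bool) × (ι × Bool)}
    (hq : I.node h y m' = some q) (hk : I.kind (h.1 x.1) = Kind.c) (hqx : q.2 = flip x) : False := by
  have hx2 : l.R2 K T x Ω := by
    rcases hx with ⟨h1, -⟩ | ⟨-, h1⟩
    · omega
    · exact h1
  have hy2 : l.R2 K T y Ω := by
    rcases hy with ⟨h1, -⟩ | ⟨-, h1⟩
    · omega
    · exact h1
  have h1 : l.vx q.2 ∈ Ω := by
    rw [hx2.2.2, hqx]
    exact z_sub l (sameF_flip I x) _ (vx_mem l _)
  have h2 := (node_level l H hy m' hm' hq).1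
  have h3 := exa_le G h2 (n := 0) h1
  have h4 : m' = [] := List.eq_nil_of_length_eq_zero (by omega)
  subst h4
  simp only [Inst.node, Option.some.injEq] at hq
  subst hq
  simp only at hqx
  have hsame : I.SameF x y := by
    rw [hqx]
    exact sameF_flip I x
  have hnb := l.nb_pth x _ (c_cns l hk).1
  rcases inr7_rep hT hx2.2.1 hy2.2.1 hx2.1 hsame with h5 | h5 | h5
  · rw [← h5] at hqx
    have := (c_cns l hk).2
    rw [← hqx] at this
    exact this rfl
  · rw [hqx] at h5
    exact hnb (outer_nb l h5).1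
  · have h6 := I.outer_symm _ _ h5
    rw [hqx] at h6
    exact hnb (outer_nb l h6).1

theorem rc_ends (l : Loc G E A1 tc I h) (H : RCH G E A1 tc r K s κ κ') {T : Finset (ι × Bool)}
    (hT : I.ValidT K T) {x y : ι × Bool} (hx : I.Root T x) (hy : I.Root T y) (m m' : List Bool)
    (hm : m.length ≤ r) (hm' : m'.length ≤ r) {p q : (ι × Bool) × (ι × Bool)}
    (hp : I.node h x m = some p) (hq : I.node h y m' = some q) (hpq : p.2.1 = q.2.1) : x = y ∧ m = m' := by
  obtain ⟨Ω, δ, hx'⟩ := root_at l H hT hx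
  obtain ⟨Ω', δ', hy'⟩ := root_at l H hT hy
  have hRx := root_rigid l H hx'
  have hRy := root_rigid l H hy'
  have hc := H.c1
  have hk := node_kind l H hx' m hm hp
  have ep := (node_level l H hx' m hm hp).1
  have eq := (node_level l H hy' m' hm' hq).1
  rcases slot_adj l hpq hk with h1 | ⟨h1, h2, h3⟩
  · have a1 : l.vx p.2 ∈ Lev G Ω (2 * r + 5) := lev_mono G Ω (by omega) ep.1
    have a2 : l.vx p.2 ∈ Lev G Ω' (2 * r + 5) := by
      rw [h1]
      exact lev_mono G Ω' (by omega) eq.1
    obtain ⟨rfl, rfl⟩ := same_obj l H hx' hy' le_rfl a1 a2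
    exact node_unique l H hT hx' hy' m m' hm hm' hp hq h1
  · exfalso
    have a1 : l.vx q.2 ∈ Lev G Ω (2 * r + 5) := lev_mono G Ω (by omega) (lev_adj G ep.1 h3)
    have a2 : l.vx q.2 ∈ Lev G Ω' (2 * r + 5) := lev_mono G Ω' (by omega) eq.1
    obtain ⟨rfl, rfl⟩ := same_obj l H hx' hy' le_rfl a1 a2
    by_cases hz : δ + 2 * m.length = 0
    · have hδ : δ = 0 := by omega
      have hmm : m = [] := List.eq_nil_of_length_eq_zero (by omega)
      subst hδ
      subst hmm
      simp only [Inst.node, Option.some.injEq] at hp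
      subst hp
      exact inr8_zero l H hT hx' hy' m' hm' hq h1 h2
    · by_cases hz' : δ + 2 * m'.length = 0
      · have hδ : δ = 0 := by omega
        have hmm : m' = [] := List.eq_nil_of_length_eq_zero (by omega)
        subst hδ
        subst hmm
        simp only [Inst.node, Option.some.injEq] at hq
        subst hq
        refine inr8_zero l H hT hy' hx' m hm hp ?_ ?_
        · rw [← hpq]
          exact h1
        · simp only at h2
          rw [h2, flip_flip]
      · obtain ⟨n, hn⟩ : ∃ n, δ + 2 * m.length = n + 1 := ⟨δ + 2 * m.length - 1, by omega⟩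
        obtain ⟨n', hn'⟩ : ∃ n, δ + 2 * m'.length = n + 1 := ⟨δ + 2 * m'.length - 1, by omega⟩
        rw [hn] at ep
        rw [hn'] at eq
        have := rigid_adj G hRx.1 (by omega) (by omega) ep eq h3
        omega

theorem rc_targets (l : Loc G E A1 tc I h) (H : RCH G E A1 tc r K s κ κ') {T : Finset (ι × Bool)}
    (hT : I.ValidT K T) {x y : ι × Bool} (hx : I.Root T x) (hy : I.Root T y) (b c : Bool)
    (m m' : List Bool) (hm : m.length < r) (hm' : m'.length < r) {p q : (ι × Bool) × (ι × Bool)}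
    (hp : I.node h x (b :: m) = some p) (hq : I.node h y (c :: m') = some q) (hpq : p.1.1 = q.1.1) :
    x = y ∧ m = m' := by
  obtain ⟨Ω, δ, hx'⟩ := root_at l H hT hx
  obtain ⟨Ω', δ', hy'⟩ := root_at l H hT hy
  have hRx := root_rigid l H hx'
  have hRy := root_rigid l H hy'
  have hc := H.c1
  obtain ⟨p', hp', hs⟩ := node_cons l hp
  obtain ⟨q', hq', hs'⟩ := node_cons l hq
  obtain ⟨w, x'⟩ := p
  obtain ⟨w1, x1⟩ := q
  obtain ⟨f1, f2, f3, f4, f5, f6, f7⟩ := step_facts l hs
  obtain ⟨g1, g2, g3, g4, g5, g6, g7⟩ := step_facts l hs'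
  have k1 := ((node_level l H hx' m (by omega) hp').2 f1).1
  have k2 := ((node_level l H hy' m' (by omega) hq').2 g1).1
  rw [← f3] at k1
  rw [← g3] at k2
  simp only at hpq
  have hkw : I.kind (h.1 w.1) ≠ Kind.b := by rw [f2]; exact f1
  rcases slot_adj l hpq hkw with h1 | ⟨h1, h2, h3⟩
  · have a1 : l.vx w ∈ Lev G Ω (2 * r + 5) := lev_mono G Ω (by omega) k1.1
    have a2 : l.vx w ∈ Lev G Ω' (2 * r + 5) := by
      rw [h1]
      exact lev_mono G Ω' (by omega) k2.1
    obtain ⟨rfl, rfl⟩ := same_obj l H hx' hy' le_rfl a1 a2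
    have hpp : l.vx p'.2 = l.vx q'.2 := by
      rw [← l.μμ (l.vx p'.2), ← f3, h1, g3, l.μμ]
    exact node_unique l H hT hx' hy' m m' (by omega) (by omega) hp' hq' hpp
  · exfalso
    have a1 : l.vx w1 ∈ Lev G Ω (2 * r + 5) := lev_mono G Ω (by omega) (lev_adj G k1.1 h3)
    have a2 : l.vx w1 ∈ Lev G Ω' (2 * r + 5) := lev_mono G Ω' (by omega) k2.1
    obtain ⟨rfl, rfl⟩ := same_obj l H hx' hy' le_rfl a1 a2
    have := rigid_adj G hRx.1 (by omega) (by omega) k1 k2 h3
    omega

end Pool.Agent.H38H.IN
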