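import Pool.Agent.Lib.H38H.BR.B8
import Pool.Agent.Lib.H38H.BR.B10

set_option autoImplicit false

namespace Pool.Agent.H38H.IN

open Classical

/-! Chunk INT1 (S/M): matchings respecting a coloring. card_pres: `br8_equiv` (BR/B8.lean) with `P x = (x ∈ S)` and card_PM' (PR7).
pm_choose: if `a` or `b` is odd the left side is 0 (`pm` of an odd number is 0; if exactly one is odd also fine). Otherwise `a = 2a'`, `b = 2b'`;
b10_key a' b' and `choose (a'+b') a' ^ 2 ≤ choose (2(a'+b')) (2a')` (b10_vander a'+b', a'+b', a', a'); cancel one factor `choose (a'+b') a' > 0`.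
choose_half: `choose n i ≤ choose (n + f) (i + d)` for `d ≤ f` (b10_vander and `choose f d ≥ 1`). -/

theorem card_pres {α : Type} [Fintype α] (S : Finset α) :
    Nat.card {R : PM α // ∀ x, x ∈ S → R.1 x ∈ S} = pm S.card * pm (Fintype.card α - S.card) := by
  rw [Nat.card_congr (br8_equiv (fun x : α => x ∈ S)), Nat.card_prod, card_PM', card_PM',
    Nat.card_eq_fintype_card (α := {x : α // x ∈ S}), Fintype.card_coe,
    Nat.card_eq_fintype_card (α := {x : α // ¬ x ∈ S}), Fintype.card_subtype_compl,
    Fintype.card_coe]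

theorem pm_choose (a b : ℕ) : pm a * pm b * ((a + b) / 2).choose (a / 2) ≤ pm (a + b) := by
  by_cases ha : Even a
  · by_cases hb : Even b
    · obtain ⟨a', rfl⟩ := ha.exists_two_nsmul
      obtain ⟨b', rfl⟩ := hb.exists_two_nsmul
      simp only [smul_eq_mul]
      have h1 := b10_key a' b'
      have h2 := b10_vander (a' + b') (a' + b') a' a'
      rw [← two_mul, ← two_mul] at h2
      have e1 : (2 * a' + 2 * b') / 2 = a' + b' := by omega
      have e2 : 2 * a' / 2 = a' := by omega
      have e3 : 2 * a' + 2 * b' = 2 * (a' + b') := by ring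
      rw [e1, e2, e3]
      have hC : 0 < (a' + b').choose a' := Nat.choose_pos (Nat.le_add_right _ _)
      refine Nat.le_of_mul_le_mul_right ?_ hC
      calc pm (2 * a') * pm (2 * b') * (a' + b').choose a' * (a' + b').choose a'
          = ((a' + b').choose a' * (a' + b').choose a') * (pm (2 * a') * pm (2 * b')) := by ring
        _ ≤ (2 * (a' + b')).choose (2 * a') * (pm (2 * a') * pm (2 * b')) :=
            Nat.mul_le_mul_right _ h2
        _ = pm (2 * (a' + b')) * (a' + b').choose a' := h1
    · have : pm b = 0 := by unfold pm; rw [if_neg hb]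
      rw [this]; simp
  · have : pm a = 0 := by unfold pm; rw [if_neg ha]
    rw [this]; simp

theorem choose_half (n i f d : ℕ) (h : d ≤ f) : n.choose i ≤ (n + f).choose (i + d) := by
  have h1 := b10_vander n f i d
  have h2 : 1 ≤ f.choose d := Nat.choose_pos h
  calc n.choose i = n.choose i * 1 := (mul_one _).symm
    _ ≤ n.choose i * f.choose d := Nat.mul_le_mul_left _ h2
    _ ≤ _ := h1

end Pool.Agent.H38H.IN
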