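import Pool.Agent.Lib.H38H.IN.T1

set_option autoImplicit false

namespace Pool.Agent.H38H.IN

open Classical

variable {ι D : Type} [Fintype ι] [Fintype D]

/-- the set of points of the colour given by `X` and `Y` -/
noncomputable def colS (X : Finset ι) (Y : Finset D) : Finset ((ι × Bool) ⊕ D) :=
  Finset.univ.filter (fun z => Sum.elim (fun x => x.1 ∈ X) (fun d => d ∈ Y) z)

/-! Chunk INT2 (M): sum over colorings. Let `n = |ι|`, `f = |D|`, `M = 2n + f = |α|`. `|colS X Y| = 2 |X| + |Y|`. If `M` is odd then `PM` is empty and both sides are 0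
(`pm M = 0` and by card_pres the summands are at most the number of all matchings, 0). Let `M` be even, so `f` is even, `f = 2f'`. The summand for `X, Y` is
`pm (2|X| + |Y|) * pm (M - 2|X| - |Y|)` (card_pres), 0 if `|Y|` is odd; if `|Y| = 2d` then by pm_choose (with `(a+b)/2 = n + f'`, `a/2 = |X| + d`) the
summand times `choose (n + f') (|X| + d)` is at most `pm M = Nat.card (PM α)` (card_PM'), so with choose_half the summand times `choose n |X|` is at most `pm M`.
For fixed `Y` the sum over `X` is `∑ i, choose n i * summand(i) ≤ (n + 1) * pm M` (Finset.sum_powerset_apply_card); there are `2^f` sets `Y`. -/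

theorem t2_card (X : Finset ι) (Y : Finset D) : (colS X Y).card = 2 * X.card + Y.card := by
  have h1 : colS X Y = (X ×ˢ (Finset.univ : Finset Bool)).disjSum Y := by
    ext z
    rcases z with z | z
    · simp [colS]
    · simp [colS]
  rw [h1, Finset.card_disjSum, Finset.card_product, Finset.card_univ, Fintype.card_bool, mul_comm]

theorem sum_col :
    ∑ X : Finset ι, ∑ Y : Finset D,
      Nat.card {R : PM ((ι × Bool) ⊕ D) // ∀ z, z ∈ colS X Y → R.1 z ∈ colS X Y} ≤
    (Fintype.card ι + 1) * 2 ^ Fintype.card D * Nat.card (PM ((ι × Bool) ⊕ D)) := by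
  set n := Fintype.card ι with hn
  set f := Fintype.card D with hf
  have hM : Fintype.card ((ι × Bool) ⊕ D) = 2 * n + f := by
    rw [Fintype.card_sum, Fintype.card_prod, Fintype.card_bool, mul_comm]
  have hPM : Nat.card (PM ((ι × Bool) ⊕ D)) = pm (2 * n + f) := by
    rw [card_PM', Nat.card_eq_fintype_card, hM]
  simp only [card_pres, t2_card, hM]
  rw [hPM, Finset.sum_comm]
  have hY : ∀ Y : Finset D, ∑ X : Finset ι, pm (2 * X.card + Y.card) *
      pm (2 * n + f - (2 * X.card + Y.card)) ≤ (n + 1) * pm (2 * n + f) := by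
    intro Y
    have hYf : Y.card ≤ f := Finset.card_le_univ Y
    have h1 := Finset.sum_powerset_apply_card (fun i => pm (2 * i + Y.card) *
      pm (2 * n + f - (2 * i + Y.card))) (x := (Finset.univ : Finset ι))
    rw [Finset.powerset_univ, Finset.card_univ] at h1
    rw [h1]
    have h2 : ∀ i ∈ Finset.range (n + 1), n.choose i • (pm (2 * i + Y.card) *
        pm (2 * n + f - (2 * i + Y.card))) ≤ pm (2 * n + f) := by
      intro i hi
      have hi' : i ≤ n := Nat.lt_succ_iff.1 (Finset.mem_range.1 hi)
      have h3 := pm_choose (2 * i + Y.card) (2 * n + f - (2 * i + Y.card))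
      rw [show 2 * i + Y.card + (2 * n + f - (2 * i + Y.card)) = 2 * n + f by omega,
        show (2 * n + f) / 2 = n + f / 2 by omega,
        show (2 * i + Y.card) / 2 = i + Y.card / 2 by omega] at h3
      have h4 := choose_half n i (f / 2) (Y.card / 2) (Nat.div_le_div_right hYf)
      rw [smul_eq_mul, mul_comm]
      exact (Nat.mul_le_mul_left _ h4).trans h3
    refine (Finset.sum_le_card_nsmul _ _ _ h2).trans ?_
    rw [Finset.card_range, smul_eq_mul]
  refine (Finset.sum_le_card_nsmul _ _ _ fun Y _ => hY Y).trans ?_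
  rw [Finset.card_univ, Fintype.card_finset, smul_eq_mul]
  exact le_of_eq (by ring)

end Pool.Agent.H38H.IN
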