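import Pool.Agent.Lib.H38H.IN.T2

set_option autoImplicit false

namespace Pool.Agent.H38H.IN

open Classical

variable {ι D : Type} [Fintype ι] [Fintype D]

/-- adjacency of positions: mid edge or matched by `R` -/
def FAc (R : PM ((ι × Bool) ⊕ D)) (x y : ι × Bool) : Prop := y = flip x ∨ R.1 (Sum.inl x) = Sum.inl y

/-- at most `L` components -/
def FewC (R : PM ((ι × Bool) ⊕ D)) (L : ℕ) : Prop :=
  ∃ T : Finset (ι × Bool), T.card ≤ L ∧ ∀ x, ∃ t ∈ T, Relation.ReflTransGen (FAc R) t x

/-! Chunk INT3 (M): many components give many invariant colorings. `FAc R` is symmetric, let `Q` be the quotient of the positions by its reflexive transitive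
closure. If `|Q| ≤ L` then representatives of the classes form a set `T` (Finset.image of Quotient.out), so `FewC R L`. Hence `|Q| ≥ L + 1`. For a set `U` of
classes let `X = {i | [(i,false)] ∈ U}` and `Y = {d | ∃ x, R (inr d) = inl x ∧ [x] ∈ U}`. `[(i,true)] = [(i,false)]`. `R` maps `colS X Y` to itself: let
`z = inl x`, `[x] ∈ U`: if `R z = inl y` then `[y] = [x]`; if `R z = inr d` then `R (inr d) = inl x`, `d ∈ Y`. `z = inr d`, `R z = inl x`, `[x] ∈ U` gives
`x.1 ∈ X`. Different `U` give different `X`. So at least `2^|Q|` pairs.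
few_count: double counting of the pairs (R, (X,Y)) with sum_col. -/

theorem int3_flip (x : ι × Bool) : flip (flip x) = x := by
  rcases x with ⟨i, b⟩
  simp [flip]

theorem int3_symm {R : PM ((ι × Bool) ⊕ D)} {x y : ι × Bool} (h : FAc R x y) : FAc R y x := by
  rcases h with h | h
  · left
    rw [h, int3_flip]
  · right
    rw [← h]
    exact R.2.1 _

theorem int3_inl (X : Finset ι) (Y : Finset D) (x : ι × Bool) :
    (Sum.inl x : (ι × Bool) ⊕ D) ∈ colS X Y ↔ x.1 ∈ X := by
  simp [colS]

theorem int3_inr (X : Finset ι) (Y : Finset D) (d : D) :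
    (Sum.inr d : (ι × Bool) ⊕ D) ∈ colS X Y ↔ d ∈ Y := by
  simp [colS]

theorem many_col (R : PM ((ι × Bool) ⊕ D)) (L : ℕ) (h : ¬ FewC R L) :
    2 ^ (L + 1) ≤ Nat.card {p : Finset ι × Finset D // ∀ z, z ∈ colS p.1 p.2 → R.1 z ∈ colS p.1 p.2} := by
  have hsymm : ∀ x y, Relation.ReflTransGen (FAc R) x y → Relation.ReflTransGen (FAc R) y x := by
    intro x y hxy
    induction hxy with
    | refl => exact Relation.ReflTransGen.refl
    | tail _ hbc ih => exact (Relation.ReflTransGen.single (int3_symm hbc)).trans ih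
  let s : Setoid (ι × Bool) := ⟨Relation.ReflTransGen (FAc R),
    ⟨fun x => Relation.ReflTransGen.refl, fun {x y} h => hsymm x y h, fun h1 h2 => h1.trans h2⟩⟩
  have hfQ : Finite (Quotient s) := inferInstance
  have hFQ : Fintype (Quotient s) := Fintype.ofFinite _
  have hQ : L + 1 ≤ Fintype.card (Quotient s) := by
    by_contra hc
    apply h
    refine ⟨Finset.univ.image (Quotient.out : Quotient s → ι × Bool), ?_,
      fun x => ⟨Quotient.out (Quotient.mk s x), Finset.mem_image_of_mem _ (Finset.mem_univ _), ?_⟩⟩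
    · refine Finset.card_image_le.trans ?_
      rw [Finset.card_univ]
      omega
    · exact Quotient.mk_out (s := s) x
  have hmk : ∀ x y, Relation.ReflTransGen (FAc R) x y → Quotient.mk s x = Quotient.mk s y :=
    fun x y h => Quotient.sound h
  have hmf : ∀ x : ι × Bool, Quotient.mk s (x.1, false) = Quotient.mk s x := by
    intro x
    rcases x with ⟨i, b⟩
    cases b with
    | false => rfl
    | true =>
      apply hmk
      exact Relation.ReflTransGen.single (Or.inl (by simp [flip]))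
  let X : Finset (Quotient s) → Finset ι :=
    fun U => Finset.univ.filter (fun i => Quotient.mk s (i, false) ∈ U)
  let Y : Finset (Quotient s) → Finset D :=
    fun U => Finset.univ.filter (fun d => ∃ x, R.1 (Sum.inr d) = Sum.inl x ∧ Quotient.mk s x ∈ U)
  have hX : ∀ U (x : ι × Bool), x.1 ∈ X U ↔ Quotient.mk s x ∈ U := by
    intro U x
    simp only [X, Finset.mem_filter, Finset.mem_univ, true_and]
    rw [hmf]
  have hY : ∀ U d, d ∈ Y U ↔ ∃ x, R.1 (Sum.inr d) = Sum.inl x ∧ Quotient.mk s x ∈ U := by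
    intro U d
    simp only [Y, Finset.mem_filter, Finset.mem_univ, true_and]
  have hinv : ∀ U, ∀ z, z ∈ colS (X U) (Y U) → R.1 z ∈ colS (X U) (Y U) := by
    intro U z hz
    rcases z with x | d
    · rw [int3_inl, hX] at hz
      rcases hR : R.1 (Sum.inl x) with y | d
      · rw [int3_inl, hX, ← hmk x y (Relation.ReflTransGen.single (Or.inr hR))]
        exact hz
      · rw [int3_inr, hY]
        refine ⟨x, ?_, hz⟩
        rw [← hR]
        exact R.2.1 _
    · rw [int3_inr, hY] at hz
      obtain ⟨x, hx, hxU⟩ := hz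
      rw [hx, int3_inl, hX]
      exact hxU
  have hinj : Function.Injective (fun U : Finset (Quotient s) =>
      (⟨(X U, Y U), hinv U⟩ : {p : Finset ι × Finset D // ∀ z, z ∈ colS p.1 p.2 → R.1 z ∈ colS p.1 p.2})) := by
    intro U V hUV
    have h1 : X U = X V := congrArg (fun p => p.1.1) hUV
    ext q
    obtain ⟨x, rfl⟩ := Quotient.exists_rep q
    rw [← hX U, ← hX V, h1]
  calc 2 ^ (L + 1) ≤ 2 ^ Fintype.card (Quotient s) := Nat.pow_le_pow_right (by norm_num) hQ
    _ = Nat.card (Finset (Quotient s)) := by rw [Nat.card_eq_fintype_card, Fintype.card_finset]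
    _ ≤ _ := Nat.card_le_card_of_injective _ hinj

theorem few_count (L : ℕ) :
    2 ^ (L + 1) * Nat.card {R : PM ((ι × Bool) ⊕ D) // ¬ FewC R L} ≤
      (Fintype.card ι + 1) * 2 ^ Fintype.card D * Nat.card (PM ((ι × Bool) ⊕ D)) := by
  have hfin : Finite (PM ((ι × Bool) ⊕ D)) := by
    unfold PM
    infer_instance
  have hF : Fintype (PM ((ι × Bool) ⊕ D)) := Fintype.ofFinite _
  refine le_trans ?_ (sum_col (ι := ι) (D := D))
  have e1 : Nat.card {R : PM ((ι × Bool) ⊕ D) // ¬ FewC R L} =
      (Finset.univ.filter (fun R : PM ((ι × Bool) ⊕ D) => ¬ FewC R L)).card := by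
    rw [Nat.card_eq_fintype_card, Fintype.card_subtype]
  have e2 : ∀ (X : Finset ι) (Y : Finset D),
      Nat.card {R : PM ((ι × Bool) ⊕ D) // ∀ z, z ∈ colS X Y → R.1 z ∈ colS X Y} =
      ∑ R : PM ((ι × Bool) ⊕ D), if (∀ z, z ∈ colS X Y → R.1 z ∈ colS X Y) then 1 else 0 := by
    intro X Y
    rw [Nat.card_eq_fintype_card, Fintype.card_subtype, Finset.card_filter]
  have e3 : ∀ R : PM ((ι × Bool) ⊕ D),
      Nat.card {p : Finset ι × Finset D // ∀ z, z ∈ colS p.1 p.2 → R.1 z ∈ colS p.1 p.2} =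
      ∑ p : Finset ι × Finset D, if (∀ z, z ∈ colS p.1 p.2 → R.1 z ∈ colS p.1 p.2) then 1 else 0 := by
    intro R
    rw [Nat.card_eq_fintype_card, Fintype.card_subtype, Finset.card_filter]
  calc 2 ^ (L + 1) * Nat.card {R : PM ((ι × Bool) ⊕ D) // ¬ FewC R L}
      = ∑ R ∈ Finset.univ.filter (fun R : PM ((ι × Bool) ⊕ D) => ¬ FewC R L), 2 ^ (L + 1) := by
        rw [e1, Finset.sum_const, smul_eq_mul, mul_comm]
    _ ≤ ∑ R ∈ Finset.univ.filter (fun R : PM ((ι × Bool) ⊕ D) => ¬ FewC R L),
          ∑ p : Finset ι × Finset D, (if (∀ z, z ∈ colS p.1 p.2 → R.1 z ∈ colS p.1 p.2) then 1 else 0) := by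
        apply Finset.sum_le_sum
        intro R hR
        rw [← e3 R]
        exact many_col R L (Finset.mem_filter.1 hR).2
    _ ≤ ∑ R : PM ((ι × Bool) ⊕ D),
          ∑ p : Finset ι × Finset D, (if (∀ z, z ∈ colS p.1 p.2 → R.1 z ∈ colS p.1 p.2) then 1 else 0) :=
        Finset.sum_le_sum_of_subset (Finset.filter_subset _ _)
    _ = ∑ X : Finset ι, ∑ Y : Finset D,
          Nat.card {R : PM ((ι × Bool) ⊕ D) // ∀ z, z ∈ colS X Y → R.1 z ∈ colS X Y} := by
        rw [Finset.sum_comm, Fintype.sum_prod_type]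
        apply Finset.sum_congr rfl
        intro X _
        apply Finset.sum_congr rfl
        intro Y _
        rw [e2]

end Pool.Agent.H38H.IN
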